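import Mathlib
import Pool.Agent.Helper42.NT.Def

open scoped ContDiff Topology
open Set Function TopologicalSpace

namespace Pool.Agent.H42.Hull

open Pool.Agent.Helper17 Pool.Agent.Helper42

/-- The class `c` is a `k`-fold suspension, i.e. obtained from a class of
`π_{j+2k}(Symp_ct(ℝ^{2m}))` by `k` suspensions. -/
def IsKSusp (m : ℕ) : (k j : ℕ) → PiG j (m + k) → Prop
  | 0, _, _ => True
  | k + 1, j, c => ∃ (g : LoopG (j + 2) (m + k)) (φ : LoopG j (m + k + 1)),
      IsSuspension g φ ∧ φ.cls = c ∧ IsKSusp m k (j + 2) g.cls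

/-- The first `k` pairs of coordinates of a point of `ℝ^{2(m+k)}`. -/
noncomputable def fstPt (m k : ℕ) (p : Phase (m + k)) : Phase k :=
  WithLp.toLp 2 (fun i => p (Sum.map (Fin.castLE (Nat.le_add_left k m))
    (Fin.castLE (Nat.le_add_left k m)) i))

/-- The point of `ℝ^{2(m+k)}` whose first `k` pairs of coordinates are those of `u`, and whose other
coordinates are zero. -/
noncomputable def incPt (m k : ℕ) (u : Phase k) : Phase (m + k) :=
  WithLp.toLp 2 (Sum.elim (fun i => if h : (i : ℕ) < k then u (Sum.inl ⟨i, h⟩) else 0)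
    (fun i => if h : (i : ℕ) < k then u (Sum.inr ⟨i, h⟩) else 0))

/-- Multiplication by `√-1` on `ℝ^{2k} = ℂ^k`, `(x, y) ↦ (-y, x)`. -/
noncomputable def rotJ {k : ℕ} (u : Phase k) : Phase k :=
  WithLp.toLp 2 (Sum.elim (fun i => -u (Sum.inr i)) (fun i => u (Sum.inl i)))

/-- The linear symplectic maps of `ℝ^{2n}`. -/
structure LinSymp (n : ℕ) where
  /-- the linear map -/
  lin : Phase n →L[ℝ] Phase n
  /-- it preserves the symplectic form -/
  symp : ∀ u v : Phase n, omegaStd (lin u) (lin v) = omegaStd u v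

/-- The image of the vector `v` under `S`. -/
noncomputable def LinSymp.app {n : ℕ} (S : LinSymp n) (v : Phase n) : Phase n := S.lin v

/-- The derivative of `φ` at the point `p`, applied to the vector `v`. -/
noncomputable def dAt {n : ℕ} (φ : Phase n → Phase n) (p v : Phase n) : Phase n := fderiv ℝ φ p v

/-- The `2k × 2k` block, belonging to the first `k` pairs of coordinates, of the matrix
`S' (Dφ) S`, where `Dφ` is the derivative of `φ` at the point `p`. -/
noncomputable def block (m k : ℕ) (S S' : LinSymp (m + k))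
    (φ : Phase (m + k) → Phase (m + k)) (p : Phase (m + k)) (u : Phase k) : Phase k :=
  fstPt m k (S'.app (dAt φ p (S.app (incPt m k u))))

/-- The complex number `⟨A u, u⟩`, where `A` is the complex linear part of the real linear map `M`
of `ℝ^{2k} = ℂ^k`. -/
noncomputable def hermVal {k : ℕ} (M : Phase k → Phase k) (u : Phase k) : ℂ :=
  ⟨(inner ℝ u (M u) + inner ℝ (rotJ u) (M (rotJ u))) / 2,
    (inner ℝ (rotJ u) (M u) - inner ℝ u (M (rotJ u))) / 2⟩

/-- The closed convex hull of all numbers `⟨A u, u⟩`, where `u` is a unit vector of `ℂ^k` and `A` the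
complex linear part of the `2k × 2k` block of `S' (Dφ_t) S` at some point, for some `t`, does not
contain the closed unit disc. -/
def HullCond (m k j : ℕ) (S S' : LinSymp (m + k)) (φ : LoopG j (m + k)) : Prop :=
  ¬ Metric.closedBall (0 : ℂ) 1 ⊆ closure (convexHull ℝ
    {z : ℂ | ∃ (t : Fin j → unitInterval) (p : Phase (m + k)) (u : Phase k), ‖u‖ = 1 ∧
      z = hermVal (block m k S S' (φ.at t) p) u})

end Pool.Agent.H42.Hull
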