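import Mathlib
import Pool.Agent.Helper42.NT.Les
import Pool.Agent.H42.Hull.Def
import Pool.Agent.Helper42.Susp.CFInverse
import Pool.Agent.H50.Susp.ScatMore

set_option maxSynthPendingDepth 3

open scoped ContDiff Topology unitInterval
open Set Function TopologicalSpace Filter

namespace Pool.Agent.H42.Hull

open Pool.Agent.Helper17 Pool.Agent.H50.Susp Pool.Agent.Helper42

/-- The projection of `ℝ^{2(m+k)}` to the first `k` pairs of coordinates. -/
noncomputable def prK (m : ℕ) : (k : ℕ) → Phase (m + k) →L[ℝ] Phase k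
  | 0 => 0
  | k + 1 => (mkPL k).comp ((coordL (Sum.inl 0)).prod ((coordL (Sum.inr 0)).prod
      ((prK m k).comp (Pool.Agent.H50.Susp.wL (m + k)))))

/-- The map `F : ℝ^{2N} → ℝ^{2k} = ℂ^k` is `J`-positive: for every complex linear function
`l ≠ 0` on `ℂ^k` the Poisson bracket of the real and the imaginary part of `l ∘ F` is positive.
Here `⟨u, F⟩` and `⟨J u, F⟩` are these parts. -/
def JPos {N k : ℕ} (F : Phase N → Phase k) : Prop :=
  ∀ p (u : Phase k), u ≠ 0 →
    0 < fderiv ℝ (fun q => inner ℝ (Jl k u) (F q)) p (hamV (fun q => inner ℝ u (F q)) p)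

/-- Smooth families of `J`-positive maps, equal to the projection outside a ball. -/
structure JFam (m k : ℕ) {T : Type} [TopologicalSpace T] (R : ℝ)
    (F : T → Phase (m + k) → Phase k) : Prop where
  cf : CF F
  std : ∀ t p, R < ‖p‖ → F t p = prK m k p
  pos : ∀ t, JPos (F t)

/-- D1: slices of `J`-positive maps are `J`-positive.
PROOF (Dirac bracket).  At `w` put `P = mkP A (Y w) w`, `h_i` the components `⟨u, H⟩`, `⟨J u, H⟩` and
`h_i°(w) = h_i (mkP A (Y w) w)`.  With `c = ∂_y g (P) > 0` (J-positivity for the vector `e_x`, since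
`{x, g} = ∂_y g`) choose `l_i = ∂_y h_i / c`, `m_i = -{h_i, g} / c`; then `k_i = h_i - l_i g + m_i x`
satisfies `{k_i, x} = 0 = {k_i, g}`, `∂_y k_i = 0`, `∂_w k_i = D h_i°`, so
`{h_1°, h_2°} = {k_1, k_2} = {k_1, h_(J u')} > 0` for `u' = (m_1, -l_1, u)`, as
`k_1 = h_(u')` and `k_2 - h_(J u')` is a combination of `x` and `g`. -/
def St_slice : Prop :=
  ∀ (N k : ℕ) (g : Phase (N + 1) → ℝ) (H : Phase (N + 1) → Phase k), ContDiff ℝ ∞ g →
    ContDiff ℝ ∞ H → JPos (fun q => mkP (q (Sum.inl 0)) (g q) (H q)) →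
    ∀ (A B : ℝ) (Y : Phase N → ℝ), ContDiff ℝ ∞ Y → (∀ w, g (mkP A (Y w) w) = B) →
      JPos (fun w => H (mkP A (Y w) w))

/-- D2: implicit functions of one real variable in smooth families.
PROOF.  Uniqueness and joint continuity of `Y` by monotonicity in the real variable (between
`Y t x - e` and `Y t x + e` the sign of `G` changes, and this is an open condition in `(t, x)`);
`Y t` has the derivative `- (∂_y G)⁻¹ ∂_x G` at `(Y t x, x)` (implicit function theorem, or
`HasFDerivAt.of_local_left_inverse` for the inverse of `(y, x) ↦ (G t (y, x), x)`); then induction on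
`k` with `CFk.comp`, `CFk.comp_smooth` as in `Helper42.CF_inverse` (Helper42/Susp/CFInverse.lean). -/
def St_implicit : Prop :=
  ∀ (T E : Type) [TopologicalSpace T] [NormedAddCommGroup E] [NormedSpace ℝ E]
    [FiniteDimensional ℝ E] (G : T → ℝ × E → ℝ), CF G →
    (∀ t q, 0 < fderiv ℝ (G t) q (1, 0)) → ∀ Y : T → E → ℝ, (∀ t x, G t (Y t x, x) = 0) → CF Y

/-- D3: the family of slices. -/
def St_slices : Prop :=
  ∀ (m k : ℕ) (T : Type) [TopologicalSpace T] [CompactSpace T] (R : ℝ), 0 ≤ R →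
    ∀ F : T → Phase (m + (k + 1)) → Phase (k + 1), JFam m (k + 1) R F →
    ∃ (e : C(T × I, SympCt (m + k))) (R' : ℝ) (Z : (T × I) × I → Phase (m + k) → Phase k),
      IsScat (n := m + k) (fun t p => (F t p) (Sum.inl 0)) e ∧ 0 ≤ R' ∧ JFam m k R' Z ∧
      (∀ q w, Z (q, 0) w = prK m k w) ∧
      (∀ q w, Z (q, 1) w = prK m k ((e q : Equiv.Perm (Phase (m + k))) w)) ∧
      (∀ t a, (a = 0 ∨ a = 1) → e (t, a) = 1 ∧ ∀ b w, Z ((t, a), b) w = prK m k w) ∧
      (∀ t (φ : SympCt (m + (k + 1))), (∀ p, F t p = prK m (k + 1) ((φ : Equiv.Perm _) p)) →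
        ∀ a, e (t, a) = 1 ∧ ∀ b w, Z ((t, a), b) w = prK m k w)

/-- D4: a family whose first coordinate function is joined to the standard one by pairs with
scattering `e` is homotopic to a positive family with reduction `e`.
PROOF.  `e = 1` for `t ∈ T0`, `s = 0`, `s = 1`, and at the ends of the last interval
(`IsScat.eq_one`, `eq_one'`, `isScat_symp`).  `Helper42.exists_realise` applied to `e.comp (swp T)`
gives a positive family `g` with a reduction `h` homotopic to it.  Its path of pairs `segF g`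
(from `x` to `x ∘ g`) has scattering `e₁` with `e₁.comp (swp T)` homotopic to `h`
(`scat_of_pos`, see `exists_loop`).  It remains to see `f ~ g` rel `T0`: the family `f g⁻¹` has the
path of first coordinates `x → x ∘ g⁻¹` (the reversed path `segF g` composed with `g⁻¹`) followed by
`F ∘ g⁻¹` from `x ∘ g⁻¹` to `x ∘ f ∘ g⁻¹`; as one formula
`P (t, s) p = segF g (t, 1 - hf1 s) (g⁻¹ p) + F (t, hf2 s) (g⁻¹ p) - (g⁻¹ p)_x`.  Scatterings do not
change under the composition with a family of symplectomorphisms (`exists_isScat_act`), so the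
scattering of `P` is the concatenation of the reversed `e₁` and of `e`, which is null-homotopic
because `e₁ ~ e`; `nullhomotopic_of_scat` gives `f g⁻¹ ~ 1` rel `T0`. -/
def St_key : Prop :=
  ∀ (n : ℕ) (T : Type) [TopologicalSpace T] [CompactSpace T] (T0 : Set T)
    (f : C(T, SympCt (n + 1))), (∀ t ∈ T0, f t = 1) →
    ∀ (R : ℝ), 0 ≤ R → ∀ F G : T × I → Phase (n + 1) → ℝ, PosPair 0 R F G →
    (∀ t p, F (t, 0) p = p (Sum.inl 0)) →
    (∀ t p, F (t, 1) p = ((f t : Equiv.Perm (Phase (n + 1))) p) (Sum.inl 0)) →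
    (∀ t ∈ T0, ∀ s p, F (t, s) p = p (Sum.inl 0)) →
    ∀ e : C((T × I) × I, SympCt n), IsScat F e →
    ∃ (g : C(T, SympCt (n + 1))) (r : ℝ) (h : C(T × (I × I), SympCt n)),
      (∀ t ∈ T0, g t = 1) ∧
      (∀ t p, 0 < fderiv ℝ (fun q => ((g t : Equiv.Perm (Phase (n + 1))) q) (Sum.inl 0)) p
        (eX 0)) ∧
      IsRed r (fun t => g t) h ∧
      (e.comp (swp T)).HomotopicRel h {q | q.1 ∈ T0 ∨ q.2 ∈ sqBd} ∧ f.HomotopicRel g T0

/-- D5: the inductive theorem. -/
def St_fibration : Prop :=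
  ∀ (m k j : ℕ) (φ : LoopG j (m + k)) (R : ℝ)
    (F : (Fin j → I) × I → Phase (m + k) → Phase k), 0 ≤ R → JFam m k R F →
    (∀ t p, F (t, 0) p = prK m k p) → (∀ t p, F (t, 1) p = prK m k (φ.at t p)) →
    (∀ t ∈ Cube.boundary (Fin j), ∀ s p, F (t, s) p = prK m k p) → IsKSusp m k j φ.cls

/-- The inclusion of the first `k` pairs of coordinates. -/
noncomputable def incK (m k : ℕ) : Phase k →L[ℝ] Phase (m + k) :=
  ContinuousLinearMap.adjoint (prK m k)

/-- The value `⟨A u, u⟩ ∈ ℂ`, where `A` is the complex linear part of the upper left `2k × 2k` block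
of the real matrix `M` (the block of the first `k` pairs of coordinates). -/
noncomputable def numVal (m k : ℕ) (M : Phase (m + k) →L[ℝ] Phase (m + k)) (u : Phase k) : ℂ :=
  ⟨(inner ℝ u (prK m k (M (incK m k u))) +
      inner ℝ (Jl k u) (prK m k (M (incK m k (Jl k u))))) / 2,
    (inner ℝ (Jl k u) (prK m k (M (incK m k u))) -
      inner ℝ u (prK m k (M (incK m k (Jl k u))))) / 2⟩

/-- A path of `J`-positive maps from the projection to the projection composed with `f`. -/
def HasPath (m k : ℕ) {T : Type} [TopologicalSpace T] (f : T → SympCt (m + k)) : Prop :=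
  ∃ (R : ℝ) (F : T × I → Phase (m + k) → Phase k), 0 ≤ R ∧ JFam m k R F ∧
    (∀ t p, F (t, 0) p = prK m k p) ∧
    (∀ t p, F (t, 1) p = prK m k ((f t : Equiv.Perm (Phase (m + k))) p)) ∧
    (∀ t, f t = 1 → ∀ s p, F (t, s) p = prK m k p)

/-- D6a: the hull condition gives a path.
PROOF.  `k = 0`: trivial (`F = 0`).  Let `k > 0`; if `T` is empty everything is trivial, otherwise `1`
is a value (take `p` outside the support, `D f = 1`).  (1) Separation
(`geometric_hahn_banach_point_closed`) of a point of the disc from the closed convex hull gives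
`w = α + i β`, `|w| = 1`, with `Re (w z) > -1` for all values `z`; so `α > -1`, and by homogeneity
`|u|² + α a(u) - β b(u) > 0` for `u ≠ 0`, `numVal .. u = a(u) + i b(u)`.  (2) Put
`h = β / (2 (1 + α))`, `y = 1 - 2 s`, `c = c₁ + c₂ J` with
`c₁ = 1/2 - y √(1/4 + (1 - y²) h²)`, `c₂ = (1 - y²) h` and
`F (t, s) p = π p + c (π (f t p) - π p)`, `π = prK m k`.  By `St_bracket` (with
`⟨u, F⟩ = ⟨(1 - c̄) u, π⟩ + ⟨c̄ u, π ∘ f⟩`) the bracket in `JPos` is
`(1 - 2 τ₁) |u|² + 2 τ₁ a(u) - 2 τ₂ b(u)`, `τ₁ = c₁ - c₁² - c₂²`, `τ₂ = c₂`; here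
`τ₁ = (1 - y²) α / (2 (1 + α))`, `τ₂ = (1 - y²) β / (2 (1 + α))`, so it equals
`y² |u|² + (1 - y²) (|u|² + α a(u) - β b(u)) / (1 + α) > 0`. -/
def St_hull : Prop :=
  ∀ (m k : ℕ) (T : Type) [TopologicalSpace T] [CompactSpace T] (f : C(T, SympCt (m + k))),
    ¬ Metric.closedBall (0 : ℂ) 1 ⊆ closure (convexHull ℝ
      {z : ℂ | ∃ (t : T) (p : Phase (m + k)) (u : Phase k), ‖u‖ = 1 ∧
        z = numVal m k (fderiv ℝ (f t : Equiv.Perm (Phase (m + k))) p) u}) →
    HasPath m k (fun t => f t)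

/-- D6b: the condition on one `2 × 2` block gives a path.
PROOF.  Let `B` be the matrix `(a, b; c, d)`, `δ = √(det B)`.  If `T` is empty trivial; otherwise a point
outside the support gives `tr B + 2 δ > 0`; divide `B` by it: `tr B + 2 δ = 1`.  Then `C* = B + δ`
has trace `1`, determinant `δ`, `C*² = B`.  With `y = 1 - 2 s`, `E = C* - 1/2` (trace zero,
`det E = δ - 1/4`), `C(s) = 1/2 - y √(1/4 + (1 - y²) det E) + (1 - y²) E` and
`F (t, s) p = π p + C(s) (π (f t p) - π p)` the bracket of the two components of `F` is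
`1 + tr ((C - det C) (M - 1))`, `M` the block, and `C - det C = (1 - y²) B`, so it is
`y² + (1 - y²) (tr (B M) + 2 δ) > 0`.  For `k = 1` `JPos` is positivity of this bracket times
`|u|²`. -/
def St_star : Prop :=
  ∀ (m : ℕ) (T : Type) [TopologicalSpace T] [CompactSpace T] (f : C(T, SympCt (m + 1)))
    (a b c d : ℝ), 0 ≤ a * d - b * c →
    (∀ t p, 0 < a * (fderiv ℝ (f t : Equiv.Perm (Phase (m + 1))) p (eX 0)) (Sum.inl 0) +
      b * (fderiv ℝ (f t : Equiv.Perm (Phase (m + 1))) p (eX 0)) (Sum.inr 0) +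
      c * (fderiv ℝ (f t : Equiv.Perm (Phase (m + 1))) p (eY 0)) (Sum.inl 0) +
      d * (fderiv ℝ (f t : Equiv.Perm (Phase (m + 1))) p (eY 0)) (Sum.inr 0) +
      2 * Real.sqrt (a * d - b * c)) →
    HasPath m 1 (fun t => f t)

/-- Brackets of linear combinations of the coordinates of `f` and of the identity. -/
def St_bracket : Prop :=
  ∀ (m k : ℕ) (f : SympCt (m + k)) (p : Phase (m + k)) (a b a' b' : Phase k),
    fderiv ℝ (fun q => inner ℝ a' (prK m k q) +
        inner ℝ b' (prK m k ((f : Equiv.Perm (Phase (m + k))) q))) p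
      (hamV (fun q => inner ℝ a (prK m k q) +
        inner ℝ b (prK m k ((f : Equiv.Perm (Phase (m + k))) q))) p) =
    inner ℝ a' (Jl k a) + inner ℝ b' (Jl k b) +
      inner ℝ b' (prK m k (fderiv ℝ (f : Equiv.Perm (Phase (m + k))) p
        (incK m k (Jl k a)))) -
      inner ℝ b (prK m k (fderiv ℝ (f : Equiv.Perm (Phase (m + k))) p
        (incK m k (Jl k a'))))

/-- D9: the linear symplectic group is path connected.
PROOF.  Call `S` good if it is joined to the identity by a continuous path of symplectic maps; good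
maps are closed under composition, and `S` is good if `S' ∘ S` is good for a good `S'` (inverses:
`S⁻¹` of a symplectic map is symplectic, compose the path with the inverse of its end point).
Transvections `x ↦ x + a ω(x, z) z` are good (let `a` go to `0`).  Induction on `n`, `n = 0` trivial.
`Phase (n+1)`, `v = eX 0`.  (1) If `w ≠ 0` there is a product of at most two transvections mapping
`w` to `v`: if `ω(w, v) ≠ 0` the transvection with `z = v - w`, `a = 1 / ω(w, v)` does; otherwise choose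
`w'` with `ω(w, w') ≠ 0 ≠ ω(w', v)` and go through `w'`.  So we may assume `S v = v`.
(2) Let `y = eY 0`, `w = S y`; `ω(v, y) = 1 = ω(v, w)`.  If `ω(w, y) ≠ 0` the transvection with
`z = y - w`, `a = 1 / ω(w, y)` maps `w` to `y` and fixes `v` (because `ω(v, z) = 0`).  Otherwise go through
`w' = y + v`: `ω(w, w') = ω(w, v) = -1 ≠ 0` and `ω(w', y) = ω(v, y) = 1 ≠ 0`, both steps fix `v`.
So we may assume `S v = v`, `S y = y`.  (3) Then `S (mkP a b u) = mkP a b (S' u)` with `S' = wL ∘ S ∘ emb`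
symplectic (`omegaStd_succ`); the path of `S'` gives a path of `S`. -/
def St_conn : Prop :=
  ∀ (n : ℕ) (S : Phase n →L[ℝ] Phase n), (∀ u v, omegaStd (S u) (S v) = omegaStd u v) →
    ∃ c : I → (Phase n →L[ℝ] Phase n), Continuous c ∧ c 0 = ContinuousLinearMap.id ℝ _ ∧ c 1 = S ∧
      ∀ s u v, omegaStd (c s u) (c s v) = omegaStd u v

end Pool.Agent.H42.Hull
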