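import Mathlib
import Pool.Agent.Helper42.Susp.RealiseMain
import Pool.Agent.H50.Susp.LesExist
import Pool.Agent.H42.Hull.Defs

/-!
# Realisation of families with C¹ control (the converse of the hull criterion for all `k`)
-/

set_option maxSynthPendingDepth 3

open scoped ContDiff Topology unitInterval
open Set Function TopologicalSpace Filter MeasureTheory

namespace Pool.Agent.H42.Hull

open Pool.Agent.Helper17 Pool.Agent.Helper42

/-- A bump function on the plane with support in the unit ball and integral one. -/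
noncomputable def bmp : ℝ × ℝ → ℝ :=
  (⟨1 / 2, 1, by norm_num, by norm_num⟩ : ContDiffBump (0 : ℝ × ℝ)).normed volume

/-- Mollification in the base variables, `(δ, b, z) ↦ ∫ bmp u • η (b, z - δ u) du`; for `δ = 0` it
is `η`. -/
noncomputable def mol {B : Type} {n : ℕ} {E' : Type} [NormedAddCommGroup E'] [NormedSpace ℝ E']
    (η : B × (ℝ × ℝ) → Phase n → E') (q : ℝ × (B × (ℝ × ℝ))) (w : Phase n) : E' :=
  ∫ u in Metric.closedBall (0 : ℝ × ℝ) 1, bmp u • η (q.2.1, q.2.2 - q.1 • u) w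

/-- A1: the mollification is a smooth family, jointly continuous in `δ, b, z` (also at `δ = 0`).
PROOF.  `CF.setIntegral` (Helper17/CFInt.lean), the integrand is a smooth family over
`(ℝ × (B × (ℝ × ℝ))) × (ℝ × ℝ)`.  For the derivative: `hasFDerivAt_setIntegral` (as in
`exists_mollify`).  For `δ = 0` the integral of `bmp` over the ball is one.  For `δ > 0` substitute
`z' = z - δ u`: the value is `∫ z' in closedBall 0 R, (δ⁻² bmp (δ⁻¹ (z - z'))) • η (b, z') w`, and this is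
smooth in `(z, w)` by `CF.setIntegral` as in `exists_mollify` (Helper42/Susp/Mollify.lean). -/
def St_mol : Prop :=
  ∀ (n : ℕ) (B : Type) [TopologicalSpace B] [CompactSpace B] (E' : Type) [NormedAddCommGroup E']
    [NormedSpace ℝ E'] [FiniteDimensional ℝ E'] (η : B × (ℝ × ℝ) → Phase n → E') (R : ℝ), CF η →
    0 ≤ R → (∀ b z, R < ‖z‖ → ∀ w, η (b, z) w = 0) →
    CF (mol η) ∧
    (∀ q w, fderiv ℝ (mol η q) w = mol (fun q w => fderiv ℝ (η q) w) q w) ∧
    (∀ b z w, mol η (0, (b, z)) w = η (b, z) w) ∧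
    (∀ δ : ℝ, 0 < δ → CF (fun (b : B) (p : Phase (n + 1)) => mol η (δ, (b, zL p)) (wL p))) ∧
    (∀ δ : ℝ, 0 ≤ δ → δ ≤ 1 → ∀ b z, R + 1 < ‖z‖ → ∀ w, mol η (δ, (b, z)) w = 0)

/-- The vector field in the fibres given by the primitive `τ`. -/
noncomputable def fieldT {n : ℕ} (c : Phase (n + 1) → Phase n)
    (τ : Phase (n + 1) → Phase n →L[ℝ] ℝ) (s : Icc (0 : ℝ) 1) (p : Phase (n + 1)) : Phase n :=
  -(ContinuousLinearMap.inverse (pullOp ((s : ℝ), fibD c p)) (sharp n (τ p)))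

/-- `τ` is a primitive, in the fibres, of the difference of the pull-back of the symplectic form
under `id + c` and the form itself. -/
def IsPrim {n : ℕ} (c : Phase (n + 1) → Phase n) (τ : Phase (n + 1) → Phase n →L[ℝ] ℝ) : Prop :=
  ∀ p α β, fderiv ℝ τ p (eL α) β - fderiv ℝ τ p (eL β) α =
    omegaStd (fibD c p α) (fibD c p β) - omegaStd α β

/-- B: smoothing of a family of symplectic maps with a small primitive.
PROOF.  `σ η q w = ω(η, ·) + (1/2) ω(η, Dη ·)` (as `midForm`, `fibField`), its antisymmetrised derivative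
is the pull-back form of `id + η` minus `ω`, so it is zero for symplectic `id + η`.  Put
`c_δ = mol η`, `τ_δ = σ (mol η) - mol (σ η)` (families over `(δ, b, z)` of functions of `w`); by
`St_mol` `τ_δ` is a primitive, and `c_0 = η`, `τ_0 = 0`.  The field
`- inverse (pullOp (s, 1 + D c_δ)) (sharp τ_δ)` is a smooth family over `(δ, b, z, s)`, `δ` small (the
condition `Admissible` is open: `admissible_of_norm_sub`), and zero for `δ = 0`; everything vanishes
for `w ∉ KW` or `‖z‖ > R + 1`, so by compactness (as in `exists_modulus`) its derivative is at most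
`κ` for `δ ≤ δ₁`; in the same way `‖D c_δ - D η‖ ≤ κ`.  Take `c b p = c_δ (b, zL p) (wL p)` etc. for
one such `δ > 0`. -/
def St_data : Prop :=
  ∀ (n : ℕ) (B : Type) [TopologicalSpace B] [CompactSpace B]
    (η : B × (ℝ × ℝ) → Phase n → Phase n) (R : ℝ) (KW : Set (Phase n)), CF η → 0 ≤ R →
    IsCompact KW → (∀ q, ∀ w ∉ KW, η q w = 0) → (∀ b z, R < ‖z‖ → ∀ w, η (b, z) w = 0) →
    (∀ q w α β, omegaStd (α + fderiv ℝ (η q) w α) (β + fderiv ℝ (η q) w β) = omegaStd α β) →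
    ∀ κ : ℝ, 0 < κ → ∃ (c : B → Phase (n + 1) → Phase n)
      (τ : B → Phase (n + 1) → Phase n →L[ℝ] ℝ) (K : Set (Phase (n + 1))), CF c ∧ CF τ ∧
      IsCompact K ∧ (∀ b, ∀ p ∉ K, c b p = 0 ∧ τ b p = 0) ∧
      (∀ b p, ‖(fderiv ℝ (c b) p).comp eL - fderiv ℝ (η (b, zL p)) (wL p)‖ ≤ κ) ∧
      (∀ b p, Admissible (fibD (c b) p)) ∧ (∀ b, IsPrim (c b) (τ b)) ∧
      (∀ b s p, ‖(fderiv ℝ (fieldT (c b) (τ b) s) p).comp eL‖ ≤ κ) ∧
      (∀ b, (∀ z w, η (b, z) w = 0) → ∀ p, c b p = 0 ∧ τ b p = 0)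

/-- C: Moser's isotopy in the fibres for a given primitive, with a C¹ estimate.
PROOF.  As `fibre_moser` (Helper42/Susp/FibreMoser.lean), with `fieldT (c t) (τ t)` instead of
`fibField (c t)` and a version of `moser_conservation` (Helper17/Moser.lean) for any primitive (its
proof only uses the antisymmetrised derivative of `midForm`).  `C q p = wL (ρ q p) - wL p + c (ρ q p)`,
`fibD (C q) p = fibD c (ρ q p) ∘ A` with `A = wL ∘ Dρ ∘ eL`; take `p' = ρ q p`.  By `flow_ode`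
`A' = (D_w field) A`, `A (0) = 1`, so `‖A - 1‖ ≤ exp κ - 1` (Gronwall: `‖A (s)‖ ≤ exp (κ s)`). -/
def St_moser2 : Prop :=
  ∀ (n : ℕ) (T : Type) [TopologicalSpace T] [CompactSpace T] (c : T → Phase (n + 1) → Phase n)
    (τ : T → Phase (n + 1) → Phase n →L[ℝ] ℝ) (K : Set (Phase (n + 1))) (κ : ℝ), CF c → CF τ →
    IsCompact K → (∀ t, ∀ p ∉ K, c t p = 0 ∧ τ t p = 0) → (∀ t p, Admissible (fibD (c t) p)) →
    (∀ t, IsPrim (c t) (τ t)) →
    (∀ t s p, ‖(fderiv ℝ (fieldT (c t) (τ t) s) p).comp eL‖ ≤ κ) →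
    ∃ C : T × Icc (0 : ℝ) 1 → Phase (n + 1) → Phase n, CF C ∧ (∀ q, ∀ p ∉ K, C q p = 0) ∧
      (∀ t p, C (t, ⟨0, left_mem_Icc.2 zero_le_one⟩) p = c t p) ∧
      (∀ q p, Admissible (fibD (C q) p)) ∧
      (∀ t p α β, omegaStd (fibD (C (t, ⟨1, right_mem_Icc.2 zero_le_one⟩)) p α)
        (fibD (C (t, ⟨1, right_mem_Icc.2 zero_le_one⟩)) p β) = omegaStd α β) ∧
      (∀ t, (∀ p, c t p = 0 ∧ τ t p = 0) → ∀ s p, C (t, s) p = 0) ∧
      (∀ t s p, ∃ p', ‖fibD (C (t, s)) p - fibD (c t) p'‖ ≤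
        ‖fibD (c t) p'‖ * (Real.exp κ - 1))

/-- The linear map of `ℝ^{2n+2}` which is the identity on the first pair of coordinates and `A` on
the others. -/
noncomputable def oneS {n : ℕ} (A : Phase n →L[ℝ] Phase n) : Phase (n + 1) →L[ℝ] Phase (n + 1) :=
  ContinuousLinearMap.id ℝ _ + eL.comp ((A - ContinuousLinearMap.id ℝ _).comp wL)

/-- D: `exists_red_of_fibre` (Helper42/Susp/RealiseMain.lean) with a C¹ estimate.
PROOF.  Copy its proof with `l = min (1 / (2 (1 + Ma))) (ε / (4 (1 + Ma + Mb + Mc)))`, `Ma, Mb, Mc` bounds of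
the derivatives of `a, b, c`.  At `p` put `Q = p + l a (Dl l p) ex` (surjective),
`DQ = 1 + ex ⊗ da'`, `‖da'‖ ≤ l Ma ≤ 1/2`, `Df (Q p) ∘ DQ = 1 + ey ⊗ db' + eL ∘ dc'`,
`Z = oneS (fibD c p')`, `p' = Dl l p`; then `(Df (Q p) - Z) ∘ DQ = ey ⊗ db' + eL ∘ (dc' - dc (p') eL wL) -
ex ⊗ da'` has norm at most `l (Ma + Mb + 2 Mc)`, and `‖u‖ ≤ 2 ‖DQ u‖`, `DQ` surjective. -/
def St_red2 : Prop :=
  ∀ (n : ℕ), 0 < n → ∀ (T : Type) [TopologicalSpace T] [CompactSpace T] (T₀ : Set T)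
    (c : T → Phase (n + 1) → Phase n), CF c → ∀ R₀ : ℝ, 1 ≤ R₀ →
    (∀ t p, R₀ < ‖p‖ → c t p = 0) →
    (∀ t p α β, omegaStd (fibD (c t) p α) (fibD (c t) p β) = omegaStd α β) →
    (∀ t ∈ T₀, ∀ p, c t p = 0) → ∀ ε : ℝ, 0 < ε →
    ∃ (L R : ℝ) (f : C(T, SympCt (n + 1)))
      (h : C(T × (unitInterval × unitInterval), SympCt n)), R₀ < L ∧ (∀ t ∈ T₀, f t = 1) ∧
      (∀ t p, 0 < xL (fderiv ℝ (f t : Equiv.Perm (Phase (n + 1))) p ex)) ∧ IsRed R f h ∧
      (∀ q w, (h q : Equiv.Perm (Phase n)) w = w + c q.1 (ptq L q w)) ∧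
      ∀ t p, ∃ p', ‖fderiv ℝ (f t : Equiv.Perm (Phase (n + 1))) p - oneS (fibD (c t) p')‖ ≤ ε

/-- E: `exists_realise` with a C¹ estimate.
PROOF.  Copy the proof of `exists_realise` (Helper42/Susp/RealiseMain.lean), with `St_data` instead of
`exists_mollify` (`κ` at most its `ε`), `St_moser2` instead of `fibre_moser` and `St_red2` instead of
`exists_red_of_fibre`.  With `‖Dη‖ ≤ M`: `‖fibD (C (t,1)) p - fibD (c t) p'‖ ≤ (1 + M + κ)(exp κ - 1)` and
`‖fibD (c t) p' - D h (t, sq 1 (zL p')) (wL p')‖ ≤ κ`; `‖oneS A - oneS B‖ ≤ ‖A - B‖`. -/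
def St_realise2 : Prop :=
  ∀ (n : ℕ) (T : Type) [TopologicalSpace T] [CompactSpace T] (T₀ : Set T)
    (h : C(T × (unitInterval × unitInterval), SympCt n)),
    (∀ q : T × (unitInterval × unitInterval), (q.1 ∈ T₀ ∨ q.2 ∈ sqBd) → h q = 1) →
    ∀ ε : ℝ, 0 < ε → ∃ (R : ℝ) (f : C(T, SympCt (n + 1)))
      (h' : C(T × (unitInterval × unitInterval), SympCt n)), (∀ t ∈ T₀, f t = 1) ∧
      (∀ t p, 0 < xL (fderiv ℝ (f t : Equiv.Perm (Phase (n + 1))) p ex)) ∧ IsRed R f h' ∧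
      h.HomotopicRel h' {q | q.1 ∈ T₀ ∨ q.2 ∈ sqBd} ∧
      ∀ t p, ∃ q w, ‖fderiv ℝ (f t : Equiv.Perm (Phase (n + 1))) p -
        oneS (fderiv ℝ (h q : Equiv.Perm (Phase n)) w)‖ ≤ ε

/-- F: every class has a representative with a suspension which is C¹-close to it.
PROOF.  As `exists_isSuspension` (H50/Susp/LesExist.lean) and `exists_isSusp`. -/
def St_susp2 : Prop :=
  ∀ (n j : ℕ) (g₀ : LoopG (j + 2) n) (ε : ℝ), 0 < ε →
    ∃ (g : LoopG (j + 2) n) (φ : LoopG j (n + 1)), g.cls = g₀.cls ∧ IsSuspension g φ ∧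
      ∀ t p, ∃ t' w, ‖fderiv ℝ (φ.at t) p - oneS (fderiv ℝ (g₀.at t') w)‖ ≤ ε

/-- G: `k`-fold suspensions have representatives whose block is close to the identity.
PROOF.  Induction on `k`. -/
def St_conv : Prop :=
  ∀ (m k j : ℕ) (c : PiG j (m + k)), IsKSusp m k j c → ∀ ε : ℝ, 0 < ε →
    ∃ φ : LoopG j (m + k), φ.cls = c ∧
      ∀ t p, ‖(prK m k).comp ((fderiv ℝ (φ.at t) p).comp (incK m k)) -
        ContinuousLinearMap.id ℝ (Phase k)‖ ≤ ε

end Pool.Agent.H42.Hull
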