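import Mathlib
import Pool.Agent.H42.Hull.Defs2

/-!
# Smoothing of a family of symplectic maps in the fibres, with a small primitive
-/

set_option maxSynthPendingDepth 3

open scoped ContDiff Topology unitInterval
open Set Function TopologicalSpace Filter MeasureTheory

namespace Pool.Agent.H42.Hull

open Pool.Agent.Helper17 Pool.Agent.Helper42

variable {n : ℕ}

/-- The primitive of the difference of the pull-back form under `id + f` and the form itself. -/
noncomputable def sgm (f : Phase n → Phase n) (w : Phase n) : Phase n →L[ℝ] ℝ :=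
  omegaB n (f w) + (1 / 2 : ℝ) • (omegaB n (f w)).comp (fderiv ℝ f w)

lemma sgm_eq_midForm {f : Phase n → Phase n} (hf : Differentiable ℝ f) :
    sgm f = midForm (fun w => w + f w) := by
  funext w
  have h1 : fderiv ℝ (fun w => w + f w) w = ContinuousLinearMap.id ℝ _ + fderiv ℝ f w :=
    ((hasFDerivAt_id w).add (hf w).hasFDerivAt).fderiv
  rw [sgm, midForm, h1, add_sub_cancel_left, add_sub_cancel_left]

lemma sgm_zero {f : Phase n → Phase n} {w : Phase n} (h : f w = 0) : sgm f w = 0 := by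
  rw [sgm, h, map_zero]
  simp

lemma sgm_asymm {f : Phase n → Phase n} (hf : ContDiff ℝ ∞ f) (w a b : Phase n) :
    fderiv ℝ (sgm f) w a b - fderiv ℝ (sgm f) w b a =
      omegaStd (a + fderiv ℝ f w a) (b + fderiv ℝ f w b) - omegaStd a b := by
  have hd := hf.differentiable (by simp)
  have hχ : ContDiff ℝ ∞ (fun w => w + f w) := contDiff_id.add hf
  have h1 : ∀ x, fderiv ℝ (fun w => w + f w) x = ContinuousLinearMap.id ℝ _ + fderiv ℝ f x :=
    fun x => ((hasFDerivAt_id x).add (hd x).hasFDerivAt).fderiv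
  have hsymm : fderiv ℝ (fderiv ℝ (fun w => w + f w)) w a b =
      fderiv ℝ (fderiv ℝ (fun w => w + f w)) w b a :=
    (hχ.contDiffAt (x := w)).isSymmSndFDerivAt
      (by rw [minSmoothness_of_isRCLikeNormedField]; exact WithTop.coe_le_coe.2 le_top) a b
  rw [sgm_eq_midForm hd, fderiv_midForm hχ, fderiv_midForm hχ, hsymm, h1]
  simp only [add_apply, ContinuousLinearMap.id_apply, add_sub_cancel_left]
  have s1 : omegaStd (fderiv ℝ f w b) (fderiv ℝ f w a) =
    -omegaStd (fderiv ℝ f w a) (fderiv ℝ f w b) := omegaStd_swap _ _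
  have s2 : omegaStd (fderiv ℝ f w b) a = -omegaStd a (fderiv ℝ f w b) := omegaStd_swap _ _
  rw [s1, s2]
  simp only [omegaStd_add_left, omegaStd_add_right]
  ring

lemma CF_sgm {Q : Type} [TopologicalSpace Q] {η : Q → Phase n → Phase n} (hη : CF η) :
    CF (fun q w => sgm (η q) w) := by
  have h1 : CF (fun q w => omegaB n (η q w)) := hη.clm (omegaB n)
  exact h1.add ((CF.const (contDiff_const (c := (1 / 2 : ℝ)))).smul (h1.clm_comp hη.fderiv))

/-- The field given by a primitive is a smooth family. -/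
lemma CF_fieldOf {T : Type} [TopologicalSpace T] {E : Type} [NormedAddCommGroup E]
    [NormedSpace ℝ E] {A : T → E → (Phase n →L[ℝ] Phase n)} {τ : T → E → (Phase n →L[ℝ] ℝ)}
    (hA : CF A) (hτ : CF τ) (hadm : ∀ t x, Admissible (A t x)) :
    CF (fun (p : T × Icc (0 : ℝ) 1) x =>
      -(ContinuousLinearMap.inverse (pullOp ((p.2 : ℝ), A p.1 x)) (sharp n (τ p.1 x)))) := by
  have h1 : CF (fun (p : T × Icc (0 : ℝ) 1) x => A p.1 x) := hA.base continuous_fst
  have h2 : CF (fun (p : T × Icc (0 : ℝ) 1) x => (((p.2 : ℝ), A p.1 x) :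
      ℝ × (Phase n →L[ℝ] Phase n))) :=
    (CF.param (continuous_subtype_val.comp continuous_snd)).prodMk h1
  have h3 : CF (fun (p : T × Icc (0 : ℝ) 1) x => pullOp ((p.2 : ℝ), A p.1 x)) :=
    h2.comp_smooth (fun _ _ => contDiff_pullOp.contDiffAt)
  have h4 : CF (fun (p : T × Icc (0 : ℝ) 1) x =>
      ContinuousLinearMap.inverse (pullOp ((p.2 : ℝ), A p.1 x))) := by
    apply h3.comp_smooth
    intro p x
    have h5 := coe_cleOfInjective _ ((hadm p.1 x).injective p.2.2)
    rw [← h5]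
    exact contDiffAt_map_inverse _
  have h5 : CF (fun (p : T × Icc (0 : ℝ) 1) x => sharp n (τ p.1 x)) :=
    (hτ.base continuous_fst).clm (sharp n)
  exact (h4.clm_apply h5).clm (-(ContinuousLinearMap.id ℝ (Phase n)))

/-- The derivative in the fibre. -/
lemma fderiv_comp_eL {E' : Type} [NormedAddCommGroup E'] [NormedSpace ℝ E']
    {c : Phase (n + 1) → E'} {F : ℝ × ℝ → Phase n → E'} (h : ∀ p, c p = F (zL p) (wL p))
    (p : Phase (n + 1)) (hc : DifferentiableAt ℝ c p) :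
    (fderiv ℝ c p).comp eL = fderiv ℝ (F (zL p)) (wL p) := by
  have h1 : F (zL p) = fun w => c (p + eL (w - wL p)) := by
    funext w
    rw [h, map_add, map_add, zL_eL, wL_eL, add_zero, add_sub_cancel]
  have h2 : HasFDerivAt (fun w : Phase n => p + eL (w - wL p)) eL (wL p) := by
    have h3 : HasFDerivAt (fun w : Phase n => w - wL p) (ContinuousLinearMap.id ℝ _) (wL p) :=
      (hasFDerivAt_id _).sub_const _
    have h4 := (eL.hasFDerivAt.comp (wL p) h3).const_add p
    exact h4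
  have h3 : HasFDerivAt c (fderiv ℝ c p) (p + eL (wL p - wL p)) := by
    rw [sub_self, map_zero, add_zero]
    exact hc.hasFDerivAt
  rw [h1]
  exact (h3.comp (wL p) h2).fderiv.symm

/-- A continuous function of `δ` and of a point of a compact set, zero for `δ = 0`, is small for
small `δ`. -/
lemma small_of_zero {P : Type} [TopologicalSpace P] {E' : Type} [NormedAddCommGroup E']
    {G : ℝ × P → E'} (hG : Continuous G) {K : Set P} (hK : IsCompact K)
    (h0 : ∀ p, G (0, p) = 0) {κ : ℝ} (hκ : 0 < κ) :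
    ∃ δ : ℝ, 0 < δ ∧ ∀ d : ℝ, 0 ≤ d → d ≤ δ → ∀ p ∈ K, ‖G (d, p)‖ ≤ κ := by
  have key : ∀ᶠ d : ℝ in 𝓝 0, ∀ p ∈ K, ‖G (d, p)‖ < κ := by
    apply hK.eventually_forall_of_forall_eventually
    intro p _
    have h1 := (hG.norm.continuousAt (x := ((0 : ℝ), p))).eventually_lt
      (g := fun _ => κ) continuousAt_const (by simpa [h0] using hκ)
    exact h1
  obtain ⟨δ, hδ, hball⟩ := Metric.eventually_nhds_iff.1 key
  refine ⟨δ / 2, by positivity, fun d hd0 hd p hp => (hball (y := d) ?_ p hp).le⟩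
  rw [Real.dist_eq, sub_zero, abs_of_nonneg hd0]
  linarith

section

variable {B : Type} {E' : Type} [NormedAddCommGroup E'] [NormedSpace ℝ E']

lemma mol_zero {η : B × (ℝ × ℝ) → Phase n → E'} {q : ℝ × (B × (ℝ × ℝ))} {w : Phase n}
    (h : ∀ z, η (q.2.1, z) w = 0) : mol η q w = 0 := by
  simp [mol, h]

lemma continuous_bmp : Continuous bmp := by
  unfold bmp
  exact ContDiffBump.continuous_normed _

lemma clm_mol [TopologicalSpace B] [CompleteSpace E'] {η : B × (ℝ × ℝ) → Phase n → E'}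
    (hη : CF η) (L : E' →L[ℝ] ℝ) (q : ℝ × (B × (ℝ × ℝ))) (w : Phase n) :
    L (mol η q w) = mol (fun q w => L (η q w)) q w := by
  have hc : Continuous (fun u : ℝ × ℝ => bmp u • η (q.2.1, q.2.2 - q.1 • u) w) :=
    continuous_bmp.smul (hη.continuous.comp ((continuous_const.prodMk
      (continuous_const.sub (continuous_id.const_smul q.1))).prodMk continuous_const))
  rw [mol, mol, ← L.integral_comp_comm
    (hc.continuousOn.integrableOn_compact (isCompact_closedBall _ _))]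
  simp only [map_smul]

end

theorem data (hmol : St_mol) : St_data := by
  intro n B _ _ η R KW hη hR hKW hηK hηR hηs κ hκ
  set D : B × (ℝ × ℝ) → Phase n → (Phase n →L[ℝ] Phase n) := fun q w => fderiv ℝ (η q) w with hD
  have hDCF : CF D := hη.fderiv
  have hη0 : ∀ b z, R < ‖z‖ → η (b, z) = fun _ => 0 := fun b z hz => funext fun w => hηR b z hz w
  have hDR : ∀ b z, R < ‖z‖ → ∀ w, D (b, z) w = 0 := by
    intro b z hz w
    simp only [hD, hη0 b z hz]
    exact fderiv_const_apply 0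
  have hDK : ∀ q, ∀ w ∉ KW, D q w = 0 := fun q w hw =>
    fderiv_eq_zero_off hKW.isClosed (hηK q) hw
  set s : B × (ℝ × ℝ) → Phase n → (Phase n →L[ℝ] ℝ) := fun q w => sgm (η q) w with hs
  have hsCF : CF s := CF_sgm hη
  have hsR : ∀ b z, R < ‖z‖ → ∀ w, s (b, z) w = 0 := fun b z hz w => sgm_zero (hηR b z hz w)
  obtain ⟨m1, m2, m3, m4, m5⟩ := hmol n B (Phase n) η R hη hR hηR
  obtain ⟨d1, d2, d3, d4, d5⟩ := hmol n B (Phase n →L[ℝ] Phase n) D R hDCF hR hDR
  obtain ⟨s1, s2, s3, s4, s5⟩ := hmol n B (Phase n →L[ℝ] ℝ) s R hsCF hR hsR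
  set tf : ℝ × (B × (ℝ × ℝ)) → Phase n → (Phase n →L[ℝ] ℝ) :=
    fun q w => sgm (mol η q) w - mol s q w with htf
  have htfCF : CF tf := (CF_sgm m1).sub s1
  have hmK : ∀ q, ∀ w ∉ KW, mol η q w = 0 := fun q w hw => mol_zero fun z => hηK _ w hw
  have hsK : ∀ q, ∀ w ∉ KW, mol s q w = 0 := fun q w hw =>
    mol_zero fun z => sgm_zero (hηK _ w hw)
  have htK : ∀ q, ∀ w ∉ KW, tf q w = 0 := by
    intro q w hw
    simp only [htf]
    rw [sgm_zero (hmK q w hw), hsK q w hw, sub_zero]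
  have hm1 : ∀ δ : ℝ, 0 ≤ δ → δ ≤ 1 → ∀ b z, R + 1 < ‖z‖ → mol η (δ, (b, z)) = fun _ => 0 :=
    fun δ h0 h1 b z hz => funext fun w => m5 δ h0 h1 b z hz w
  have ht1 : ∀ δ : ℝ, 0 ≤ δ → δ ≤ 1 → ∀ b z, R + 1 < ‖z‖ → ∀ w, tf (δ, (b, z)) w = 0 := by
    intro δ h0 h1 b z hz w
    simp only [htf]
    rw [sgm_zero (m5 δ h0 h1 b z hz w), s5 δ h0 h1 b z hz w, sub_zero]
  have hm0 : ∀ b z, mol η (0, (b, z)) = η (b, z) := fun b z => funext fun w => m3 b z w
  have ht0 : ∀ b z w, tf (0, (b, z)) w = 0 := by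
    intro b z w
    simp only [htf]
    rw [hm0, s3, sub_self]
  have hball : IsCompact (Metric.closedBall (0 : ℝ × ℝ) (R + 1)) := isCompact_closedBall _ _
  -- a bound for the derivative
  obtain ⟨M, hM0, hM⟩ : ∃ M : ℝ, 0 ≤ M ∧ ∀ q w, ‖D q w‖ ≤ M := by
    obtain ⟨M, hM⟩ := ((isCompact_univ (X := B)).prod (hball.prod hKW)).exists_bound_of_continuousOn
      (f := fun x : B × ((ℝ × ℝ) × Phase n) => D (x.1, x.2.1) x.2.2)
      (hDCF.continuous.comp ((continuous_fst.prodMk continuous_snd.fst).prodMk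
        continuous_snd.snd)).continuousOn
    refine ⟨max M 0, le_max_right _ _, ?_⟩
    rintro ⟨b, z⟩ w
    by_cases hw : w ∈ KW
    · by_cases hz : ‖z‖ ≤ R + 1
      · exact (hM (b, (z, w)) ⟨mem_univ _, by rw [mem_closedBall_zero_iff]; exact hz, hw⟩).trans
          (le_max_left _ _)
      · rw [hDR b z (by linarith [not_le.1 hz]) w, norm_zero]
        exact le_max_right _ _
    · rw [hDK _ w hw, norm_zero]
      exact le_max_right _ _
  set ε : ℝ := min κ (1 / (8 * (1 + M))) with hε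
  have hε0 : 0 < ε := lt_min hκ (by positivity)
  -- closeness of the derivatives
  obtain ⟨δ₁, hδ₁, hδ₁1, hcl⟩ : ∃ δ₁ : ℝ, 0 < δ₁ ∧ δ₁ ≤ 1 ∧ ∀ d : ℝ, 0 ≤ d → d ≤ δ₁ →
      ∀ b z w, ‖fderiv ℝ (mol η (d, (b, z))) w - fderiv ℝ (η (b, z)) w‖ ≤ ε := by
    obtain ⟨δ, hδ, h⟩ := small_of_zero
      (G := fun x : ℝ × (B × ((ℝ × ℝ) × Phase n)) =>
        fderiv ℝ (mol η (x.1, (x.2.1, x.2.2.1))) x.2.2.2 -
          fderiv ℝ (η (x.2.1, x.2.2.1)) x.2.2.2)
      ((m1.fderiv.continuous.comp ((continuous_fst.prodMk (continuous_snd.fst.prodMk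
        continuous_snd.snd.fst)).prodMk continuous_snd.snd.snd)).sub
        (hη.fderiv.continuous.comp ((continuous_snd.fst.prodMk
        continuous_snd.snd.fst).prodMk continuous_snd.snd.snd)))
      ((isCompact_univ (X := B)).prod (hball.prod hKW))
      (fun p => by simp only [hm0, sub_self]) hε0
    refine ⟨min δ 1, lt_min hδ one_pos, min_le_right _ _, fun d hd0 hd b z w => ?_⟩
    by_cases hw : w ∈ KW
    · by_cases hz : ‖z‖ ≤ R + 1
      · exact h d hd0 (hd.trans (min_le_left _ _)) (b, (z, w))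
          ⟨mem_univ _, by rw [mem_closedBall_zero_iff]; exact hz, hw⟩
      · rw [hm1 d hd0 (hd.trans (min_le_right _ _)) b z (not_le.1 hz),
          hη0 b z (by linarith [not_le.1 hz]), sub_self, norm_zero]
        exact hε0.le
    · rw [fderiv_eq_zero_off hKW.isClosed (hmK _) hw,
        fderiv_eq_zero_off hKW.isClosed (hηK _) hw, sub_zero, norm_zero]
      exact hε0.le
  have hadm : ∀ d : ℝ, 0 ≤ d → d ≤ δ₁ → ∀ b z w,
      Admissible (ContinuousLinearMap.id ℝ _ + fderiv ℝ (mol η (d, (b, z))) w) := by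
    intro d hd0 hd b z w
    exact admissible_of_norm_sub hM0 rfl (hηs (b, z) w) (hM (b, z) w)
      ((hcl d hd0 hd b z w).trans (min_le_right _ _))
  -- the fields
  set cl : ℝ → ℝ := fun d => max 0 (min d δ₁) with hcldef
  have hclc : Continuous cl := continuous_const.max (continuous_id.min continuous_const)
  have hcl0 : ∀ d, 0 ≤ cl d := fun d => le_max_left _ _
  have hcl1 : ∀ d, cl d ≤ δ₁ := fun d => max_le hδ₁.le (min_le_right _ _)
  have hcleq : ∀ d, 0 ≤ d → d ≤ δ₁ → cl d = d := by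
    intro d h0 h1
    simp only [hcldef]
    rw [min_eq_left h1, max_eq_right h0]
  have hclm : Continuous (fun q : ℝ × (B × (ℝ × ℝ)) => (cl q.1, q.2)) :=
    (hclc.comp continuous_fst).prodMk continuous_snd
  obtain ⟨Fl, hFl⟩ : ∃ Fl : (ℝ × (B × (ℝ × ℝ))) × Icc (0 : ℝ) 1 → Phase n → Phase n,
      Fl = fun p w =>
    -(ContinuousLinearMap.inverse (pullOp ((p.2 : ℝ), ContinuousLinearMap.id ℝ _ +
      fderiv ℝ (mol η (cl p.1.1, p.1.2)) w)) (sharp n (tf (cl p.1.1, p.1.2) w))) := ⟨_, rfl⟩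
  have hFlCF : CF Fl := by
    rw [hFl]
    exact CF_fieldOf
      (A := fun (q : ℝ × (B × (ℝ × ℝ))) w => ContinuousLinearMap.id ℝ _ +
        fderiv ℝ (mol η (cl q.1, q.2)) w)
      (τ := fun (q : ℝ × (B × (ℝ × ℝ))) w => tf (cl q.1, q.2) w)
      (CF.add (CF.const contDiff_const) (m1.fderiv.base hclm)) (htfCF.base hclm)
      (fun q w => hadm (cl q.1) (hcl0 _) (hcl1 _) q.2.1 q.2.2 w)
  have hFlzero : ∀ p w, tf (cl p.1.1, p.1.2) w = 0 → Fl p w = 0 := by
    intro p w h
    simp only [hFl]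
    rw [h, map_zero, map_zero, neg_zero]
  have hFld : Continuous (fun x : ((ℝ × (B × (ℝ × ℝ))) × Icc (0 : ℝ) 1) × Phase n =>
      fderiv ℝ (Fl x.1) x.2) := hFlCF.fderiv.continuous
  obtain ⟨δ₂, hδ₂, hfl⟩ : ∃ δ₂ : ℝ, 0 < δ₂ ∧ ∀ d : ℝ, 0 ≤ d → d ≤ δ₂ → ∀ b z s w,
      ‖fderiv ℝ (Fl ((d, (b, z)), s)) w‖ ≤ κ := by
    obtain ⟨δ, hδ, h⟩ := small_of_zero
      (G := fun x : ℝ × (B × ((ℝ × ℝ) × (Icc (0 : ℝ) 1 × Phase n))) =>
        fderiv ℝ (Fl ((x.1, (x.2.1, x.2.2.1)), x.2.2.2.1)) x.2.2.2.2)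
      (hFld.comp (((continuous_fst.prodMk (continuous_snd.fst.prodMk
        continuous_snd.snd.fst)).prodMk continuous_snd.snd.snd.fst).prodMk
        continuous_snd.snd.snd.snd))
      ((isCompact_univ (X := B)).prod (hball.prod
        ((isCompact_univ (X := Icc (0 : ℝ) 1)).prod hKW)))
      (fun p => by
        have h1 : Fl ((0, (p.1, p.2.1)), p.2.2.1) = fun _ => 0 := by
          funext w
          apply hFlzero
          change tf (cl 0, (p.1, p.2.1)) w = 0
          rw [hcleq 0 le_rfl hδ₁.le, ht0]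
        simp only [h1]
        exact fderiv_const_apply 0) hκ
    refine ⟨δ, hδ, fun d hd0 hd b z s w => ?_⟩
    by_cases hw : w ∈ KW
    · by_cases hz : ‖z‖ ≤ R + 1
      · exact h d hd0 hd (b, (z, (s, w)))
          ⟨mem_univ _, by rw [mem_closedBall_zero_iff]; exact hz, mem_univ _, hw⟩
      · have h1 : Fl ((d, (b, z)), s) = fun _ => 0 := by
          funext w
          apply hFlzero
          exact ht1 (cl d) (hcl0 _) ((hcl1 _).trans hδ₁1) b z (not_le.1 hz) w
        rw [h1]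
        have h2 : fderiv ℝ (fun _ : Phase n => (0 : Phase n)) w = 0 := fderiv_const_apply 0
        rw [h2, norm_zero]
        exact hκ.le
    · rw [fderiv_eq_zero_off hKW.isClosed
        (fun w hw => hFlzero ((d, (b, z)), s) w (htK _ w hw)) hw, norm_zero]
      exact hκ.le
  set δ : ℝ := min δ₁ δ₂ with hδ
  have hδ0 : 0 < δ := lt_min hδ₁ hδ₂
  have hδ1 : δ ≤ δ₁ := min_le_left _ _
  have hδ2 : δ ≤ δ₂ := min_le_right _ _
  have hδle : δ ≤ 1 := hδ1.trans hδ₁1
  set c : B → Phase (n + 1) → Phase n := fun b p => mol η (δ, (b, zL p)) (wL p) with hc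
  set τ : B → Phase (n + 1) → Phase n →L[ℝ] ℝ := fun b p => tf (δ, (b, zL p)) (wL p) with hτ
  have hcCF : CF c := m4 δ hδ0
  have hτCF : CF τ := by
    have h1 : CF (fun b p => omegaB n (c b p)) := hcCF.clm (omegaB n)
    have h2 : CF (fun (b : B) (p : Phase (n + 1)) => fderiv ℝ (mol η (δ, (b, zL p))) (wL p)) := by
      simp only [m2]
      exact d4 δ hδ0
    exact (h1.add ((CF.const (contDiff_const (c := (1 / 2 : ℝ)))).smul (h1.clm_comp h2))).sub
      (s4 δ hδ0)
  have hcD : ∀ b p, (fderiv ℝ (c b) p).comp eL = fderiv ℝ (mol η (δ, (b, zL p))) (wL p) :=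
    fun b p => fderiv_comp_eL (F := fun z => mol η (δ, (b, z))) (fun p => rfl) p
      (hcCF.differentiable b p)
  have hτD : ∀ b p, (fderiv ℝ (τ b) p).comp eL = fderiv ℝ (tf (δ, (b, zL p))) (wL p) :=
    fun b p => fderiv_comp_eL (F := fun z => tf (δ, (b, z))) (fun p => rfl) p
      (hτCF.differentiable b p)
  have hfib : ∀ b p, fibD (c b) p =
      ContinuousLinearMap.id ℝ _ + fderiv ℝ (mol η (δ, (b, zL p))) (wL p) := by
    intro b p
    rw [fibD, hcD]
  have hadm' : ∀ b p, Admissible (fibD (c b) p) := by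
    intro b p
    rw [hfib]
    exact hadm δ hδ0.le hδ1 b (zL p) (wL p)
  obtain ⟨RW, hRW⟩ := hKW.isBounded.subset_closedBall (0 : Phase n)
  refine ⟨c, τ, Metric.closedBall 0 (2 * (R + 1) + RW), hcCF, hτCF, isCompact_closedBall _ _,
    ?_, ?_, hadm', ?_, ?_, ?_⟩
  · intro b p hp
    rw [mem_closedBall_zero_iff, not_le] at hp
    have h1 := norm_le_of_zL p
    by_cases hw : wL p ∈ KW
    · have h2 : ‖wL p‖ ≤ RW := by simpa using hRW hw
      have h3 : R + 1 < ‖zL p‖ := by linarith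
      exact ⟨m5 δ hδ0.le hδle b _ h3 _, ht1 δ hδ0.le hδle b _ h3 _⟩
    · exact ⟨hmK _ _ hw, htK _ _ hw⟩
  · intro b p
    rw [hcD]
    exact (hcl δ hδ0.le hδ1 b (zL p) (wL p)).trans (min_le_left _ _)
  · -- the primitive
    intro b p α β
    have e1 : ∀ α : Phase n, fderiv ℝ (τ b) p (eL α) =
        fderiv ℝ (tf (δ, (b, zL p))) (wL p) α := by
      intro α
      rw [← hτD b p]
      rfl
    have e2 : fderiv ℝ (tf (δ, (b, zL p))) (wL p) =
        fderiv ℝ (sgm (mol η (δ, (b, zL p)))) (wL p) -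
          fderiv ℝ (mol s (δ, (b, zL p))) (wL p) :=
      (((CF_sgm m1).differentiable (δ, (b, zL p)) (wL p)).hasFDerivAt.sub
        (s1.differentiable (δ, (b, zL p)) (wL p)).hasFDerivAt).fderiv
    have e3 : ∀ q w, fderiv ℝ (mol s q) w α β - fderiv ℝ (mol s q) w β α = 0 := by
      intro q w
      set L : (Phase n →L[ℝ] (Phase n →L[ℝ] ℝ)) →L[ℝ] ℝ :=
        (ContinuousLinearMap.apply ℝ ℝ β).comp
          (ContinuousLinearMap.apply ℝ (Phase n →L[ℝ] ℝ) α) -
        (ContinuousLinearMap.apply ℝ ℝ α).comp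
          (ContinuousLinearMap.apply ℝ (Phase n →L[ℝ] ℝ) β) with hL
      have h1 : ∀ N : Phase n →L[ℝ] (Phase n →L[ℝ] ℝ), L N = N α β - N β α := fun N => rfl
      rw [← h1, s2, clm_mol hsCF.fderiv L q w]
      apply mol_zero
      intro z
      rw [h1]
      have h2 := sgm_asymm (hη.contDiff (q.2.1, z)) w α β
      rw [hηs, sub_self] at h2
      exact h2
    have e4 := e3 (δ, (b, zL p)) (wL p)
    have e5 := sgm_asymm (m1.contDiff (δ, (b, zL p))) (wL p) α β
    rw [e1, e1, e2, hfib]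
    simp only [sub_apply, add_apply, ContinuousLinearMap.id_apply]
    linarith
  · -- the field
    intro b s p
    have h1 : ∀ p, fieldT (c b) (τ b) s p = Fl ((δ, (b, zL p)), s) (wL p) := by
      intro p
      simp only [hFl, fieldT]
      rw [hfib, hcleq δ hδ0.le hδ1]
    have h2 : CF (fun (q : B × Icc (0 : ℝ) 1) p => fieldT (c q.1) (τ q.1) q.2 p) :=
      CF_fieldOf (A := fun b p => fibD (c b) p) (τ := τ) (CF_fibD hcCF) hτCF hadm'
    rw [fderiv_comp_eL (F := fun z => Fl ((δ, (b, z)), s)) h1 p (h2.differentiable (b, s) p)]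
    exact hfl δ hδ0.le hδ2 b (zL p) s (wL p)
  · intro b hb p
    have h1 : ∀ q : ℝ × (B × (ℝ × ℝ)), q.2.1 = b → ∀ w, mol η q w = 0 := by
      intro q hq w
      apply mol_zero
      intro z
      rw [hq]
      exact hb z w
    have h2 : ∀ q : ℝ × (B × (ℝ × ℝ)), q.2.1 = b → ∀ w, mol s q w = 0 := by
      intro q hq w
      apply mol_zero
      intro z
      rw [hq]
      exact sgm_zero (hb z w)
    refine ⟨h1 _ rfl _, ?_⟩
    change sgm (mol η (δ, (b, zL p))) (wL p) - mol s (δ, (b, zL p)) (wL p) = 0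
    rw [sgm_zero (h1 _ rfl _), h2 _ rfl _, sub_zero]

end Pool.Agent.H42.Hull
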