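import Mathlib
import Pool.Agent.H42.Hull.Def

open scoped ContDiff Topology
open Set Function TopologicalSpace

namespace Pool.Agent.H42.Hull

open Pool.Agent.Helper17 Pool.Agent.Helper42

/-- The closed convex hull of all numbers `⟨A u, u⟩`, where `u` is a unit vector of `ℂ^k` and `A` the
complex linear part of the `2k × 2k` block of `S' (Dφ_t) S` at some point, for some `t`. -/
def hull (m k j : ℕ) (S S' : LinSymp (m + k)) (φ : LoopG j (m + k)) : Set ℂ :=
  closure (convexHull ℝ {z : ℂ | ∃ (t : Fin j → unitInterval) (p : Phase (m + k)) (u : Phase k),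
    ‖u‖ = 1 ∧ z = hermVal (block m k S S' (φ.at t) p) u})

end Pool.Agent.H42.Hull
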