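import Mathlib
import Pool.Agent.H42.Hull.Defs

set_option maxSynthPendingDepth 3

open scoped ContDiff Topology unitInterval
open Set Function TopologicalSpace Filter

namespace Pool.Agent.H42.Hull

open Pool.Agent.Helper17 Pool.Agent.H50.Susp

variable {N k : ℕ}

lemma inner_mkP (a b : ℝ) (u : Phase k) (x y : ℝ) (w : Phase k) :
    inner ℝ (Pool.Agent.H50.Susp.mkP a b u) (Pool.Agent.H50.Susp.mkP x y w) =
      a * x + b * y + inner ℝ u w := by
  simp only [PiLp.inner_apply, Fintype.sum_sum_type, Fin.sum_univ_succ]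
  simp [Pool.Agent.H50.Susp.mkP, eX, eY]
  ring

lemma Jl_mkP (a b : ℝ) (u : Phase k) :
    Jl (k + 1) (Pool.Agent.H50.Susp.mkP a b u) = Pool.Agent.H50.Susp.mkP (-b) a (Jl k u) := by
  apply ext_xyw
  · rw [mkP_x]
    change -((Pool.Agent.H50.Susp.mkP a b u) (Sum.inr 0)) = -b
    rw [mkP_y]
  · rw [mkP_y]
    change ((Pool.Agent.H50.Susp.mkP a b u) (Sum.inl 0)) = a
    rw [mkP_x]
  · rw [wL_mkP]
    ext j
    rcases j with j | j
    · rw [wL_inl]
      change -((Pool.Agent.H50.Susp.mkP a b u) (Sum.inr j.succ)) = -(u (Sum.inr j))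
      rw [← wL_inr, wL_mkP]
    · rw [wL_inr]
      change ((Pool.Agent.H50.Susp.mkP a b u) (Sum.inl j.succ)) = (u (Sum.inl j))
      rw [← wL_inl, wL_mkP]

/-- The bracket of linear forms. -/
noncomputable def br (α β : Phase N →L[ℝ] ℝ) : ℝ :=
  ∑ j : Fin N, (α (eX j) * β (eY j) - α (eY j) * β (eX j))

lemma br_add_left (α α' β : Phase N →L[ℝ] ℝ) : br (α + α') β = br α β + br α' β := by
  simp only [br, _root_.add_apply, ← Finset.sum_add_distrib]
  exact Finset.sum_congr rfl fun j _ => by ring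

lemma br_smul_left (c : ℝ) (α β : Phase N →L[ℝ] ℝ) : br (c • α) β = c * br α β := by
  simp only [br, _root_.smul_apply, smul_eq_mul, Finset.mul_sum]
  exact Finset.sum_congr rfl fun j _ => by ring

lemma br_swap (α β : Phase N →L[ℝ] ℝ) : br α β = -br β α := by
  simp only [br, ← Finset.sum_neg_distrib]
  exact Finset.sum_congr rfl fun j _ => by ring

lemma br_add_right (α β β' : Phase N →L[ℝ] ℝ) : br α (β + β') = br α β + br α β' := by
  rw [br_swap, br_add_left, br_swap β, br_swap β']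
  ring

lemma br_smul_right (c : ℝ) (α β : Phase N →L[ℝ] ℝ) : br α (c • β) = c * br α β := by
  rw [br_swap, br_smul_left, br_swap β]
  ring

lemma br_self (α : Phase N →L[ℝ] ℝ) : br α α = 0 := by
  have := br_swap α α
  linarith

lemma fderiv_hamV_eq_br (f g : Phase N → ℝ) (p : Phase N) :
    fderiv ℝ g p (hamV f p) = br (fderiv ℝ f p) (fderiv ℝ g p) := by
  rw [fderiv_hamV_eq_bracket]
  rfl

lemma emb_eX (j : Fin N) : emb N (eX j) = eX j.succ := by
  ext i
  rcases i with i | i
  · refine Fin.cases ?_ (fun i => ?_) i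
    · simp [eX]
    · simp [eX, Pi.single_apply, Fin.succ_inj]
  · refine Fin.cases ?_ (fun i => ?_) i
    · simp [eX]
    · simp [eX]

lemma emb_eY (j : Fin N) : emb N (eY j) = eY j.succ := by
  ext i
  rcases i with i | i
  · refine Fin.cases ?_ (fun i => ?_) i
    · simp [eY]
    · simp [eY]
  · refine Fin.cases ?_ (fun i => ?_) i
    · simp [eY]
    · simp [eY, Pi.single_apply, Fin.succ_inj]

lemma br_succ (α β : Phase (N + 1) →L[ℝ] ℝ) :
    br α β = α (eX 0) * β (eY 0) - α (eY 0) * β (eX 0) +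
      br (α.comp (emb N)) (β.comp (emb N)) := by
  simp only [br, Fin.sum_univ_succ, ContinuousLinearMap.comp_apply, emb_eX, emb_eY]

/-- The components of a map. -/
lemma fderiv_inner_comp {E : Type*} [NormedAddCommGroup E] [NormedSpace ℝ E] {F : E → Phase k}
    {p : E} (hF : DifferentiableAt ℝ F p) (u : Phase k) :
    fderiv ℝ (fun q => inner ℝ u (F q)) p = (innerSL ℝ u).comp (fderiv ℝ F p) :=
  ((innerSL ℝ u).hasFDerivAt.comp p hF.hasFDerivAt).fderiv

lemma jpos_iff {F : Phase N → Phase k} (hF : Differentiable ℝ F) :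
    JPos F ↔ ∀ p (u : Phase k), u ≠ 0 →
      0 < br ((innerSL ℝ u).comp (fderiv ℝ F p)) ((innerSL ℝ (Jl k u)).comp (fderiv ℝ F p)) := by
  unfold JPos
  have key : ∀ p (u : Phase k), fderiv ℝ (fun q => inner ℝ (Jl k u) (F q)) p
      (hamV (fun q => inner ℝ u (F q)) p) =
      br ((innerSL ℝ u).comp (fderiv ℝ F p)) ((innerSL ℝ (Jl k u)).comp (fderiv ℝ F p)) := by
    intro p u
    rw [fderiv_hamV_eq_br, fderiv_inner_comp (hF _), fderiv_inner_comp (hF _)]
  simp only [key]

end Pool.Agent.H42.Hull
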