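import Mathlib
import Pool.Agent.H42.Hull.Basic

set_option maxSynthPendingDepth 3

open scoped ContDiff Topology unitInterval
open Set Function TopologicalSpace Filter

namespace Pool.Agent.H42.Hull

open Pool.Agent.Helper17 Pool.Agent.H50.Susp

variable {N k : ℕ}

lemma mkP_zero (a b : ℝ) : (Pool.Agent.H50.Susp.mkP a b (0 : Phase k)) = a • eX 0 + b • eY 0 := by
  simp [Pool.Agent.H50.Susp.mkP]

/-- The components of a map given by coordinates. -/
lemma comp_triple {g : Phase (N + 1) → ℝ} {H : Phase (N + 1) → Phase k}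
    {p : Phase (N + 1)} (hg : DifferentiableAt ℝ g p) (hH : DifferentiableAt ℝ H p) (a b : ℝ)
    (u : Phase k) :
    (innerSL ℝ (Pool.Agent.H50.Susp.mkP a b u)).comp
      (fderiv ℝ (fun q => Pool.Agent.H50.Susp.mkP (q (Sum.inl 0)) (g q) (H q)) p) =
      a • coordL (Sum.inl 0) + b • fderiv ℝ g p + (innerSL ℝ u).comp (fderiv ℝ H p) := by
  have h1 : HasFDerivAt (fun q : Phase (N + 1) =>
      (inner ℝ (Pool.Agent.H50.Susp.mkP a b u)
        (Pool.Agent.H50.Susp.mkP (q (Sum.inl 0)) (g q) (H q)) : ℝ))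
      (a • coordL (Sum.inl 0) + b • fderiv ℝ g p + (innerSL ℝ u).comp (fderiv ℝ H p)) p := by
    simp only [inner_mkP]
    exact ((((coordL (Sum.inl 0)).hasFDerivAt (x := p)).const_mul a).add
      (hg.hasFDerivAt.const_mul b)).add ((innerSL ℝ u).hasFDerivAt.comp p hH.hasFDerivAt)
  have h2 : DifferentiableAt ℝ
      (fun q : Phase (N + 1) => Pool.Agent.H50.Susp.mkP (q (Sum.inl 0)) (g q) (H q)) p := by
    have h3 : (fun q : Phase (N + 1) => Pool.Agent.H50.Susp.mkP (q (Sum.inl 0)) (g q) (H q)) =
        fun q => q (Sum.inl 0) • (eX 0 : Phase (k + 1)) + g q • eY 0 + emb k (H q) := rfl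
    rw [h3]
    exact ((((coordL (Sum.inl 0)).differentiableAt (x := p)).smul_const _).add
      (hg.smul_const _)).add ((emb k).differentiableAt.comp p hH)
  rw [← h1.fderiv, ← fderiv_inner_comp h2]

theorem slice : St_slice := by
  intro N k g H hg hH hpos A B Y hY hgY
  have hgd : Differentiable ℝ g := hg.differentiable (by simp)
  have hHd : Differentiable ℝ H := hH.differentiable (by simp)
  have hYd : Differentiable ℝ Y := hY.differentiable (by simp)
  have hmk : Differentiable ℝ
      (fun q : Phase (N + 1) => Pool.Agent.H50.Susp.mkP (q (Sum.inl 0)) (g q) (H q)) := by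
    intro p
    have h3 : (fun q : Phase (N + 1) => Pool.Agent.H50.Susp.mkP (q (Sum.inl 0)) (g q) (H q)) =
        fun q => q (Sum.inl 0) • (eX 0 : Phase (k + 1)) + g q • eY 0 + emb k (H q) := rfl
    rw [h3]
    exact ((((coordL (Sum.inl 0)).differentiableAt (x := p)).smul_const _).add
      ((hgd p).smul_const _)).add ((emb k).differentiableAt.comp p (hHd p))
  rw [jpos_iff hmk] at hpos
  -- the derivative of the section
  have hsec : ∀ w, HasFDerivAt (fun w : Phase N => Pool.Agent.H50.Susp.mkP A (Y w) w)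
      ((fderiv ℝ Y w).smulRight (eY 0) + emb N) w := by
    intro w
    have h1 : (fun w : Phase N => Pool.Agent.H50.Susp.mkP A (Y w) w) =
        fun w => A • (eX 0 : Phase (N + 1)) + Y w • eY 0 + emb N w := rfl
    rw [h1]
    have h2 := (((hYd w).hasFDerivAt.smul_const (eY 0 : Phase (N + 1))).const_add
      (A • (eX 0 : Phase (N + 1)))).add (emb N).hasFDerivAt
    exact h2
  have hHs : Differentiable ℝ (fun w => H (Pool.Agent.H50.Susp.mkP A (Y w) w)) := fun w =>
    ((hHd _).hasFDerivAt.comp w (hsec w)).differentiableAt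
  rw [jpos_iff hHs]
  intro w u hu
  set P := Pool.Agent.H50.Susp.mkP A (Y w) w with hP
  set dg := fderiv ℝ g P with hdg
  set dH := fderiv ℝ H P with hdH
  set X : Phase (N + 1) →L[ℝ] ℝ := coordL (Sum.inl 0) with hX
  have hXx : X (eX 0) = 1 := by rw [hX, coordL_apply, eX_inl_zero]
  have hXy : X (eY 0) = 0 := by rw [hX, coordL_apply, eY_inl]
  have hXe : X.comp (emb N) = 0 := by
    ext v
    simp [hX, coordL_apply]
  have hbr : ∀ (a b : ℝ) (v : Phase k), Pool.Agent.H50.Susp.mkP a b v ≠ 0 →
      0 < br (a • X + b • dg + (innerSL ℝ v).comp dH)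
        ((-b) • X + a • dg + (innerSL ℝ (Jl k v)).comp dH) := by
    intro a b v hne
    have h1 := hpos P (Pool.Agent.H50.Susp.mkP a b v) hne
    rw [Jl_mkP, comp_triple (hgd P) (hHd P), comp_triple (hgd P) (hHd P)] at h1
    exact h1
  -- the derivative of `g` in the direction of `y`
  set c := dg (eY 0) with hc
  have hbrX : ∀ β : Phase (N + 1) →L[ℝ] ℝ, br X β = β (eY 0) := by
    intro β
    rw [br_succ, hXx, hXy, hXe]
    simp [br]
  have hcpos : 0 < c := by
    have h1 := hbr 1 0 0 (by
      intro h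
      have h2 := congrArg (fun p : Phase (k + 1) => p (Sum.inl 0)) h
      simp at h2)
    have h2 : (innerSL ℝ (0 : Phase k)).comp dH = 0 := by
      ext v
      simp
    simp only [map_zero, neg_zero, zero_smul, one_smul, add_zero, zero_add] at h1
    rw [ContinuousLinearMap.zero_comp, add_zero, add_zero, hbrX] at h1
    exact h1
  have hdY : ∀ v, fderiv ℝ Y w v = -(dg (emb N v)) / c := by
    intro v
    have h1 : HasFDerivAt (fun w => g (Pool.Agent.H50.Susp.mkP A (Y w) w))
        (dg.comp ((fderiv ℝ Y w).smulRight (eY 0) + emb N)) w :=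
      (hgd P).hasFDerivAt.comp w (hsec w)
    have h2 : (fun w => g (Pool.Agent.H50.Susp.mkP A (Y w) w)) = fun _ => B := funext hgY
    rw [h2] at h1
    have h3 := h1.unique (hasFDerivAt_const B w)
    have h4 := congrArg (fun L : Phase N →L[ℝ] ℝ => L v) h3
    simp only [ContinuousLinearMap.comp_apply, _root_.add_apply,
      ContinuousLinearMap.smulRight_apply, map_add, map_smul, smul_eq_mul, _root_.zero_apply] at h4
    rw [← hc] at h4
    rw [eq_div_iff hcpos.ne']
    linarith
  have hdh : ∀ z : Phase k, (innerSL ℝ z).comp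
      (fderiv ℝ (fun w => H (Pool.Agent.H50.Susp.mkP A (Y w) w)) w) =
      ((innerSL ℝ z).comp dH - (((innerSL ℝ z).comp dH) (eY 0) / c) • dg).comp (emb N) := by
    intro z
    have h0 : HasFDerivAt (fun w => H (Pool.Agent.H50.Susp.mkP A (Y w) w))
        (dH.comp ((fderiv ℝ Y w).smulRight (eY 0) + emb N)) w :=
      (hHd P).hasFDerivAt.comp w (hsec w)
    rw [h0.fderiv]
    ext v
    simp only [ContinuousLinearMap.comp_apply, _root_.add_apply, _root_.sub_apply,
      ContinuousLinearMap.smulRight_apply, map_add, map_smul, smul_eq_mul, _root_.smul_apply, hdY]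
    field_simp
    ring
  rw [hdh, hdh]
  set d1 := (innerSL ℝ u).comp dH with hd1
  set d2 := (innerSL ℝ (Jl k u)).comp dH with hd2
  set l1 := d1 (eY 0) / c with hl1
  set l2 := d2 (eY 0) / c with hl2
  set m1 := -(br d1 dg) / c with hm1
  set k1 := d1 - l1 • dg + m1 • X with hk1
  have e1 : (d1 - l1 • dg).comp (emb N) = k1.comp (emb N) := by
    rw [hk1, ContinuousLinearMap.add_comp, ContinuousLinearMap.smul_comp, hXe, smul_zero, add_zero]
  have hk1y : k1 (eY 0) = 0 := by
    simp only [hk1, _root_.add_apply, _root_.sub_apply, _root_.smul_apply, smul_eq_mul, hXy,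
      mul_zero, add_zero, ← hc, hl1]
    field_simp
    ring
  have hk2y : (d2 - l2 • dg) (eY 0) = 0 := by
    simp only [_root_.sub_apply, _root_.smul_apply, smul_eq_mul, ← hc, hl2]
    field_simp
    ring
  have hbk : br (k1.comp (emb N)) ((d2 - l2 • dg).comp (emb N)) = br k1 (d2 - l2 • dg) := by
    rw [br_succ k1, hk1y, hk2y]
    ring
  rw [e1, hbk]
  -- brackets with `x` and `g` vanish
  have hkX : br k1 X = 0 := by rw [br_swap, hbrX, hk1y, neg_zero]
  have hkg : br k1 dg = 0 := by
    have h1 : br k1 dg = br d1 dg - l1 * br dg dg + m1 * br X dg := by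
      rw [hk1, br_add_left, br_smul_left, sub_eq_add_neg, br_add_left, ← neg_smul, br_smul_left]
      ring
    rw [h1, br_self, hbrX, ← hc, hm1]
    field_simp
    ring
  have hne : Pool.Agent.H50.Susp.mkP m1 (-l1) u ≠ 0 := by
    intro h
    apply hu
    have h2 := congrArg (Pool.Agent.H50.Susp.wL k) h
    rwa [wL_mkP, map_zero] at h2
  have h1 := hbr m1 (-l1) u hne
  have e2 : m1 • X + (-l1) • dg + d1 = k1 := by
    rw [hk1, neg_smul]
    abel
  have e3 : d2 - l2 • dg = (-(-l1)) • X + m1 • dg + d2 + ((-l1) • X + (-(l2 + m1)) • dg) := by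
    rw [neg_neg, neg_smul, neg_smul, add_smul]
    abel
  rw [← hd1, ← hd2, e2] at h1
  rw [e3, br_add_right, br_add_right k1 ((-l1) • X), br_smul_right, br_smul_right, hkX, hkg]
  linarith

end Pool.Agent.H42.Hull
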