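import Mathlib
import Pool.Agent.H42.Hull.Slice

set_option maxSynthPendingDepth 3

open scoped ContDiff Topology unitInterval
open Set Function TopologicalSpace Filter

namespace Pool.Agent.H42.Hull

open Pool.Agent.Helper17 Pool.Agent.H50.Susp

section basics

variable {N k m : ℕ}

lemma prK_succ (p : Phase (m + (k + 1))) : prK m (k + 1) p =
    Pool.Agent.H50.Susp.mkP (p (Sum.inl 0)) (p (Sum.inr 0))
      (prK m k (Pool.Agent.H50.Susp.wL (m + k) p)) := rfl

/-- The bracket of linear forms in terms of the form. -/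
lemma br_eq_sharp (α β : Phase N →L[ℝ] ℝ) : br α β = β (-(sharp N α)) := by
  have h1 := fderiv_hamV_eq_br (N := N) (fun q => α q) (fun q => β q) 0
  rw [hamV, ContinuousLinearMap.fderiv, ContinuousLinearMap.fderiv] at h1
  exact h1.symm

/-- The bracket is invariant under symplectic linear maps. -/
lemma br_symp {A : Phase N →L[ℝ] Phase N}
    (hA : ∀ u v, omegaStd (A u) (A v) = omegaStd u v) (α β : Phase N →L[ℝ] ℝ) :
    br (α.comp A) (β.comp A) = br α β := by
  rw [br_eq_sharp, br_eq_sharp]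
  have h1 : A (-(sharp N (α.comp A))) = -(sharp N α) := by
    rw [← sub_eq_zero]
    apply eq_zero_of_omegaStd
    intro w'
    obtain ⟨w, rfl⟩ := symp_surjective hA w'
    rw [omegaStd_sub_left, hA]
    have h2 : omegaStd (-(sharp N (α.comp A))) w = -(α (A w)) := by
      have h3 : -(sharp N (α.comp A)) = (-1 : ℝ) • sharp N (α.comp A) := by simp
      rw [h3, omegaStd_smul_left, omegaStd_sharp]
      simp
    have h4 : omegaStd (-(sharp N α)) (A w) = -(α (A w)) := by
      have h3 : -(sharp N α) = (-1 : ℝ) • sharp N α := by simp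
      rw [h3, omegaStd_smul_left, omegaStd_sharp]
      simp
    rw [h2, h4, sub_self]
  rw [ContinuousLinearMap.comp_apply, h1]

/-- `J`-positivity is preserved by symplectic maps of the source. -/
lemma JPos.comp {F : Phase N → Phase k} (h : JPos F) (hF : Differentiable ℝ F)
    {ψ : Phase N → Phase N} (hψ : Differentiable ℝ ψ)
    (hs : ∀ p u v, omegaStd (fderiv ℝ ψ p u) (fderiv ℝ ψ p v) = omegaStd u v) :
    JPos (fun p => F (ψ p)) := by
  rw [jpos_iff hF] at h
  have hFψ : Differentiable ℝ (fun p => F (ψ p)) := hF.comp hψ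
  rw [jpos_iff hFψ]
  intro p u hu
  have h1 : fderiv ℝ (fun p => F (ψ p)) p = (fderiv ℝ F (ψ p)).comp (fderiv ℝ ψ p) :=
    ((hF _).hasFDerivAt.comp p (hψ p).hasFDerivAt).fderiv
  rw [h1, ← ContinuousLinearMap.comp_assoc, ← ContinuousLinearMap.comp_assoc, br_symp (hs p)]
  exact h _ u hu

lemma mkP_ne_zero {a b : ℝ} {u : Phase k} (h : a ≠ 0) :
    Pool.Agent.H50.Susp.mkP a b u ≠ 0 := by
  intro h1
  have h2 := congrArg (fun p : Phase (k + 1) => p (Sum.inl 0)) h1
  rw [mkP_x] at h2
  exact h (by simpa using h2)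

/-- The first pair of components of a `J`-positive family is a positive pair. -/
lemma JFam.posPair {T : Type} [TopologicalSpace T] {R : ℝ}
    {F : T → Phase (m + (k + 1)) → Phase (k + 1)} (h : JFam m (k + 1) R F) :
    PosPair (N := m + k + 1) 0 R (fun t p => (F t p) (Sum.inl 0))
      (fun t p => (F t p) (Sum.inr 0)) := by
  refine ⟨h.cf.clm (coordL (Sum.inl 0)), h.cf.clm (coordL (Sum.inr 0)), ?_, ?_, ?_⟩
  · intro t p hp
    change (F t p) (Sum.inl 0) = _
    rw [h.std t p hp, prK_succ, mkP_x]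
  · intro t p hp
    change (F t p) (Sum.inr 0) = _
    rw [h.std t p hp, prK_succ, mkP_y]
  · intro t p
    have h1 := h.pos t p (Pool.Agent.H50.Susp.mkP 1 0 0) (mkP_ne_zero one_ne_zero)
    have e : ∀ (a b : ℝ), (fun q => (inner ℝ (Pool.Agent.H50.Susp.mkP a b (0 : Phase k)) (F t q) : ℝ)) =
        fun q => a * (F t q) (Sum.inl 0) + b * (F t q) (Sum.inr 0) := by
      intro a b
      funext q
      conv_lhs => rw [← mkP_eta (F t q)]
      rw [inner_mkP, inner_zero_left, add_zero]
    rw [Jl_mkP, map_zero, e, e] at h1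
    simp only [one_mul, zero_mul, add_zero, neg_zero, zero_add] at h1
    exact h1

end basics

section slices

variable {m k : ℕ} {T : Type} [TopologicalSpace T] [CompactSpace T] {R : ℝ}
  {F : T → Phase (m + (k + 1)) → Phase (k + 1)}
  {Φ Ψ : T → Phase (m + k + 1) → Phase (m + k + 1)}

/-- The `y`-component along the lines, in straightened coordinates. -/
noncomputable def gS (F : T → Phase (m + (k + 1)) → Phase (k + 1))
    (Ψ : T → Phase (m + k + 1) → Phase (m + k + 1)) (t : T) (x y : ℝ) (w : Phase (m + k)) : ℝ :=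
  (F t (Ψ t (Pool.Agent.H50.Susp.mkP x y w))) (Sum.inr 0)

lemma hasDerivAt_gS (hF : JFam m (k + 1) R F)
    (h : StraightFam (N := m + k + 1) 0 R (fun t p => (F t p) (Sum.inl 0)) Φ Ψ)
    (t : T) (x y : ℝ) (w : Phase (m + k)) :
    HasDerivAt (fun y => gS F Ψ t x y w)
      (fderiv ℝ (fun p => (F t p) (Sum.inr 0)) (Ψ t (Pool.Agent.H50.Susp.mkP x y w))
        (hamV (fun p => (F t p) (Sum.inl 0)) (Ψ t (Pool.Agent.H50.Susp.mkP x y w)))) y := by
  have h1 := h.orbit_line t (Pool.Agent.H50.Susp.mkP x 0 w) y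
  simp only [mkP_add_eY, zero_add] at h1
  exact (hF.posPair.cg.differentiable t _).hasFDerivAt.comp_hasDerivAt y h1

lemma gS_strictMono (hF : JFam m (k + 1) R F)
    (h : StraightFam (N := m + k + 1) 0 R (fun t p => (F t p) (Sum.inl 0)) Φ Ψ)
    (t : T) (x : ℝ) (w : Phase (m + k)) : StrictMono (fun y => gS F Ψ t x y w) := by
  apply strictMono_of_deriv_pos
  intro y
  rw [(hasDerivAt_gS hF h t x y w).deriv]
  exact hF.posPair.pos t _

lemma gS_bound (hR : 0 ≤ R) (hF : JFam m (k + 1) R F)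
    (h : StraightFam (N := m + k + 1) 0 R (fun t p => (F t p) (Sum.inl 0)) Φ Ψ) :
    ∃ C : ℝ, ∀ t x y w, |gS F Ψ t x y w - y| ≤ C := by
  obtain ⟨C1, hC1, -, hC2⟩ := h.exists_disp hR
  obtain ⟨C, hC0, hC⟩ := exists_bound_of_support (G := fun t (p : Phase (m + k + 1)) =>
    (F t p) (Sum.inr 0) - p (Sum.inr 0)) (R := R) (hF.posPair.cg.continuous.sub
      ((coordL (Sum.inr 0)).continuous.comp continuous_snd)) (by
      intro t p hp
      change (F t p) (Sum.inr 0) - p (Sum.inr 0) = 0
      rw [sub_eq_zero]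
      exact hF.posPair.gstd t p hp)
  refine ⟨C + C1, fun t x y w => ?_⟩
  have h1 := hC t (Ψ t (Pool.Agent.H50.Susp.mkP x y w))
  have h2 := y_disp_le (i := 0) (hC2 t (Pool.Agent.H50.Susp.mkP x y w))
  rw [mkP_y] at h2
  rw [Real.norm_eq_abs] at h1
  have h3 : gS F Ψ t x y w - y = ((F t (Ψ t (Pool.Agent.H50.Susp.mkP x y w))) (Sum.inr 0) -
      (Ψ t (Pool.Agent.H50.Susp.mkP x y w)) (Sum.inr 0)) +
      ((Ψ t (Pool.Agent.H50.Susp.mkP x y w)) (Sum.inr 0) - y) := by
    unfold gS
    ring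
  rw [h3]
  exact (abs_add_le _ _).trans (add_le_add h1 h2)

lemma exists_gS_eq (hR : 0 ≤ R) (hF : JFam m (k + 1) R F)
    (h : StraightFam (N := m + k + 1) 0 R (fun t p => (F t p) (Sum.inl 0)) Φ Ψ)
    (t : T) (x b : ℝ) (w : Phase (m + k)) : ∃ y, gS F Ψ t x y w = b := by
  obtain ⟨C, hC⟩ := gS_bound hR hF h
  have hc : Continuous (fun y => gS F Ψ t x y w) :=
    continuous_iff_continuousAt.2 fun y => (hasDerivAt_gS hF h t x y w).continuousAt
  have h1 := hC t x (b - C) w
  have h2 := hC t x (b + C) w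
  rw [abs_le] at h1 h2
  have h3 : b ∈ Icc (gS F Ψ t x (b - C) w) (gS F Ψ t x (b + C) w) :=
    ⟨by linarith [h1.2], by linarith [h2.1]⟩
  have hC0 : 0 ≤ C := (abs_nonneg _).trans (hC t x 0 w)
  obtain ⟨y, -, hy⟩ := intermediate_value_Icc (by linarith : b - C ≤ b + C) hc.continuousOn h3
  exact ⟨y, hy⟩

end slices

/-- **The family of slices.** -/
theorem slices (himp : St_implicit) : St_slices := by
  intro m k T _ _ R hR F hF
  have hP := hF.posPair
  obtain ⟨Φ, Ψ, h⟩ := exists_straightFam hR hP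
  set ρ : ℝ := R + 1 with hρ
  have hρR : R < ρ := by rw [hρ]; linarith
  set e : C(T × I, SympCt (m + k)) := scatE h hP.fstd ρ with he
  have heCF : CF (fun (q : T × I) w => (e q : Equiv.Perm (Phase (m + k))) w) :=
    (CF_of_continuous e.continuous).1
  -- the sections
  choose Y hY using exists_gS_eq hR hF h
  have hYu : ∀ t x b w y, gS F Ψ t x y w = b → Y t x b w = y := fun t x b w y hy =>
    (gS_strictMono hF h t x w).injective ((hY t x b w).trans hy.symm)
  have hmkn : ∀ (x y : ℝ) (w : Phase (m + k)), ‖w‖ ≤ ‖(mkP x y w : Phase (m + k + 1))‖ :=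
    fun x y w => by
      have := norm_wL_le (mkP x y w : Phase (m + k + 1))
      rwa [wL_mkP] at this
  -- smoothness
  have hYCF : CF (fun (q : (T × I) × I) w => Y q.1.1 (lev ρ q.1.2) (lev ρ q.2) w) := by
    have hlev : Continuous (lev ρ) := by
      unfold lev
      exact continuous_const.mul ((continuous_const.mul continuous_subtype_val).sub
        continuous_const)
    refine himp ((T × I) × I) (Phase (m + k)) (fun q z =>
      gS F Ψ q.1.1 (lev ρ q.1.2) z.1 z.2 - lev ρ q.2) ?_ ?_ _ ?_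
    · have c1 : Continuous (fun q : (T × I) × I => q.1.1) := continuous_fst.fst
      have hmk : CF (fun (q : (T × I) × I) (z : ℝ × Phase (m + k)) =>
          (Pool.Agent.H50.Susp.mkP (lev ρ q.1.2) z.1 z.2 : Phase (m + k + 1))) :=
        CF.mkP (CF.param (hlev.comp continuous_fst.snd)) (CF.const contDiff_fst)
          (CF.const contDiff_snd)
      exact ((hP.cg.base c1).comp ((h.cf'.base c1).comp hmk)).sub
        (CF.param (hlev.comp continuous_snd))
    · intro q z
      have h1 := hasDerivAt_gS hF h q.1.1 (lev ρ q.1.2) z.1 z.2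
      have hd : DifferentiableAt ℝ (fun z : ℝ × Phase (m + k) =>
          gS F Ψ q.1.1 (lev ρ q.1.2) z.1 z.2 - lev ρ q.2) z := by
        have hmk : Differentiable ℝ (fun z : ℝ × Phase (m + k) =>
            (Pool.Agent.H50.Susp.mkP (lev ρ q.1.2) z.1 z.2 : Phase (m + k + 1))) :=
          (contDiff_mkP contDiff_const contDiff_fst contDiff_snd).differentiable one_ne_zero
        exact (((hP.cg.differentiable q.1.1).comp ((h.cf'.differentiable q.1.1).comp hmk))
          z).sub_const _
      have hline : HasDerivAt (fun y : ℝ => ((y, z.2) : ℝ × Phase (m + k))) (1, 0) z.1 :=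
        (hasDerivAt_id z.1).prodMk (hasDerivAt_const z.1 z.2)
      have h2 := hd.hasFDerivAt.comp_hasDerivAt z.1 hline
      have h3 : HasDerivAt (fun y : ℝ => gS F Ψ q.1.1 (lev ρ q.1.2) y z.2 - lev ρ q.2) _ z.1 :=
        h1.sub_const (lev ρ q.2)
      have h4 := h2.unique h3
      rw [h4]
      exact hP.pos q.1.1 _
    · intro q w
      rw [sub_eq_zero]
      exact hY _ _ _ _
  -- the slices
  set Z1 : (T × I) × I → Phase (m + k) → Phase k := fun q w =>
    Pool.Agent.H50.Susp.wL k (F q.1.1 (Ψ q.1.1 (Pool.Agent.H50.Susp.mkP (lev ρ q.1.2)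
      (Y q.1.1 (lev ρ q.1.2) (lev ρ q.2) w) w))) with hZ1
  have hlev : Continuous (lev ρ) := by
    unfold lev
    exact continuous_const.mul ((continuous_const.mul continuous_subtype_val).sub
      continuous_const)
  have c1 : Continuous (fun q : (T × I) × I => q.1.1) := continuous_fst.fst
  have hZ1CF : CF Z1 := by
    have hmk : CF (fun (q : (T × I) × I) (w : Phase (m + k)) =>
        (Pool.Agent.H50.Susp.mkP (lev ρ q.1.2) (Y q.1.1 (lev ρ q.1.2) (lev ρ q.2) w) w :
          Phase (m + k + 1))) :=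
      CF.mkP (CF.param (hlev.comp continuous_fst.snd)) hYCF (CF.const contDiff_id)
    exact ((hF.cf.base c1).comp ((h.cf'.base c1).comp hmk)).clm (Pool.Agent.H50.Susp.wL k)
  -- `J`-positivity of the slices
  have hFΨ : ∀ t, JPos (fun p => F t (Ψ t p)) := fun t =>
    (hF.pos t).comp (hF.cf.differentiable t) (h.cf'.differentiable t) (h.symp' t)
  have hFΨe : ∀ t p, F t (Ψ t p) = Pool.Agent.H50.Susp.mkP (p (Sum.inl 0))
      ((F t (Ψ t p)) (Sum.inr 0)) (Pool.Agent.H50.Susp.wL k (F t (Ψ t p))) := by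
    intro t p
    have h1 := mkP_eta (F t (Ψ t p))
    have h2 : (F t (Ψ t p)) (Sum.inl 0) = p (Sum.inl 0) := by
      have h3 := h.energy t (Ψ t p)
      rw [h.inv_right] at h3
      exact h3.symm
    rw [h2] at h1
    exact h1.symm
  have hZ1pos : ∀ q, JPos (Z1 q) := by
    intro q
    have hg : ContDiff ℝ ∞ (fun p : Phase (m + k + 1) => (F q.1.1 (Ψ q.1.1 p)) (Sum.inr 0)) :=
      (coordL (Sum.inr 0)).contDiff.comp ((hF.cf.contDiff q.1.1).comp (h.cf'.contDiff q.1.1))
    have hH : ContDiff ℝ ∞ (fun p : Phase (m + k + 1) =>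
        Pool.Agent.H50.Susp.wL k (F q.1.1 (Ψ q.1.1 p))) :=
      (Pool.Agent.H50.Susp.wL k).contDiff.comp
        ((hF.cf.contDiff q.1.1).comp (h.cf'.contDiff q.1.1))
    have h1 := slice (m + k) k _ _ hg hH (by
      have h2 := hFΨ q.1.1
      have h3 : (fun p => F q.1.1 (Ψ q.1.1 p)) = fun p : Phase (m + k + 1) =>
          Pool.Agent.H50.Susp.mkP (p (Sum.inl 0)) ((F q.1.1 (Ψ q.1.1 p)) (Sum.inr 0))
            (Pool.Agent.H50.Susp.wL k (F q.1.1 (Ψ q.1.1 p))) := funext fun p => hFΨe q.1.1 p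
      rw [h3] at h2
      exact h2) (lev ρ q.1.2) (lev ρ q.2) (fun w => Y q.1.1 (lev ρ q.1.2) (lev ρ q.2) w)
      (hYCF.contDiff q) (fun w => hY _ _ _ _)
    exact h1
  -- the standard region
  have hstd1 : ∀ (t : T) (x y : ℝ) (w : Phase (m + k)),
      (y < -R ∨ R < |x| ∨ R < ‖w‖) → F t (Ψ t (Pool.Agent.H50.Susp.mkP x y w)) =
        Pool.Agent.H50.Susp.mkP x y (prK m k w) := by
    intro t x y w hc
    have h1 : Ψ t (Pool.Agent.H50.Susp.mkP x y w) = Pool.Agent.H50.Susp.mkP x y w := by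
      rcases hc with hc | hc | hc
      · exact h.left' t _ (by rwa [mkP_y])
      · exact h.side' t _ (hc.trans_le (norm_side_mkP_x x y w))
      · exact h.side' t _ (hc.trans_le (norm_side_mkP_w x y w))
    have h2 : R < ‖(Pool.Agent.H50.Susp.mkP x y w : Phase (m + k + 1))‖ := by
      rcases hc with hc | hc | hc
      · have h3 := abs_coord_le (Pool.Agent.H50.Susp.mkP x y w : Phase (m + k + 1)) (Sum.inr 0)
        rw [mkP_y] at h3
        have h4 := neg_abs_le y
        linarith
      · exact (hc.trans_le (norm_side_mkP_x x y w)).trans_le (norm_side_le 0 _)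
      · exact (hc.trans_le (norm_side_mkP_w x y w)).trans_le (norm_side_le 0 _)
    rw [h1, hF.std t _ h2, prK_succ, mkP_x, mkP_y, wL_mkP]
  have hstdY : ∀ (t : T) (x b : ℝ) (w : Phase (m + k)),
      (b < -R ∨ R < |x| ∨ R < ‖w‖) → Y t x b w = b := by
    intro t x b w hc
    apply hYu
    unfold gS
    rw [hstd1 t x b w hc, mkP_y]
  have hstdZ : ∀ (q : (T × I) × I) (w : Phase (m + k)),
      (lev ρ q.2 < -R ∨ R < |lev ρ q.1.2| ∨ R < ‖w‖) → Z1 q w = prK m k w := by
    intro q w hc
    simp only [hZ1]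
    rw [hstdY _ _ _ _ hc, hstd1 _ _ _ _ hc, wL_mkP]
  -- the scattering
  have heout : ∀ q (w : Phase (m + k)), R < ‖w‖ → (e q : Equiv.Perm (Phase (m + k))) w = w :=
    fun q w hw => (h.end_eq q.1 (Or.inr hw)).1
  have heside : ∀ t a, R < |lev ρ a| → e (t, a) = 1 := by
    intro t a ha
    apply SympCt.ext'
    intro w
    exact (h.end_eq t (Or.inl ha)).1
  have hright : ∀ (t : T) (x : ℝ) (w : Phase (m + k)), ∃ y,
      Ψ t (Pool.Agent.H50.Susp.mkP x y (endW Φ R t (x, w))) = Pool.Agent.H50.Susp.mkP x ρ w := by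
    intro t x w
    refine ⟨ρ + endH Φ R t (x, w), ?_⟩
    rw [← h.right_eq hP.fstd t w hρR, h.inv_left]
  have hFright : ∀ (t : T) (x : ℝ) (w : Phase (m + k)),
      F t (Pool.Agent.H50.Susp.mkP x ρ w) = Pool.Agent.H50.Susp.mkP x ρ (prK m k w) := by
    intro t x w
    have h2 : R < ‖(Pool.Agent.H50.Susp.mkP x ρ w : Phase (m + k + 1))‖ := by
      have h3 := abs_coord_le (Pool.Agent.H50.Susp.mkP x ρ w : Phase (m + k + 1)) (Sum.inr 0)
      rw [mkP_y] at h3
      have h4 := le_abs_self ρ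
      linarith
    rw [hF.std t _ h2, prK_succ, mkP_x, mkP_y, wL_mkP]
  -- the reversed family
  have hlevσ0 : lev ρ (unitInterval.symm (0 : I)) = ρ := by
    rw [unitInterval.symm_zero, lev_one]
  have hlevσ1 : lev ρ (unitInterval.symm (1 : I)) = -ρ := by
    rw [unitInterval.symm_one, lev_zero]
  set Z : (T × I) × I → Phase (m + k) → Phase k := fun q w =>
    Z1 (q.1, unitInterval.symm q.2) ((e q.1 : Equiv.Perm (Phase (m + k))) w) with hZ
  refine ⟨e, R, Z, isScat_scatE h hR hP.fstd hρR, hR, ⟨?_, ?_, ?_⟩, ?_, ?_, ?_, ?_⟩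
  · exact (hZ1CF.base (h := fun q : (T × I) × I => (q.1, unitInterval.symm q.2))
      (continuous_fst.prodMk (unitInterval.continuous_symm.comp continuous_snd))).comp
      (heCF.base continuous_fst)
  · intro q w hw
    simp only [hZ]
    rw [heout _ _ hw]
    exact hstdZ _ _ (Or.inr (Or.inr hw))
  · intro q
    exact (hZ1pos _).comp (hZ1CF.differentiable _) (SympCt.differentiable (e q.1))
      (fun p u v => (e q.1).2.2.2.1 p u v)
  · intro q w
    obtain ⟨y, hy⟩ := hright q.1 (lev ρ q.2) w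
    have h1 : ((e q : Equiv.Perm (Phase (m + k))) w) = endW Φ R q.1 (lev ρ q.2, w) := rfl
    have h2 : Y q.1 (lev ρ q.2) ρ ((e q : Equiv.Perm (Phase (m + k))) w) = y := by
      apply hYu
      unfold gS
      rw [h1, hy, hFright, mkP_y]
    simp only [hZ, hZ1, hlevσ0]
    rw [h2, h1, hy, hFright, wL_mkP]
  · intro q w
    simp only [hZ]
    apply hstdZ
    left
    simp only [hlevσ1]
    linarith
  · intro t a ha
    have h1 : R < |lev ρ a| := by
      rw [abs_lev (by linarith) ha]
      exact hρR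
    refine ⟨heside t a h1, fun b w => ?_⟩
    simp only [hZ]
    rw [heside t a h1]
    exact hstdZ _ _ (Or.inr (Or.inl h1))
  · intro t φ hφ a
    have h1 : ∀ p, Φ t p = (φ : Equiv.Perm (Phase (m + k + 1))) p := by
      apply h.eq_of t φ
      intro p
      beta_reduce
      rw [hφ p, prK_succ, mkP_x]
    have h2 : ∀ p, F t (Ψ t p) = prK m (k + 1) p := by
      intro p
      rw [hφ, ← h1, h.inv_right]
    have h3 : ∀ x (w : Phase (m + k)), Φ t (Pool.Agent.H50.Susp.mkP x ρ w) =
        Pool.Agent.H50.Susp.mkP x ρ w := by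
      intro x w
      obtain ⟨-, -, -, K, hK, hφK⟩ := φ.2
      obtain ⟨B, hB⟩ := hK.isBounded.subset_closedBall (0 : Phase (m + k + 1))
      have h4 := h.shift t (Pool.Agent.H50.Susp.mkP x ρ w) |B| (by rwa [mkP_y]) (abs_nonneg B)
      have h5 : Φ t (Pool.Agent.H50.Susp.mkP x ρ w + |B| • eY 0) =
          Pool.Agent.H50.Susp.mkP x ρ w + |B| • eY 0 := by
        rw [h1]
        apply hφK
        intro hmem
        have h6 := hB hmem
        rw [mem_closedBall_zero_iff, mkP_add_eY] at h6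
        have h7 := abs_coord_le (Pool.Agent.H50.Susp.mkP x (ρ + |B|) w : Phase (m + k + 1))
          (Sum.inr 0)
        rw [mkP_y] at h7
        have h8 := le_abs_self (ρ + |B|)
        have h9 := le_abs_self B
        linarith
      rw [h5] at h4
      exact (add_right_cancel h4).symm
    have h4 : e (t, a) = 1 := by
      apply SympCt.ext'
      intro w
      change Pool.Agent.H50.Susp.wL (m + k) (Φ t (Pool.Agent.H50.Susp.mkP (lev ρ a) (R + 1) w)) = w
      rw [← hρ, h3, wL_mkP]
    refine ⟨h4, fun b w => ?_⟩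
    simp only [hZ]
    rw [h4]
    change Z1 ((t, a), unitInterval.symm b) w = prK m k w
    have h5 : Y t (lev ρ a) (lev ρ (unitInterval.symm b)) w = lev ρ (unitInterval.symm b) := by
      apply hYu
      unfold gS
      rw [h2, prK_succ, mkP_y, mkP_y]
    simp only [hZ1]
    rw [h5, h2, prK_succ, wL_mkP, wL_mkP]

end Pool.Agent.H42.Hull
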