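import Mathlib
import Pool.Agent.H42.Hull.Slices

set_option maxSynthPendingDepth 3

open scoped ContDiff Topology unitInterval
open Set Function TopologicalSpace Filter

namespace Pool.Agent.H42.Hull

open Pool.Agent.Helper17 Pool.Agent.H50.Susp Pool.Agent.Helper42

lemma fstPt_succ (m k : ℕ) (p : Phase (m + (k + 1))) : fstPt m (k + 1) p =
    Pool.Agent.H50.Susp.mkP (p (Sum.inl 0)) (p (Sum.inr 0))
      (fstPt m k (Pool.Agent.H50.Susp.wL (m + k) p)) := by
  apply ext_xyw
  · rw [Pool.Agent.H50.Susp.mkP_x]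
    rfl
  · rw [Pool.Agent.H50.Susp.mkP_y]
    rfl
  · rw [Pool.Agent.H50.Susp.wL_mkP]
    ext i
    rcases i with i | i
    · rfl
    · rfl

lemma prK_eq_fstPt (m : ℕ) : ∀ (k : ℕ) (p : Phase (m + k)), prK m k p = fstPt m k p := by
  intro k
  induction k with
  | zero =>
    intro p
    exact Subsingleton.elim _ _
  | succ k ih =>
    intro p
    rw [prK_succ, fstPt_succ, ih]

lemma incPt_mkP (m k : ℕ) (a b : ℝ) (u : Phase k) :
    incPt m (k + 1) (Pool.Agent.H50.Susp.mkP a b u) =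
      (Pool.Agent.H50.Susp.mkP a b (incPt m k u) : Phase (m + k + 1)) := by
  apply ext_xyw
  · rw [Pool.Agent.H50.Susp.mkP_x]
    have h0 : ((0 : Fin (m + k + 1)) : ℕ) < k + 1 := by simp
    change (if h : ((0 : Fin (m + k + 1)) : ℕ) < k + 1 then
      (Pool.Agent.H50.Susp.mkP a b u) (Sum.inl ⟨_, h⟩) else 0) = a
    rw [dif_pos h0]
    exact Pool.Agent.H50.Susp.mkP_x a b u
  · rw [Pool.Agent.H50.Susp.mkP_y]
    have h0 : ((0 : Fin (m + k + 1)) : ℕ) < k + 1 := by simp
    change (if h : ((0 : Fin (m + k + 1)) : ℕ) < k + 1 then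
      (Pool.Agent.H50.Susp.mkP a b u) (Sum.inr ⟨_, h⟩) else 0) = b
    rw [dif_pos h0]
    exact Pool.Agent.H50.Susp.mkP_y a b u
  · rw [Pool.Agent.H50.Susp.wL_mkP]
    ext i
    rcases i with i | i
    · change (if h : ((i.succ : Fin (m + k + 1)) : ℕ) < k + 1 then
        (Pool.Agent.H50.Susp.mkP a b u) (Sum.inl ⟨_, h⟩) else 0) =
        (if h : (i : ℕ) < k then u (Sum.inl ⟨i, h⟩) else 0)
      by_cases h : (i : ℕ) < k
      · have h1 : ((i.succ : Fin (m + k + 1)) : ℕ) < k + 1 := by simpa using h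
        rw [dif_pos h1, dif_pos h]
        have h2 := congrArg (fun v : Phase k => v (Sum.inl ⟨i, h⟩))
          (Pool.Agent.H50.Susp.wL_mkP a b u)
        exact h2
      · have h1 : ¬ ((i.succ : Fin (m + k + 1)) : ℕ) < k + 1 := by simpa using h
        rw [dif_neg h1, dif_neg h]
    · change (if h : ((i.succ : Fin (m + k + 1)) : ℕ) < k + 1 then
        (Pool.Agent.H50.Susp.mkP a b u) (Sum.inr ⟨_, h⟩) else 0) =
        (if h : (i : ℕ) < k then u (Sum.inr ⟨i, h⟩) else 0)
      by_cases h : (i : ℕ) < k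
      · have h1 : ((i.succ : Fin (m + k + 1)) : ℕ) < k + 1 := by simpa using h
        rw [dif_pos h1, dif_pos h]
        have h2 := congrArg (fun v : Phase k => v (Sum.inr ⟨i, h⟩))
          (Pool.Agent.H50.Susp.wL_mkP a b u)
        exact h2
      · have h1 : ¬ ((i.succ : Fin (m + k + 1)) : ℕ) < k + 1 := by simpa using h
        rw [dif_neg h1, dif_neg h]

lemma inner_incPt (m : ℕ) : ∀ (k : ℕ) (u : Phase k) (p : Phase (m + k)),
    inner ℝ (incPt m k u) p = inner ℝ u (prK m k p) := by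
  intro k
  induction k with
  | zero =>
    intro u p
    have h1 : incPt m 0 u = 0 := by
      ext i
      rcases i with i | i
      · change (if h : (i : ℕ) < 0 then u (Sum.inl ⟨i, h⟩) else 0) = (0 : ℝ)
        rw [dif_neg (Nat.not_lt_zero _)]
      · change (if h : (i : ℕ) < 0 then u (Sum.inr ⟨i, h⟩) else 0) = (0 : ℝ)
        rw [dif_neg (Nat.not_lt_zero _)]
    have h2 : u = 0 := Subsingleton.elim _ _
    rw [h1, h2, inner_zero_left, inner_zero_left]
  | succ k ih =>
    intro u p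
    conv_lhs => rw [← mkP_eta u, incPt_mkP, ← mkP_eta (n := m + k) p]
    conv_rhs => rw [← mkP_eta u]
    rw [inner_mkP, prK_succ, inner_mkP, ih]

lemma incK_eq_incPt (m k : ℕ) (u : Phase k) : incK m k u = incPt m k u := by
  apply ext_inner_right ℝ
  intro p
  rw [incK, ContinuousLinearMap.adjoint_inner_left, inner_incPt]

lemma Jl_eq_rotJ {k : ℕ} (u : Phase k) : Jl k u = rotJ u := rfl

/-- The two forms of the values of the block. -/
lemma numVal_eq (m k : ℕ) (M : Phase (m + k) →L[ℝ] Phase (m + k)) (u : Phase k) :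
    numVal m k M u = hermVal (fun v => fstPt m k (M (incPt m k v))) u := by
  simp only [numVal, hermVal, prK_eq_fstPt, incK_eq_incPt, Jl_eq_rotJ]

lemma fderiv_conj {m k j : ℕ} (φ ψ : LoopG j (m + k)) (S : Phase (m + k) ≃L[ℝ] Phase (m + k))
    (h : ∀ t p, ψ.at t p = S.symm (φ.at t (S p))) (t : Fin j → I) (p v : Phase (m + k)) :
    fderiv ℝ (ψ.at t) p v = S.symm (fderiv ℝ (φ.at t) (S p) (S v)) := by
  have h1 : HasFDerivAt (ψ.at t) ((S.symm : Phase (m + k) →L[ℝ] Phase (m + k)).comp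
      ((fderiv ℝ (φ.at t) (S p)).comp (S : Phase (m + k) →L[ℝ] Phase (m + k)))) p := by
    have h2 : ψ.at t = fun p => S.symm (φ.at t (S p)) := funext (h t)
    rw [h2]
    exact S.symm.hasFDerivAt.comp p
      ((SympCt.differentiable (φ.1 t) _).hasFDerivAt.comp p S.hasFDerivAt)
  rw [h1.fderiv]
  rfl

end Pool.Agent.H42.Hull
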