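import Mathlib
import Pool.Agent.H42.Hull.Basic
import Pool.Agent.H42.Hull.Slices

set_option maxSynthPendingDepth 3

open scoped ContDiff Topology unitInterval
open Set Function TopologicalSpace Filter

namespace Pool.Agent.H42.Hull

open Pool.Agent.Helper17 Pool.Agent.H50.Susp Pool.Agent.Helper42

variable {n : ℕ}

/-- The symplectic adjoint of the linear map `S`, which is the inverse if `S` is symplectic. -/
noncomputable def sAdj (n : ℕ) (S : Phase n →L[ℝ] Phase n) : Phase n →L[ℝ] Phase n :=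
  -((Jc n).comp ((ContinuousLinearMap.adjoint S).comp (Jc n)))

lemma omegaStd_eq_inner_Jc (u v : Phase n) : omegaStd u v = inner ℝ (Jc n u) v :=
  omegaStd_eq_inner u v

lemma sAdj_comp {S : Phase n →L[ℝ] Phase n} (hS : ∀ u v, omegaStd (S u) (S v) = omegaStd u v)
    (u : Phase n) : sAdj n S (S u) = u := by
  rw [← sub_eq_zero]
  apply eq_zero_of_omegaStd
  intro v
  rw [omegaStd_sub_left, ← hS u v, sub_eq_zero]
  have h1 : sAdj n S (S u) = -(Jc n (ContinuousLinearMap.adjoint S (Jc n (S u)))) := rfl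
  rw [omegaStd_eq_inner_Jc, h1, map_neg]
  have h2 : ∀ w : Phase n, Jc n (Jc n w) = -w := fun w => Jl_Jl w
  rw [h2, neg_neg, ContinuousLinearMap.adjoint_inner_left, ← omegaStd_eq_inner_Jc]

lemma comp_sAdj {S : Phase n →L[ℝ] Phase n} (hS : ∀ u v, omegaStd (S u) (S v) = omegaStd u v)
    (u : Phase n) : S (sAdj n S u) = u := by
  obtain ⟨w, rfl⟩ := symp_surjective hS u
  rw [sAdj_comp hS]

lemma continuous_sAdj {T : Type} [TopologicalSpace T] {c : T → (Phase n →L[ℝ] Phase n)}
    (hc : Continuous c) : Continuous (fun t => sAdj n (c t)) := by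
  unfold sAdj
  exact (continuous_const.clm_comp
    ((ContinuousLinearMap.adjoint.continuous.comp hc).clm_comp continuous_const)).neg

/-- Conjugation by linear symplectic maps does not change the homotopy class. -/
theorem exists_conj (hconn : St_conn) {j : ℕ} (φ : LoopG j n) (S : Phase n ≃L[ℝ] Phase n)
    (hS : ∀ u v, omegaStd (S u) (S v) = omegaStd u v) :
    ∃ ψ : LoopG j n, (∀ t p, ψ.at t p = S.symm (φ.at t (S p))) ∧ ψ.cls = φ.cls := by
  obtain ⟨c, hc, hc0, hc1, hcs⟩ := hconn n (S : Phase n →L[ℝ] Phase n) hS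
  set f : C(Fin j → I, SympCt n) := φ.1 with hf
  obtain ⟨hfCF, K, hK⟩ := CF_of_continuous f.continuous
  obtain ⟨ρ, hρ⟩ := K.isCompact.isBounded.subset_closedBall (0 : Phase n)
  have hρ' : ∀ t (p : Phase n), |ρ| < ‖p‖ → (f t : Equiv.Perm (Phase n)) p = p := by
    intro t p hp
    apply hK t p
    intro hmem
    have := hρ hmem
    rw [mem_closedBall_zero_iff] at this
    linarith [le_abs_self ρ]
  -- the norms
  obtain ⟨B, hB⟩ : ∃ B, ∀ s, ‖sAdj n (c s)‖ ≤ B := by
    obtain ⟨B, hB⟩ := (isCompact_range (continuous_sAdj hc).norm).bddAbove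
    exact ⟨B, fun s => hB (mem_range_self s)⟩
  have hB0 : 0 ≤ B := (norm_nonneg _).trans (hB 0)
  have hnorm : ∀ s (p : Phase n), ‖p‖ ≤ B * ‖c s p‖ := by
    intro s p
    calc ‖p‖ = ‖sAdj n (c s) (c s p)‖ := by rw [sAdj_comp (hcs s)]
      _ ≤ ‖sAdj n (c s)‖ * ‖c s p‖ := ContinuousLinearMap.le_opNorm _ _
      _ ≤ B * ‖c s p‖ := mul_le_mul_of_nonneg_right (hB s) (norm_nonneg _)
  set G : I × (Fin j → I) → Phase n → Phase n := fun q p =>
    sAdj n (c q.1) ((f q.2 : Equiv.Perm (Phase n)) (c q.1 p)) with hG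
  have hcCF : CF (fun (q : I × (Fin j → I)) (p : Phase n) => c q.1 p) :=
    (CF.param (hc.comp continuous_fst)).clm_apply (CF.const contDiff_id)
  have hGCF : CF G := by
    have h1 : CF (fun (q : I × (Fin j → I)) (_ : Phase n) => sAdj n (c q.1)) :=
      CF.param ((continuous_sAdj hc).comp continuous_fst)
    exact h1.clm_apply ((hfCF.base continuous_snd).comp hcCF)
  have hGout : ∀ q p, B * |ρ| < ‖p‖ → G q p = p := by
    intro q p hp
    have h1 : B * |ρ| < B * ‖c q.1 p‖ := hp.trans_le (hnorm q.1 p)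
    have h2 : |ρ| < ‖c q.1 p‖ := lt_of_mul_lt_mul_left h1 hB0
    simp only [hG]
    rw [hρ' _ _ h2, sAdj_comp (hcs _)]
  have hadj : ∀ s u v, omegaStd (sAdj n (c s) u) (sAdj n (c s) v) = omegaStd u v := by
    intro s u v
    rw [← hcs s, comp_sAdj (hcs s), comp_sAdj (hcs s)]
  have hGs : ∀ q p u v, omegaStd (fderiv ℝ (G q) p u) (fderiv ℝ (G q) p v) = omegaStd u v := by
    intro q p u v
    have h1 : HasFDerivAt (G q) ((sAdj n (c q.1)).comp
        ((fderiv ℝ (f q.2 : Equiv.Perm (Phase n)) (c q.1 p)).comp (c q.1))) p :=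
      (sAdj n (c q.1)).hasFDerivAt.comp p ((SympCt.differentiable (f q.2) _).hasFDerivAt.comp p
        (c q.1).hasFDerivAt)
    rw [h1.fderiv]
    simp only [ContinuousLinearMap.comp_apply]
    rw [hadj, (f q.2).2.2.2.1, hcs]
  set H : I × (Fin j → I) → SympCt n := fun q => mkSymp (G q) (hGCF.contDiff q)
    ⟨Metric.closedBall 0 (B * |ρ|), isCompact_closedBall 0 _,
      fun x hx => hGout q x (by simpa using hx)⟩ (hGs q) with hH
  have hHa : ∀ q p, (H q : Equiv.Perm (Phase n)) p = G q p := fun q p => rfl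
  have hHc : Continuous H := continuous_of_CF hGCF
    ⟨Metric.closedBall 0 (B * |ρ|), isCompact_closedBall 0 _⟩ (fun q x hx => hGout q x (by
      have hx' : x ∉ Metric.closedBall (0 : Phase n) (B * |ρ|) := hx
      simpa using hx')) hHa
  have hH0 : ∀ t, H (0, t) = f t := by
    intro t
    apply SympCt.ext'
    intro p
    rw [hHa]
    have h1 := sAdj_comp (hcs 0) ((f t : Equiv.Perm (Phase n)) p)
    rw [hc0, ContinuousLinearMap.id_apply] at h1
    simp only [hG, hc0, ContinuousLinearMap.id_apply]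
    exact h1
  have hHT : ∀ s, ∀ t ∈ Cube.boundary (Fin j), H (s, t) = 1 := by
    intro s t ht
    apply SympCt.ext'
    intro p
    rw [hHa]
    have h1 : f t = 1 := φ.2 t ht
    simp only [hG, h1]
    exact sAdj_comp (hcs s) p
  set ψ : LoopG j n := ⟨⟨fun t => H (1, t), hHc.comp (continuous_const.prodMk continuous_id)⟩,
    fun t ht => hHT 1 t ht⟩ with hψ
  refine ⟨ψ, ?_, ?_⟩
  · intro t p
    change G (1, t) p = _
    have h1 : ∀ v, sAdj n (c 1) v = S.symm v := by
      intro v
      have h2 := sAdj_comp (hcs 1) (S.symm v)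
      rw [hc1] at h2 ⊢
      have h3 : (S : Phase n →L[ℝ] Phase n) (S.symm v) = v := S.apply_symm_apply v
      rwa [h3] at h2
    simp only [hG, h1, hc1]
    rfl
  · symm
    apply Quotient.sound
    exact ⟨{
      toFun := H
      continuous_toFun := hHc
      map_zero_left := hH0
      map_one_left := fun t => rfl
      prop' := fun s t ht => by
        change H (s, t) = f t
        rw [hHT s t ht]
        exact (φ.2 t ht).symm }⟩

end Pool.Agent.H42.Hull
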