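import Mathlib
import Pool.Agent.H42.Hull.Defs
import Pool.Agent.H42.Hull.Basic

/-!
# The linear symplectic group is path connected
-/

set_option maxSynthPendingDepth 3

open scoped ContDiff Topology unitInterval
open Set Function TopologicalSpace Filter

namespace Pool.Agent.H42.Hull

open Pool.Agent.Helper17 Pool.Agent.H50.Susp Pool.Agent.Helper42

section conn

variable {n : ℕ}

/-- symplectic linear maps -/
def cn_Sp (S : Phase n →L[ℝ] Phase n) : Prop := ∀ u v, omegaStd (S u) (S v) = omegaStd u v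

/-- joined to the identity by a path of symplectic maps -/
def cn_Good (S : Phase n →L[ℝ] Phase n) : Prop :=
  ∃ c : I → (Phase n →L[ℝ] Phase n), Continuous c ∧ c 0 = ContinuousLinearMap.id ℝ _ ∧ c 1 = S ∧
    ∀ s, cn_Sp (c s)

lemma cn_Sp_comp {S S' : Phase n →L[ℝ] Phase n} (h : cn_Sp S) (h' : cn_Sp S') :
    cn_Sp (S'.comp S) := fun u v => by
  rw [ContinuousLinearMap.comp_apply, ContinuousLinearMap.comp_apply, h', h]

lemma cn_Good_comp {S S' : Phase n →L[ℝ] Phase n} (h : cn_Good S) (h' : cn_Good S') :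
    cn_Good (S'.comp S) := by
  obtain ⟨c, hc, h0, h1, hs⟩ := h
  obtain ⟨c', hc', h0', h1', hs'⟩ := h'
  refine ⟨fun s => (c' s).comp (c s), hc'.clm_comp hc, ?_, ?_, fun s => cn_Sp_comp (hs s) (hs' s)⟩
  · simp only [h0, h0', ContinuousLinearMap.comp_id]
  · simp only [h1, h1']

/-- transvections -/
noncomputable def cn_T (z : Phase n) (a : ℝ) : Phase n →L[ℝ] Phase n :=
  ContinuousLinearMap.id ℝ _ + a • ((omegaB n).flip z).smulRight z

lemma cn_T_apply (z : Phase n) (a : ℝ) (x : Phase n) :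
    cn_T z a x = x + (a * omegaStd x z) • z := by
  simp [cn_T, smul_smul]

lemma cn_T_Sp (z : Phase n) (a : ℝ) : cn_Sp (cn_T z a) := fun u v => by
  rw [cn_T_apply, cn_T_apply, omegaStd_add_left, omegaStd_add_right, omegaStd_add_right,
    omegaStd_smul_left, omegaStd_smul_left, omegaStd_smul_right, omegaStd_smul_right,
    omegaStd_self, omegaStd_swap z v]
  ring

lemma cn_T_Good (z : Phase n) (a : ℝ) : cn_Good (cn_T z a) := by
  refine ⟨fun s => cn_T z ((s : ℝ) * a), ?_, ?_, ?_, fun s => cn_T_Sp _ _⟩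
  · unfold cn_T
    exact continuous_const.add
      ((continuous_subtype_val.mul continuous_const).smul continuous_const)
  · ext1 x
    rw [cn_T_apply]
    simp
  · simp

lemma cn_T_neg (z : Phase n) (a : ℝ) (S : Phase n →L[ℝ] Phase n) :
    (cn_T z (-a)).comp ((cn_T z a).comp S) = S := by
  ext1 x
  rw [ContinuousLinearMap.comp_apply, ContinuousLinearMap.comp_apply, cn_T_apply, cn_T_apply,
    omegaStd_add_left, omegaStd_smul_left, omegaStd_self, mul_zero, add_zero, neg_mul, neg_smul]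
  abel

lemma cn_Good_of {S : Phase n →L[ℝ] Phase n} (z : Phase n) (a : ℝ)
    (h : cn_Good ((cn_T z a).comp S)) : cn_Good S := by
  rw [← cn_T_neg z a S]
  exact cn_Good_comp h (cn_T_Good z (-a))

/-- the transvection which maps `w` to `v` -/
lemma cn_T_move {w v : Phase n} (h : omegaStd w v ≠ 0) :
    cn_T (v - w) (1 / omegaStd w v) w = v := by
  rw [cn_T_apply, omegaStd_sub_right, omegaStd_self, sub_zero, one_div_mul_cancel h, one_smul]
  abel

lemma cn_T_fix {z x : Phase n} (a : ℝ) (h : omegaStd x z = 0) : cn_T z a x = x := by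
  rw [cn_T_apply, h, mul_zero, zero_smul, add_zero]

lemma cn_xy : omegaStd (eX 0 : Phase (n + 1)) (eY 0) = 1 := by
  rw [omegaStd_succ, wL_eX, omegaStd_zero_left]
  simp [eX, eY]

lemma cn_left (u : Phase (n + 1)) : omegaStd u (eX 0) = -u (Sum.inr 0) := by
  rw [omegaStd_succ, wL_eX, omegaStd_swap, omegaStd_zero_left]
  simp [eX]

lemma cn_right (u : Phase (n + 1)) : omegaStd u (eY 0) = u (Sum.inl 0) := by
  rw [omegaStd_succ, wL_eY, omegaStd_swap, omegaStd_zero_left]
  simp [eY]

/-- the case where both vectors of the first plane are fixed -/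
lemma cn_A (ih : ∀ S : Phase n →L[ℝ] Phase n, cn_Sp S → cn_Good S)
    {S : Phase (n + 1) →L[ℝ] Phase (n + 1)} (hS : cn_Sp S) (hx : S (eX 0) = eX 0)
    (hy : S (eY 0) = eY 0) : cn_Good S := by
  have h1 : ∀ u, (S u) (Sum.inl 0) = u (Sum.inl 0) := by
    intro u
    have := hS u (eY 0)
    rw [hy, cn_right, cn_right] at this
    exact this
  have h2 : ∀ u, (S u) (Sum.inr 0) = u (Sum.inr 0) := by
    intro u
    have := hS u (eX 0)
    rw [hx, cn_left, cn_left] at this
    linarith
  have h3 : ∀ w : Phase n, S (emb n w) = emb n (wL n (S (emb n w))) := by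
    intro w
    apply ext_xyw
    · rw [h1, emb_inl_zero, emb_inl_zero]
    · rw [h2, emb_inr_zero, emb_inr_zero]
    · rw [wL_emb]
  obtain ⟨c, hc, h0, h1', hs⟩ := ih ((wL n).comp (S.comp (emb n))) (fun u v => by
    simp only [ContinuousLinearMap.comp_apply]
    have h4 := hS (emb n u) (emb n v)
    rw [omegaStd_succ, omegaStd_succ (emb n u), h1, h1, h2, h2, wL_emb, wL_emb] at h4
    simpa using h4)
  have hC : ∀ (A : Phase n →L[ℝ] Phase n) (p : Phase (n + 1)),
      ((coordL (Sum.inl 0)).smulRight (eX 0) + (coordL (Sum.inr 0)).smulRight (eY 0) +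
        (emb n).comp (A.comp (wL n)) : Phase (n + 1) →L[ℝ] Phase (n + 1)) p =
      Pool.Agent.H50.Susp.mkP (p (Sum.inl 0)) (p (Sum.inr 0)) (A (wL n p)) := by
    intro A p
    rfl
  refine ⟨fun s => (coordL (Sum.inl 0)).smulRight (eX 0) +
    (coordL (Sum.inr 0)).smulRight (eY 0) + (emb n).comp ((c s).comp (wL n)), ?_, ?_, ?_, ?_⟩
  · exact continuous_const.add (continuous_const.clm_comp (hc.clm_comp continuous_const))
  · ext1 p
    rw [hC, h0]
    exact mkP_eta p
  · ext1 p
    rw [hC, h1']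
    simp only [ContinuousLinearMap.comp_apply]
    conv_rhs => rw [← mkP_eta p]
    unfold Pool.Agent.H50.Susp.mkP
    rw [map_add, map_add, map_smul, map_smul, hx, hy, ← h3]
  · intro s u v
    rw [hC, hC, omegaStd_succ, omegaStd_succ u, mkP_x, mkP_x, mkP_y, mkP_y, wL_mkP, wL_mkP, hs]

/-- the case where the first vector is fixed -/
lemma cn_B (ih : ∀ S : Phase n →L[ℝ] Phase n, cn_Sp S → cn_Good S)
    {S : Phase (n + 1) →L[ℝ] Phase (n + 1)} (hS : cn_Sp S) (hx : S (eX 0) = eX 0) :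
    cn_Good S := by
  have key : ∀ S : Phase (n + 1) →L[ℝ] Phase (n + 1), cn_Sp S → S (eX 0) = eX 0 →
      omegaStd (S (eY 0)) (eY 0) ≠ 0 → cn_Good S := by
    intro S hS hx hne
    refine cn_Good_of (eY 0 - S (eY 0)) (1 / omegaStd (S (eY 0)) (eY 0))
      (cn_A ih (cn_Sp_comp hS (cn_T_Sp _ _)) ?_ ?_)
    · rw [ContinuousLinearMap.comp_apply, hx]
      apply cn_T_fix
      have h1 := hS (eX 0) (eY 0)
      rw [hx] at h1
      rw [omegaStd_sub_right, h1, sub_self]
    · rw [ContinuousLinearMap.comp_apply]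
      exact cn_T_move hne
  by_cases hne : omegaStd (S (eY 0)) (eY 0) ≠ 0
  · exact key S hS hx hne
  rw [not_not] at hne
  have h1 : omegaStd (eX 0) (S (eY 0)) = 1 := by
    have h1 := hS (eX 0) (eY 0)
    rw [hx, cn_xy] at h1
    exact h1
  have h2 : omegaStd (S (eY 0)) (eY 0 + eX 0) ≠ 0 := by
    rw [omegaStd_add_right, hne, omegaStd_swap, h1]
    norm_num
  refine cn_Good_of (eY 0 + eX 0 - S (eY 0)) (1 / omegaStd (S (eY 0)) (eY 0 + eX 0))
    (key _ (cn_Sp_comp hS (cn_T_Sp _ _)) ?_ ?_)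
  · rw [ContinuousLinearMap.comp_apply, hx]
    apply cn_T_fix
    rw [omegaStd_sub_right, omegaStd_add_right, cn_xy, omegaStd_self, h1]
    norm_num
  · rw [ContinuousLinearMap.comp_apply, cn_T_move h2, omegaStd_add_left, omegaStd_self, cn_xy]
    norm_num

/-- the general case -/
lemma cn_C (ih : ∀ S : Phase n →L[ℝ] Phase n, cn_Sp S → cn_Good S)
    {S : Phase (n + 1) →L[ℝ] Phase (n + 1)} (hS : cn_Sp S) : cn_Good S := by
  have key : ∀ S : Phase (n + 1) →L[ℝ] Phase (n + 1), cn_Sp S →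
      omegaStd (S (eX 0)) (eX 0) ≠ 0 → cn_Good S := by
    intro S hS hne
    refine cn_Good_of (eX 0 - S (eX 0)) (1 / omegaStd (S (eX 0)) (eX 0))
      (cn_B ih (cn_Sp_comp hS (cn_T_Sp _ _)) ?_)
    rw [ContinuousLinearMap.comp_apply]
    exact cn_T_move hne
  have hyx : omegaStd (eY 0 : Phase (n + 1)) (eX 0) = -1 := by
    rw [omegaStd_swap, cn_xy]
  have hw : S (eX 0) ≠ 0 := by
    intro h0
    have h1 := hS (eX 0) (eY 0)
    rw [h0, omegaStd_zero_left, cn_xy] at h1
    norm_num at h1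
  have hex : ∃ w', omegaStd (S (eX 0)) w' ≠ 0 ∧ omegaStd w' (eX 0) ≠ 0 := by
    obtain ⟨a, ha⟩ : ∃ a, omegaStd (S (eX 0)) a ≠ 0 := by
      by_contra hcon
      push Not at hcon
      exact hw (eq_zero_of_omegaStd _ hcon)
    by_cases h1 : omegaStd a (eX 0) = 0
    · by_cases h2 : omegaStd (S (eX 0)) (eY 0) = 0
      · refine ⟨a + eY 0, ?_, ?_⟩
        · rw [omegaStd_add_right, h2, add_zero]
          exact ha
        · rw [omegaStd_add_left, h1, hyx]
          norm_num
      · exact ⟨eY 0, h2, by rw [hyx]; norm_num⟩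
    · exact ⟨a, ha, h1⟩
  obtain ⟨w', h1, h2⟩ := hex
  refine cn_Good_of (w' - S (eX 0)) (1 / omegaStd (S (eX 0)) w')
    (key _ (cn_Sp_comp hS (cn_T_Sp _ _)) ?_)
  rw [ContinuousLinearMap.comp_apply, cn_T_move h1]
  exact h2

end conn

theorem conn : St_conn := by
  intro n
  induction n with
  | zero =>
    intro S hS
    have h : ∀ x y : Phase 0, x = y := by
      intro x y
      ext i
      rcases i with i | i <;> exact i.elim0
    refine ⟨fun _ => ContinuousLinearMap.id ℝ _, continuous_const, rfl, ?_, fun _ _ _ => rfl⟩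
    ext1 x
    exact h _ _
  | succ n ih => exact fun S hS => cn_C ih hS

end Pool.Agent.H42.Hull
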