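import Pool.Agent.H42.Hull.Defs

set_option maxSynthPendingDepth 3

open scoped ContDiff Topology unitInterval
open Set Function TopologicalSpace Filter

namespace Pool.Agent.H42.Hull

open Pool.Agent.Helper17 Pool.Agent.H50.Susp Pool.Agent.Helper42

section

variable {m k n : ℕ}

private lemma brk_inner_J (u v : Phase n) : inner ℝ u (Jl n v) = -inner ℝ (Jl n u) v := by
  rw [← omegaStd_eq_inner, omegaStd_swap, neg_neg, omegaStd_eq_inner, real_inner_comm]

private lemma brk_inner_mkP (a b : ℝ) (u : Phase k) (x y : ℝ) (w : Phase k) :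
    inner ℝ (Pool.Agent.H50.Susp.mkP a b u) (Pool.Agent.H50.Susp.mkP x y w) =
      a * x + b * y + inner ℝ u w := by
  simp only [PiLp.inner_apply, Fintype.sum_sum_type, Fin.sum_univ_succ]
  simp [Pool.Agent.H50.Susp.mkP, eX, eY]
  ring

private lemma brk_Jl_x (v : Phase (n + 1)) : (Jl (n + 1) v) (Sum.inl 0) = -(v (Sum.inr 0)) := rfl

private lemma brk_Jl_y (v : Phase (n + 1)) : (Jl (n + 1) v) (Sum.inr 0) = v (Sum.inl 0) := rfl

private lemma brk_Jl_w (v : Phase (n + 1)) :
    Pool.Agent.H50.Susp.wL n (Jl (n + 1) v) = Jl n (Pool.Agent.H50.Susp.wL n v) := by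
  ext j
  rcases j with j | j
  · rfl
  · rfl

private lemma brk_prK_succ (v : Phase (m + (k + 1))) :
    prK m (k + 1) v = Pool.Agent.H50.Susp.mkP (v (Sum.inl 0)) (v (Sum.inr 0))
      (prK m k (Pool.Agent.H50.Susp.wL (m + k) v)) := rfl

private lemma brk_prK_J (m : ℕ) : ∀ (k : ℕ) (v : Phase (m + k)),
    prK m k (Jl (m + k) v) = Jl k (prK m k v)
  | 0, v => by
    ext j
    rcases j with j | j
    · exact j.elim0
    · exact j.elim0
  | k + 1, v => by
    apply ext_xyw
    · rw [brk_Jl_x, brk_prK_succ, brk_prK_succ, mkP_x, mkP_y]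
      rfl
    · rw [brk_Jl_y, brk_prK_succ, brk_prK_succ, mkP_x, mkP_y]
      rfl
    · rw [brk_Jl_w, brk_prK_succ, brk_prK_succ, wL_mkP, wL_mkP]
      have h1 := brk_Jl_w (n := m + k) v
      have h2 : Pool.Agent.H50.Susp.wL (m + k) (Jl (m + (k + 1)) v) =
        Jl (m + k) (Pool.Agent.H50.Susp.wL (m + k) v) := h1
      rw [h2, brk_prK_J m k]

private lemma brk_exists (m : ℕ) : ∀ (k : ℕ) (u : Phase k), ∃ e : Phase (m + k),
    prK m k e = u ∧ ∀ v, inner ℝ e v = inner ℝ u (prK m k v)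
  | 0, u => by
    refine ⟨0, ?_, fun v => ?_⟩
    · ext j
      rcases j with j | j
      · exact j.elim0
      · exact j.elim0
    · rw [inner_zero_left]
      simp [PiLp.inner_apply]
  | k + 1, u => by
    obtain ⟨e, he, hi⟩ := brk_exists m k (Pool.Agent.H50.Susp.wL k u)
    refine ⟨Pool.Agent.H50.Susp.mkP (u (Sum.inl 0)) (u (Sum.inr 0)) e, ?_, fun v => ?_⟩
    · have h1 : prK m (k + 1) (Pool.Agent.H50.Susp.mkP (n := m + k) (u (Sum.inl 0))
          (u (Sum.inr 0)) e) = Pool.Agent.H50.Susp.mkP (u (Sum.inl 0)) (u (Sum.inr 0))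
          (prK m k e) := by
        rw [brk_prK_succ, wL_mkP, mkP_x, mkP_y]
      rw [h1, he, mkP_eta]
    · have h1 : (v : Phase (m + (k + 1))) = Pool.Agent.H50.Susp.mkP (n := m + k) (v (Sum.inl 0))
          (v (Sum.inr 0)) (Pool.Agent.H50.Susp.wL (m + k) v) := (mkP_eta (n := m + k) v).symm
      have h2 := brk_inner_mkP (u (Sum.inl 0)) (u (Sum.inr 0)) e (v (Sum.inl 0)) (v (Sum.inr 0))
        (Pool.Agent.H50.Susp.wL (m + k) v)
      have h3 := brk_inner_mkP (u (Sum.inl 0)) (u (Sum.inr 0)) (Pool.Agent.H50.Susp.wL k u)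
        (v (Sum.inl 0)) (v (Sum.inr 0)) (prK m k (Pool.Agent.H50.Susp.wL (m + k) v))
      rw [mkP_eta, ← brk_prK_succ] at h3
      rw [h3, ← hi]
      rw [mkP_eta] at h2
      exact h2

private lemma brk_inc (u : Phase k) (v : Phase (m + k)) :
    inner ℝ (incK m k u) v = inner ℝ u (prK m k v) := by
  rw [incK, ContinuousLinearMap.adjoint_inner_left]

private lemma brk_pr_inc (u : Phase k) : prK m k (incK m k u) = u := by
  obtain ⟨e, he, hi⟩ := brk_exists m k u
  have h1 : incK m k u = e := ext_inner_right ℝ fun v => by rw [brk_inc, hi]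
  rw [h1, he]

private lemma brk_J_inc (u : Phase k) : Jl (m + k) (incK m k u) = incK m k (Jl k u) := by
  refine ext_inner_right ℝ fun v => ?_
  rw [brk_inc, ← neg_inj, ← brk_inner_J, brk_inc, brk_prK_J, brk_inner_J]

private lemma brk_key {D : Phase n →L[ℝ] Phase n}
    (hD : ∀ u v, omegaStd (D u) (D v) = omegaStd u v) {V A B : Phase n}
    (hV : ∀ v, omegaStd V v = -(inner ℝ A v + inner ℝ B (D v))) (A' B' : Phase n) :
    inner ℝ A' V + inner ℝ B' (D V) = inner ℝ A' (Jl n A) + inner ℝ B' (Jl n B) +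
      inner ℝ B' (D (Jl n A)) - inner ℝ B (D (Jl n A')) := by
  have hinj : Function.Injective (D : Phase n →ₗ[ℝ] Phase n) := by
    rw [← LinearMap.ker_eq_bot, LinearMap.ker_eq_bot']
    intro v hv
    apply eq_zero_of_omegaStd
    intro w
    have h1 : D v = 0 := hv
    rw [← hD, h1, omegaStd_eq_inner, map_zero, inner_zero_left]
  have hsurj : Function.Surjective (D : Phase n →ₗ[ℝ] Phase n) :=
    LinearMap.injective_iff_surjective.1 hinj
  have h1 : D V = D (Jl n A) + Jl n B := by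
    rw [← sub_eq_zero]
    apply eq_zero_of_omegaStd
    intro w
    obtain ⟨v, rfl⟩ := hsurj w
    change omegaStd (D V - (D (Jl n A) + Jl n B)) (D v) = 0
    rw [omegaStd_sub_left, omegaStd_add_left, hD, hD, hV, omegaStd_eq_inner, omegaStd_eq_inner,
      Jl_Jl, Jl_Jl, inner_neg_left, inner_neg_left]
    ring
  have h2 : inner ℝ A' V = inner ℝ A' (Jl n A) - inner ℝ B (D (Jl n A')) := by
    have h3 : inner ℝ A' V = omegaStd V (Jl n A') := by
      rw [omegaStd_eq_inner, brk_inner_J, Jl_Jl, inner_neg_left, neg_neg, real_inner_comm]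
    rw [h3, hV, brk_inner_J, real_inner_comm]
    ring
  rw [h1, h2, inner_add_right]
  ring

end

theorem bracket_lin : St_bracket := by
  intro m k f p a b a' b'
  have hf : HasFDerivAt (f : Equiv.Perm (Phase (m + k)))
      (fderiv ℝ (f : Equiv.Perm (Phase (m + k))) p) p :=
    (SympCt.differentiable f p).hasFDerivAt
  have hd : ∀ a b : Phase k, HasFDerivAt (fun q => inner ℝ a (prK m k q) +
        inner ℝ b (prK m k ((f : Equiv.Perm (Phase (m + k))) q)))
      ((innerSL ℝ a).comp (prK m k) + (innerSL ℝ b).comp ((prK m k).comp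
        (fderiv ℝ (f : Equiv.Perm (Phase (m + k))) p))) p := by
    intro a b
    exact ((innerSL ℝ a).comp (prK m k)).hasFDerivAt.add
      ((innerSL ℝ b).hasFDerivAt.comp p ((prK m k).hasFDerivAt.comp p hf))
  have happ : ∀ (a b : Phase k) (v : Phase (m + k)),
      ((innerSL ℝ a).comp (prK m k) + (innerSL ℝ b).comp ((prK m k).comp
        (fderiv ℝ (f : Equiv.Perm (Phase (m + k))) p))) v =
      inner ℝ (incK m k a) v +
        inner ℝ (incK m k b) (fderiv ℝ (f : Equiv.Perm (Phase (m + k))) p v) := by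
    intro a b v
    rw [brk_inc, brk_inc]
    rfl
  have hV : ∀ v, omegaStd (hamV (fun q => inner ℝ a (prK m k q) +
        inner ℝ b (prK m k ((f : Equiv.Perm (Phase (m + k))) q))) p) v =
      -(inner ℝ (incK m k a) v +
        inner ℝ (incK m k b) (fderiv ℝ (f : Equiv.Perm (Phase (m + k))) p v)) := by
    intro v
    rw [omegaStd_hamV, (hd a b).fderiv, happ]
  rw [(hd a' b').fderiv, happ, brk_key (f.2.2.2.1 p) hV]
  simp only [brk_J_inc, brk_inc, brk_pr_inc]

end Pool.Agent.H42.Hull
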