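import Mathlib
import Pool.Agent.Helper17.SympBase

set_option maxSynthPendingDepth 3

open scoped ContDiff Topology
open Set Function Filter

namespace Pool.Agent.H42.Hull

open Pool.Agent.Helper17

/-- The derivative of the smooth transition is bounded. -/
lemma exists_bound_deriv_transition : ∃ B : ℝ, 0 ≤ B ∧ ∀ x, |deriv Real.smoothTransition x| ≤ B := by
  have hc : Continuous (deriv Real.smoothTransition) :=
    (Real.smoothTransition.contDiff (n := 1)).continuous_deriv le_rfl
  obtain ⟨B, hB⟩ := (isCompact_Icc (a := (0 : ℝ)) (b := 1)).exists_bound_of_continuousOn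
    hc.continuousOn
  refine ⟨max B 0, le_max_right _ _, fun x => ?_⟩
  by_cases hx : x ∈ Icc (0 : ℝ) 1
  · exact (hB x hx).trans (le_max_left _ _)
  · have h0 : deriv Real.smoothTransition x = 0 := by
      rw [mem_Icc, not_and_or, not_le, not_le] at hx
      rcases hx with hx | hx
      · have h1 : Real.smoothTransition =ᶠ[𝓝 x] fun _ => 0 := by
          filter_upwards [Iio_mem_nhds hx] with y hy
          exact Real.smoothTransition.zero_of_nonpos (le_of_lt hy)
        rw [h1.deriv_eq, deriv_const]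
      · have h1 : Real.smoothTransition =ᶠ[𝓝 x] fun _ => 1 := by
          filter_upwards [Ioi_mem_nhds hx] with y hy
          exact Real.smoothTransition.one_of_one_le (le_of_lt hy)
        rw [h1.deriv_eq, deriv_const]
    rw [h0, abs_zero]
    exact le_max_right _ _

/-- A slow cut-off function. -/
theorem exists_slow_cutoff (n : ℕ) (R : ℝ) {ε : ℝ} (hε : 0 < ε) :
    ∃ (μ : Phase n → ℝ) (R2 : ℝ), ContDiff ℝ ∞ μ ∧ (∀ p, ‖p‖ ≤ R → μ p = 1) ∧
      (∀ p, R2 < ‖p‖ → μ p = 0) ∧ (∀ p, 0 ≤ μ p ∧ μ p ≤ 1) ∧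
      ∀ p, ‖fderiv ℝ μ p‖ * ‖p‖ ≤ ε := by
  obtain ⟨B, hB0, hB⟩ := exists_bound_deriv_transition
  set δ : ℝ := ε / (2 * (B + 1)) with hδ
  have hδ0 : 0 < δ := by positivity
  set c₀ : ℝ := δ * Real.log (1 + R ^ 2) with hc₀
  set a : Phase n → ℝ := fun p => δ * Real.log (1 + ‖p‖ ^ 2) - c₀ with ha
  have hpos : ∀ p : Phase n, 0 < 1 + ‖p‖ ^ 2 := fun p => by positivity
  have haC : ContDiff ℝ ∞ a := by
    have h1 : ContDiff ℝ ∞ (fun p : Phase n => 1 + ‖p‖ ^ 2) :=
      contDiff_const.add (contDiff_norm_sq ℝ)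
    exact (contDiff_const.mul (h1.log fun p => (hpos p).ne')).sub contDiff_const
  have hda : ∀ p, HasFDerivAt a (δ • ((1 + ‖p‖ ^ 2)⁻¹ • ((2 : ℕ) • innerSL ℝ p))) p := by
    intro p
    have h1 : HasFDerivAt (fun p : Phase n => 1 + ‖p‖ ^ 2) ((2 : ℕ) • innerSL ℝ p) p :=
      (hasStrictFDerivAt_norm_sq p).hasFDerivAt.const_add 1
    exact ((h1.log (hpos p).ne').const_mul δ).sub_const c₀
  refine ⟨fun p => 1 - Real.smoothTransition (a p), Real.exp ((1 + c₀) / δ) + 1, ?_, ?_, ?_, ?_,
    ?_⟩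
  · exact contDiff_const.sub (Real.smoothTransition.contDiff.comp haC)
  · intro p hp
    have h1 : a p ≤ 0 := by
      have h2 : ‖p‖ ^ 2 ≤ R ^ 2 := by
        have := norm_nonneg p
        nlinarith
      have h3 : Real.log (1 + ‖p‖ ^ 2) ≤ Real.log (1 + R ^ 2) :=
        Real.log_le_log (hpos p) (by linarith)
      have h4 := mul_le_mul_of_nonneg_left h3 hδ0.le
      simp only [ha, hc₀]
      linarith
    beta_reduce
    rw [Real.smoothTransition.zero_of_nonpos h1, sub_zero]
  · intro p hp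
    have h1 : 1 ≤ a p := by
      have h2 : 0 < Real.exp ((1 + c₀) / δ) := Real.exp_pos _
      have h3 : Real.exp ((1 + c₀) / δ) ≤ 1 + ‖p‖ ^ 2 := by nlinarith
      have h4 : (1 + c₀) / δ ≤ Real.log (1 + ‖p‖ ^ 2) := by
        rw [Real.le_log_iff_exp_le (hpos p)]
        exact h3
      have h5 := mul_le_mul_of_nonneg_left h4 hδ0.le
      rw [mul_div_cancel₀ _ hδ0.ne'] at h5
      simp only [ha]
      linarith
    beta_reduce
    rw [Real.smoothTransition.one_of_one_le h1, sub_self]
  · intro p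
    have h1 := Real.smoothTransition.nonneg (a p)
    have h2 := Real.smoothTransition.le_one (a p)
    constructor
    · beta_reduce; linarith
    · beta_reduce; linarith
  · intro p
    have hT : HasDerivAt Real.smoothTransition (deriv Real.smoothTransition (a p)) (a p) :=
      ((Real.smoothTransition.contDiff (n := 1)).differentiable one_ne_zero (a p)).hasDerivAt
    have h1 : HasFDerivAt (fun p => 1 - Real.smoothTransition (a p))
        (-(deriv Real.smoothTransition (a p) • (δ • ((1 + ‖p‖ ^ 2)⁻¹ •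
          ((2 : ℕ) • innerSL ℝ p))))) p := by
      have h2 := hT.comp_hasFDerivAt p (hda p)
      exact h2.const_sub 1
    rw [h1.fderiv, norm_neg, norm_smul, norm_smul, norm_smul, Real.norm_eq_abs, Real.norm_eq_abs,
      Real.norm_eq_abs, abs_of_pos hδ0, abs_of_pos (inv_pos.2 (hpos p)), ← Nat.cast_smul_eq_nsmul ℝ,
      norm_smul, innerSL_apply_norm]
    have h3 : ‖((2 : ℕ) : ℝ)‖ = 2 := by simp
    rw [h3]
    have h4 : (1 + ‖p‖ ^ 2)⁻¹ * (2 * ‖p‖) * ‖p‖ ≤ 2 := by
      rw [mul_assoc, inv_mul_le_iff₀ (hpos p)]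
      nlinarith [norm_nonneg p]
    calc |deriv Real.smoothTransition (a p)| * (δ * ((1 + ‖p‖ ^ 2)⁻¹ * (2 * ‖p‖))) * ‖p‖
        = |deriv Real.smoothTransition (a p)| * (δ * ((1 + ‖p‖ ^ 2)⁻¹ * (2 * ‖p‖) * ‖p‖)) := by
          ring
      _ ≤ B * (δ * 2) := by
          apply mul_le_mul (hB _) (mul_le_mul_of_nonneg_left h4 hδ0.le) _ hB0
          have := hpos p
          positivity
      _ ≤ ε := by
          rw [hδ]
          have h5 : B * (ε / (2 * (B + 1)) * 2) = ε * (B / (B + 1)) := by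
            field_simp
          rw [h5]
          have h6 : B / (B + 1) ≤ 1 := by
            rw [div_le_one (by linarith)]
            linarith
          nlinarith

end Pool.Agent.H42.Hull
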