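import Pool.Agent.H42.Hull.Defs

/-!
# The hull condition gives a path of J-positive maps (helper36)
-/

set_option autoImplicit false
set_option maxSynthPendingDepth 3

open scoped ContDiff Topology unitInterval
open Set Function TopologicalSpace Filter

namespace Pool.Agent.H42.Hull

open Pool.Agent.Helper17 Pool.Agent.H50.Susp Pool.Agent.Helper42

variable {m k : ℕ}

/-! ### the complex structure -/

lemma hp_inner_J (u v : Phase k) : inner ℝ u (Jl k v) = -inner ℝ (Jl k u) v := by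
  rw [← omegaStd_eq_inner, omegaStd_swap, neg_neg, omegaStd_eq_inner, real_inner_comm]

lemma hp_inner_JJ (u v : Phase k) : inner ℝ (Jl k u) (Jl k v) = inner ℝ u v := by
  rw [hp_inner_J, Jl_Jl, inner_neg_left, neg_neg]

lemma hp_inner_J_self (u : Phase k) : inner ℝ (Jl k u) u = 0 := by
  rw [← omegaStd_eq_inner, omegaStd_self]

lemma hp_inner_self_J (u : Phase k) : inner ℝ u (Jl k u) = 0 := by
  rw [real_inner_comm, hp_inner_J_self]

/-- the block of the matrix `M` -/
private noncomputable def blk (m k : ℕ) (M : Phase (m + k) →L[ℝ] Phase (m + k)) :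
    Phase k →L[ℝ] Phase k := (prK m k).comp (M.comp (incK m k))

private lemma blk_apply (M : Phase (m + k) →L[ℝ] Phase (m + k)) (v : Phase k) :
    prK m k (M (incK m k v)) = blk m k M v := rfl

lemma hp_smul (M : Phase (m + k) →L[ℝ] Phase (m + k)) (r : ℝ) (u : Phase k) :
    (numVal m k M (r • u)).re = r ^ 2 * (numVal m k M u).re ∧
      (numVal m k M (r • u)).im = r ^ 2 * (numVal m k M u).im := by
  constructor
  · simp only [numVal, blk_apply, map_smul, inner_smul_left, inner_smul_right]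
    simp only [conj_trivial]
    ring
  · simp only [numVal, blk_apply, map_smul, inner_smul_left, inner_smul_right]
    simp only [conj_trivial]
    ring

/-! ### the bracket -/

lemma hp_fun (f : Phase (m + k) → Phase (m + k)) (c₁ c₂ : ℝ) (v : Phase k)
    (q : Phase (m + k)) :
    inner ℝ v (prK m k q + (c₁ • (prK m k (f q) - prK m k q) +
      c₂ • Jl k (prK m k (f q) - prK m k q))) =
    inner ℝ ((1 - c₁) • v + c₂ • Jl k v) (prK m k q) +
      inner ℝ (c₁ • v - c₂ • Jl k v) (prK m k (f q)) := by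
  simp only [inner_add_left, inner_add_right, inner_sub_left, inner_sub_right, inner_smul_left,
    inner_smul_right, hp_inner_J, conj_trivial]
  ring

lemma hp_value (hb : St_bracket) (f : SympCt (m + k)) (p : Phase (m + k)) (u : Phase k)
    (c₁ c₂ : ℝ) :
    fderiv ℝ (fun q => inner ℝ (Jl k u) (prK m k q +
        (c₁ • (prK m k ((f : Equiv.Perm (Phase (m + k))) q) - prK m k q) +
          c₂ • Jl k (prK m k ((f : Equiv.Perm (Phase (m + k))) q) - prK m k q)))) p
      (hamV (fun q => inner ℝ u (prK m k q +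
        (c₁ • (prK m k ((f : Equiv.Perm (Phase (m + k))) q) - prK m k q) +
          c₂ • Jl k (prK m k ((f : Equiv.Perm (Phase (m + k))) q) - prK m k q)))) p) =
    (1 - 2 * (c₁ - c₁ ^ 2 - c₂ ^ 2)) * ‖u‖ ^ 2 +
      2 * (c₁ - c₁ ^ 2 - c₂ ^ 2) *
        (numVal m k (fderiv ℝ (f : Equiv.Perm (Phase (m + k))) p) u).re -
      2 * c₂ * (numVal m k (fderiv ℝ (f : Equiv.Perm (Phase (m + k))) p) u).im := by
  simp only [hp_fun]
  rw [hb m k f p]
  simp only [numVal, blk_apply]
  set N := blk m k (fderiv ℝ (f : Equiv.Perm (Phase (m + k))) p) with hN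
  have e1 : ‖u‖ ^ 2 = inner ℝ u u := (real_inner_self_eq_norm_sq u).symm
  rw [e1]
  simp only [map_add, map_sub, map_smul, map_neg, Jl_Jl, inner_add_left, inner_add_right,
    inner_sub_left, inner_sub_right, inner_smul_left, inner_smul_right, inner_neg_left,
    inner_neg_right, hp_inner_JJ, hp_inner_J_self, hp_inner_self_J, conj_trivial, smul_neg]
  ring

lemma hp_projJ (hb : St_bracket) (v : Phase k) :
    prK m k (incK m k (Jl k v)) = Jl k v := by
  have h1 : ∀ w : Phase k, inner ℝ w (prK m k (incK m k (Jl k v))) = inner ℝ w (Jl k v) := by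
    intro w
    have e1 := hb m k 1 0 v 0 0 w
    have e2 := hb m k 1 0 v 0 w 0
    have e3 : fderiv ℝ (((1 : SympCt (m + k)) : Equiv.Perm (Phase (m + k))) :
        Phase (m + k) → Phase (m + k)) 0 = ContinuousLinearMap.id ℝ _ := fderiv_id
    rw [e3] at e1 e2
    simp only [inner_zero_left, zero_add, add_zero, map_zero, inner_zero_right, sub_zero,
      ContinuousLinearMap.id_apply] at e1 e2
    have e4 : ∀ q : Phase (m + k), ((1 : SympCt (m + k)) : Equiv.Perm (Phase (m + k))) q = q :=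
      fun _ => rfl
    simp only [e4] at e1 e2
    rw [← e1, ← e2]
  apply ext_inner_left ℝ
  exact h1

lemma hp_proj (hb : St_bracket) (v : Phase k) : prK m k (incK m k v) = v := by
  have h := hp_projJ (m := m) hb (-(Jl k v))
  rw [map_neg, Jl_Jl, neg_neg] at h
  exact h

/-- the value of the identity -/
lemma hp_one (hb : St_bracket) (u : Phase k) (hu : ‖u‖ = 1) :
    numVal m k (ContinuousLinearMap.id ℝ (Phase (m + k))) u = 1 := by
  apply Complex.ext
  · simp only [numVal, ContinuousLinearMap.id_apply, hp_proj hb,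
      real_inner_self_eq_norm_sq, norm_Jl, hu, Complex.one_re]
    norm_num
  · simp only [numVal, ContinuousLinearMap.id_apply, hp_proj hb, hp_inner_J_self,
      hp_inner_self_J, Complex.one_im]
    norm_num

/-! ### separation -/

lemma hp_sep {S : Set ℂ} (h1 : (1 : ℂ) ∈ S)
    (hS : ¬ Metric.closedBall (0 : ℂ) 1 ⊆ closure (convexHull ℝ S)) :
    ∃ α β : ℝ, α ^ 2 + β ^ 2 = 1 ∧ ∀ z ∈ S, -1 < α * z.re - β * z.im := by
  rw [not_subset] at hS
  obtain ⟨z₀, hz₀, hz₁⟩ := hS
  obtain ⟨g, c, hg1, hg2⟩ := geometric_hahn_banach_point_closed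
    ((convex_convexHull ℝ S).closure) isClosed_closure hz₁
  have hlin : ∀ z : ℂ, g z = g 1 * z.re + g Complex.I * z.im := by
    intro z
    have e : z = z.re • (1 : ℂ) + z.im • Complex.I := by
      apply Complex.ext <;> simp
    conv_lhs => rw [e]
    rw [map_add, map_smul, map_smul, smul_eq_mul, smul_eq_mul]
    ring
  set a := g 1 with ha
  set b := g Complex.I with hb
  have hS' : ∀ z ∈ S, c < g z := fun z hz => hg2 z (subset_closure (subset_convexHull ℝ S hz))
  have hr0 : 0 < a ^ 2 + b ^ 2 := by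
    by_contra hcon
    have hz : a ^ 2 + b ^ 2 = 0 := le_antisymm (not_lt.1 hcon) (by positivity)
    have ha0 : a = 0 := by nlinarith [sq_nonneg a, sq_nonneg b]
    have hb0 : b = 0 := by nlinarith [sq_nonneg a, sq_nonneg b]
    have e1 := hS' 1 h1
    rw [hlin, ha0, hb0] at e1
    rw [hlin, ha0, hb0] at hg1
    linarith
  set r := Real.sqrt (a ^ 2 + b ^ 2) with hr
  have hrp : 0 < r := Real.sqrt_pos.2 hr0
  have hr2 : r ^ 2 = a ^ 2 + b ^ 2 := Real.sq_sqrt hr0.le
  have hz0 : z₀.re ^ 2 + z₀.im ^ 2 ≤ 1 := by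
    rw [mem_closedBall_zero_iff] at hz₀
    have e1 : ‖z₀‖ ^ 2 = z₀.re ^ 2 + z₀.im ^ 2 := by
      rw [← Complex.normSq_eq_norm_sq, Complex.normSq_apply]
      ring
    rw [← e1]
    have := norm_nonneg z₀
    nlinarith
  have hlow : -r ≤ g z₀ := by
    rw [hlin]
    have e1 : (a * z₀.re + b * z₀.im) ^ 2 ≤ r ^ 2 := by
      rw [hr2]
      nlinarith [sq_nonneg (a * z₀.im - b * z₀.re), sq_nonneg a, sq_nonneg b]
    exact (abs_le.1 (abs_le_of_sq_le_sq e1 hrp.le)).1
  refine ⟨a / r, -(b / r), ?_, fun z hz => ?_⟩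
  · rw [neg_sq, div_pow, div_pow, ← add_div, ← hr2]
    exact div_self (by positivity)
  · have e1 := hS' z hz
    rw [hlin] at e1
    have e2 : a / r * z.re - -(b / r) * z.im = (a * z.re + b * z.im) / r := by
      field_simp
      ring
    rw [e2, lt_div_iff₀ hrp]
    linarith

/-- the values of the bracket are positive -/
lemma hp_alg {α β y a b U c₁ c₂ Q : ℝ} (hab : α ^ 2 + β ^ 2 = 1) (hα : -1 < α) (hy : y ^ 2 ≤ 1)
    (hU : 0 < U) (hP : 0 < U + α * a - β * b)
    (hQ : Q ^ 2 = 1 / 4 + (1 - y ^ 2) * (β / (2 * (1 + α))) ^ 2)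
    (hc₁ : c₁ = 1 / 2 - y * Q) (hc₂ : c₂ = (1 - y ^ 2) * (β / (2 * (1 + α)))) :
    0 < (1 - 2 * (c₁ - c₁ ^ 2 - c₂ ^ 2)) * U + 2 * (c₁ - c₁ ^ 2 - c₂ ^ 2) * a - 2 * c₂ * b := by
  have h1 : 0 < 1 + α := by linarith
  set h := β / (2 * (1 + α)) with hh
  have hh1 : h * (2 * (1 + α)) = β := by
    rw [hh]
    field_simp
  have hh2 : h ^ 2 * (4 * (1 + α)) = 1 - α := by
    have e1 : (h ^ 2 * (4 * (1 + α))) * (1 + α) = (1 - α) * (1 + α) := by
      have e2 : (h * (2 * (1 + α))) ^ 2 = β ^ 2 := by rw [hh1]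
      nlinarith
    exact mul_right_cancel₀ h1.ne' e1
  set τ := c₁ - c₁ ^ 2 - c₂ ^ 2 with hτ
  have hτ1 : τ = (1 - y ^ 2) * (1 / 4 - h ^ 2) := by
    rw [hτ, hc₁, hc₂]
    linear_combination (-y ^ 2) * hQ
  have hτ2 : τ * (2 * (1 + α)) = (1 - y ^ 2) * α := by
    rw [hτ1]
    linear_combination (-(1 - y ^ 2) / 2) * hh2
  have hc2 : c₂ * (2 * (1 + α)) = (1 - y ^ 2) * β := by
    rw [hc₂]
    linear_combination (1 - y ^ 2) * hh1
  have key : ((1 - 2 * τ) * U + 2 * τ * a - 2 * c₂ * b) * (1 + α) =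
      (1 - y ^ 2) * (U + α * a - β * b) + y ^ 2 * ((1 + α) * U) := by
    linear_combination (a - U) * hτ2 - b * hc2
  have hpos : 0 < (1 - y ^ 2) * (U + α * a - β * b) + y ^ 2 * ((1 + α) * U) := by
    have e1 : 0 < (1 + α) * U := mul_pos h1 hU
    have e2 : 0 ≤ 1 - y ^ 2 := by linarith
    rcases e2.eq_or_lt with e3 | e3
    · have e4 : y ^ 2 = 1 := by linarith
      rw [e4]
      linarith
    · have e4 : 0 < (1 - y ^ 2) * (U + α * a - β * b) := mul_pos e3 hP
      have e5 : 0 ≤ y ^ 2 * ((1 + α) * U) := mul_nonneg (sq_nonneg y) e1.le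
      linarith
  rw [← key] at hpos
  exact (pos_iff_pos_of_mul_pos hpos).2 h1

/-! ### the path -/

/-- trivial case -/
lemma hp_trivial {T : Type} [TopologicalSpace T] (f : T → SympCt (m + k))
    (h : IsEmpty T ∨ Subsingleton (Phase k)) : HasPath m k f := by
  refine ⟨0, fun _ p => prK m k p, le_rfl, ⟨CF.const (prK m k).contDiff, fun _ _ _ => rfl,
    fun q p u hu => ?_⟩, fun _ _ => rfl, fun t p => ?_, fun _ _ _ _ => rfl⟩
  · rcases h with h | h
    · exact h.elim q.1
    · exact absurd (Subsingleton.elim u 0) hu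
  · rcases h with h | h
    · exact h.elim t
    · exact Subsingleton.elim _ _

theorem hull_path (hb : St_bracket) : St_hull := by
  intro m k T _ _ f hS
  rcases isEmpty_or_nonempty T with hT | hT
  · exact hp_trivial _ (Or.inl hT)
  rcases subsingleton_or_nontrivial (Phase k) with hk | hk
  · exact hp_trivial _ (Or.inr hk)
  obtain ⟨hf, K, hK⟩ := CF_of_continuous f.continuous
  obtain ⟨ρ, hρ⟩ := K.isCompact.isBounded.subset_closedBall (0 : Phase (m + k))
  have hfix : ∀ t (p : Phase (m + k)), |ρ| < ‖p‖ → (f t : Equiv.Perm (Phase (m + k))) p = p := by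
    intro t p hp
    refine hK t p fun hmem => ?_
    have := hρ hmem
    rw [mem_closedBall_zero_iff] at this
    linarith [le_abs_self ρ]
  -- a unit vector
  obtain ⟨v₀, hv₀⟩ := exists_norm_eq (Phase k) (c := 1) zero_le_one
  -- a point outside the support
  obtain ⟨t₀⟩ := hT
  have hnt : Nontrivial (Phase (m + k)) := by
    refine ⟨⟨incK m k v₀, 0, fun h => ?_⟩⟩
    have h2 := hp_proj (m := m) hb v₀
    rw [h, map_zero] at h2
    rw [← h2, norm_zero] at hv₀
    exact zero_ne_one hv₀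
  obtain ⟨p₀, hp₀⟩ := exists_norm_eq (Phase (m + k)) (c := |ρ| + 1) (by positivity)
  have hfd : fderiv ℝ (f t₀ : Equiv.Perm (Phase (m + k))) p₀ = ContinuousLinearMap.id ℝ _ := by
    have h1 : ((f t₀ : Equiv.Perm (Phase (m + k))) : Phase (m + k) → Phase (m + k)) =ᶠ[𝓝 p₀]
        id := by
      have h2 : {p : Phase (m + k) | |ρ| < ‖p‖} ∈ 𝓝 p₀ :=
        (isOpen_lt continuous_const continuous_norm).mem_nhds (by simp [hp₀])
      filter_upwards [h2] with p hp
      exact hfix t₀ p hp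
    rw [h1.fderiv_eq, fderiv_id]
  obtain ⟨α, β, hab, hαβ⟩ := hp_sep (S := {z : ℂ | ∃ (t : T) (p : Phase (m + k)) (u : Phase k),
      ‖u‖ = 1 ∧ z = numVal m k (fderiv ℝ (f t : Equiv.Perm (Phase (m + k))) p) u})
    ⟨t₀, p₀, v₀, hv₀, by rw [hfd, hp_one hb v₀ hv₀]⟩ hS
  have hα : -1 < α := by
    have h1 := hαβ 1 ⟨t₀, p₀, v₀, hv₀, by rw [hfd, hp_one hb v₀ hv₀]⟩
    simpa using h1
  have hpos : ∀ t p (u : Phase k), u ≠ 0 → 0 < ‖u‖ ^ 2 +
      α * (numVal m k (fderiv ℝ (f t : Equiv.Perm (Phase (m + k))) p) u).re -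
      β * (numVal m k (fderiv ℝ (f t : Equiv.Perm (Phase (m + k))) p) u).im := by
    intro t p u hu
    have hu0 : 0 < ‖u‖ := norm_pos_iff.2 hu
    have e1 : u = ‖u‖ • (‖u‖⁻¹ • u) := by
      rw [smul_smul, mul_inv_cancel₀ hu0.ne', one_smul]
    have e2 : ‖‖u‖⁻¹ • u‖ = 1 := by
      rw [norm_smul, norm_inv, norm_norm, inv_mul_cancel₀ hu0.ne']
    have e3 := hαβ _ ⟨t, p, ‖u‖⁻¹ • u, e2, rfl⟩
    set M := fderiv ℝ (f t : Equiv.Perm (Phase (m + k))) p with hM
    have e4 := hp_smul M ‖u‖ (‖u‖⁻¹ • u)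
    rw [← e1] at e4
    rw [e4.1, e4.2]
    have e5 : 0 < ‖u‖ ^ 2 := by positivity
    have e6 : 0 < ‖u‖ ^ 2 * (1 + (α * (numVal m k M (‖u‖⁻¹ • u)).re -
        β * (numVal m k M (‖u‖⁻¹ • u)).im)) := mul_pos e5 (by linarith)
    linarith
  set h : ℝ := β / (2 * (1 + α)) with hh
  set y : I → ℝ := fun s => 1 - 2 * (s : ℝ) with hy
  have hyc : Continuous y := continuous_const.sub (continuous_const.mul continuous_subtype_val)
  have hy1 : ∀ s, y s ^ 2 ≤ 1 := by
    intro s
    have s0 := s.2.1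
    have s1 := s.2.2
    simp only [hy]
    nlinarith
  set Q : I → ℝ := fun s => Real.sqrt (1 / 4 + (1 - y s ^ 2) * h ^ 2) with hQ
  have hQc : Continuous Q := (continuous_const.add
    ((continuous_const.sub (hyc.pow 2)).mul continuous_const)).sqrt
  have hQ2 : ∀ s, Q s ^ 2 = 1 / 4 + (1 - y s ^ 2) * h ^ 2 := by
    intro s
    apply Real.sq_sqrt
    have := mul_nonneg (by linarith [hy1 s] : 0 ≤ 1 - y s ^ 2) (sq_nonneg h)
    linarith
  set c₁ : I → ℝ := fun s => 1 / 2 - y s * Q s with hc₁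
  set c₂ : I → ℝ := fun s => (1 - y s ^ 2) * h with hc₂
  have hc₁c : Continuous c₁ := continuous_const.sub (hyc.mul hQc)
  have hc₂c : Continuous c₂ := (continuous_const.sub (hyc.pow 2)).mul continuous_const
  have y0 : y 0 = 1 := by simp [hy]
  have y1 : y 1 = -1 := by simp [hy]; norm_num
  have hQend : ∀ s, y s ^ 2 = 1 → Q s = 1 / 2 := by
    intro s hs
    have e1 : (1 : ℝ) / 4 + (1 - y s ^ 2) * h ^ 2 = (1 / 2) ^ 2 := by
      rw [hs]
      ring
    show Real.sqrt (1 / 4 + (1 - y s ^ 2) * h ^ 2) = 1 / 2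
    rw [e1, Real.sqrt_sq (by norm_num)]
  have c10 : c₁ 0 = 0 := by
    show 1 / 2 - y 0 * Q 0 = 0
    rw [hQend 0 (by rw [y0]; norm_num), y0]
    norm_num
  have c20 : c₂ 0 = 0 := by
    show (1 - y 0 ^ 2) * h = 0
    rw [y0]
    ring
  have c11 : c₁ 1 = 1 := by
    show 1 / 2 - y 1 * Q 1 = 1
    rw [hQend 1 (by rw [y1]; norm_num), y1]
    norm_num
  have c21 : c₂ 1 = 0 := by
    show (1 - y 1 ^ 2) * h = 0
    rw [y1]
    ring
  have hD : CF (fun (q : T × I) (p : Phase (m + k)) =>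
      prK m k ((f q.1 : Equiv.Perm (Phase (m + k))) p) - prK m k p) :=
    ((hf.base continuous_fst).clm (prK m k)).sub (CF.const (prK m k).contDiff)
  refine ⟨|ρ|, fun q p => prK m k p +
    (c₁ q.2 • (prK m k ((f q.1 : Equiv.Perm (Phase (m + k))) p) - prK m k p) +
      c₂ q.2 • Jl k (prK m k ((f q.1 : Equiv.Perm (Phase (m + k))) p) - prK m k p)),
    abs_nonneg _, ⟨?_, ?_, ?_⟩, ?_, ?_, ?_⟩
  · have h1 : CF (fun (q : T × I) (_ : Phase (m + k)) => c₁ q.2) :=
      CF.param (hc₁c.comp continuous_snd)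
    have h2 : CF (fun (q : T × I) (_ : Phase (m + k)) => c₂ q.2) :=
      CF.param (hc₂c.comp continuous_snd)
    have h3 : CF (fun (q : T × I) (p : Phase (m + k)) =>
        Jl k (prK m k ((f q.1 : Equiv.Perm (Phase (m + k))) p) - prK m k p)) := hD.clm (Jc k)
    exact (CF.const (prK m k).contDiff).add ((h1.smul hD).add (h2.smul h3))
  · intro q p hp
    simp only [hfix q.1 p hp, sub_self, map_zero, smul_zero, add_zero]
  · intro q p u hu
    rw [hp_value hb (f q.1) p u (c₁ q.2) (c₂ q.2)]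
    exact hp_alg hab hα (hy1 q.2) (by positivity) (hpos q.1 p u hu) (hQ2 q.2) rfl rfl
  · intro t p
    simp only [c10, c20, zero_smul, add_zero]
  · intro t p
    simp only [c11, c21, zero_smul, one_smul, add_zero, add_sub_cancel]
  · intro t ht s p
    have ht' : f t = 1 := ht
    have e1 : (f t : Equiv.Perm (Phase (m + k))) p = p := by
      rw [ht']
      rfl
    simp only [e1, sub_self, map_zero, smul_zero, add_zero]

end Pool.Agent.H42.Hull
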