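import Mathlib
import Pool.Agent.H42.Hull.Basic
import Pool.Agent.H42.Hull.Conj
import Pool.Agent.H42.Hull.Cutoff
import Pool.Agent.H42.Hull.HullPath
import Pool.Agent.H42.Hull.Bracket

set_option maxSynthPendingDepth 3

open scoped ContDiff Topology unitInterval
open Set Function TopologicalSpace Filter

namespace Pool.Agent.H42.Hull

open Pool.Agent.Helper17 Pool.Agent.H50.Susp Pool.Agent.Helper42

variable {m k N : ℕ}

lemma norm_bracket_le (α β : Phase N →L[ℝ] ℝ) : |br α β| ≤ ‖α‖ * ‖β‖ := by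
  rw [br_eq_sharp]
  calc |β (-(sharp N α))| ≤ ‖β‖ * ‖-(sharp N α)‖ := β.le_opNorm _
    _ ≤ ‖β‖ * ‖α‖ := by
        rw [norm_neg]
        exact mul_le_mul_of_nonneg_left (norm_sharp_le α) (norm_nonneg _)
    _ = ‖α‖ * ‖β‖ := mul_comm _ _

lemma br_expand (α β e : Phase N →L[ℝ] ℝ) (a b : ℝ) :
    br (α + a • e) (β + b • e) = br α β + b * br α e + a * br e β := by
  rw [br_add_left, br_add_right, br_add_right, br_smul_left, br_smul_left, br_smul_right,
    br_smul_right, br_self]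
  ring

/-- The transposed of a symplectic map. -/
lemma symp_transpose {U : Phase k →L[ℝ] Phase k} (hU : ∀ u v, omegaStd (U u) (U v) = omegaStd u v)
    (u : Phase k) : U (Jl k (ContinuousLinearMap.adjoint U u)) = Jl k u := by
  have h1 := comp_sAdj hU (Jl k u)
  have h2 : sAdj k U (Jl k u) = -(Jl k (ContinuousLinearMap.adjoint U (Jl k (Jl k u)))) := rfl
  rw [h2, Jl_Jl, map_neg, map_neg, map_neg, map_neg, neg_neg] at h1
  exact h1

lemma neg_sharp_innerSL (a : Phase N) : -(sharp N (innerSL ℝ a)) = Jl N a := by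
  change -(-(Jl N ((InnerProductSpace.toDual ℝ (Phase N)).symm (innerSL ℝ a)))) = Jl N a
  have h1 : (InnerProductSpace.toDual ℝ (Phase N)).symm (innerSL ℝ a) = a := by
    have h2 : innerSL ℝ a = InnerProductSpace.toDual ℝ (Phase N) a := rfl
    rw [h2, LinearIsometryEquiv.symm_apply_apply]
  rw [h1, neg_neg]

lemma br_innerSL (a : Phase N) (β : Phase N →L[ℝ] ℝ) : br (innerSL ℝ a) β = β (Jl N a) := by
  rw [br_eq_sharp, neg_sharp_innerSL]

lemma fderiv_two (f : SympCt N) (p a b : Phase N) :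
    fderiv ℝ (fun q => inner ℝ a q + inner ℝ b ((f : Equiv.Perm (Phase N)) q)) p =
      innerSL ℝ a + (innerSL ℝ b).comp (fderiv ℝ (f : Equiv.Perm (Phase N)) p) := by
  have h1 : HasFDerivAt (fun q => innerSL ℝ a q + innerSL ℝ b ((f : Equiv.Perm (Phase N)) q))
      (innerSL ℝ a + (innerSL ℝ b).comp (fderiv ℝ (f : Equiv.Perm (Phase N)) p)) p :=
    (innerSL ℝ a).hasFDerivAt.add ((innerSL ℝ b).hasFDerivAt.comp p
      (SympCt.differentiable f p).hasFDerivAt)
  exact h1.fderiv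

/-- Brackets of linear functions of `p` and `f p`. -/
lemma bracket_full (f : SympCt N) (p a b a' b' : Phase N) :
    fderiv ℝ (fun q => inner ℝ a' q + inner ℝ b' ((f : Equiv.Perm (Phase N)) q)) p
      (hamV (fun q => inner ℝ a q + inner ℝ b ((f : Equiv.Perm (Phase N)) q)) p) =
    inner ℝ a' (Jl N a) + inner ℝ b' (Jl N b) +
      inner ℝ b' (fderiv ℝ (f : Equiv.Perm (Phase N)) p (Jl N a)) -
      inner ℝ b (fderiv ℝ (f : Equiv.Perm (Phase N)) p (Jl N a')) := by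
  rw [fderiv_hamV_eq_br, fderiv_two, fderiv_two, br_add_left, br_add_right, br_add_right,
    br_symp (f.2.2.2.1 p), br_innerSL, br_innerSL, br_innerSL,
    br_swap ((innerSL ℝ b).comp (fderiv ℝ (f : Equiv.Perm (Phase N)) p)) (innerSL ℝ a'),
    br_innerSL]
  simp only [innerSL_apply_apply, ContinuousLinearMap.comp_apply]
  ring

lemma wL_Jl (v : Phase (N + 1)) : Pool.Agent.H50.Susp.wL N (Jl (N + 1) v) =
    Jl N (Pool.Agent.H50.Susp.wL N v) := by
  ext j
  rcases j with j | j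
  · rfl
  · rfl

lemma prK_Jl (m : ℕ) : ∀ (k : ℕ) (v : Phase (m + k)),
    prK m k (Jl (m + k) v) = Jl k (prK m k v)
  | 0, v => Subsingleton.elim _ _
  | k + 1, v => by
    apply ext_xyw
    · rw [prK_succ, prK_succ, mkP_x]
      change -(v (Sum.inr 0)) = -((Pool.Agent.H50.Susp.mkP (v (Sum.inl 0)) (v (Sum.inr 0))
        (prK m k (Pool.Agent.H50.Susp.wL (m + k) v))) (Sum.inr 0))
      rw [mkP_y]
    · rw [prK_succ, prK_succ, mkP_y]
      change (v (Sum.inl 0)) = ((Pool.Agent.H50.Susp.mkP (v (Sum.inl 0)) (v (Sum.inr 0))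
        (prK m k (Pool.Agent.H50.Susp.wL (m + k) v))) (Sum.inl 0))
      rw [mkP_x]
    · rw [wL_Jl, prK_succ, prK_succ, wL_mkP, wL_mkP]
      have h2 : Pool.Agent.H50.Susp.wL (m + k) (Jl (m + (k + 1)) v) =
        Jl (m + k) (Pool.Agent.H50.Susp.wL (m + k) v) := wL_Jl (N := m + k) v
      rw [h2, prK_Jl m k]

lemma incK_Jl (u : Phase k) : incK m k (Jl k u) = Jl (m + k) (incK m k u) := by
  apply ext_inner_left ℝ
  intro v
  rw [hp_inner_J, incK, ContinuousLinearMap.adjoint_inner_right,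
    ContinuousLinearMap.adjoint_inner_right, prK_Jl, hp_inner_J]

lemma prK_incK (u : Phase k) : prK m k (incK m k u) = u := hp_proj bracket_lin u

/-- Time functions of the path. -/
noncomputable def rT (s : I) : ℝ := min (3 * (s : ℝ)) (min 1 (3 - 3 * (s : ℝ)))

/-- Time functions of the path. -/
noncomputable def qT (s : I) : ℝ := min 1 (max 0 (3 * (s : ℝ) - 1))

lemma continuous_rT : Continuous rT := by
  unfold rT
  fun_prop

lemma continuous_qT : Continuous qT := by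
  unfold qT
  fun_prop

lemma rT_mem (s : I) : 0 ≤ rT s ∧ rT s ≤ 1 := by
  have h0 := s.2.1
  have h1 := s.2.2
  constructor
  · unfold rT
    refine le_min (by linarith) (le_min zero_le_one (by linarith))
  · exact (min_le_right _ _).trans (min_le_left _ _)

lemma qT_mem (s : I) : 0 ≤ qT s ∧ qT s ≤ 1 := by
  unfold qT
  exact ⟨le_min zero_le_one (le_max_left _ _), min_le_left _ _⟩

lemma time_cases (s : I) : qT s = 0 ∨ rT s = 1 ∨ qT s = 1 := by
  have h0 := s.2.1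
  have h1 := s.2.2
  rcases le_total (3 * (s : ℝ)) 1 with h | h
  · left
    unfold qT
    rw [max_eq_left (by linarith), min_eq_right zero_le_one]
  · rcases le_total 2 (3 * (s : ℝ)) with h' | h'
    · right; right
      unfold qT
      exact min_eq_left (le_max_of_le_right (by linarith))
    · right; left
      unfold rT
      rw [min_eq_left (by linarith : (1 : ℝ) ≤ 3 - 3 * (s : ℝ)), min_eq_right h]

lemma rT_zero : rT 0 = 0 := by simp [rT]

lemma rT_one : rT 1 = 0 := by simp [rT]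

lemma qT_zero : qT 0 = 0 := by simp [qT]

lemma qT_one : qT 1 = 1 := by
  simp only [qT, Icc.coe_one]
  norm_num

/-- The real part of the value of `P M` restricted to the first coordinates. -/
noncomputable def zP (P : Phase (m + k) →L[ℝ] Phase k)
    (M : Phase (m + k) →L[ℝ] Phase (m + k)) (u : Phase k) : ℝ :=
  (inner ℝ u (P (M (incK m k u))) + inner ℝ (Jl k u) (P (M (incK m k (Jl k u))))) / 2

/-- `P` is a linear Poisson map. -/
def IsPois (P : Phase (m + k) →L[ℝ] Phase k) : Prop :=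
  ∀ u : Phase k, P (Jl (m + k) (ContinuousLinearMap.adjoint P u)) = Jl k u

/-- Statement of the twisted form. -/
def St_hullP : Prop :=
  ∀ (m k : ℕ) (T : Type) [TopologicalSpace T] [CompactSpace T] (f : C(T, SympCt (m + k)))
    (P : Phase (m + k) →L[ℝ] Phase k), IsPois P →
    (∀ t p (u : Phase k), u ≠ 0 →
      0 < ‖u‖ ^ 2 + zP P (fderiv ℝ (f t : Equiv.Perm (Phase (m + k))) p) u) →
    HasPath m k (fun t => f t)

/-- The brackets of all maps `(1 - ρ) (…) + ρ P f`. -/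
lemma value_gen {P : Phase (m + k) →L[ℝ] Phase k} (hP : IsPois P) (f : SympCt (m + k))
    (p : Phase (m + k)) (u : Phase k) (s x ρ : ℝ) :
    fderiv ℝ (fun q => inner ℝ (s • incK m k (Jl k u)) q +
        inner ℝ (x • incK m k (Jl k u) + ρ • ContinuousLinearMap.adjoint P (Jl k u))
          ((f : Equiv.Perm (Phase (m + k))) q)) p
      (hamV (fun q => inner ℝ (s • incK m k u) q +
        inner ℝ (x • incK m k u + ρ • ContinuousLinearMap.adjoint P u)
          ((f : Equiv.Perm (Phase (m + k))) q)) p) =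
    (s ^ 2 + x ^ 2 + ρ ^ 2) * ‖u‖ ^ 2 +
      2 * x * ρ * zP P (ContinuousLinearMap.id ℝ _) u +
      2 * s * ρ * zP P (fderiv ℝ (f : Equiv.Perm (Phase (m + k))) p) u +
      2 * s * x * zP (prK m k) (fderiv ℝ (f : Equiv.Perm (Phase (m + k))) p) u := by
  rw [bracket_full]
  set D := fderiv ℝ (f : Equiv.Perm (Phase (m + k))) p with hD
  have e1 : ‖u‖ ^ 2 = inner ℝ u u := (real_inner_self_eq_norm_sq u).symm
  have e2 : ∀ (v : Phase k) (w : Phase (m + k)),
      inner ℝ (ContinuousLinearMap.adjoint P v) w = inner ℝ v (P w) :=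
    fun v w => ContinuousLinearMap.adjoint_inner_left P w v
  have e3 : ∀ (v : Phase k) (w : Phase (m + k)), inner ℝ (incK m k v) w = inner ℝ v (prK m k w) :=
    fun v w => ContinuousLinearMap.adjoint_inner_left (prK m k) w v
  -- the six products
  have f1 : inner ℝ (incK m k (Jl k u)) (Jl (m + k) (incK m k u)) = inner ℝ u u := by
    rw [← incK_Jl, e3, prK_incK, hp_inner_JJ]
  have f2 : inner ℝ (ContinuousLinearMap.adjoint P (Jl k u))
      (Jl (m + k) (ContinuousLinearMap.adjoint P u)) = inner ℝ u u := by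
    rw [e2, hP, hp_inner_JJ]
  have f3 : inner ℝ (ContinuousLinearMap.adjoint P (Jl k u)) (Jl (m + k) (incK m k u)) =
      inner ℝ (Jl k u) (P (incK m k (Jl k u))) := by
    rw [e2, incK_Jl]
  have f4 : inner ℝ (incK m k (Jl k u)) (Jl (m + k) (ContinuousLinearMap.adjoint P u)) =
      inner ℝ u (P (incK m k u)) := by
    rw [incK_Jl, hp_inner_JJ, real_inner_comm, e2]
  have g1 : Jl (m + k) (incK m k u) = incK m k (Jl k u) := (incK_Jl u).symm
  have g2 : Jl (m + k) (incK m k (Jl k u)) = -(incK m k u) := by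
    rw [incK_Jl, Jl_Jl]
  have c1 : inner ℝ (s • incK m k (Jl k u)) (Jl (m + k) (s • incK m k u)) =
      s ^ 2 * inner ℝ u u := by
    rw [map_smul, real_inner_smul_left, real_inner_smul_right, f1]
    ring
  have c2 : inner ℝ (x • incK m k (Jl k u) + ρ • ContinuousLinearMap.adjoint P (Jl k u))
      (Jl (m + k) (x • incK m k u + ρ • ContinuousLinearMap.adjoint P u)) =
      (x ^ 2 + ρ ^ 2) * inner ℝ u u + x * ρ * (inner ℝ u (P (incK m k u)) +
        inner ℝ (Jl k u) (P (incK m k (Jl k u)))) := by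
    rw [map_add, map_smul, map_smul, inner_add_left, inner_add_right, inner_add_right,
      real_inner_smul_left, real_inner_smul_left, real_inner_smul_left, real_inner_smul_left,
      real_inner_smul_right, real_inner_smul_right, real_inner_smul_right, real_inner_smul_right,
      f1, f2, f3, f4]
    ring
  have c3 : inner ℝ (x • incK m k (Jl k u) + ρ • ContinuousLinearMap.adjoint P (Jl k u))
      (D (Jl (m + k) (s • incK m k u))) =
      s * x * inner ℝ (Jl k u) (prK m k (D (incK m k (Jl k u)))) +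
        s * ρ * inner ℝ (Jl k u) (P (D (incK m k (Jl k u)))) := by
    rw [map_smul, g1, map_smul, inner_add_left, real_inner_smul_left, real_inner_smul_left,
      real_inner_smul_right, real_inner_smul_right, e2, e3]
    ring
  have c4 : inner ℝ (x • incK m k u + ρ • ContinuousLinearMap.adjoint P u)
      (D (Jl (m + k) (s • incK m k (Jl k u)))) =
      -(s * x * inner ℝ u (prK m k (D (incK m k u))) +
        s * ρ * inner ℝ u (P (D (incK m k u)))) := by
    rw [map_smul, g2, map_smul, map_neg, inner_add_left, real_inner_smul_left,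
      real_inner_smul_left, real_inner_smul_right, real_inner_smul_right, inner_neg_right,
      inner_neg_right, e2, e3]
    ring
  rw [c1, c2, c3, c4, e1]
  simp only [zP, ContinuousLinearMap.id_apply]
  ring

lemma inner_E_le (P : Phase (m + k) →L[ℝ] Phase k) (E : Phase (m + k) →L[ℝ] Phase (m + k))
    (v : Phase k) : |inner ℝ v (P (E (incK m k v)))| ≤ ‖P‖ * ‖prK m k‖ * ‖E‖ * ‖v‖ ^ 2 := by
  have hinc : ‖incK m k v‖ ≤ ‖prK m k‖ * ‖v‖ := by
    have h1 : ‖incK m k‖ = ‖prK m k‖ := by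
      unfold incK
      exact LinearIsometryEquiv.norm_map _ _
    rw [← h1]
    exact (incK m k).le_opNorm v
  have h2 : ‖E (incK m k v)‖ ≤ ‖E‖ * (‖prK m k‖ * ‖v‖) :=
    (E.le_opNorm _).trans (mul_le_mul_of_nonneg_left hinc (norm_nonneg _))
  have h3 : ‖P (E (incK m k v))‖ ≤ ‖P‖ * (‖E‖ * (‖prK m k‖ * ‖v‖)) :=
    (P.le_opNorm _).trans (mul_le_mul_of_nonneg_left h2 (norm_nonneg _))
  have h4 := (abs_real_inner_le_norm v (P (E (incK m k v)))).trans
    (mul_le_mul_of_nonneg_left h3 (norm_nonneg v))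
  refine h4.trans_eq ?_
  ring

lemma zP_sub_le (P : Phase (m + k) →L[ℝ] Phase k) (D : Phase (m + k) →L[ℝ] Phase (m + k))
    (u : Phase k) : zP P (ContinuousLinearMap.id ℝ (Phase (m + k))) u - ‖P‖ * ‖prK m k‖ *
      ‖D - ContinuousLinearMap.id ℝ (Phase (m + k))‖ * ‖u‖ ^ 2 ≤ zP P D u := by
  obtain ⟨E, hE⟩ : ∃ E : Phase (m + k) →L[ℝ] Phase (m + k),
      E = D - ContinuousLinearMap.id ℝ (Phase (m + k)) := ⟨_, rfl⟩
  have hD : ∀ v : Phase k, P (D (incK m k v)) = P (incK m k v) + P (E (incK m k v)) := by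
    intro v
    have h1 : E (incK m k v) = D (incK m k v) - incK m k v := by
      rw [hE]
      rfl
    rw [h1, map_sub]
    abel
  rw [← hE]
  have h2 := (abs_le.1 (inner_E_le P E u)).1
  have h3 := (abs_le.1 (inner_E_le P E (Jl k u))).1
  rw [norm_Jl] at h3
  have h4 : zP P D u = zP P (ContinuousLinearMap.id ℝ (Phase (m + k))) u +
      (inner ℝ u (P (E (incK m k u))) + inner ℝ (Jl k u) (P (E (incK m k (Jl k u))))) / 2 := by
    unfold zP
    rw [hD, hD, inner_add_right, inner_add_right]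
    change _ = (inner ℝ u (P (incK m k u)) + inner ℝ (Jl k u) (P (incK m k (Jl k u)))) / 2 + _
    ring
  rw [h4]
  linarith

lemma zP_prK_id (u : Phase k) : zP (prK m k) (ContinuousLinearMap.id ℝ _) u = ‖u‖ ^ 2 := by
  simp only [zP, ContinuousLinearMap.id_apply, prK_incK, real_inner_self_eq_norm_sq, norm_Jl]
  ring

/-- The lower bound of the values at the identity. -/
lemma zP_bound {P : Phase (m + k) →L[ℝ] Phase k}
    (h : ∀ u : Phase k, u ≠ 0 → 0 < ‖u‖ ^ 2 + zP P (ContinuousLinearMap.id ℝ _) u)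
    (hk : Nontrivial (Phase k)) : ∃ κ : ℝ, 0 < κ ∧ κ ≤ 1 ∧
      ∀ (u : Phase k) (ρ : ℝ), 0 ≤ ρ → ρ ≤ 1 →
        κ / 2 * ‖u‖ ^ 2 ≤ ((1 - ρ) ^ 2 + ρ ^ 2) * ‖u‖ ^ 2 +
          2 * ρ * (1 - ρ) * zP P (ContinuousLinearMap.id ℝ _) u := by
  obtain ⟨v₀, hv₀⟩ := exists_norm_eq (Phase k) (c := 1) zero_le_one
  have hc : Continuous (fun u : Phase k => 1 + zP P (ContinuousLinearMap.id ℝ _) u) := by
    unfold zP
    have hJ : Continuous (fun u : Phase k => Jl k u) := (Jc k).continuous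
    have hi : Continuous (fun u : Phase k => P ((ContinuousLinearMap.id ℝ _) (incK m k u))) :=
      P.continuous.comp (incK m k).continuous
    exact continuous_const.add (((continuous_id.inner hi).add
      (hJ.inner (hi.comp hJ))).div_const 2)
  obtain ⟨w, hw, hmin⟩ := (isCompact_sphere (0 : Phase k) 1).exists_isMinOn
    ⟨v₀, by simpa using hv₀⟩ hc.continuousOn
  have hw1 : ‖w‖ = 1 := by simpa using hw
  have hw0 : 0 < 1 + zP P (ContinuousLinearMap.id ℝ _) w := by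
    have h1 := h w (norm_ne_zero_iff.1 (by rw [hw1]; exact one_ne_zero))
    rwa [hw1, one_pow] at h1
  set κ := min (1 + zP P (ContinuousLinearMap.id ℝ _) w) 1 with hκ
  have hκ0 : 0 < κ := lt_min hw0 one_pos
  have hκ1 : κ ≤ 1 := min_le_right _ _
  have hz : ∀ u : Phase k, -(1 - κ) * ‖u‖ ^ 2 ≤ zP P (ContinuousLinearMap.id ℝ _) u := by
    intro u
    by_cases hu : u = 0
    · rw [hu]
      simp [zP]
    · have hu0 : 0 < ‖u‖ := norm_pos_iff.2 hu
      have h1 : ‖‖u‖⁻¹ • u‖ = 1 := by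
        rw [norm_smul, norm_inv, norm_norm, inv_mul_cancel₀ hu0.ne']
      have h2 := hmin (a := ‖u‖⁻¹ • u) (by simpa using h1)
      have h3 : zP P (ContinuousLinearMap.id ℝ _) (‖u‖⁻¹ • u) =
          (‖u‖⁻¹) ^ 2 * zP P (ContinuousLinearMap.id ℝ _) u := by
        simp only [zP, map_smul, inner_smul_left, inner_smul_right, conj_trivial]
        ring
      have h4 : κ ≤ 1 + (‖u‖⁻¹) ^ 2 * zP P (ContinuousLinearMap.id ℝ _) u := by
        rw [← h3]
        exact (min_le_left _ _).trans h2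
      have h5 : (‖u‖⁻¹) ^ 2 * zP P (ContinuousLinearMap.id ℝ _) u * ‖u‖ ^ 2 =
          zP P (ContinuousLinearMap.id ℝ _) u := by
        field_simp
      have h6 := mul_le_mul_of_nonneg_right h4 (sq_nonneg ‖u‖)
      rw [add_mul, h5] at h6
      linarith
  refine ⟨κ, hκ0, hκ1, fun u ρ hρ0 hρ1 => ?_⟩
  have h1 := hz u
  have h2 : 0 ≤ 2 * ρ * (1 - ρ) := by
    have : 0 ≤ ρ * (1 - ρ) := mul_nonneg hρ0 (by linarith)
    linarith
  have h3 := mul_le_mul_of_nonneg_left h1 h2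
  have h4 : 0 ≤ (1 - κ / 2) * ((1 - 2 * ρ) ^ 2 * ‖u‖ ^ 2) := by
    apply mul_nonneg (by linarith)
    positivity
  have h5 : ((1 - ρ) ^ 2 + ρ ^ 2) * ‖u‖ ^ 2 + 2 * ρ * (1 - ρ) * (-(1 - κ) * ‖u‖ ^ 2) -
      κ / 2 * ‖u‖ ^ 2 = (1 - κ / 2) * ((1 - 2 * ρ) ^ 2 * ‖u‖ ^ 2) := by
    ring
  linarith

lemma two_term_pos {ρ X z : ℝ} (hρ0 : 0 ≤ ρ) (hρ1 : ρ ≤ 1) (hX : 0 < X) (hz : 0 < X + z) :
    0 < ((1 - ρ) ^ 2 + ρ ^ 2) * X + 2 * ρ * (1 - ρ) * z := by
  have h1 : ((1 - ρ) ^ 2 + ρ ^ 2) * X + 2 * ρ * (1 - ρ) * z =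
      (1 - 2 * ρ) ^ 2 * X + 2 * (ρ * (1 - ρ)) * (X + z) := by ring
  rw [h1]
  have h2 : 0 ≤ ρ * (1 - ρ) := mul_nonneg hρ0 (by linarith)
  rcases h2.eq_or_lt with h3 | h3
  · rw [← h3]
    have h4 : (1 - 2 * ρ) ^ 2 = 1 - 4 * (ρ * (1 - ρ)) := by ring
    rw [h4, ← h3]
    linarith
  · have h4 : 0 ≤ (1 - 2 * ρ) ^ 2 * X := mul_nonneg (sq_nonneg _) hX.le
    have h5 : 0 < 2 * (ρ * (1 - ρ)) * (X + z) := by positivity
    linarith

lemma norm_incK (v : Phase k) : ‖incK m k v‖ ≤ ‖prK m k‖ * ‖v‖ := by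
  have hinc : ‖incK m k‖ = ‖prK m k‖ := by
    unfold incK
    exact LinearIsometryEquiv.norm_map _ _
  rw [← hinc]
  exact (incK m k).le_opNorm v

lemma norm_adjoint_le (P : Phase (m + k) →L[ℝ] Phase k) (v : Phase k) :
    ‖ContinuousLinearMap.adjoint P v‖ ≤ ‖P‖ * ‖v‖ := by
  have := (ContinuousLinearMap.adjoint P).le_opNorm v
  rwa [LinearIsometryEquiv.norm_map] at this

/-- The norm of a convex combination. -/
lemma norm_comb_le (P : Phase (m + k) →L[ℝ] Phase k) (u : Phase k) {ρ : ℝ} (hρ0 : 0 ≤ ρ)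
    (hρ1 : ρ ≤ 1) :
    ‖(1 - ρ) • incK m k u + ρ • ContinuousLinearMap.adjoint P u‖ ≤ (‖prK m k‖ + ‖P‖) * ‖u‖ := by
  have h1 := norm_adjoint_le P u
  have h1' := norm_incK (m := m) u
  have h2 : ‖(1 - ρ) • incK m k u‖ ≤ ‖prK m k‖ * ‖u‖ := by
    rw [norm_smul, Real.norm_eq_abs, abs_of_nonneg (by linarith)]
    have := norm_nonneg (incK m k u)
    nlinarith
  have h3 : ‖ρ • ContinuousLinearMap.adjoint P u‖ ≤ ‖P‖ * ‖u‖ := by
    rw [norm_smul, Real.norm_eq_abs, abs_of_nonneg hρ0]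
    have := norm_nonneg (ContinuousLinearMap.adjoint P u)
    nlinarith
  calc _ ≤ ‖(1 - ρ) • incK m k u‖ + ‖ρ • ContinuousLinearMap.adjoint P u‖ := norm_add_le _ _
    _ ≤ ‖prK m k‖ * ‖u‖ + ‖P‖ * ‖u‖ := add_le_add h2 h3
    _ = (‖prK m k‖ + ‖P‖) * ‖u‖ := by ring

/-- The derivative of the mixed linear function. -/
lemma fderiv_mix {P : Phase (m + k) →L[ℝ] Phase k} {μ : Phase (m + k) → ℝ} {p : Phase (m + k)}
    (hμ : DifferentiableAt ℝ μ p) (c : ℝ) (v : Phase k) :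
    fderiv ℝ (fun x => inner ℝ ((1 - c * μ x) • incK m k v +
      (c * μ x) • ContinuousLinearMap.adjoint P v) x) p =
    innerSL ℝ ((1 - c * μ p) • incK m k v + (c * μ p) • ContinuousLinearMap.adjoint P v) +
      inner ℝ (ContinuousLinearMap.adjoint P v - incK m k v) p • (c • fderiv ℝ μ p) := by
  have h1 : (fun x => inner ℝ ((1 - c * μ x) • incK m k v +
      (c * μ x) • ContinuousLinearMap.adjoint P v) x) = fun x => innerSL ℝ (incK m k v) x +
        (c * μ x) * innerSL ℝ (ContinuousLinearMap.adjoint P v - incK m k v) x := by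
    funext x
    simp only [innerSL_apply_apply, inner_add_left, inner_sub_left, inner_smul_left, conj_trivial]
    ring
  have h2 : HasFDerivAt (fun x => innerSL ℝ (incK m k v) x +
        (c * μ x) * innerSL ℝ (ContinuousLinearMap.adjoint P v - incK m k v) x)
      (innerSL ℝ (incK m k v) + ((c * μ p) •
        (innerSL ℝ (ContinuousLinearMap.adjoint P v - incK m k v)) +
        (innerSL ℝ (ContinuousLinearMap.adjoint P v - incK m k v) p) •
          (c • fderiv ℝ μ p))) p :=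
    (innerSL ℝ (incK m k v)).hasFDerivAt.add ((hμ.hasFDerivAt.const_mul c).mul
      (innerSL ℝ (ContinuousLinearMap.adjoint P v - incK m k v)).hasFDerivAt)
  rw [h1, h2.fderiv]
  ext w
  simp only [_root_.add_apply, _root_.smul_apply, smul_eq_mul, innerSL_apply_apply, inner_add_left,
    inner_sub_left, inner_smul_left, conj_trivial]
  ring

/-- The bracket of the linear functions. -/
lemma br_comb {P : Phase (m + k) →L[ℝ] Phase k} (hP : IsPois P) (u : Phase k) (ρ : ℝ) :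
    br (innerSL ℝ ((1 - ρ) • incK m k u + ρ • ContinuousLinearMap.adjoint P u))
      (innerSL ℝ ((1 - ρ) • incK m k (Jl k u) + ρ • ContinuousLinearMap.adjoint P (Jl k u))) =
    ((1 - ρ) ^ 2 + ρ ^ 2) * ‖u‖ ^ 2 +
      2 * ρ * (1 - ρ) * zP P (ContinuousLinearMap.id ℝ _) u := by
  have h1 := value_gen hP 1 0 u 0 (1 - ρ) ρ
  have h2 : ((1 : SympCt (m + k)) : Equiv.Perm (Phase (m + k))) = Equiv.refl _ := rfl
  rw [fderiv_hamV_eq_br, fderiv_two, fderiv_two] at h1
  have h3 : fderiv ℝ (((1 : SympCt (m + k)) : Equiv.Perm (Phase (m + k))) :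
      Phase (m + k) → Phase (m + k)) 0 = ContinuousLinearMap.id ℝ _ := fderiv_id
  rw [h3] at h1
  simp only [zero_smul, map_zero, zero_add, ContinuousLinearMap.comp_id] at h1
  rw [h1]
  ring

/-- Positivity outside the support. -/
lemma value_out {P : Phase (m + k) →L[ℝ] Phase k} (hP : IsPois P) {κ ε : ℝ}
    (hκ : ∀ (u : Phase k) (ρ : ℝ), 0 ≤ ρ → ρ ≤ 1 →
        κ / 2 * ‖u‖ ^ 2 ≤ ((1 - ρ) ^ 2 + ρ ^ 2) * ‖u‖ ^ 2 +
          2 * ρ * (1 - ρ) * zP P (ContinuousLinearMap.id ℝ _) u)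
    {μ : Phase (m + k) → ℝ} {p : Phase (m + k)} (hμ : DifferentiableAt ℝ μ p)
    (hμ0 : 0 ≤ μ p) (hμ1 : μ p ≤ 1) (hε : ‖fderiv ℝ μ p‖ * ‖p‖ ≤ ε)
    (hεκ : 2 * ((‖prK m k‖ + ‖P‖) ^ 2 * ε) < κ / 2) {c : ℝ} (hc0 : 0 ≤ c) (hc1 : c ≤ 1)
    {u : Phase k} (hu : u ≠ 0) :
    0 < fderiv ℝ (fun x => inner ℝ ((1 - c * μ x) • incK m k (Jl k u) +
        (c * μ x) • ContinuousLinearMap.adjoint P (Jl k u)) x) p
      (hamV (fun x => inner ℝ ((1 - c * μ x) • incK m k u +
        (c * μ x) • ContinuousLinearMap.adjoint P u) x) p) := by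
  rw [fderiv_hamV_eq_br, fderiv_mix hμ, fderiv_mix hμ, br_expand]
  have hρ0 : 0 ≤ c * μ p := mul_nonneg hc0 hμ0
  have hρ1 : c * μ p ≤ 1 := by nlinarith
  set ρ := c * μ p with hρ
  rw [br_comb hP]
  have hlow := hκ u ρ hρ0 hρ1
  set B := ‖prK m k‖ + ‖P‖ with hB
  have hB0 : 0 ≤ B := by positivity
  have hu0 : 0 < ‖u‖ := norm_pos_iff.2 hu
  have hJn : ‖Jl k u‖ = ‖u‖ := norm_Jl u
  have hA : ∀ v : Phase k, |inner ℝ (ContinuousLinearMap.adjoint P v - incK m k v) p| ≤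
      B * ‖v‖ * ‖p‖ := by
    intro v
    have h1 : ‖ContinuousLinearMap.adjoint P v - incK m k v‖ ≤ B * ‖v‖ := by
      calc _ ≤ ‖ContinuousLinearMap.adjoint P v‖ + ‖incK m k v‖ := norm_sub_le _ _
        _ ≤ ‖P‖ * ‖v‖ + ‖prK m k‖ * ‖v‖ := add_le_add (norm_adjoint_le P v) (norm_incK v)
        _ = B * ‖v‖ := by rw [hB]; ring
    exact (abs_real_inner_le_norm _ _).trans (mul_le_mul_of_nonneg_right h1 (norm_nonneg _))
  have hL : ∀ v : Phase k, ‖innerSL ℝ ((1 - ρ) • incK m k v +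
      ρ • ContinuousLinearMap.adjoint P v)‖ ≤ B * ‖v‖ := by
    intro v
    rw [innerSL_apply_norm]
    exact norm_comb_le P v hρ0 hρ1
  have he : ‖c • fderiv ℝ μ p‖ ≤ ‖fderiv ℝ μ p‖ := by
    rw [norm_smul, Real.norm_eq_abs, abs_of_nonneg hc0]
    have := norm_nonneg (fderiv ℝ μ p)
    nlinarith
  have hprod : ∀ v w : Phase k, ‖v‖ = ‖u‖ → ‖w‖ = ‖u‖ →
      (B * ‖v‖ * ‖p‖) * ((B * ‖w‖) * ‖fderiv ℝ μ p‖) ≤ B ^ 2 * ε * ‖u‖ ^ 2 := by
    intro v w hv hw
    rw [hv, hw]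
    have h1 : (B * ‖u‖ * ‖p‖) * ((B * ‖u‖) * ‖fderiv ℝ μ p‖) =
        (B ^ 2 * ‖u‖ ^ 2) * (‖fderiv ℝ μ p‖ * ‖p‖) := by ring
    rw [h1]
    calc _ ≤ (B ^ 2 * ‖u‖ ^ 2) * ε := mul_le_mul_of_nonneg_left hε (by positivity)
      _ = B ^ 2 * ε * ‖u‖ ^ 2 := by ring
  have e1 : |inner ℝ (ContinuousLinearMap.adjoint P (Jl k u) - incK m k (Jl k u)) p *
      br (innerSL ℝ ((1 - ρ) • incK m k u + ρ • ContinuousLinearMap.adjoint P u))
        (c • fderiv ℝ μ p)| ≤ B ^ 2 * ε * ‖u‖ ^ 2 := by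
    rw [abs_mul]
    refine le_trans ?_ (hprod (Jl k u) u hJn rfl)
    apply mul_le_mul (hA _) _ (abs_nonneg _) (by positivity)
    refine (norm_bracket_le _ _).trans ?_
    exact mul_le_mul (hL u) he (norm_nonneg _) (by positivity)
  have e2 : |inner ℝ (ContinuousLinearMap.adjoint P u - incK m k u) p *
      br (c • fderiv ℝ μ p) (innerSL ℝ ((1 - ρ) • incK m k (Jl k u) +
        ρ • ContinuousLinearMap.adjoint P (Jl k u)))| ≤
      B ^ 2 * ε * ‖u‖ ^ 2 := by
    rw [abs_mul]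
    refine le_trans ?_ (hprod u (Jl k u) rfl hJn)
    apply mul_le_mul (hA _) _ (abs_nonneg _) (by positivity)
    refine (norm_bracket_le _ _).trans ?_
    rw [mul_comm]
    exact mul_le_mul (hL (Jl k u)) he (norm_nonneg _) (by positivity)
  have e1' := (abs_le.1 e1).1
  have e2' := (abs_le.1 e2).1
  have e3 : 2 * (B ^ 2 * ε) * ‖u‖ ^ 2 < κ / 2 * ‖u‖ ^ 2 :=
    mul_lt_mul_of_pos_right hεκ (by positivity)
  linarith

end Pool.Agent.H42.Hull
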