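import Pool.Agent.H42.Hull.Defs

set_option maxSynthPendingDepth 3

open scoped ContDiff Topology unitInterval
open Set Function TopologicalSpace Filter

namespace Pool.Agent.H42.Hull

open Pool.Agent.Helper17 Pool.Agent.H50.Susp Pool.Agent.Helper42

section

variable {T E : Type} [TopologicalSpace T] [NormedAddCommGroup E] [NormedSpace ℝ E]

private lemma imp_strictMono {G : ℝ × E → ℝ} (hd : Differentiable ℝ G)
    (hpos : ∀ q, 0 < fderiv ℝ G q (1, 0)) (x : E) : StrictMono fun y : ℝ => G (y, x) := by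
  have h1 : ∀ y : ℝ, HasDerivAt (fun y : ℝ => G (y, x)) (fderiv ℝ G (y, x) (1, 0)) y := by
    intro y
    have h2 : HasDerivAt (fun y : ℝ => (y, x)) ((1 : ℝ), (0 : E)) y :=
      (hasDerivAt_id y).prodMk (hasDerivAt_const y x)
    exact (hd (y, x)).hasFDerivAt.comp_hasDerivAt y h2
  exact strictMono_of_deriv_pos fun y => by rw [(h1 y).deriv]; exact hpos _

private lemma imp_cont {G : T → ℝ × E → ℝ} (hG : CF G)
    (hpos : ∀ t q, 0 < fderiv ℝ (G t) q (1, 0)) {Y : T → E → ℝ}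
    (hY : ∀ t x, G t (Y t x, x) = 0) : Continuous fun p : T × E => Y p.1 p.2 := by
  have hm : ∀ t x, StrictMono fun y : ℝ => G t (y, x) := fun t x =>
    imp_strictMono (hG.differentiable t) (hpos t) x
  have hc : ∀ y : ℝ, Continuous fun p : T × E => G p.1 (y, p.2) := fun y =>
    (hG.continuous).comp (continuous_fst.prodMk (continuous_const.prodMk continuous_snd))
  rw [continuous_iff_continuousAt]
  rintro ⟨t₀, x₀⟩
  rw [Metric.continuousAt_iff']
  intro ε hε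
  have h1 : G t₀ (Y t₀ x₀ + ε, x₀) > 0 := by
    rw [← hY t₀ x₀]
    exact hm t₀ x₀ (by linarith)
  have h2 : G t₀ (Y t₀ x₀ - ε, x₀) < 0 := by
    rw [← hY t₀ x₀]
    exact hm t₀ x₀ (by linarith)
  have h3 : ∀ᶠ p : T × E in 𝓝 (t₀, x₀), 0 < G p.1 (Y t₀ x₀ + ε, p.2) :=
    (hc (Y t₀ x₀ + ε)).continuousAt.eventually (lt_mem_nhds h1)
  have h4 : ∀ᶠ p : T × E in 𝓝 (t₀, x₀), G p.1 (Y t₀ x₀ - ε, p.2) < 0 :=
    (hc (Y t₀ x₀ - ε)).continuousAt.eventually (gt_mem_nhds h2)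
  filter_upwards [h3, h4] with p hp1 hp2
  rw [← hY p.1 p.2] at hp1 hp2
  have h5 := (hm p.1 p.2).lt_iff_lt.1 hp1
  have h6 := (hm p.1 p.2).lt_iff_lt.1 hp2
  rw [Real.dist_eq, abs_lt]
  constructor <;> linarith

private lemma imp_hasFDerivAt {G : ℝ × E → ℝ} {Y : E → ℝ} {x₀ : E} {L : ℝ × E →L[ℝ] ℝ}
    (hL : HasFDerivAt G L (Y x₀, x₀)) (hc : L (1, 0) ≠ 0) (hY : ∀ x, G (Y x, x) = 0)
    (hYc : ContinuousAt Y x₀) :
    HasFDerivAt Y (-((L (1, 0))⁻¹ • L.comp (ContinuousLinearMap.inr ℝ ℝ E))) x₀ := by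
  set c : ℝ := L (1, 0) with hcd
  set B : E →L[ℝ] ℝ := L.comp (ContinuousLinearMap.inr ℝ ℝ E) with hB
  have hLsplit : ∀ (a : ℝ) (h : E), L (a, h) = c * a + B h := by
    intro a h
    have h1 : ((a, h) : ℝ × E) = a • ((1 : ℝ), (0 : E)) + ((0 : ℝ), h) := by
      ext <;> simp
    rw [h1, map_add, map_smul, smul_eq_mul, mul_comm]
    rfl
  have ht : Tendsto (fun x => (Y x, x)) (𝓝 x₀) (𝓝 (Y x₀, x₀)) :=
    (hYc.prodMk continuousAt_id)
  have h1 := (hL.isLittleO).comp_tendsto ht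
  have h2 : (fun x => Y x - Y x₀ + c⁻¹ * B (x - x₀)) =o[𝓝 x₀]
      fun x => ((Y x, x) - (Y x₀, x₀) : ℝ × E) := by
    have h3 := h1.const_mul_left (-c⁻¹)
    refine h3.congr_left fun x => ?_
    simp only [Function.comp_apply, hY, Prod.mk_sub_mk, hLsplit]
    field_simp
    ring
  have h4 : (fun x => ((Y x - Y x₀ + c⁻¹ * B (x - x₀), 0) : ℝ × E)) =o[𝓝 x₀]
      fun x => ((Y x, x) - (Y x₀, x₀) : ℝ × E) := by
    refine (Asymptotics.isLittleO_iff.2 fun {e} he => ?_)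
    filter_upwards [Asymptotics.isLittleO_iff.1 h2 he] with x hx
    refine le_trans (le_of_eq ?_) hx
    simp [Prod.norm_def]
  have h5 := h4.right_isBigO_sub
  have h6 : (fun x => ((Y x, x) - (Y x₀, x₀) : ℝ × E)) =O[𝓝 x₀] fun x => x - x₀ := by
    refine h5.trans ?_
    have h7 : (fun x => ((Y x, x) - (Y x₀, x₀) : ℝ × E) -
        ((Y x - Y x₀ + c⁻¹ * B (x - x₀), 0) : ℝ × E)) =
        fun x => ((-(c⁻¹ • B)).prod (ContinuousLinearMap.id ℝ E)) (x - x₀) := by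
      funext x
      simp
    rw [h7]
    exact ContinuousLinearMap.isBigO_comp _ _ _
  have h8 := h2.trans_isBigO h6
  rw [hasFDerivAt_iff_isLittleO]
  refine h8.congr_left fun x => ?_
  simp

private lemma imp_smooth (M : ℝ × E →L[ℝ] ℝ) (hM : M (1, 0) ≠ 0) :
    ContDiffAt ℝ ∞ (fun M : ℝ × E →L[ℝ] ℝ =>
      -((M (1, 0))⁻¹ • M.comp (ContinuousLinearMap.inr ℝ ℝ E))) M := by
  have h1 : ContDiffAt ℝ ∞ (fun M : ℝ × E →L[ℝ] ℝ => M (1, 0)) M :=
    (ContinuousLinearMap.apply ℝ ℝ ((1 : ℝ), (0 : E))).contDiff.contDiffAt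
  have h2 : ContDiffAt ℝ ∞ (fun M : ℝ × E →L[ℝ] ℝ =>
      M.comp (ContinuousLinearMap.inr ℝ ℝ E)) M :=
    ((ContinuousLinearMap.compL ℝ E (ℝ × E) ℝ).flip
      (ContinuousLinearMap.inr ℝ ℝ E)).contDiff.contDiffAt
  exact ((h1.inv hM).smul h2).neg

end

theorem implicit : St_implicit := by
  intro T E _ _ _ _ G hG hpos Y hY
  have hc := imp_cont hG hpos hY
  have hd : ∀ t x, HasFDerivAt (Y t)
      (-((fderiv ℝ (G t) (Y t x, x) (1, 0))⁻¹ •
        (fderiv ℝ (G t) (Y t x, x)).comp (ContinuousLinearMap.inr ℝ ℝ E))) x := by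
    intro t x
    exact imp_hasFDerivAt (hG.differentiable t _).hasFDerivAt (hpos t _).ne' (hY t)
      (hc.comp (Continuous.prodMk_right t)).continuousAt
  intro k
  induction k with
  | zero => exact hc
  | succ k ih =>
    refine ⟨hc, fun t x => (hd t x).differentiableAt, ?_⟩
    have h1 : CFk T E k (ℝ × E →L[ℝ] ℝ) (fun t x => fderiv ℝ (G t) (Y t x, x)) :=
      CFk.comp (hG.fderiv k) (ih.prodMk (CFk.const (f := fun x : E => x) contDiff_id))
    have h2 := CFk.comp_smooth (g := fun M : ℝ × E →L[ℝ] ℝ =>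
      -((M (1, 0))⁻¹ • M.comp (ContinuousLinearMap.inr ℝ ℝ E)))
      (fun t x => imp_smooth _ (hpos t _).ne') h1
    have h3 : (fun t x => fderiv ℝ (Y t) x) = fun t x =>
        -((fderiv ℝ (G t) (Y t x, x) (1, 0))⁻¹ •
        (fderiv ℝ (G t) (Y t x, x)).comp (ContinuousLinearMap.inr ℝ ℝ E)) := by
      funext t x
      exact (hd t x).fderiv
    rw [h3]
    exact h2

end Pool.Agent.H42.Hull
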