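import Mathlib
import Pool.Agent.H42.Hull.Slices
import Pool.Agent.H50.Susp.LesExist

set_option maxSynthPendingDepth 3

open scoped ContDiff Topology unitInterval
open Set Function TopologicalSpace Filter

namespace Pool.Agent.H42.Hull

open Pool.Agent.Helper17 Pool.Agent.H50.Susp Pool.Agent.Helper42

lemma JFam.base {m k : ℕ} {T S : Type} [TopologicalSpace T] [TopologicalSpace S] {R : ℝ}
    {F : T → Phase (m + k) → Phase k} (h : JFam m k R F) {c : S → T} (hc : Continuous c) :
    JFam m k R (fun s => F (c s)) :=
  ⟨h.cf.base hc, fun s p hp => h.std (c s) p hp, fun s => h.pos (c s)⟩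

/-- **The fibration criterion.** -/
theorem fibration (hkey : St_key) (hsl : St_slices) : St_fibration := by
  intro m k
  induction k with
  | zero =>
    intro j φ R F _ _ _ _ _
    trivial
  | succ k ih =>
    intro j φ R F hR hF h0 h1 hT
    obtain ⟨e, R', Z, he, hR', hZ, hZ0, hZ1, hZa, hZφ⟩ :=
      hsl m k ((Fin j → I) × I) R hR F hF
    have hP := hF.posPair
    obtain ⟨g, r, h, hg1, hgpos, hgr, heh, hφg⟩ := hkey (m + k) (Fin j → I) (Cube.boundary (Fin j))
      φ.1 (fun t ht => φ.2 t ht) R hR _ _ hP
      (fun t p => by rw [h0, prK_succ, Pool.Agent.H50.Susp.mkP_x])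
      (fun t p => by
        rw [h1, prK_succ, Pool.Agent.H50.Susp.mkP_x]
        rfl)
      (fun t ht s p => by rw [hT t ht, prK_succ, Pool.Agent.H50.Susp.mkP_x]) e he
    -- the standard part of the family of slices
    have hstd : ∀ t s, (t ∈ Cube.boundary (Fin j) ∨ s = 0 ∨ s = 1) → ∀ a,
        e ((t, s), a) = 1 ∧ ∀ b w, Z (((t, s), a), b) w = prK m k w := by
      intro t s hts
      by_cases hs : s = 1
      · apply hZφ (t, s) (φ.1 t)
        intro p
        rw [hs]
        exact h1 t p
      · apply hZφ (t, s) 1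
        intro p
        have h2 : F (t, s) p = prK m (k + 1) p := by
          rcases hts with ht | ht | ht
          · exact hT t ht s p
          · rw [ht]
            exact h0 t p
          · exact absurd ht hs
        rw [h2]
        rfl
    have hbd : ∀ q ∈ bd2 j, e (swp _ q) = 1 ∧ ∀ b w, Z (swp _ q, b) w = prK m k w := by
      rintro ⟨t, b, a⟩ hq
      change e ((t, a), b) = 1 ∧ ∀ s w, Z (((t, a), b), s) w = prK m k w
      rcases hq with hq | hq
      · exact hstd t a (Or.inl hq) b
      · have hq' : (b = 0 ∨ b = 1) ∨ (a = 0 ∨ a = 1) := by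
          rcases hq with hq | hq | hq | hq
          · exact Or.inl (Or.inl hq)
          · exact Or.inl (Or.inr hq)
          · exact Or.inr (Or.inl hq)
          · exact Or.inr (Or.inr hq)
        rcases hq' with hb | ha
        · exact hZa (t, a) b hb
        · exact hstd t a (Or.inr ha) b
    have hebd : ∀ q ∈ bd2 j, (e.comp (swp _)) q = 1 := fun q hq => (hbd q hq).1
    set E : LoopG (j + 2) (m + k) := loop2 (e.comp (swp _)) hebd with hE
    -- the induction hypothesis for the scattering
    have hE1 := ih (j + 2) E R' (fun q => Z (swp _ (fromCube2s q.1), q.2)) hR'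
      (hZ.base (c := fun q : (Fin (j + 2) → I) × I => (swp _ (fromCube2s q.1), q.2))
        (((swp _).continuous.comp (continuous_fromCube2s.comp continuous_fst)).prodMk
          continuous_snd))
      (fun t p => hZ0 _ p) (fun t p => hZ1 _ p)
      (fun t ht s p => (hbd _ (fromCube2s_bd ht)).2 s p)
    -- the reduction
    have hhbd : ∀ q ∈ bd2 j, h q = 1 := by
      intro q hq
      obtain ⟨H⟩ := heh
      have h2 := H.prop' 1 q hq
      have h3 : H (1, q) = h q := H.map_one_left q
      change H (1, q) = (e.comp (swp _)) q at h2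
      rw [← h3, h2]
      exact hebd q hq
    have hEh : E.cls = hmk (loop2 h hhbd) :=
      Quotient.sound (loop2_homotopic hebd hhbd heh)
    set G : LoopG j (m + k + 1) := ⟨g, fun t ht => hg1 t ht⟩ with hG
    have hφG : φ.cls = G.cls := Quotient.sound hφg
    have hsus : IsSusp (loop2 h hhbd) G := by
      refine ⟨fun t p => pos_conv' _ _ (hgpos t p), r, h, hgr, ?_⟩
      rw [unloop2_loop2]
      exact ContinuousMap.HomotopicRel.refl _
    have hσ : sigmaMap j (m + k) E.cls = φ.cls := by
      rw [hEh, hφG]
      exact sigmaMap_eq hsus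
    obtain ⟨g0, φ0, hg0, hs0⟩ := exists_isSuspension (k := j) (n := m + k) E.cls
    refine ⟨g0, φ0, hs0, ?_, ?_⟩
    · rw [← sigmaMap_of_isSuspension hs0, hg0]
      exact hσ
    · rw [hg0]
      exact hE1

end Pool.Agent.H42.Hull
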