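import Mathlib
import Pool.Agent.H42.Hull.Defs
import Pool.Agent.Helper42.Susp.Sigma

set_option maxSynthPendingDepth 3

open scoped ContDiff Topology NNReal unitInterval
open Set Function Filter MeasureTheory

namespace Pool.Agent.H42.Hull

open Pool.Agent.Helper17 Pool.Agent.H50.Susp Pool.Agent.Helper42

section

variable {n : ℕ} {T : Type} [TopologicalSpace T] {R : ℝ} {f g : T → Phase (n + 1) → ℝ}
  {Φ Ψ : T → Phase (n + 1) → Phase (n + 1)}

/-- The straightening of the first coordinate of a symplectomorphism is trivial at the right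
end. -/
private lemma key_right (h : StraightFam 0 R f Φ Ψ) (t : T) (φ : SympCt (n + 1))
    (hφ : ∀ p, f t p = ((φ : Equiv.Perm (Phase (n + 1))) p) (Sum.inl 0)) (q : ℝ × Phase n) :
    Φ t (mkP q.1 (R + 1) q.2) = mkP q.1 (R + 1) q.2 := by
  obtain ⟨ρ, hρ0, hρ⟩ := exists_radius (ContinuousMap.const Unit φ)
  set a : ℝ := |R| + ρ with ha
  have ha0 : 0 ≤ a := by positivity
  have h2 := h.shift t (mkP q.1 (R + 1) q.2) a (by rw [mkP_y]; linarith) ha0
  rw [mkP_add_eY, h.eq_of t φ hφ (mkP q.1 (R + 1 + a) q.2)] at h2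
  have h3 : (φ : Equiv.Perm (Phase (n + 1))) (mkP q.1 (R + 1 + a) q.2) =
      mkP q.1 (R + 1 + a) q.2 := by
    apply hρ ()
    have h4 := abs_coord_le (mkP q.1 (R + 1 + a) q.2 : Phase (n + 1)) (Sum.inr 0)
    rw [mkP_y] at h4
    linarith [le_abs_self (R + 1 + a), neg_abs_le R]
  rw [h3, ← mkP_add_eY] at h2
  exact (add_right_cancel h2).symm

private lemma key_endW (h : StraightFam 0 R f Φ Ψ) (t : T) (φ : SympCt (n + 1))
    (hφ : ∀ p, f t p = ((φ : Equiv.Perm (Phase (n + 1))) p) (Sum.inl 0)) (q : ℝ × Phase n) :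
    endW Φ R t q = q.2 := by
  rw [endW, key_right h t φ hφ, wL_mkP]

private lemma key_bd (h : StraightFam 0 R f Φ Ψ) (hstd : ∀ t p, R < ‖p‖ → f t p = p (Sum.inl 0))
    {T1 : Set T} (hT1 : ∀ t ∈ T1, ∃ φ : SympCt (n + 1), ∀ p,
      f t p = ((φ : Equiv.Perm (Phase (n + 1))) p) (Sum.inl 0)) {ρ : ℝ} (hρ : R < ρ)
    (hρ0 : 0 ≤ ρ) (q : T × I) (hq : q.1 ∈ T1 ∨ q.2 = 0 ∨ q.2 = 1) :
    scatE h hstd ρ q = 1 := by
  obtain ⟨t, τ⟩ := q
  apply SympCt.ext'
  intro w
  rw [scatE_apply]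
  rcases hq with hq | hq
  · obtain ⟨φ, hφ⟩ := hT1 t hq
    rw [key_endW h t φ hφ]
    rfl
  · exact (h.end_eq t (Or.inl (by rw [abs_lev hρ0 hq]; exact hρ))).1

private lemma key_scat [CompactSpace T] (hR : 0 ≤ R) (h : StraightFam 0 R f Φ Ψ)
    (hstd : ∀ t p, R < ‖p‖ → f t p = p (Sum.inl 0))
    {T1 : Set T} (hT1 : ∀ t ∈ T1, ∃ φ : SympCt (n + 1), ∀ p,
      f t p = ((φ : Equiv.Perm (Phase (n + 1))) p) (Sum.inl 0)) {ρ : ℝ} (hρ : R < ρ)
    {e : C(T × I, SympCt n)} (he : IsScat f e) :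
    e.HomotopicRel (scatE h hstd ρ) {q | q.1 ∈ T1 ∨ q.2 = 0 ∨ q.2 = 1} := by
  obtain ⟨ρ', hρ', hρs, hee⟩ := he.eq_end h hR hstd
  have ee : e = scatE h hstd ρ' := by
    ext1 q
    apply SympCt.ext'
    intro w
    exact hee q.1 q.2 w
  rw [ee]
  exact scatE_homotopic h hstd hρ' (by linarith) hρs (fun t p hp => hstd t p (by linarith))
    (fun t ht q => by
      obtain ⟨φ, hφ⟩ := hT1 t ht
      exact key_endW h t φ hφ q)

end

theorem key_lemma : St_key := by
  intro n T _ _ T0 f hf R hR F G hFG h0 h1 hT0 e he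
  obtain ⟨G', hG', hG1⟩ := exists_std_of_pos hR hFG
  set T1 : Set (T × I) := {q | q.1 ∈ T0 ∨ q.2 = 0 ∨ q.2 = 1} with hT1
  set bd : Set ((T × I) × I) := {q | q.1 ∈ T1 ∨ q.2 = 0 ∨ q.2 = 1} with hbd
  have hF1 : ∀ q ∈ T1, ∃ φ : SympCt (n + 1), ∀ p,
      F q p = ((φ : Equiv.Perm (Phase (n + 1))) p) (Sum.inl 0) := by
    rintro ⟨t, s⟩ hq
    rcases hq with hq | hq | hq
    · exact ⟨1, fun p => hT0 t hq s p⟩
    · have hq' : s = 0 := hq
      rw [hq']
      exact ⟨1, fun p => h0 t p⟩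
    · have hq' : s = 1 := hq
      rw [hq']
      exact ⟨f t, fun p => h1 t p⟩
  obtain ⟨Φ₀, Ψ₀, hS₀⟩ := exists_straightFam hR hFG
  have hebd : ∀ q ∈ bd, e q = 1 := by
    obtain ⟨ρ, hρ, hρs, hee⟩ := he.eq_end hS₀ hR hFG.fstd
    rintro ⟨q, τ⟩ hq
    apply SympCt.ext'
    intro w
    rw [hee q τ w]
    rcases hq with hq | hq
    · obtain ⟨φ, hφ⟩ := hF1 q hq
      rw [key_endW hS₀ q φ hφ]
      rfl
    · rw [hS₀.end_eq' hρ hρs q (Or.inl (by rw [abs_lev hρ.le hq]))]
      rfl
  obtain ⟨r, g, h, hg, hgpos, hred, heh⟩ := exists_realise (T₀ := T0) (e.comp (swp T)) (by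
    rintro ⟨t, a, b⟩ hq
    change e ((t, b), a) = 1
    apply hebd
    rcases hq with hq | hq | hq | hq | hq
    · exact Or.inl (Or.inl hq)
    · exact Or.inr (Or.inl hq)
    · exact Or.inr (Or.inr hq)
    · exact Or.inl (Or.inr (Or.inl hq))
    · exact Or.inl (Or.inr (Or.inr hq)))
  have hpos : ∀ t p, 0 < fderiv ℝ (fun q => ((g t : Equiv.Perm (Phase (n + 1))) q) (Sum.inl 0)) p
      (eX 0) := fun t p => pos_conv _ _ (hgpos t p)
  refine ⟨g, r, h, hg, hpos, hred, heh, ?_⟩
  obtain ⟨Rg, hRg0, hRg⟩ := exists_radius g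
  set R₁ := max R Rg with hR₁
  have hR₁0 : 0 ≤ R₁ := hR.trans (le_max_left _ _)
  have hgR : ∀ t (p : Phase (n + 1)), R₁ < ‖p‖ → (g t : Equiv.Perm (Phase (n + 1))) p = p :=
    fun t p hp => hRg t p ((le_max_right _ _).trans_lt hp)
  have hPP := posPair_segF g hpos hgR
  have hFG' : PosPair 0 R₁ F G' := hG'.mono (le_max_left _ _)
  obtain ⟨Φ₁, Ψ₁, hS₁⟩ := exists_straightFam hR₁0 hPP
  obtain ⟨Φ₂, Ψ₂, hS₂⟩ := exists_straightFam hR₁0 hFG'
  set ρ := R₁ + 1 with hρ
  set e₁ := scatE hS₁ hPP.fstd ρ with he₁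
  set e₂ := scatE hS₂ hFG'.fstd ρ with he₂
  have hsc1 : ∀ q, ScatAt ρ (segF g q) (fun τ => e₁ (q, τ)) := fun q =>
    scatAt_scatE hS₁ hPP.fstd (by linarith) q
  have hsc2 : ∀ q, ScatAt ρ (F q) (fun τ => e₂ (q, τ)) := fun q =>
    scatAt_scatE hS₂ hFG'.fstd (by linarith) q
  have hScat1 : IsScat (segF g) e₁ := isScat_iff.2 ⟨ρ, by linarith, hsc1⟩
  have hend := scat_of_pos g hg hpos hred hScat1
  have hs0 : ∀ t s, t ∈ T0 → ∀ p, segF g (t, s) p = p (Sum.inl 0) := by
    intro t s ht p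
    simp only [segF, hg t ht]
    change p (Sum.inl 0) + _ * (p (Sum.inl 0) - p (Sum.inl 0)) = _
    rw [sub_self, mul_zero, add_zero]
  have hs1 : ∀ t p, segF g (t, 0) p = p (Sum.inl 0) := by
    intro t p
    simp only [segF, Icc.coe_zero, zero_mul, add_zero]
  have hs2 : ∀ t p, segF g (t, 1) p = ((g t : Equiv.Perm (Phase (n + 1))) p) (Sum.inl 0) := by
    intro t p
    simp only [segF, Icc.coe_one, one_mul, add_sub_cancel]
  have hsF1 : ∀ q ∈ T1, ∃ φ : SympCt (n + 1), ∀ p,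
      segF g q p = ((φ : Equiv.Perm (Phase (n + 1))) p) (Sum.inl 0) := by
    rintro ⟨t, s⟩ hq
    rcases hq with hq | hq | hq
    · exact ⟨1, fun p => hs0 t s hq p⟩
    · have hq' : s = 0 := hq
      rw [hq']
      exact ⟨1, fun p => hs1 t p⟩
    · have hq' : s = 1 := hq
      rw [hq']
      exact ⟨g t, fun p => hs2 t p⟩
  have he1bd : ∀ q ∈ bd, e₁ q = 1 := fun q hq =>
    key_bd hS₁ hPP.fstd hsF1 (by linarith) (by linarith) q hq
  have he2bd : ∀ q ∈ bd, e₂ q = 1 := fun q hq =>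
    key_bd hS₂ hFG'.fstd hF1 (by linarith) (by linarith) q hq
  have he2 : e.HomotopicRel e₂ bd := key_scat hR₁0 hS₂ hFG'.fstd hF1 (by linarith) he
  have hset : (swp' T) ⁻¹' {q : T × (I × I) | q.1 ∈ T0 ∨ q.2 ∈ sqBd} = bd := by
    ext ⟨⟨t, a⟩, b⟩
    simp only [swp', sqBd, hT1, hbd, mem_ofPred_eq, mem_preimage, ContinuousMap.coe_mk]
    tauto
  have hce : ∀ g : C((T × I) × I, SympCt n), (g.comp (swp T)).comp (swp' T) = g := by
    intro g
    ext1 q
    rfl
  have h12 : e₁.HomotopicRel e₂ bd := by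
    have a1 := homotopicRel_precomp heh (swp' T)
    have a2 := homotopicRel_precomp hend (swp' T)
    rw [hce, hset] at a1 a2
    exact (a2.trans a1.symm).trans he2
  obtain ⟨K⟩ := h12
  have hKbd : ∀ r, ∀ q ∈ bd, K (r, q) = 1 := fun r q hq => (K.prop' r q hq).trans (he1bd q hq)
  -- the path of pairs: first the reversed segment, then the given path
  set V : T × I → Phase (n + 1) → ℝ := fun q p =>
    segF g (q.1, σ (hf1 q.2)) p + F (q.1, hf2 q.2) p - p (Sum.inl 0) with hV
  set W : T × I → Phase (n + 1) → ℝ := fun q p => G' (q.1, hf2 q.2) p with hW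
  have c1 : Continuous (fun q : T × I => (q.1, σ (hf1 q.2))) :=
    continuous_fst.prodMk (unitInterval.continuous_symm.comp (continuous_hf1.comp continuous_snd))
  have c2 : Continuous (fun q : T × I => (q.1, hf2 q.2)) :=
    continuous_fst.prodMk (continuous_hf2.comp continuous_snd)
  have hV1 : ∀ q : T × I, hf2 q.2 = 0 → V q = segF g (q.1, σ (hf1 q.2)) ∧
      W q = fun p => p (Sum.inr 0) := by
    intro q h1
    constructor
    · funext p
      simp only [hV, h1, h0, add_sub_cancel_right]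
    · funext p
      simp only [hW, h1]
      exact hG1 _ (h0 q.1) p
  have hV2 : ∀ q : T × I, hf1 q.2 = 1 → V q = F (q.1, hf2 q.2) := by
    intro q h1
    funext p
    simp only [hV, h1, unitInterval.symm_one, hs1, add_sub_cancel_left]
  have hVW : PosPair 0 R₁ V W := by
    refine ⟨?_, hFG'.cg.base c2, ?_, ?_, ?_⟩
    · exact ((hPP.cf.base c1).add (hFG'.cf.base c2)).sub (CF.const (coordL (Sum.inl 0)).contDiff)
    · intro q p hp
      simp only [hV, hFG'.fstd _ p hp, hPP.fstd _ p hp]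
      ring
    · intro q p hp
      exact hFG'.gstd _ p hp
    · intro q p
      rcases hf_cases q.2 with h1 | h1
      · rw [(hV1 q h1).1, (hV1 q h1).2]
        exact hPP.pos _ p
      · rw [hV2 q h1]
        exact hFG'.pos _ p
  -- its scattering
  set E : C((T × I) × I, SympCt n) := ⟨fun q => e₁ ((q.1.1, σ (hf1 q.1.2)), q.2) *
    e₂ ((q.1.1, hf2 q.1.2), q.2), by
      apply continuous_mul_family
      · exact e₁.continuous.comp ((c1.comp continuous_fst).prodMk continuous_snd)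
      · exact e₂.continuous.comp ((c2.comp continuous_fst).prodMk continuous_snd)⟩ with hE
  have hE1 : ∀ q : T × I, hf2 q.2 = 0 → ∀ τ, E (q, τ) = e₁ ((q.1, σ (hf1 q.2)), τ) := by
    intro q h1 τ
    change e₁ ((q.1, σ (hf1 q.2)), τ) * e₂ ((q.1, hf2 q.2), τ) = _
    rw [h1, he2bd _ (Or.inl (Or.inr (Or.inl rfl))), mul_one]
  have hE2 : ∀ q : T × I, hf1 q.2 = 1 → ∀ τ, E (q, τ) = e₂ ((q.1, hf2 q.2), τ) := by
    intro q h1 τ
    change e₁ ((q.1, σ (hf1 q.2)), τ) * e₂ ((q.1, hf2 q.2), τ) = _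
    rw [h1, unitInterval.symm_one, he1bd _ (Or.inl (Or.inr (Or.inl rfl))), one_mul]
  have hEscat : IsScat V E := by
    refine isScat_iff.2 ⟨ρ, by linarith, fun q => ?_⟩
    rcases hf_cases q.2 with h1 | h1
    · rw [(hV1 q h1).1]
      have h2 : (fun τ => E (q, τ)) = fun τ => e₁ ((q.1, σ (hf1 q.2)), τ) := funext (hE1 q h1)
      rw [h2]
      exact hsc1 _
    · rw [hV2 q h1]
      have h2 : (fun τ => E (q, τ)) = fun τ => e₂ ((q.1, hf2 q.2), τ) := funext (hE2 q h1)
      rw [h2]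
      exact hsc2 _
  -- the null-homotopy, first part
  set E' : C((T × I) × I, SympCt n) := ⟨fun q => e₁ ((q.1.1, σ (hf1 q.1.2)), q.2) *
    e₁ ((q.1.1, hf2 q.1.2), q.2), by
      apply continuous_mul_family
      · exact e₁.continuous.comp ((c1.comp continuous_fst).prodMk continuous_snd)
      · exact e₁.continuous.comp ((c2.comp continuous_fst).prodMk continuous_snd)⟩ with hE'
  have hbd1 : ∀ q ∈ bd, (((q.1.1, σ (hf1 q.1.2)), q.2) : (T × I) × I) ∈ bd ∧
      (((q.1.1, hf2 q.1.2), q.2) : (T × I) × I) ∈ bd := by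
    rintro ⟨⟨t, s⟩, τ⟩ hq
    rcases hq with (hq | hq | hq) | hq | hq
    · exact ⟨Or.inl (Or.inl hq), Or.inl (Or.inl hq)⟩
    · have hq' : s = 0 := hq
      subst hq'
      refine ⟨Or.inl (Or.inr (Or.inr ?_)), Or.inl (Or.inr (Or.inl ?_))⟩
      · change σ (hf1 0) = 1
        rw [hf1_zero, unitInterval.symm_zero]
      · exact hf2_zero
    · have hq' : s = 1 := hq
      subst hq'
      refine ⟨Or.inl (Or.inr (Or.inl ?_)), Or.inl (Or.inr (Or.inr ?_))⟩
      · change σ (hf1 1) = 0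
        rw [hf1_one, unitInterval.symm_one]
      · exact hf2_one
    · exact ⟨Or.inr (Or.inl hq), Or.inr (Or.inl hq)⟩
    · exact ⟨Or.inr (Or.inr hq), Or.inr (Or.inr hq)⟩
  have hEE' : E'.HomotopicRel E bd := by
    have hHc : Continuous (fun u : I × ((T × I) × I) =>
        e₁ ((u.2.1.1, σ (hf1 u.2.1.2)), u.2.2) * K (u.1, ((u.2.1.1, hf2 u.2.1.2), u.2.2))) := by
      apply continuous_mul_family
      · exact e₁.continuous.comp (((c1.comp continuous_fst).prodMk continuous_snd).comp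
          continuous_snd)
      · exact K.continuous.comp (continuous_fst.prodMk (((c2.comp continuous_fst).prodMk
          continuous_snd).comp continuous_snd))
    refine ⟨{
      toFun := fun u => e₁ ((u.2.1.1, σ (hf1 u.2.1.2)), u.2.2) *
        K (u.1, ((u.2.1.1, hf2 u.2.1.2), u.2.2))
      continuous_toFun := hHc
      map_zero_left := fun q => ?_
      map_one_left := fun q => ?_
      prop' := fun r q hq => ?_ }⟩
    · have h1 : K (0, ((q.1.1, hf2 q.1.2), q.2)) = e₁ ((q.1.1, hf2 q.1.2), q.2) :=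
        K.map_zero_left _
      rw [h1]
      rfl
    · have h1 : K (1, ((q.1.1, hf2 q.1.2), q.2)) = e₂ ((q.1.1, hf2 q.1.2), q.2) :=
        K.map_one_left _
      rw [h1]
      rfl
    · change e₁ ((q.1.1, σ (hf1 q.1.2)), q.2) * K (r, ((q.1.1, hf2 q.1.2), q.2)) =
        e₁ ((q.1.1, σ (hf1 q.1.2)), q.2) * e₁ ((q.1.1, hf2 q.1.2), q.2)
      obtain ⟨h1, h2⟩ := hbd1 q hq
      rw [hKbd r _ h2, he1bd _ h2]
  -- second part
  set ab : I → I := fun s => ⟨|1 - 2 * (s : ℝ)|, abs_nonneg _, by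
    rw [abs_le]
    constructor <;> linarith [s.2.1, s.2.2]⟩ with hab
  have habc : Continuous ab := by
    apply Continuous.subtype_mk
    exact (continuous_const.sub (continuous_const.mul continuous_subtype_val)).abs
  have hE'ab : ∀ q : (T × I) × I, E' q = e₁ ((q.1.1, ab q.1.2), q.2) := by
    rintro ⟨⟨t, s⟩, τ⟩
    change e₁ ((t, σ (hf1 s)), τ) * e₁ ((t, hf2 s), τ) = e₁ ((t, ab s), τ)
    rcases le_total (s : ℝ) (1 / 2) with hs | hs
    · have h2 : hf2 s = 0 := projIcc_of_le_left (h := (zero_le_one : (0 : ℝ) ≤ 1)) (by linarith)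
      have h1 : σ (hf1 s) = ab s := by
        apply Subtype.ext
        have h3 : (hf1 s : ℝ) = 2 * s := by
          unfold hf1
          rw [projIcc_of_mem _ ⟨by linarith [s.2.1], by linarith⟩]
        rw [unitInterval.coe_symm_eq, h3]
        simp only [hab]
        rw [abs_of_nonneg (by linarith)]
      rw [h2, h1, he1bd ((t, 0), τ) (Or.inl (Or.inr (Or.inl rfl))), mul_one]
    · have h2 : hf1 s = 1 := projIcc_of_right_le (h := (zero_le_one : (0 : ℝ) ≤ 1)) (by linarith)
      have h1 : hf2 s = ab s := by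
        apply Subtype.ext
        have h3 : (hf2 s : ℝ) = 2 * s - 1 := by
          unfold hf2
          rw [projIcc_of_mem _ ⟨by linarith, by linarith [s.2.2]⟩]
        rw [h3]
        simp only [hab]
        rw [abs_of_nonpos (by linarith)]
        ring
      rw [h2, unitInterval.symm_one, h1, he1bd ((t, 0), τ) (Or.inl (Or.inr (Or.inl rfl))), one_mul]
  have hE'1 : E'.HomotopicRel (ContinuousMap.const _ 1) bd := by
    refine ⟨{
      toFun := fun u => e₁ ((u.2.1.1, max (ab u.2.1.2) u.1), u.2.2)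
      continuous_toFun := ?_
      map_zero_left := fun q => ?_
      map_one_left := fun q => ?_
      prop' := fun r q hq => ?_ }⟩
    · refine e₁.continuous.comp (Continuous.prodMk (Continuous.prodMk ?_ ?_) ?_)
      · exact continuous_fst.comp (continuous_fst.comp continuous_snd)
      · exact (habc.comp (continuous_snd.comp (continuous_fst.comp continuous_snd))).max
          continuous_fst
      · exact continuous_snd.comp continuous_snd
    · have h1 : max (ab q.1.2) 0 = ab q.1.2 := max_eq_left (ab q.1.2).2.1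
      simp only [h1]
      exact (hE'ab q).symm
    · have h1 : max (ab q.1.2) 1 = 1 := max_eq_right (ab q.1.2).2.2
      simp only [h1]
      exact he1bd _ (Or.inl (Or.inr (Or.inr rfl)))
    · change e₁ ((q.1.1, max (ab q.1.2) r), q.2) = E' q
      rw [hE'ab]
      have hmem : ∀ s : I, (q ∈ bd → ((q.1.2 = 0 ∨ q.1.2 = 1) → s = 1) →
          (((q.1.1, s), q.2) : (T × I) × I) ∈ bd) := by
        intro s hq hs
        rcases hq with (hq | hq) | hq
        · exact Or.inl (Or.inl hq)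
        · exact Or.inl (Or.inr (Or.inr (hs hq)))
        · exact Or.inr hq
      have hab1 : (q.1.2 = 0 ∨ q.1.2 = 1) → ab q.1.2 = 1 := by
        intro h1
        apply Subtype.ext
        rcases h1 with h1 | h1
        · simp [hab, h1]
        · simp only [hab, h1, Icc.coe_one]; norm_num
      rw [he1bd _ (hmem _ hq fun h1 => by rw [hab1 h1]; exact max_eq_left r.2.2),
        he1bd _ (hmem _ hq hab1)]
  have hEnull : E.HomotopicRel (ContinuousMap.const _ 1) bd := hEE'.symm.trans hE'1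
  -- the action of the inverse of `g`
  set φ : C(T × I, SympCt (n + 1)) := ⟨fun q => (g q.1)⁻¹,
    (continuous_inv_family g.continuous).comp continuous_fst⟩ with hφ
  obtain ⟨e', he'V, he'φ⟩ := exists_isScat_act hR₁0 hVW φ
  obtain ⟨hφCF, -, -⟩ := CF_of_continuous φ.continuous
  obtain ⟨rφ, hrφ0, hrφ⟩ := exists_radius φ
  have hVact := hVW.act hφCF hrφ
  have hVT1 : ∀ q ∈ T1, ∃ ψ : SympCt (n + 1), ∀ p,
      V q p = ((ψ : Equiv.Perm (Phase (n + 1))) p) (Sum.inl 0) := by
    rintro ⟨t, s⟩ hq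
    rcases hq with hq | hq | hq
    · refine ⟨1, fun p => ?_⟩
      simp only [hV]
      rw [hs0 t _ hq, hT0 t hq]
      change _ = p (Sum.inl 0)
      ring
    · have hq' : s = 0 := hq
      rw [hq']
      refine ⟨g t, fun p => ?_⟩
      rw [(hV1 (t, 0) hf2_zero).1]
      change segF g (t, σ (hf1 0)) p = _
      rw [hf1_zero, unitInterval.symm_zero]
      exact hs2 t p
    · have hq' : s = 1 := hq
      rw [hq']
      refine ⟨f t, fun p => ?_⟩
      rw [hV2 (t, 1) hf1_one]
      change F (t, hf2 1) p = _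
      rw [hf2_one]
      exact h1 t p
  have he'null : e'.HomotopicRel (ContinuousMap.const _ 1) bd := by
    obtain ⟨Φ₃, Ψ₃, hS₃⟩ := exists_straightFam hR₁0 hVW
    have a1 : e'.HomotopicRel (scatE hS₃ hVW.fstd ρ) bd :=
      key_scat hR₁0 hS₃ hVW.fstd hVT1 (by linarith) he'V
    have a2 : E.HomotopicRel (scatE hS₃ hVW.fstd ρ) bd :=
      key_scat hR₁0 hS₃ hVW.fstd hVT1 (by linarith) hEscat
    exact (a1.trans a2.symm).trans hEnull
  set k : C(T, SympCt (n + 1)) := ⟨fun t => f t * (g t)⁻¹,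
    continuous_mul_family f.continuous (continuous_inv_family g.continuous)⟩ with hk
  have hk1 : ∀ t ∈ T0, k t = 1 := by
    intro t ht
    change f t * (g t)⁻¹ = 1
    rw [hf t ht, hg t ht, inv_one, mul_one]
  have hknull := nullhomotopic_of_scat k hk1 (hR₁0.trans (le_max_left R₁ rφ)) hVact
    (fun t p => by
      change V (t, 0) ((((g t)⁻¹ : SympCt (n + 1)) : Equiv.Perm (Phase (n + 1))) p) = _
      rw [(hV1 (t, 0) hf2_zero).1]
      change segF g (t, σ (hf1 0)) _ = _
      rw [hf1_zero, unitInterval.symm_zero, hs2]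
      exact congrArg (fun p : Phase (n + 1) => p (Sum.inl 0))
        ((g t : Equiv.Perm (Phase (n + 1))).apply_symm_apply p))
    (fun t p => by
      change V (t, 1) ((((g t)⁻¹ : SympCt (n + 1)) : Equiv.Perm (Phase (n + 1))) p) = _
      rw [hV2 (t, 1) hf1_one]
      change F (t, hf2 1) _ = _
      rw [hf2_one, h1]
      rfl)
    (fun t ht s p => by
      change V (t, s) ((((g t)⁻¹ : SympCt (n + 1)) : Equiv.Perm (Phase (n + 1))) p) = _
      simp only [hV]
      rw [hs0 t _ ht, hT0 t ht, hg t ht, inv_one]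
      change p (Sum.inl 0) + p (Sum.inl 0) - p (Sum.inl 0) = _
      ring) he'φ he'null
  obtain ⟨L⟩ := hknull
  refine ⟨{
    toFun := fun u => L u * g u.2
    continuous_toFun := continuous_mul_family L.continuous (g.continuous.comp continuous_snd)
    map_zero_left := fun t => ?_
    map_one_left := fun t => ?_
    prop' := fun s t ht => ?_ }⟩
  · have h2 : L (0, t) = k t := L.map_zero_left t
    change L (0, t) * g t = f t
    rw [h2]
    exact inv_mul_cancel_right _ _
  · have h2 : L (1, t) = 1 := L.map_one_left t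
    change L (1, t) * g t = g t
    rw [h2, one_mul]
  · change L (s, t) * g t = f t
    have h2 : L (s, t) = k t := L.prop' s t ht
    rw [h2]
    exact inv_mul_cancel_right _ _

end Pool.Agent.H42.Hull
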