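import Mathlib
import Pool.Agent.H42.Hull.Induct
import Pool.Agent.H42.Hull.Conj
import Pool.Agent.H42.Hull.Bridge
import Pool.Agent.H42.Hull.HullPathV
import Pool.Agent.H42.Hull.Implicit
import Pool.Agent.H42.Hull.Key
import Pool.Agent.H42.Hull.Conn

set_option maxSynthPendingDepth 3

open scoped ContDiff Topology unitInterval
open Set Function TopologicalSpace Filter

namespace Pool.Agent.H42.Hull

open Pool.Agent.Helper17 Pool.Agent.H50.Susp Pool.Agent.Helper42

/-- From a path of `J`-positive maps to suspensions, in any linear symplectic coordinates. -/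
theorem isKSusp_of_path {m k j : ℕ} (φ : LoopG j (m + k))
    (S : Phase (m + k) ≃L[ℝ] Phase (m + k)) (hS : ∀ u v, omegaStd (S u) (S v) = omegaStd u v)
    (h : ∀ ψ : LoopG j (m + k), (∀ t p, ψ.at t p = S.symm (φ.at t (S p))) →
      HasPath m k (fun t => ψ.1 t)) : IsKSusp m k j φ.cls := by
  obtain ⟨ψ, hψ, hcls⟩ := exists_conj conn φ S hS
  obtain ⟨R, F, hR, hF, h0, h1, hT⟩ := h ψ hψ
  rw [← hcls]
  exact fibration key_lemma (slices implicit) m k j ψ R F hR hF h0 h1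
    (fun t ht => hT t (ψ.2 t ht))

/-- `S` is a linear symplectic map of `ℝ^{2n}`. -/
def IsLinSymp {n : ℕ} (S : Phase n →L[ℝ] Phase n) : Prop :=
  ∀ u v : Phase n, omegaStd (S u) (S v) = omegaStd u v

/-- The equivalence given by a linear symplectic map. -/
noncomputable def sEquiv {n : ℕ} (S : Phase n →L[ℝ] Phase n) (hS : IsLinSymp S) :
    Phase n ≃L[ℝ] Phase n :=
  ContinuousLinearEquiv.equivOfInverse S (sAdj n S) (sAdj_comp hS) (comp_sAdj hS)

lemma sEquiv_apply {n : ℕ} (S : Phase n →L[ℝ] Phase n) (hS : IsLinSymp S) (v : Phase n) :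
    sEquiv S hS v = S v := rfl

/-- Separation. -/
lemma sep_ne {S : Set ℂ} (hne : S.Nonempty)
    (hS : ¬ Metric.closedBall (0 : ℂ) 1 ⊆ closure (convexHull ℝ S)) :
    ∃ α β : ℝ, α ^ 2 + β ^ 2 = 1 ∧ ∀ z ∈ S, -1 < α * z.re - β * z.im := by
  obtain ⟨z₁, h1⟩ := hne
  rw [not_subset] at hS
  obtain ⟨z₀, hz₀, hz₁⟩ := hS
  obtain ⟨g, c, hg1, hg2⟩ := geometric_hahn_banach_point_closed
    ((convex_convexHull ℝ S).closure) isClosed_closure hz₁
  have hlin : ∀ z : ℂ, g z = g 1 * z.re + g Complex.I * z.im := by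
    intro z
    have e : z = z.re • (1 : ℂ) + z.im • Complex.I := by
      apply Complex.ext <;> simp
    conv_lhs => rw [e]
    rw [map_add, map_smul, map_smul, smul_eq_mul, smul_eq_mul]
    ring
  set a := g 1 with ha
  set b := g Complex.I with hb
  have hS' : ∀ z ∈ S, c < g z := fun z hz => hg2 z (subset_closure (subset_convexHull ℝ S hz))
  have hr0 : 0 < a ^ 2 + b ^ 2 := by
    by_contra hcon
    have hz : a ^ 2 + b ^ 2 = 0 := le_antisymm (not_lt.1 hcon) (by positivity)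
    have ha0 : a = 0 := by nlinarith [sq_nonneg a, sq_nonneg b]
    have hb0 : b = 0 := by nlinarith [sq_nonneg a, sq_nonneg b]
    have e1 := hS' z₁ h1
    rw [hlin, ha0, hb0] at e1
    rw [hlin, ha0, hb0] at hg1
    linarith
  set r := Real.sqrt (a ^ 2 + b ^ 2) with hr
  have hrp : 0 < r := Real.sqrt_pos.2 hr0
  have hr2 : r ^ 2 = a ^ 2 + b ^ 2 := Real.sq_sqrt hr0.le
  have hz0 : z₀.re ^ 2 + z₀.im ^ 2 ≤ 1 := by
    rw [mem_closedBall_zero_iff] at hz₀
    have e1 : ‖z₀‖ ^ 2 = z₀.re ^ 2 + z₀.im ^ 2 := by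
      rw [← Complex.normSq_eq_norm_sq, Complex.normSq_apply]
      ring
    rw [← e1]
    have := norm_nonneg z₀
    nlinarith
  have hlow : -r ≤ g z₀ := by
    rw [hlin]
    have e1 : (a * z₀.re + b * z₀.im) ^ 2 ≤ r ^ 2 := by
      rw [hr2]
      nlinarith [sq_nonneg (a * z₀.im - b * z₀.re), sq_nonneg a, sq_nonneg b]
    exact (abs_le.1 (abs_le_of_sq_le_sq e1 hrp.le)).1
  refine ⟨a / r, -(b / r), ?_, fun z hz => ?_⟩
  · rw [neg_sq, div_pow, div_pow, ← add_div, ← hr2]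
    exact div_self (by positivity)
  · have e1 := hS' z hz
    rw [hlin] at e1
    have e2 : a / r * z.re - -(b / r) * z.im = (a * z.re + b * z.im) / r := by
      field_simp
      ring
    rw [e2, lt_div_iff₀ hrp]
    linarith

/-- Rotation by the number `α + i β`. -/
noncomputable def rotL (k : ℕ) (α β : ℝ) : Phase k →L[ℝ] Phase k :=
  α • ContinuousLinearMap.id ℝ (Phase k) + β • Jc k

lemma rotL_apply {k : ℕ} (α β : ℝ) (v : Phase k) : rotL k α β v = α • v + β • Jl k v := rfl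

lemma adjoint_rotL {k : ℕ} (α β : ℝ) (v : Phase k) :
    ContinuousLinearMap.adjoint (rotL k α β) v = α • v - β • Jl k v := by
  apply ext_inner_right ℝ
  intro w
  rw [ContinuousLinearMap.adjoint_inner_left, rotL_apply, inner_add_right, inner_sub_left,
    real_inner_smul_left, real_inner_smul_left, real_inner_smul_right, real_inner_smul_right,
    hp_inner_J]
  ring

lemma isPois_frame {m k : ℕ} {W : Phase (m + k) →L[ℝ] Phase (m + k)} (hW : IsLinSymp W)
    {α β : ℝ} (hab : α ^ 2 + β ^ 2 = 1) :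
    IsPois ((rotL k α β).comp ((prK m k).comp W)) := by
  intro u
  have h1 : ContinuousLinearMap.adjoint ((rotL k α β).comp ((prK m k).comp W)) u =
      ContinuousLinearMap.adjoint W (incK m k (α • u - β • Jl k u)) := by
    rw [ContinuousLinearMap.adjoint_comp, ContinuousLinearMap.adjoint_comp,
      ContinuousLinearMap.comp_apply, ContinuousLinearMap.comp_apply, adjoint_rotL]
    rfl
  rw [h1, ContinuousLinearMap.comp_apply, ContinuousLinearMap.comp_apply, symp_transpose hW,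
    ← incK_Jl, prK_incK, rotL_apply, map_sub, map_smul, map_smul, Jl_Jl, map_sub, map_smul,
    map_smul, map_neg, Jl_Jl]
  have h2 : α • (α • Jl k u - β • -u) + β • (α • -u - β • -Jl k u) =
      (α ^ 2 + β ^ 2) • Jl k u := by
    module
  rw [h2, hab, one_smul]

/-- The constant loop is a suspension of the constant loop. -/
lemma isSuspension_const (j n : ℕ) : IsSuspension (GenLoop.const : LoopG (j + 2) n)
    (GenLoop.const : LoopG j (n + 1)) := by
  refine ⟨?_, 1, one_pos, ?_, ?_⟩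
  · intro t p
    have h1 : (fun q : Phase (n + 1) => stdX (LoopG.at (GenLoop.const : LoopG j (n + 1)) t q)) =
        stdX := rfl
    rw [h1, fderiv_stdX]
    simp
  · intro t p _
    rfl
  · intro t a b p _ _
    rfl

theorem vanish : ∀ (k m j : ℕ) (c : PiG j (m + k)), IsKSusp m k j c →
    (∀ c' : PiG (j + 2 * k) m, c' = PiG.triv (j + 2 * k) m) → c = PiG.triv j (m + k) := by
  intro k
  induction k with
  | zero =>
    intro m j c _ h
    exact h c
  | succ k ih =>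
    intro m j c hc h
    obtain ⟨g, φ, hs, hφ, hg⟩ := hc
    have e : j + 2 * (k + 1) = j + 2 + 2 * k := by ring
    have h' : ∀ c' : PiG (j + 2 + 2 * k) m, c' = PiG.triv (j + 2 + 2 * k) m := by
      rw [← e]
      exact h
    have h1 := ih m (j + 2) g.cls hg h'
    rw [← hφ, ← sigmaMap_of_isSuspension hs, h1]
    exact sigmaMap_of_isSuspension (isSuspension_const j (m + k))

lemma piG_zero (j : ℕ) (c : PiG j 0) : c = PiG.triv j 0 := by
  have h1 : Subsingleton (SympCt 0) := ⟨fun a b => SympCt.ext' fun p => Subsingleton.elim _ _⟩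
  obtain ⟨γ, rfl⟩ := Quotient.exists_rep c
  have h2 : γ = GenLoop.const := by
    apply Subtype.ext
    apply ContinuousMap.ext
    intro t
    exact Subsingleton.elim _ _
  rw [h2]
  rfl

/-- The hull condition gives suspensions. -/
theorem isKSusp_of_hull {m k j : ℕ} (φ : LoopG j (m + k))
    (A A' : LinSymp (m + k)) (h : HullCond m k j A A' φ) : IsKSusp m k j φ.cls := by
  obtain ⟨S, hS⟩ := A
  obtain ⟨S', hS'⟩ := A'
  apply isKSusp_of_path φ (sEquiv S hS) hS
  intro ψ hψ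
  rcases subsingleton_or_nontrivial (Phase k) with hk | hk
  · exact hp_trivial _ (Or.inr hk)
  obtain ⟨v₀, hv₀⟩ := exists_norm_eq (Phase k) (c := 1) zero_le_one
  obtain ⟨α, β, hab, hsep⟩ := sep_ne (S := {z : ℂ | ∃ (t : Fin j → unitInterval)
    (p : Phase (m + k)) (u : Phase k), ‖u‖ = 1 ∧
      z = hermVal (block m k ⟨S, hS⟩ ⟨S', hS'⟩ (φ.at t) p) u})
    ⟨_, ⟨fun _ => 0, 0, v₀, hv₀, rfl⟩⟩ h
  have hW : IsLinSymp (S'.comp S) := fun u v => by
    rw [ContinuousLinearMap.comp_apply, ContinuousLinearMap.comp_apply, hS', hS]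
  apply hullP m k (Fin j → I) ψ.1 ((rotL k α β).comp ((prK m k).comp (S'.comp S)))
    (isPois_frame hW hab)
  intro t p u hu
  -- the block
  have hblock : ∀ v : Phase k, (prK m k) ((S'.comp S) ((fderiv ℝ
      (ψ.1 t : Equiv.Perm (Phase (m + k))) p) (incK m k v))) =
      block m k ⟨S, hS⟩ ⟨S', hS'⟩ (φ.at t) (S p) v := by
    intro v
    have h1 := fderiv_conj φ ψ (sEquiv S hS) hψ t p (incK m k v)
    have h2 : fderiv ℝ (ψ.1 t : Equiv.Perm (Phase (m + k))) p (incK m k v) =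
        (sEquiv S hS).symm (fderiv ℝ (φ.at t) (S p) (S (incK m k v))) := h1
    rw [h2, ContinuousLinearMap.comp_apply, ← sEquiv_apply S hS,
      ContinuousLinearEquiv.apply_symm_apply, prK_eq_fstPt, incK_eq_incPt]
    rfl
  have hlin : ∃ Bl : Phase k →L[ℝ] Phase k, ∀ v,
      block m k ⟨S, hS⟩ ⟨S', hS'⟩ (φ.at t) (S p) v = Bl v :=
    ⟨(prK m k).comp ((S'.comp S).comp ((fderiv ℝ
      (ψ.1 t : Equiv.Perm (Phase (m + k))) p).comp (incK m k))), fun v => (hblock v).symm⟩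
  obtain ⟨Bl, hBl⟩ := hlin
  have hval : zP ((rotL k α β).comp ((prK m k).comp (S'.comp S)))
      (fderiv ℝ (ψ.1 t : Equiv.Perm (Phase (m + k))) p) u =
      α * ((inner ℝ u (Bl u) + inner ℝ (Jl k u) (Bl (Jl k u))) / 2) -
      β * ((inner ℝ (Jl k u) (Bl u) - inner ℝ u (Bl (Jl k u))) / 2) := by
    have e1 : ∀ v, ((rotL k α β).comp ((prK m k).comp (S'.comp S))) ((fderiv ℝ
        (ψ.1 t : Equiv.Perm (Phase (m + k))) p) (incK m k v)) =
        α • Bl v + β • Jl k (Bl v) := by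
      intro v
      rw [ContinuousLinearMap.comp_apply, ContinuousLinearMap.comp_apply, hblock, hBl, rotL_apply]
    rw [zP, e1, e1]
    simp only [inner_add_right, real_inner_smul_right, hp_inner_J, Jl_Jl, inner_neg_left]
    ring
  rw [hval]
  have hu0 : 0 < ‖u‖ := norm_pos_iff.2 hu
  have e2 : ‖‖u‖⁻¹ • u‖ = 1 := by
    rw [norm_smul, norm_inv, norm_norm, inv_mul_cancel₀ hu0.ne']
  have e3 := hsep _ ⟨t, S p, ‖u‖⁻¹ • u, e2, rfl⟩
  simp only [hermVal, ← Jl_eq_rotJ, hBl, map_smul, real_inner_smul_left,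
    real_inner_smul_right] at e3
  have e4 : 0 < ‖u‖ ^ 2 := by positivity
  have e5 := mul_lt_mul_of_pos_right e3 e4
  have e6 : ‖u‖⁻¹ * ‖u‖ = 1 := inv_mul_cancel₀ hu0.ne'
  have e7 : (‖u‖⁻¹ * ‖u‖) ^ 2 = 1 := by rw [e6, one_pow]
  set A := inner ℝ u (Bl u) with hA
  set B := inner ℝ (Jl k u) (Bl (Jl k u)) with hB
  set C := inner ℝ (Jl k u) (Bl u) with hC
  set D := inner ℝ u (Bl (Jl k u)) with hD
  have e8 : (α * ((‖u‖⁻¹ * (‖u‖⁻¹ * A) + ‖u‖⁻¹ * (‖u‖⁻¹ * B)) / 2) -
      β * ((‖u‖⁻¹ * (‖u‖⁻¹ * C) - ‖u‖⁻¹ * (‖u‖⁻¹ * D)) / 2)) * ‖u‖ ^ 2 =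
      (α * ((A + B) / 2) - β * ((C - D) / 2)) * (‖u‖⁻¹ * ‖u‖) ^ 2 := by ring
  rw [e8, e7] at e5
  linarith

/-- The scaling `(x, y, w) ↦ (l x, y / l, w)`. -/
noncomputable def scl2 (m : ℕ) (l : ℝ) : Phase (m + 1) →L[ℝ] Phase (m + 1) :=
  (mkPL m).comp ((l • coordL (Sum.inl 0)).prod ((l⁻¹ • coordL (Sum.inr 0)).prod
    (Pool.Agent.H50.Susp.wL m)))

lemma scl2_apply (m : ℕ) (l : ℝ) (v : Phase (m + 1)) : scl2 m l v =
    Pool.Agent.H50.Susp.mkP (l * v (Sum.inl 0)) (l⁻¹ * v (Sum.inr 0))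
      (Pool.Agent.H50.Susp.wL m v) := rfl

lemma isLinSymp_scl2 (m : ℕ) {l : ℝ} (hl : l ≠ 0) : IsLinSymp (scl2 m l) := by
  intro u v
  rw [omegaStd_succ, omegaStd_succ u, scl2_apply, scl2_apply]
  simp only [mkP_x, mkP_y, wL_mkP]
  field_simp

/-- Suspensions satisfy the hull condition. -/
theorem exists_hull {m j : ℕ} (c : PiG j (m + 1)) (h : IsKSusp m 1 j c) :
    ∃ (φ : LoopG j (m + 1)) (S S' : LinSymp (m + 1)), φ.cls = c ∧
      HullCond m 1 j S S' φ := by
  obtain ⟨g, φ, ⟨hpos, -⟩, hφ, -⟩ := h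
  obtain ⟨hf, K, hK⟩ := CF_of_continuous φ.1.continuous
  obtain ⟨M, hM0, hM⟩ := exists_bound_fderiv
    (F := fun (t : Fin j → I) p => (φ.1 t : Equiv.Perm (Phase (m + 1))) p - p)
    (hf.sub (CF.const contDiff_id)) K.isCompact
    (fun q w hw => by beta_reduce; rw [hK q w hw, sub_self])
  set l : ℝ := 1 + M with hl
  have hl0 : 0 < l := by positivity
  refine ⟨φ, ⟨ContinuousLinearMap.id ℝ _, fun u v => rfl⟩,
    ⟨scl2 m l, isLinSymp_scl2 m hl0.ne'⟩, hφ, ?_⟩
  obtain ⟨A, hA⟩ : ∃ A : LinSymp (m + 1), A =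
    ⟨ContinuousLinearMap.id ℝ _, fun u v => rfl⟩ := ⟨_, rfl⟩
  obtain ⟨A', hA'⟩ : ∃ A' : LinSymp (m + 1), A' =
    ⟨scl2 m l, isLinSymp_scl2 m hl0.ne'⟩ := ⟨_, rfl⟩
  rw [← hA, ← hA']
  intro hsub
  have h1 : (-1 : ℂ) ∈ Metric.closedBall (0 : ℂ) 1 := by
    rw [mem_closedBall_zero_iff, norm_neg, norm_one]
  have h2 := hsub h1
  have hclosed : IsClosed {z : ℂ | -1 / 2 ≤ z.re} :=
    isClosed_le continuous_const Complex.continuous_re
  have hconv : Convex ℝ {z : ℂ | -1 / 2 ≤ z.re} := convex_halfSpace_re_ge _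
  have h3 : closure (convexHull ℝ {z : ℂ | ∃ (t : Fin j → unitInterval) (p : Phase (m + 1))
      (u : Phase 1), ‖u‖ = 1 ∧
        z = hermVal (block m 1 A A' (φ.at t) p) u}) ⊆
      {z : ℂ | -1 / 2 ≤ z.re} := by
    apply closure_minimal _ hclosed
    apply convexHull_min _ hconv
    rintro z ⟨t, p, u, hu, rfl⟩
    set D := fderiv ℝ (φ.at t) p with hD
    -- positivity
    have ha : 0 < (D (eX 0)) (Sum.inl 0) := by
      have h1 := hpos t p
      have h3 : HasFDerivAt (fun q => stdX (φ.at t q))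
          ((coordL (Sum.inl 0)).comp (fderiv ℝ (φ.at t) p)) p :=
        (coordL (Sum.inl 0)).hasFDerivAt.comp p (SympCt.differentiable (φ.1 t) p).hasFDerivAt
      rw [h3.fderiv] at h1
      exact h1
    -- the bound
    have hd : -(1 + M) ≤ (D (eY 0)) (Sum.inr 0) := by
      have h4 : HasFDerivAt (fun p => (φ.1 t : Equiv.Perm (Phase (m + 1))) p - p)
          (D - ContinuousLinearMap.id ℝ _) p :=
        (SympCt.differentiable (φ.1 t) p).hasFDerivAt.sub (hasFDerivAt_id p)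
      have h5 := hM t p
      rw [h4.fderiv] at h5
      have h6 : ‖(D - ContinuousLinearMap.id ℝ (Phase (m + 1))) (eY 0)‖ ≤ M := by
        refine (ContinuousLinearMap.le_opNorm _ _).trans ?_
        have h7 : ‖(eY 0 : Phase (m + 1))‖ = 1 := by simp [eY]
        rw [h7, mul_one]
        exact h5
      have h8 : |((D - ContinuousLinearMap.id ℝ (Phase (m + 1))) (eY 0)) (Sum.inr 0)| ≤ M := by
        have := PiLp.norm_apply_le ((D - ContinuousLinearMap.id ℝ (Phase (m + 1))) (eY 0))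
          (Sum.inr 0)
        rw [Real.norm_eq_abs] at this
        exact this.trans h6
      have h9 : ((D - ContinuousLinearMap.id ℝ (Phase (m + 1))) (eY 0)) (Sum.inr 0) =
          (D (eY 0)) (Sum.inr 0) - 1 := by
        change (D (eY 0)) (Sum.inr 0) - (eY 0 : Phase (m + 1)) (Sum.inr 0) = _
        simp [eY]
      rw [h9] at h8
      have := (abs_le.1 h8).1
      linarith
    -- coordinates
    have hinc : ∀ a b : ℝ, incPt m 1 (Pool.Agent.H50.Susp.mkP a b (0 : Phase 0)) =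
        a • (eX 0 : Phase (m + 1)) + b • eY 0 := by
      intro a b
      have h2 := incPt_mkP m 0 a b 0
      have h3 : incPt m 0 (0 : Phase 0) = 0 := by
        rw [← incK_eq_incPt, map_zero]
      rw [h3] at h2
      exact h2.trans (mkP_zero a b)
    have hblk : ∀ a b : ℝ, block m 1 A A' (φ.at t) p
        (Pool.Agent.H50.Susp.mkP a b (0 : Phase 0)) = Pool.Agent.H50.Susp.mkP
          (l * (a * (D (eX 0)) (Sum.inl 0) + b * (D (eY 0)) (Sum.inl 0)))
          (l⁻¹ * (a * (D (eX 0)) (Sum.inr 0) + b * (D (eY 0)) (Sum.inr 0))) (0 : Phase 0) := by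
      intro a b
      have e1 : block m 1 A A' (φ.at t) p
          (Pool.Agent.H50.Susp.mkP a b (0 : Phase 0)) = fstPt m 1 (scl2 m l
            (D (incPt m 1 (Pool.Agent.H50.Susp.mkP a b (0 : Phase 0))))) := by
        rw [hA, hA']
        rfl
      rw [e1, hinc, map_add, map_smul, map_smul, scl2_apply, fstPt_succ]
      apply ext_xyw
      · simp only [mkP_x]
        rfl
      · simp only [mkP_y]
        rfl
      · exact Subsingleton.elim _ _
    have hu' : u = Pool.Agent.H50.Susp.mkP (u (Sum.inl 0)) (u (Sum.inr 0)) (0 : Phase 0) := by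
      have h4 := mkP_eta (n := 0) u
      have h5 : Pool.Agent.H50.Susp.wL 0 u = 0 := Subsingleton.elim _ _
      rw [h5] at h4
      exact h4.symm
    set a := u (Sum.inl 0) with hadef
    set b := u (Sum.inr 0) with hbdef
    have hJu : rotJ u = Pool.Agent.H50.Susp.mkP (-b) a (0 : Phase 0) := by
      rw [← Jl_eq_rotJ, hu', Jl_mkP, map_zero]
    have hn : a ^ 2 + b ^ 2 = 1 := by
      have h4 : inner ℝ u u = (1 : ℝ) := by
        rw [real_inner_self_eq_norm_sq, hu, one_pow]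
      rw [hu', inner_mkP, inner_zero_left] at h4
      linarith
    show -1 / 2 ≤ (inner ℝ u (block m 1 A A' (φ.at t) p u) +
      inner ℝ (rotJ u) (block m 1 A A' (φ.at t) p
        (rotJ u))) / 2
    rw [hJu, hblk]
    conv_rhs =>
      rw [hu']
    rw [hblk, inner_mkP, inner_mkP, inner_zero_left]
    have e1 : (a * (l * (a * (D (eX 0)) (Sum.inl 0) + b * (D (eY 0)) (Sum.inl 0))) +
        b * (l⁻¹ * (a * (D (eX 0)) (Sum.inr 0) + b * (D (eY 0)) (Sum.inr 0))) + 0 +
        (-b * (l * (-b * (D (eX 0)) (Sum.inl 0) + a * (D (eY 0)) (Sum.inl 0))) +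
        a * (l⁻¹ * (-b * (D (eX 0)) (Sum.inr 0) + a * (D (eY 0)) (Sum.inr 0))) + 0)) =
        (a ^ 2 + b ^ 2) * (l * (D (eX 0)) (Sum.inl 0) + l⁻¹ * (D (eY 0)) (Sum.inr 0)) := by
      ring
    rw [e1, hn, one_mul]
    have e2 : 0 < l * (D (eX 0)) (Sum.inl 0) := mul_pos hl0 ha
    have e3 : l⁻¹ * -(1 + M) ≤ l⁻¹ * (D (eY 0)) (Sum.inr 0) :=
      mul_le_mul_of_nonneg_left hd (inv_nonneg.2 hl0.le)
    have e4 : l⁻¹ * -(1 + M) = -1 := by
      rw [hl]
      field_simp
    linarith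
  have h4 : (-1 / 2 : ℝ) ≤ (-1 : ℂ).re := h3 h2
  rw [Complex.neg_re, Complex.one_re] at h4
  linarith

end Pool.Agent.H42.Hull
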