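import Mathlib
import Pool.Agent.H42.Hull.Defs2
import Pool.Agent.H42.Hull.Final

set_option maxSynthPendingDepth 3

open scoped ContDiff Topology unitInterval
open Set Function TopologicalSpace Filter

namespace Pool.Agent.H42.Hull

open Pool.Agent.Helper17 Pool.Agent.H50.Susp Pool.Agent.Helper42

lemma oneS_mkP {n : ℕ} (A : Phase n →L[ℝ] Phase n) (a b : ℝ) (v : Phase n) :
    oneS A (Pool.Agent.H50.Susp.mkP a b v) = Pool.Agent.H50.Susp.mkP a b (A v) := by
  have h1 : oneS A (Pool.Agent.H50.Susp.mkP a b v) = Pool.Agent.H50.Susp.mkP a b v +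
      emb n (A (Pool.Agent.H50.Susp.wL n (Pool.Agent.H50.Susp.mkP a b v)) -
        Pool.Agent.H50.Susp.wL n (Pool.Agent.H50.Susp.mkP a b v)) := rfl
  rw [h1, Pool.Agent.H50.Susp.wL_mkP, map_sub, Pool.Agent.H50.Susp.mkP,
    Pool.Agent.H50.Susp.mkP]
  abel

lemma incK_mkP (m k : ℕ) (a b : ℝ) (u : Phase k) :
    incK m (k + 1) (Pool.Agent.H50.Susp.mkP a b u) =
      (Pool.Agent.H50.Susp.mkP a b (incK m k u) : Phase (m + k + 1)) := by
  rw [incK_eq_incPt, incK_eq_incPt, incPt_mkP]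

lemma norm_sq_mkP {n : ℕ} (a b : ℝ) (v : Phase n) :
    ‖(Pool.Agent.H50.Susp.mkP a b v : Phase (n + 1))‖ ^ 2 = a ^ 2 + b ^ 2 + ‖v‖ ^ 2 := by
  rw [← real_inner_self_eq_norm_sq, inner_mkP, real_inner_self_eq_norm_sq]
  ring

/-- The block of `oneS A`. -/
lemma norm_block_oneS_le (m k : ℕ) (A : Phase (m + k) →L[ℝ] Phase (m + k)) {δ : ℝ} (hδ : 0 ≤ δ)
    (h : ‖(prK m k).comp (A.comp (incK m k)) - ContinuousLinearMap.id ℝ (Phase k)‖ ≤ δ)
    (u : Phase (k + 1)) :
    ‖prK m (k + 1) ((oneS A : Phase (m + k + 1) →L[ℝ] Phase (m + k + 1))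
      (incK m (k + 1) u)) - u‖ ≤ δ * ‖u‖ := by
  obtain ⟨a, b, v, rfl⟩ : ∃ (a b : ℝ) (v : Phase k), u = Pool.Agent.H50.Susp.mkP a b v :=
    ⟨_, _, _, (mkP_eta u).symm⟩
  have h1 : prK m (k + 1) ((oneS A : Phase (m + k + 1) →L[ℝ] Phase (m + k + 1))
      (incK m (k + 1) (Pool.Agent.H50.Susp.mkP a b v))) - Pool.Agent.H50.Susp.mkP a b v =
      Pool.Agent.H50.Susp.mkP 0 0 (prK m k (A (incK m k v)) - v) := by
    rw [incK_mkP, oneS_mkP, prK_succ]
    have h2 : (Pool.Agent.H50.Susp.mkP a b (A (incK m k v)) : Phase (m + k + 1)) (Sum.inl 0) = a :=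
      Pool.Agent.H50.Susp.mkP_x _ _ _
    have h3 : (Pool.Agent.H50.Susp.mkP a b (A (incK m k v)) : Phase (m + k + 1)) (Sum.inr 0) = b :=
      Pool.Agent.H50.Susp.mkP_y _ _ _
    have h4 : Pool.Agent.H50.Susp.wL (m + k)
        (Pool.Agent.H50.Susp.mkP a b (A (incK m k v)) : Phase (m + k + 1)) = A (incK m k v) :=
      Pool.Agent.H50.Susp.wL_mkP _ _ _
    have h5 : Pool.Agent.H50.Susp.mkP
        ((Pool.Agent.H50.Susp.mkP a b (A (incK m k v)) : Phase (m + k + 1)) (Sum.inl 0))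
        ((Pool.Agent.H50.Susp.mkP a b (A (incK m k v)) : Phase (m + k + 1)) (Sum.inr 0))
        (prK m k (Pool.Agent.H50.Susp.wL (m + k)
          (Pool.Agent.H50.Susp.mkP a b (A (incK m k v)) : Phase (m + k + 1)))) =
        Pool.Agent.H50.Susp.mkP a b (prK m k (A (incK m k v))) := by
      rw [h2, h3, h4]
    refine (congrArg (fun x => x - Pool.Agent.H50.Susp.mkP a b v) h5).trans ?_
    simp only [Pool.Agent.H50.Susp.mkP, zero_smul, zero_add, map_sub]
    abel
  rw [h1]
  have h2 : ‖prK m k (A (incK m k v)) - v‖ ≤ δ * ‖v‖ := by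
    have h3 := ((prK m k).comp (A.comp (incK m k)) -
      ContinuousLinearMap.id ℝ (Phase k)).le_opNorm v
    exact h3.trans (mul_le_mul_of_nonneg_right h (norm_nonneg _))
  have h3 : ‖(Pool.Agent.H50.Susp.mkP 0 0 (prK m k (A (incK m k v)) - v) : Phase (k + 1))‖ =
      ‖prK m k (A (incK m k v)) - v‖ := by
    rw [← sq_eq_sq₀ (norm_nonneg _) (norm_nonneg _), norm_sq_mkP]
    ring
  have h4 : ‖v‖ ≤ ‖(Pool.Agent.H50.Susp.mkP a b v : Phase (k + 1))‖ := by
    rw [← sq_le_sq₀ (norm_nonneg _) (norm_nonneg _), norm_sq_mkP]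
    nlinarith [sq_nonneg a, sq_nonneg b]
  rw [h3]
  exact h2.trans (mul_le_mul_of_nonneg_left h4 hδ)

theorem conv (hs : St_susp2) : St_conv := by
  intro m k
  induction k with
  | zero =>
    intro j c _ ε hε
    obtain ⟨γ, hγ⟩ := Quotient.exists_rep c
    refine ⟨γ, hγ, fun t p => ?_⟩
    have h1 : (prK m 0).comp ((fderiv ℝ (LoopG.at γ t) p).comp (incK m 0)) -
        ContinuousLinearMap.id ℝ (Phase 0) = 0 := by
      ext1 v
      exact Subsingleton.elim _ _
    rw [h1, norm_zero]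
    exact hε.le
  | succ k ih =>
    intro j c hc ε hε
    obtain ⟨g, φ₀, hsus, hcls, hg⟩ := hc
    obtain ⟨g₁, hg₁, hclose⟩ := ih (j + 2) g.cls hg (ε / 2) (by positivity)
    set Cn : ℝ := ‖prK m (k + 1)‖ * ‖incK m (k + 1)‖ with hCn
    have hCn0 : 0 ≤ Cn := by positivity
    obtain ⟨g₂, φ, h2, hsus2, hcl2⟩ := hs (m + k) j g₁ (ε / 2 / (Cn + 1)) (by positivity)
    refine ⟨φ, ?_, ?_⟩
    · rw [← sigmaMap_of_isSuspension hsus2, h2, hg₁, sigmaMap_of_isSuspension hsus, hcls]
    · intro t p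
      obtain ⟨t', w, hw⟩ := hcl2 t p
      apply ContinuousLinearMap.opNorm_le_bound _ hε.le
      intro u
      set D := fderiv ℝ (LoopG.at φ t) p with hD
      set A := fderiv ℝ (LoopG.at g₁ t') w with hA
      have h3 := norm_block_oneS_le m k A (by positivity) (hclose t' w) u
      have h4 : ‖prK m (k + 1) ((D - oneS A : Phase (m + k + 1) →L[ℝ] Phase (m + k + 1))
          (incK m (k + 1) u))‖ ≤ ε / 2 * ‖u‖ := by
        calc _ ≤ ‖prK m (k + 1)‖ * (‖D - oneS A‖ * (‖incK m (k + 1)‖ * ‖u‖)) := by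
              refine ((prK m (k + 1)).le_opNorm _).trans ?_
              apply mul_le_mul_of_nonneg_left _ (norm_nonneg _)
              refine (ContinuousLinearMap.le_opNorm _ _).trans ?_
              exact mul_le_mul_of_nonneg_left ((incK m (k + 1)).le_opNorm u) (norm_nonneg _)
          _ = Cn * ‖D - oneS A‖ * ‖u‖ := by rw [hCn]; ring
          _ ≤ Cn * (ε / 2 / (Cn + 1)) * ‖u‖ := by
              apply mul_le_mul_of_nonneg_right _ (norm_nonneg _)
              exact mul_le_mul_of_nonneg_left hw hCn0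
          _ ≤ ε / 2 * ‖u‖ := by
              apply mul_le_mul_of_nonneg_right _ (norm_nonneg _)
              have h5 : Cn * (ε / 2 / (Cn + 1)) = ε / 2 * (Cn / (Cn + 1)) := by ring
              rw [h5]
              have h6 : Cn / (Cn + 1) ≤ 1 := by
                rw [div_le_one (by positivity)]
                linarith
              nlinarith
      have h5 : ((prK m (k + 1)).comp (D.comp (incK m (k + 1))) -
          ContinuousLinearMap.id ℝ (Phase (k + 1))) u =
          prK m (k + 1) ((D - oneS A : Phase (m + k + 1) →L[ℝ] Phase (m + k + 1))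
            (incK m (k + 1) u)) +
          (prK m (k + 1) ((oneS A : Phase (m + k + 1) →L[ℝ] Phase (m + k + 1))
            (incK m (k + 1) u)) - u) := by
        have h6 : (D - oneS A : Phase (m + k + 1) →L[ℝ] Phase (m + k + 1))
            (incK m (k + 1) u) = D (incK m (k + 1) u) -
            (oneS A : Phase (m + k + 1) →L[ℝ] Phase (m + k + 1)) (incK m (k + 1) u) := rfl
        rw [h6, map_sub]
        change prK m (k + 1) (D (incK m (k + 1) u)) - u = _
        abel
      rw [h5]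
      refine (norm_add_le _ _).trans ?_
      linarith

end Pool.Agent.H42.Hull
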