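import Mathlib
import Pool.Agent.H42.Hull.Conv

set_option maxSynthPendingDepth 3

open scoped ContDiff Topology unitInterval
open Set Function TopologicalSpace Filter

namespace Pool.Agent.H42.Hull

open Pool.Agent.Helper17 Pool.Agent.H50.Susp Pool.Agent.Helper42

/-- `k`-fold suspensions have representatives with the block close to the identity. -/
theorem exists_close (hc : St_conv) {m k j : ℕ} (c : PiG j (m + k)) (h : IsKSusp m k j c) {ε : ℝ}
    (hε : 0 < ε) : ∃ φ : LoopG j (m + k), φ.cls = c ∧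
      ∀ t p u, ‖fstPt m k (dAt (φ.at t) p (incPt m k u)) - u‖ ≤ ε * ‖u‖ := by
  obtain ⟨φ, hφ, hcl⟩ := hc m k j c h ε hε
  refine ⟨φ, hφ, fun t p u => ?_⟩
  have h1 := ((prK m k).comp ((fderiv ℝ (φ.at t) p).comp (incK m k)) -
    ContinuousLinearMap.id ℝ (Phase k)).le_opNorm u
  have h2 : ((prK m k).comp ((fderiv ℝ (φ.at t) p).comp (incK m k)) -
      ContinuousLinearMap.id ℝ (Phase k)) u = fstPt m k (dAt (φ.at t) p (incPt m k u)) - u := by
    rw [← prK_eq_fstPt, ← incK_eq_incPt]
    rfl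
  rw [h2] at h1
  exact h1.trans (mul_le_mul_of_nonneg_right (hcl t p) (norm_nonneg _))

end Pool.Agent.H42.Hull
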