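import Pool.Agent.H42.Hull.Defs2

/-!
# Mollification in the base variables (`St_mol`)
-/

set_option maxSynthPendingDepth 3

open scoped ContDiff Topology unitInterval
open Set Function TopologicalSpace Filter MeasureTheory

namespace Pool.Agent.H42.Hull

open Pool.Agent.Helper17 Pool.Agent.Helper42

private lemma bmp_smooth : ContDiff ℝ ∞ bmp :=
  (⟨1 / 2, 1, by norm_num, by norm_num⟩ : ContDiffBump (0 : ℝ × ℝ)).contDiff_normed

private lemma bmp_zero (u : ℝ × ℝ) (hu : 1 ≤ ‖u‖) : bmp u = 0 := by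
  have h1 : u ∉ Function.support bmp := by
    unfold bmp
    rw [ContDiffBump.support_normed_eq, mem_ball_zero_iff]
    exact not_lt.2 hu
  simpa using h1

private lemma bmp_integral {E' : Type} [NormedAddCommGroup E'] [NormedSpace ℝ E']
    [CompleteSpace E'] (v : E') : ∫ u : ℝ × ℝ, bmp u • v = v :=
  ContDiffBump.integral_normed_smul _ _ v

section

variable {B : Type} {n : ℕ} {E' : Type} [NormedAddCommGroup E'] [NormedSpace ℝ E']

private abbrev ballS : Set (ℝ × ℝ) := Metric.closedBall (0 : ℝ × ℝ) 1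

private lemma mol_eq (η : B × (ℝ × ℝ) → Phase n → E') (q : ℝ × (B × (ℝ × ℝ))) (w : Phase n) :
    mol η q w = ∫ u in ballS, bmp u • η (q.2.1, q.2.2 - q.1 • u) w ∂(volume.restrict ballS) := by
  rw [Measure.restrict_restrict Metric.isClosed_closedBall.measurableSet, inter_self]
  rfl

private lemma mol_univ (η : B × (ℝ × ℝ) → Phase n → E') (q : ℝ × (B × (ℝ × ℝ))) (w : Phase n) :
    mol η q w = ∫ u : ℝ × ℝ, bmp u • η (q.2.1, q.2.2 - q.1 • u) w := by
  refine setIntegral_eq_integral_of_forall_compl_eq_zero fun u hu => ?_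
  rw [mem_closedBall_zero_iff, not_le] at hu
  rw [bmp_zero u hu.le, zero_smul]

variable [TopologicalSpace B]

private lemma mol_int_CF {η : B × (ℝ × ℝ) → Phase n → E'} (hη : CF η) :
    CF (fun (p : (ℝ × (B × (ℝ × ℝ))) × (ℝ × ℝ)) (w : Phase n) =>
      bmp p.2 • η (p.1.2.1, p.1.2.2 - p.1.1 • p.2) w) := by
  have h1 : CF (fun (p : (ℝ × (B × (ℝ × ℝ))) × (ℝ × ℝ)) (_ : Phase n) => bmp p.2) :=
    CF.param (bmp_smooth.continuous.comp continuous_snd)
  have h2 : CF (fun (p : (ℝ × (B × (ℝ × ℝ))) × (ℝ × ℝ)) (w : Phase n) =>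
      η (p.1.2.1, p.1.2.2 - p.1.1 • p.2) w) :=
    hη.base (h := fun p : (ℝ × (B × (ℝ × ℝ))) × (ℝ × ℝ) => (p.1.2.1, p.1.2.2 - p.1.1 • p.2))
      (((continuous_fst.snd).fst).prodMk
        (((continuous_fst.snd).snd).sub ((continuous_fst.fst).smul continuous_snd)))
  exact h1.smul h2

private lemma mol_CF {η : B × (ℝ × ℝ) → Phase n → E'} (hη : CF η) : CF (mol η) := by
  have hf : IsFiniteMeasure (volume.restrict ballS) := ⟨by
    rw [Measure.restrict_apply_univ]
    exact (isCompact_closedBall (0 : ℝ × ℝ) 1).measure_lt_top⟩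
  have h := CF.setIntegral (isCompact_closedBall (0 : ℝ × ℝ) 1) (volume.restrict ballS)
    (mol_int_CF hη)
  have e : mol η = fun q w => ∫ u in ballS, bmp u • η (q.2.1, q.2.2 - q.1 • u) w
      ∂(volume.restrict ballS) := funext fun q => funext fun w => mol_eq η q w
  rw [e]
  exact h

private lemma mol_fderiv {η : B × (ℝ × ℝ) → Phase n → E'} (hη : CF η)
    (q : ℝ × (B × (ℝ × ℝ))) (w : Phase n) :
    fderiv ℝ (mol η q) w = mol (fun q w => fderiv ℝ (η q) w) q w := by
  have hf : IsFiniteMeasure (volume.restrict ballS) := ⟨by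
    rw [Measure.restrict_apply_univ]
    exact (isCompact_closedBall (0 : ℝ × ℝ) 1).measure_lt_top⟩
  have hF := mol_int_CF hη
  have h := hasFDerivAt_setIntegral (isCompact_closedBall (0 : ℝ × ℝ) 1)
    (volume.restrict ballS) hF.continuous hF.differentiable hF.fderiv.continuous q w
  have e : mol η q = fun w => ∫ u in ballS, bmp u • η (q.2.1, q.2.2 - q.1 • u) w
      ∂(volume.restrict ballS) := funext fun w => mol_eq η q w
  rw [e, h.fderiv, mol_eq]
  congr 1
  funext u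
  exact fderiv_const_smul (hη.differentiable _ w) (bmp u)

omit [TopologicalSpace B] in
private lemma mol_subst {η : B × (ℝ × ℝ) → Phase n → E'} {R : ℝ}
    (hR : ∀ b z, R < ‖z‖ → ∀ w, η (b, z) w = 0) {δ : ℝ} (hδ : 0 < δ) (b : B) (z : ℝ × ℝ)
    (w : Phase n) : mol η (δ, (b, z)) w =
      ∫ v in Metric.closedBall (0 : ℝ × ℝ) R, (|(δ ^ Module.finrank ℝ (ℝ × ℝ))⁻¹| *
        bmp (δ⁻¹ • (z - v))) • η (b, v) w ∂(volume.restrict (Metric.closedBall (0 : ℝ × ℝ) R)) := by
  rw [Measure.restrict_restrict Metric.isClosed_closedBall.measurableSet, inter_self, mol_univ]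
  set g : ℝ × ℝ → E' := fun v => bmp (δ⁻¹ • (z - v)) • η (b, v) w with hg
  have h1 : ∫ u : ℝ × ℝ, bmp u • η (b, z - δ • u) w = ∫ u : ℝ × ℝ, (fun x => g (z - x)) (δ • u) := by
    congr 1
    funext u
    simp only [hg]
    rw [sub_sub_cancel, smul_smul, inv_mul_cancel₀ hδ.ne', one_smul]
  show ∫ u : ℝ × ℝ, bmp u • η (b, z - δ • u) w = _
  rw [h1, Measure.integral_comp_smul volume (fun x => g (z - x)) δ,
    integral_sub_left_eq_self g volume z, ← integral_smul]
  symm
  have h2 : ∀ v, v ∉ Metric.closedBall (0 : ℝ × ℝ) R →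
      (|(δ ^ Module.finrank ℝ (ℝ × ℝ))⁻¹| * bmp (δ⁻¹ • (z - v))) • η (b, v) w = 0 := by
    intro v hv
    rw [mem_closedBall_zero_iff, not_le] at hv
    rw [hR b v hv, smul_zero]
  rw [setIntegral_eq_integral_of_forall_compl_eq_zero h2]
  congr 1
  funext v
  rw [mul_smul]

end

/-- A: mollification in the base variables. -/
theorem mol_thm : St_mol := by
  intro n B _ _ E' _ _ _ η R hη hR0 hR
  have : CompleteSpace E' := FiniteDimensional.complete ℝ E'
  refine ⟨mol_CF hη, mol_fderiv hη, fun b z w => ?_, fun δ hδ => ?_, fun δ h0 h1 b z hz w => ?_⟩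
  · rw [mol_univ]
    simp only [zero_smul, sub_zero]
    exact bmp_integral _
  · have e : (fun (b : B) (p : Phase (n + 1)) => mol η (δ, (b, zL p)) (wL p)) = fun b p =>
        ∫ v in Metric.closedBall (0 : ℝ × ℝ) R, (|(δ ^ Module.finrank ℝ (ℝ × ℝ))⁻¹| *
          bmp (δ⁻¹ • (zL p - v))) • η (b, v) (wL p)
            ∂(volume.restrict (Metric.closedBall (0 : ℝ × ℝ) R)) :=
      funext fun b => funext fun p => mol_subst hR hδ b (zL p) (wL p)
    rw [e]
    have hf : IsFiniteMeasure (volume.restrict (Metric.closedBall (0 : ℝ × ℝ) R)) := ⟨by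
      rw [Measure.restrict_apply_univ]
      exact (isCompact_closedBall (0 : ℝ × ℝ) R).measure_lt_top⟩
    apply CF.setIntegral (isCompact_closedBall (0 : ℝ × ℝ) R)
      (volume.restrict (Metric.closedBall (0 : ℝ × ℝ) R))
      (F := fun (q : B × (ℝ × ℝ)) (p : Phase (n + 1)) =>
        (|(δ ^ Module.finrank ℝ (ℝ × ℝ))⁻¹| * bmp (δ⁻¹ • (zL p - q.2))) • η q (wL p))
    have h0 : ContDiff ℝ ∞
        (fun z : ℝ × ℝ => |(δ ^ Module.finrank ℝ (ℝ × ℝ))⁻¹| * bmp (δ⁻¹ • z)) :=
      contDiff_const.mul (bmp_smooth.comp (contDiff_const_smul δ⁻¹))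
    have h1 : CF (fun (q : B × (ℝ × ℝ)) (p : Phase (n + 1)) =>
        |(δ ^ Module.finrank ℝ (ℝ × ℝ))⁻¹| * bmp (δ⁻¹ • (zL p - q.2))) :=
      CF.comp_smooth (g := fun z => |(δ ^ Module.finrank ℝ (ℝ × ℝ))⁻¹| * bmp (δ⁻¹ • z))
        (F := fun (q : B × (ℝ × ℝ)) (p : Phase (n + 1)) => zL p - q.2)
        (fun _ _ => h0.contDiffAt) ((CF.const zL.contDiff).sub (CF.param continuous_snd))
    exact h1.smul (hη.comp (CF.const wL.contDiff))
  · have h2 : ∀ u ∈ Metric.closedBall (0 : ℝ × ℝ) 1, bmp u • η (b, z - δ • u) w = 0 := by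
      intro u hu
      rw [mem_closedBall_zero_iff] at hu
      have h3 : ‖δ • u‖ ≤ 1 := by
        rw [norm_smul, Real.norm_eq_abs, abs_of_nonneg h0]
        exact mul_le_one₀ h1 (norm_nonneg _) hu
      have h4 : ‖z‖ ≤ ‖z - δ • u‖ + ‖δ • u‖ := by
        calc ‖z‖ = ‖(z - δ • u) + δ • u‖ := by rw [sub_add_cancel]
          _ ≤ _ := norm_add_le _ _
      rw [hR b _ (by linarith), smul_zero]
    show ∫ u in Metric.closedBall (0 : ℝ × ℝ) 1, bmp u • η (b, z - δ • u) w = 0
    rw [setIntegral_congr_fun Metric.isClosed_closedBall.measurableSet h2]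
    simp

end Pool.Agent.H42.Hull
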