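import Mathlib
import Pool.Agent.H42.Hull.Defs2

/-!
# Moser's isotopy in the fibres for a given primitive, with a C¹ estimate
-/

set_option maxSynthPendingDepth 3
set_option linter.unusedVariables false

open scoped ContDiff Topology unitInterval
open Set Function TopologicalSpace Filter MeasureTheory

namespace Pool.Agent.H42.Hull

open Pool.Agent.Helper17 Pool.Agent.Helper42

variable {n : ℕ}

/-- The conservation law in Moser's method for a general primitive `μ`. -/
lemma moser2_conservation {Ψ : Phase n → Phase n} (hΨ : ContDiff ℝ ∞ Ψ)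
    {μ : Phase n → Phase n →L[ℝ] ℝ} (hμd : Differentiable ℝ μ)
    (hμ : ∀ x a b, fderiv ℝ μ x a b - fderiv ℝ μ x b a =
      omegaStd (fderiv ℝ Ψ x a) (fderiv ℝ Ψ x b) - omegaStd a b)
    {X : Icc (0 : ℝ) 1 → Phase n → Phase n} (hX : ∀ s, Differentiable ℝ (X s))
    (hspec : ∀ (s : Icc (0 : ℝ) 1) x w, (1 - (s : ℝ)) * omegaStd (X s x) w +
      s * omegaStd (fderiv ℝ Ψ x (X s x)) (fderiv ℝ Ψ x w) = -μ x w)
    {r : ℝ → Phase n} {A : ℝ → Phase n →L[ℝ] Phase n}
    (hr : ∀ s : Icc (0 : ℝ) 1, HasDerivAt r (X s (r s)) s)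
    (hA : ∀ s : Icc (0 : ℝ) 1, HasDerivAt A ((fderiv ℝ (X s) (r s)).comp (A s)) s)
    (hA0 : A 0 = ContinuousLinearMap.id ℝ (Phase n)) (v w : Phase n) (s : Icc (0 : ℝ) 1) :
    (1 - (s : ℝ)) * omegaStd (A s v) (A s w) +
      s * omegaStd (fderiv ℝ Ψ (r s) (A s v)) (fderiv ℝ Ψ (r s) (A s w)) = omegaStd v w := by
  set D : Phase n → Phase n →L[ℝ] Phase n := fderiv ℝ Ψ with hD
  have hDs : ContDiff ℝ ∞ D := hΨ.fderiv_right (by simp)
  have hDd : ∀ x, HasFDerivAt D (fderiv ℝ D x) x := fun x =>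
    (hDs.differentiable (by simp) x).hasFDerivAt
  -- the infinitesimal identity
  have hinf : ∀ (s : Icc (0 : ℝ) 1) (x a b : Phase n),
      (1 - (s : ℝ)) * omegaStd (fderiv ℝ (X s) x a) b +
      s * (omegaStd (fderiv ℝ D x a (X s x) + D x (fderiv ℝ (X s) x a)) (D x b) +
        omegaStd (D x (X s x)) (fderiv ℝ D x a b)) = -fderiv ℝ μ x a b := by
    intro s x a b
    have hXx : HasFDerivAt (X s) (fderiv ℝ (X s) x) x := (hX s x).hasFDerivAt
    have h1 : HasFDerivAt (fun y => D y (X s y))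
        ((D x).comp (fderiv ℝ (X s) x) + (fderiv ℝ D x).flip (X s x)) x :=
      (hDd x).clm_apply hXx
    have h2 : HasFDerivAt (fun y => omegaB n (X s y)) ((omegaB n).comp (fderiv ℝ (X s) x)) x :=
      (omegaB n).hasFDerivAt.comp x hXx
    have h3 : HasFDerivAt (fun y => omegaB n (D y (X s y))) ((omegaB n).comp
        ((D x).comp (fderiv ℝ (X s) x) + (fderiv ℝ D x).flip (X s x))) x :=
      (omegaB n).hasFDerivAt.comp x h1
    have h4 : HasFDerivAt (fun y => D y b) ((fderiv ℝ D x).flip b) x := by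
      have := (hDd x).clm_apply (hasFDerivAt_const b x)
      simpa using this
    have h5 : HasFDerivAt (fun y => (1 - (s : ℝ)) * (omegaB n (X s y)) b +
        s * (omegaB n (D y (X s y))) (D y b)) _ x :=
      ((h2.clm_apply (hasFDerivAt_const b x)).const_mul (1 - (s : ℝ))).add
        ((h3.clm_apply h4).const_mul (s : ℝ))
    have h6 : HasFDerivAt (fun y => -μ y b) (-(fderiv ℝ μ x).flip b) x := by
      have h7 : HasFDerivAt μ (fderiv ℝ μ x) x := (hμd x).hasFDerivAt
      have h8 : HasFDerivAt (fun y => μ y b) ((fderiv ℝ μ x).flip b) x := by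
        have := h7.clm_apply (hasFDerivAt_const b x)
        simpa using this
      exact h8.neg
    have h7 : (fun y => (1 - (s : ℝ)) * (omegaB n (X s y)) b +
        s * (omegaB n (D y (X s y))) (D y b)) = fun y => -μ y b :=
      funext fun y => hspec s y b
    rw [h7] at h5
    have h8 := congrArg (fun L : Phase n →L[ℝ] ℝ => L a) (h6.unique h5)
    simp only [neg_apply, ContinuousLinearMap.flip_apply] at h8
    rw [h8]
    simp only [add_apply, ContinuousLinearMap.comp_apply, zero_apply, map_zero, zero_add,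
      ContinuousLinearMap.flip_apply, smul_apply, omegaB_apply, smul_eq_mul, map_add]
    rw [omegaStd_add_left]
    ring
  have hsymm : ∀ x a b, fderiv ℝ D x a b = fderiv ℝ D x b a := fun x a b =>
    (hΨ.contDiffAt (x := x)).isSymmSndFDerivAt
      (by rw [minSmoothness_of_isRCLikeNormedField]; exact WithTop.coe_le_coe.2 le_top) a b
  -- the conserved quantity
  set a : ℝ → Phase n := fun s => A s v with ha
  set b : ℝ → Phase n := fun s => A s w with hb
  set h : ℝ → ℝ := fun s => (1 - s) * omegaStd (a s) (b s) +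
    s * omegaStd (D (r s) (a s)) (D (r s) (b s)) with hh
  have hder : ∀ s : Icc (0 : ℝ) 1, HasDerivAt h 0 s := by
    intro s
    set x := r s with hx
    set a' := fderiv ℝ (X s) x (a s) with ha'
    set b' := fderiv ℝ (X s) x (b s) with hb'
    have hav : HasDerivAt a a' s := by
      have := (hA s).clm_apply (hasDerivAt_const (s : ℝ) v)
      simpa using this
    have hbv : HasDerivAt b b' s := by
      have := (hA s).clm_apply (hasDerivAt_const (s : ℝ) w)
      simpa using this
    have hDr : HasDerivAt (fun s => D (r s)) (fderiv ℝ D x (X s x)) s :=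
      (hDd x).comp_hasDerivAt (s : ℝ) (hr s)
    have hp : HasDerivAt (fun s => D (r s) (a s)) (fderiv ℝ D x (X s x) (a s) + D x a') s :=
      hDr.clm_apply hav
    have hq : HasDerivAt (fun s => D (r s) (b s)) (fderiv ℝ D x (X s x) (b s) + D x b') s :=
      hDr.clm_apply hbv
    have h1 : HasDerivAt (fun s => omegaStd (a s) (b s)) (omegaStd a' (b s) + omegaStd (a s) b')
        s := by
      have := ((omegaB n).hasFDerivAt.comp_hasDerivAt (s : ℝ) hav).clm_apply hbv
      simpa [add_comm] using this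
    have h2 : HasDerivAt (fun s => omegaStd (D (r s) (a s)) (D (r s) (b s)))
        (omegaStd (fderiv ℝ D x (X s x) (a s) + D x a') (D x (b s)) +
          omegaStd (D x (a s)) (fderiv ℝ D x (X s x) (b s) + D x b')) s := by
      exact ((omegaB n).hasFDerivAt.comp_hasDerivAt (s : ℝ) hp).clm_apply hq
    have h3 : HasDerivAt h ((0 - 1) * omegaStd (a s) (b s) + (1 - (s : ℝ)) *
        (omegaStd a' (b s) + omegaStd (a s) b') + (1 * omegaStd (D x (a s)) (D x (b s)) +
        s * (omegaStd (fderiv ℝ D x (X s x) (a s) + D x a') (D x (b s)) +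
          omegaStd (D x (a s)) (fderiv ℝ D x (X s x) (b s) + D x b')))) s :=
      ((((hasDerivAt_const (s : ℝ) (1 : ℝ)).sub (hasDerivAt_id (s : ℝ))).mul h1).add
        ((hasDerivAt_id (s : ℝ)).mul h2))
    refine h3.congr_deriv ?_
    have i1 := hinf s x (a s) (b s)
    have i2 := hinf s x (b s) (a s)
    have i3 := hμ x (a s) (b s)
    rw [← ha'] at i1
    rw [← hb'] at i2
    rw [hsymm x (b s) (a s)] at i2
    rw [hsymm x (b s) (X s x)] at i2
    rw [hsymm x (a s) (X s x)] at i1
    simp only [omegaStd_add_left, omegaStd_add_right] at i1 i2 ⊢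
    have s1 : omegaStd b' (a s) = -omegaStd (a s) b' := omegaStd_swap _ _
    have s2 : omegaStd (fderiv ℝ D x (X s x) (b s)) (D x (a s)) =
      -omegaStd (D x (a s)) (fderiv ℝ D x (X s x) (b s)) := omegaStd_swap _ _
    have s3 : omegaStd (D x b') (D x (a s)) = -omegaStd (D x (a s)) (D x b') := omegaStd_swap _ _
    have s4 : omegaStd (D x (b s)) (a s) = -omegaStd (a s) (D x (b s)) := omegaStd_swap _ _
    have s5 : omegaStd (D x (b s)) (D x (a s)) = -omegaStd (D x (a s)) (D x (b s)) :=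
      omegaStd_swap _ _
    have s6 : omegaStd (b s) (D x (a s)) = -omegaStd (D x (a s)) (b s) := omegaStd_swap _ _
    have s7 : omegaStd (b s) (a s) = -omegaStd (a s) (b s) := omegaStd_swap _ _
    rw [s1, s2, s3] at i2
    linear_combination i1 - i2 - i3
  have hconst := (convex_Icc (0 : ℝ) 1).norm_image_sub_le_of_norm_hasDerivWithin_le
    (f := h) (f' := fun _ => 0) (C := 0) (fun t ht => (hder ⟨t, ht⟩).hasDerivWithinAt)
    (fun t _ => by simp) (left_mem_Icc.2 zero_le_one) s.2
  rw [zero_mul, norm_le_zero_iff, sub_eq_zero] at hconst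
  have h0 : h 0 = omegaStd v w := by
    simp [hh, ha, hb, hA0]
  rw [h0] at hconst
  exact hconst


section

variable {T : Type} [TopologicalSpace T] {c : T → Phase (n + 1) → Phase n}
  {τ : T → Phase (n + 1) → Phase n →L[ℝ] ℝ}

lemma CF_fieldT (hc : CF c) (hτ : CF τ) (hadm : ∀ t p, Admissible (fibD (c t) p)) :
    CF (fun (q : T × Icc (0 : ℝ) 1) p => fieldT (c q.1) (τ q.1) q.2 p) := by
  have h1 : CF (fun (q : T × Icc (0 : ℝ) 1) p => fibD (c q.1) p) :=
    (CF_fibD hc).base continuous_fst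
  have h2 : CF (fun (q : T × Icc (0 : ℝ) 1) p => (((q.2 : ℝ), fibD (c q.1) p) :
      ℝ × (Phase n →L[ℝ] Phase n))) :=
    (CF.param (continuous_subtype_val.comp continuous_snd)).prodMk h1
  have h3 : CF (fun (q : T × Icc (0 : ℝ) 1) p => pullOp ((q.2 : ℝ), fibD (c q.1) p)) :=
    h2.comp_smooth (fun _ _ => contDiff_pullOp.contDiffAt)
  have h4 : CF (fun (q : T × Icc (0 : ℝ) 1) p =>
      ContinuousLinearMap.inverse (pullOp ((q.2 : ℝ), fibD (c q.1) p))) := by
    apply h3.comp_smooth
    intro q p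
    have h5 := coe_cleOfInjective _ ((hadm q.1 p).injective q.2.2)
    rw [← h5]
    exact contDiffAt_map_inverse _
  have h7 : CF (fun (q : T × Icc (0 : ℝ) 1) p => sharp n (τ q.1 p)) :=
    (hτ.base continuous_fst).clm (sharp n)
  exact (h4.clm_apply h7).clm (-(ContinuousLinearMap.id ℝ (Phase n)))

end

lemma fieldT_eq_zero {c : Phase (n + 1) → Phase n} {τ : Phase (n + 1) → Phase n →L[ℝ] ℝ}
    {s : Icc (0 : ℝ) 1} {p : Phase (n + 1)} (h : τ p = 0) : fieldT c τ s p = 0 := by
  rw [fieldT, h, map_zero]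
  simp

lemma fieldT_spec {c : Phase (n + 1) → Phase n} {τ : Phase (n + 1) → Phase n →L[ℝ] ℝ}
    {p : Phase (n + 1)} (hadm : Admissible (fibD c p)) (s : Icc (0 : ℝ) 1) (w : Phase n) :
    (1 - (s : ℝ)) * omegaStd (fieldT c τ s p) w +
      s * omegaStd (fibD c p (fieldT c τ s p)) (fibD c p w) = -τ p w := by
  rw [← omegaStd_pullOp]
  have h5 := coe_cleOfInjective _ (hadm.injective s.2)
  set e := cleOfInjective _ (hadm.injective s.2) with he
  have h6 : pullOp ((s : ℝ), fibD c p) (fieldT c τ s p) = -sharp n (τ p) := by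
    rw [fieldT, map_neg, ← h5, ContinuousLinearMap.inverse_equiv]
    simp
  rw [h6]
  have h7 : omegaStd (-sharp n (τ p)) w = -omegaStd (sharp n (τ p)) w := by
    rw [← neg_one_smul ℝ, omegaStd_smul_left]; ring
  rw [h7, omegaStd_sharp]

/-- the estimate of the solution of a linear differential equation -/
lemma moser2_gronwall {F : ℝ → Phase n →L[ℝ] Phase n} {A : ℝ → Phase n →L[ℝ] Phase n} {κ : ℝ}
    (hκ : 0 ≤ κ) (hF : ∀ s ∈ Icc (0 : ℝ) 1, ‖F s‖ ≤ κ)
    (hA : ∀ s ∈ Icc (0 : ℝ) 1, HasDerivAt A ((F s).comp (A s)) s)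
    (hA0 : A 0 = ContinuousLinearMap.id ℝ (Phase n)) :
    ∀ s ∈ Icc (0 : ℝ) 1, ‖A s - ContinuousLinearMap.id ℝ (Phase n)‖ ≤ Real.exp κ - 1 := by
  intro s hs
  have hB : ∀ s ∈ Icc (0 : ℝ) 1, HasDerivAt (fun s => A s - ContinuousLinearMap.id ℝ (Phase n))
      ((F s).comp (A s)) s := fun s hs => (hA s hs).sub_const _
  have h1 := norm_le_gronwallBound_of_norm_deriv_right_le
    (f := fun s => A s - ContinuousLinearMap.id ℝ (Phase n)) (f' := fun s => (F s).comp (A s))
    (δ := 0) (K := κ) (ε := κ) (a := 0) (b := 1)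
    (fun s hs => (hB s hs).continuousAt.continuousWithinAt)
    (fun s hs => (hB s ⟨hs.1, hs.2.le⟩).hasDerivWithinAt)
    (by
      beta_reduce
      rw [hA0, sub_self, norm_zero])
    (fun s hs => by
      beta_reduce
      have hs' : s ∈ Icc (0 : ℝ) 1 := ⟨hs.1, hs.2.le⟩
      have h2 : (F s).comp (A s) = (F s).comp (A s - ContinuousLinearMap.id ℝ (Phase n)) + F s := by
        ext1 x
        simp
      rw [h2]
      refine (norm_add_le _ _).trans (add_le_add ?_ (hF s hs'))
      exact (ContinuousLinearMap.opNorm_comp_le _ _).trans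
        (mul_le_mul_of_nonneg_right (hF s hs') (norm_nonneg _)))
    s hs
  refine h1.trans ?_
  rw [sub_zero]
  rcases eq_or_lt_of_le hκ with h3 | h3
  · rw [← h3, gronwallBound_K0]
    simp
  · rw [gronwallBound_of_K_ne_0 h3.ne']
    beta_reduce
    rw [zero_mul, zero_add, div_self h3.ne', one_mul]
    have h4 : Real.exp (κ * s) ≤ Real.exp κ := by
      rw [Real.exp_le_exp]
      nlinarith [hs.2]
    linarith

/-- [C] Fibrewise Moser isotopy for a given primitive, with a C¹ estimate. -/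
theorem moser2 : St_moser2 := by
  intro n T _ _ c τ K κ hc hτ hK hc0 hadm hprim hκ
  set Y : T × Icc (0 : ℝ) 1 → Phase (n + 1) → Phase n := fun q p =>
    fieldT (c q.1) (τ q.1) q.2 p with hY
  have hYCF : CF Y := CF_fieldT hc hτ hadm
  set X : T × Icc (0 : ℝ) 1 → Phase (n + 1) → Phase (n + 1) := fun q p => eL (Y q p) with hX
  have hXCF : CF X := hYCF.clm eL
  have hX0 : ∀ x ∉ K, ∀ q, X q x = 0 := by
    intro x hx q
    simp only [hX, hY]
    rw [fieldT_eq_zero (hc0 q.1 x hx).2, map_zero]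
  obtain ⟨C, -, hC⟩ := exists_bound_fderiv hXCF hK (fun q p hp => hX0 p hp q)
  obtain ⟨ρ, hρ, heq, hfix⟩ := exists_flow X hXCF hC
  -- the flow preserves the fibres
  have hz : ∀ q x, zL (ρ q x) = zL x := by
    rintro ⟨t, s⟩ x
    obtain ⟨r, A, hr, hA, hrd, hAd, hr0, hA0⟩ := flow_ode hXCF hρ heq t x
    have h1 : ∀ s : Icc (0 : ℝ) 1, HasDerivAt (fun s => zL (r s)) 0 s := by
      intro s
      have h2 := (zL : Phase (n + 1) →L[ℝ] ℝ × ℝ).hasFDerivAt.comp_hasDerivAt (s : ℝ) (hrd s)
      have h3 : zL (X (t, s) (r s)) = 0 := zL_eL _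
      rw [h3] at h2
      exact h2
    have hconst := (convex_Icc (0 : ℝ) 1).norm_image_sub_le_of_norm_hasDerivWithin_le
      (f := fun s => zL (r s)) (f' := fun _ => 0) (C := 0)
      (fun t ht => (h1 ⟨t, ht⟩).hasDerivWithinAt)
      (fun t _ => by simp) (left_mem_Icc.2 zero_le_one) s.2
    rw [zero_mul, norm_le_zero_iff, sub_eq_zero] at hconst
    rw [← hr s, hconst, hr0]
  have hpt : ∀ q x, ρ q x = pt (xL x) (yL x) (wL (ρ q x)) := by
    intro q x
    have h1 := hz q x
    rw [zL_apply, zL_apply] at h1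
    have h2 : xL (ρ q x) = xL x := congrArg Prod.fst h1
    have h3 : yL (ρ q x) = yL x := congrArg Prod.snd h1
    apply ext_split
    · rw [xL_pt, h2]
    · rw [yL_pt, h3]
    · rw [wL_pt]
  have hzd : ∀ q x (α : Phase n), fderiv ℝ (ρ q) x (eL α) =
      eL (wL (fderiv ℝ (ρ q) x (eL α))) := by
    intro q x α
    have h1 : (zL : Phase (n + 1) →L[ℝ] ℝ × ℝ).comp (fderiv ℝ (ρ q) x) = zL := by
      have h2 : HasFDerivAt (fun x => zL (ρ q x)) ((zL : Phase (n + 1) →L[ℝ] ℝ × ℝ).comp
          (fderiv ℝ (ρ q) x)) x :=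
        zL.hasFDerivAt.comp x (hρ.differentiable q x).hasFDerivAt
      have h3 : (fun x => zL (ρ q x)) = fun x => zL x := funext (hz q)
      rw [h3] at h2
      exact h2.unique zL.hasFDerivAt
    have h2 := congrArg (fun L => L (eL α)) h1
    simp only [ContinuousLinearMap.comp_apply, zL_eL] at h2
    rw [zL_apply] at h2
    have h3 : xL (fderiv ℝ (ρ q) x (eL α)) = 0 := congrArg Prod.fst h2
    have h4 : yL (fderiv ℝ (ρ q) x (eL α)) = 0 := congrArg Prod.snd h2
    apply ext_split
    · rw [h3, xL_eL]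
    · rw [h4, yL_eL]
    · rw [wL_eL]
  -- the derivative of the flow in the fibres
  have hdat : ∀ (t : T) (x : Phase (n + 1)), ∃ (r : ℝ → Phase (n + 1))
      (B : ℝ → Phase n →L[ℝ] Phase n),
      (∀ s : Icc (0 : ℝ) 1, r s = ρ (t, s) x) ∧
      (∀ s : Icc (0 : ℝ) 1, B s = (wL.comp (fderiv ℝ (ρ (t, s)) x)).comp eL) ∧
      (∀ s : Icc (0 : ℝ) 1, HasDerivAt (fun s => wL (r s))
        (fieldT (c t) (τ t) s (pt (xL x) (yL x) (wL (r s)))) s) ∧
      (∀ s : Icc (0 : ℝ) 1, HasDerivAt B (((fderiv ℝ (Y (t, s)) (r s)).comp eL).comp (B s)) s) ∧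
      B 0 = ContinuousLinearMap.id ℝ (Phase n) := by
    intro t x
    obtain ⟨r, A, hr, hA, hrd, hAd, hr0, hA0⟩ := flow_ode hXCF hρ heq t x
    refine ⟨r, fun s => (wL.comp (A s)).comp eL, hr, ?_, ?_, ?_, ?_⟩
    · intro s
      beta_reduce
      rw [hA s]
    · intro s
      have hrpt : r s = pt (xL x) (yL x) (wL (r s)) := by
        rw [hr s]
        exact hpt (t, s) x
      have h2 := (wL : Phase (n + 1) →L[ℝ] Phase n).hasFDerivAt.comp_hasDerivAt (s : ℝ) (hrd s)
      have h3 : wL (X (t, s) (r s)) = fieldT (c t) (τ t) s (pt (xL x) (yL x) (wL (r s))) := by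
        rw [← hrpt]
        exact wL_eL _
      rw [h3] at h2
      exact h2
    · intro s
      have h2 : HasDerivAt (fun s => (wL.comp (A s)).comp eL)
          ((wL.comp ((fderiv ℝ (X (t, s)) (r s)).comp (A s))).comp
            (eL : Phase n →L[ℝ] Phase (n + 1))) (s : ℝ) := by
        have h3 := ((ContinuousLinearMap.compL ℝ (Phase (n + 1)) (Phase (n + 1)) (Phase n)
          wL).hasFDerivAt.comp_hasDerivAt (s : ℝ) (hAd s))
        have h4 := ((ContinuousLinearMap.compL ℝ (Phase n) (Phase (n + 1)) (Phase n)).flip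
          eL).hasFDerivAt.comp_hasDerivAt (s : ℝ) h3
        exact h4
      refine h2.congr_deriv ?_
      ext1 α
      have h5 : A s (eL α) = eL (wL (A s (eL α))) := by
        rw [hA s]
        exact hzd (t, s) x α
      simp only [ContinuousLinearMap.comp_apply]
      rw [h5]
      have h7 : fderiv ℝ (X (t, s)) (r s) = eL.comp (fderiv ℝ (Y (t, s)) (r s)) :=
        (eL.hasFDerivAt.comp (r s) (hYCF.differentiable (t, s) (r s)).hasFDerivAt).fderiv
      rw [h7, wL_eL]
      simp
    · ext1 α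
      simp only [hA0, ContinuousLinearMap.comp_apply, ContinuousLinearMap.id_apply, wL_eL]
  -- conservation in the fibres
  have hcons : ∀ (t : T) (s : Icc (0 : ℝ) 1) (x : Phase (n + 1)) (v w : Phase n),
      (1 - (s : ℝ)) * omegaStd (wL (fderiv ℝ (ρ (t, s)) x (eL v)))
        (wL (fderiv ℝ (ρ (t, s)) x (eL w))) +
      s * omegaStd (fibD (c t) (ρ (t, s) x) (wL (fderiv ℝ (ρ (t, s)) x (eL v))))
        (fibD (c t) (ρ (t, s) x) (wL (fderiv ℝ (ρ (t, s)) x (eL w)))) = omegaStd v w := by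
    intro t s x v w
    obtain ⟨r, B, hr, hB, hrd, hBd, hB0⟩ := hdat t x
    have hrpt : ∀ s : Icc (0 : ℝ) 1, r s = pt (xL x) (yL x) (wL (r s)) := by
      intro s
      rw [hr s]
      exact hpt (t, s) x
    have hYd : ∀ (s : Icc (0 : ℝ) 1) w, HasFDerivAt
        (fun w => fieldT (c t) (τ t) s (pt (xL x) (yL x) w))
        ((fderiv ℝ (Y (t, s)) (pt (xL x) (yL x) w)).comp eL) w := by
      intro s w
      exact (hYCF.differentiable (t, s) _).hasFDerivAt.comp w (hasFDerivAt_pt _ _ w)
    have hτd : ∀ w, HasFDerivAt (fun w => τ t (pt (xL x) (yL x) w))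
        ((fderiv ℝ (τ t) (pt (xL x) (yL x) w)).comp eL) w := fun w =>
      (hτ.differentiable t _).hasFDerivAt.comp w (hasFDerivAt_pt _ _ w)
    have h1 := moser2_conservation (Ψ := fib (c t) x) (contDiff_fib (hc.contDiff t) x)
      (μ := fun w => τ t (pt (xL x) (yL x) w)) (fun w => (hτd w).differentiableAt)
      (fun w a b => by
        rw [(hτd w).fderiv, fderiv_fib (hc.differentiable t)]
        exact hprim t _ a b)
      (X := fun s w => fieldT (c t) (τ t) s (pt (xL x) (yL x) w))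
      (fun s w => (hYd s w).differentiableAt)
      (fun s y w => by
        rw [fderiv_fib (hc.differentiable t)]
        exact fieldT_spec (hadm t _) s w)
      (r := fun s => wL (r s)) (A := B) hrd
      (fun s => by
        rw [(hYd s (wL (r s))).fderiv, ← hrpt s]
        exact hBd s)
      hB0 v w s
    simp only [hB s, ContinuousLinearMap.comp_apply] at h1
    rw [fderiv_fib (hc.differentiable t), ← hrpt s, hr s] at h1
    exact h1
  -- the new fibre maps
  set C' : T × Icc (0 : ℝ) 1 → Phase (n + 1) → Phase n := fun q p =>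
    (wL (ρ q p) - wL p) + c q.1 (ρ q p) with hC'
  have hC'CF : CF C' := ((hρ.clm wL).sub (CF.const wL.contDiff)).add
    ((hc.base continuous_fst).comp hρ)
  have hC'D : ∀ q p α, fibD (C' q) p α =
      fibD (c q.1) (ρ q p) (wL (fderiv ℝ (ρ q) p (eL α))) := by
    intro q p α
    have h1 : HasFDerivAt (C' q) ((wL.comp (fderiv ℝ (ρ q) p) - wL) +
        (fderiv ℝ (c q.1) (ρ q p)).comp (fderiv ℝ (ρ q) p)) p :=
      ((wL.hasFDerivAt.comp p (hρ.differentiable q p).hasFDerivAt).sub wL.hasFDerivAt).add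
        ((hc.differentiable q.1 _).hasFDerivAt.comp p (hρ.differentiable q p).hasFDerivAt)
    have h2 := hzd q p α
    rw [fibD, h1.fderiv, fibD]
    simp only [add_apply, ContinuousLinearMap.comp_apply, ContinuousLinearMap.id_apply,
      sub_apply, wL_eL]
    rw [← h2]
    abel
  have hC'E : ∀ t s p, fibD (C' (t, s)) p = (fibD (c t) (ρ (t, s) p)).comp
      ((wL.comp (fderiv ℝ (ρ (t, s)) p)).comp eL) := by
    intro t s p
    ext1 α
    rw [hC'D]
    rfl
  refine ⟨C', hC'CF, ?_, ?_, ?_, ?_, ?_, ?_⟩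
  · intro q p hp
    simp only [hC']
    rw [hfix p (hX0 p hp) q, (hc0 q.1 p hp).1, sub_self, add_zero]
  · intro t p
    have h1 : ρ (t, ⟨0, left_mem_Icc.2 zero_le_one⟩) p = p := by
      rw [heq]
      simp
    simp only [hC', h1, sub_self, zero_add]
  · rintro ⟨t, s⟩ p
    rw [hC'E]
    exact admissible_moser s.2 (hadm t _) (fun v w => hcons t s p v w)
  · intro t p α β
    rw [hC'D, hC'D]
    have h1 := hcons t ⟨1, right_mem_Icc.2 zero_le_one⟩ p α β
    simp only [sub_self, zero_mul, one_mul, zero_add] at h1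
    exact h1
  · intro t ht s p
    have h1 : ρ (t, s) p = p := by
      rw [heq]
      have h2 : ∀ (s : Icc (0 : ℝ) 1) y, X (t, s) y = 0 := by
        intro s y
        simp only [hX, hY]
        rw [fieldT_eq_zero (ht y).2, map_zero]
      simp [h2]
    simp only [hC', h1, (ht p).1, sub_self, add_zero]
  · intro t s p
    refine ⟨ρ (t, s) p, ?_⟩
    obtain ⟨r, B, hr, hB, hrd, hBd, hB0⟩ := hdat t p
    have hκ0 : 0 ≤ κ := (norm_nonneg _).trans (hκ t s p)
    have h1 := moser2_gronwall (F := fun s => if h : s ∈ Icc (0 : ℝ) 1 then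
        (fderiv ℝ (Y (t, ⟨s, h⟩)) (r s)).comp eL else 0) (A := B) hκ0
      (fun s hs => by
        beta_reduce
        rw [dif_pos hs]
        exact hκ t ⟨s, hs⟩ (r s))
      (fun s hs => by
        beta_reduce
        rw [dif_pos hs]
        exact hBd ⟨s, hs⟩) hB0 s s.2
    rw [hC'E, ← hB s]
    have h2 : (fibD (c t) (ρ (t, s) p)).comp (B s) - fibD (c t) (ρ (t, s) p) =
        (fibD (c t) (ρ (t, s) p)).comp (B s - ContinuousLinearMap.id ℝ (Phase n)) := by
      ext1 α
      simp
    rw [h2]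
    exact (ContinuousLinearMap.opNorm_comp_le _ _).trans
      (mul_le_mul_of_nonneg_left h1 (norm_nonneg _))

end Pool.Agent.H42.Hull
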