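import Mathlib
import Pool.Agent.H42.Hull.Defs2

/-!
# HULL2-E: realisation and suspension with a C¹ estimate
-/

set_option maxSynthPendingDepth 3

open scoped ContDiff Topology unitInterval
open Set Function TopologicalSpace Filter MeasureTheory

namespace Pool.Agent.H42.Hull

open Pool.Agent.Helper17 Pool.Agent.Helper42 Pool.Agent.H50.Susp

lemma oneS_sub {n : ℕ} (A B : Phase n →L[ℝ] Phase n) :
    oneS A - oneS B = (eL : Phase n →L[ℝ] Phase (n + 1)).comp ((A - B).comp wL) := by
  ext1 u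
  rw [oneS, oneS]
  simp only [sub_apply, add_apply, ContinuousLinearMap.comp_apply,
    ContinuousLinearMap.id_apply, map_sub]
  abel

lemma norm_oneS_sub_le {n : ℕ} (A B : Phase n →L[ℝ] Phase n) :
    ‖oneS A - oneS B‖ ≤ ‖A - B‖ := by
  rw [oneS_sub]
  refine ContinuousLinearMap.opNorm_le_bound _ (norm_nonneg _) fun u => ?_
  rw [ContinuousLinearMap.comp_apply, ContinuousLinearMap.comp_apply, norm_eL]
  exact ((A - B).le_opNorm _).trans (mul_le_mul_of_nonneg_left (Helper42.norm_wL_le u) (norm_nonneg _))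

/-- The derivative at a point of a family with values in `ℝ^0`. -/
lemma oneS_zero_eq (A : Phase 0 →L[ℝ] Phase 0) :
    oneS A = ContinuousLinearMap.id ℝ (Phase (0 + 1)) := by
  have h : A - ContinuousLinearMap.id ℝ _ = 0 := by
    ext1 u
    exact Subsingleton.elim _ _
  rw [oneS, h, ContinuousLinearMap.zero_comp, ContinuousLinearMap.comp_zero, add_zero]

theorem realise2 (hd : St_data) (hm : St_moser2) (hr : St_red2) : St_realise2 := by
  intro n T _ _ T₀ h hh ε' hε'
  rcases Nat.eq_zero_or_pos n with rfl | hn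
  · refine ⟨1, ContinuousMap.const _ 1, h, fun t ht => rfl, fun t p => ?_, ⟨one_pos, fun t p _ => rfl,
      fun t z p _ _ => Subsingleton.elim _ _⟩, ContinuousMap.HomotopicRel.refl _,
      fun t p => ⟨(t, (0, 0)), 0, ?_⟩⟩
    · have h1 : fderiv ℝ ((ContinuousMap.const T (1 : SympCt 1) t : SympCt 1) :
          Equiv.Perm (Phase 1)) p = ContinuousLinearMap.id ℝ _ := fderiv_id
      have h2 : xL (fderiv ℝ ((ContinuousMap.const T (1 : SympCt 1) t : SympCt 1) :
          Equiv.Perm (Phase 1)) p (ex : Phase (0 + 1))) = 1 := by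
        rw [h1]
        exact xL_ex
      exact h2 ▸ one_pos
    · have h1 : fderiv ℝ ((ContinuousMap.const T (1 : SympCt 1) t : SympCt 1) :
          Equiv.Perm (Phase 1)) p = ContinuousLinearMap.id ℝ _ := fderiv_id
      have h2 : fderiv ℝ ((ContinuousMap.const T (1 : SympCt 1) t : SympCt 1) :
          Equiv.Perm (Phase 1)) p -
          oneS (fderiv ℝ (h (t, (0, 0)) : Equiv.Perm (Phase 0)) 0) = 0 := by
        rw [oneS_zero_eq, h1]
        exact sub_self _
      refine le_of_eq_of_le ?_ hε'.le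
      rw [← norm_zero (E := Phase (0 + 1) →L[ℝ] Phase (0 + 1))]
      exact congrArg norm h2
  obtain ⟨hH, KW, hKW⟩ := CF_of_continuous
    (f := fun q : T × (unitInterval × unitInterval) => h q) h.continuous
  obtain ⟨M, hM0, hM⟩ := exists_bound_fderiv
    (F := fun (q : T × (unitInterval × unitInterval)) w => (h q : Equiv.Perm (Phase n)) w - w)
    (hH.sub (CF.const contDiff_id)) KW.isCompact
    (fun q w hw => by beta_reduce; rw [hKW q w hw, sub_self])
  set η : T × (ℝ × ℝ) → Phase n → Phase n := fun q w =>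
    (h (q.1, sq 1 q.2) : Equiv.Perm (Phase n)) w - w with hη
  have hcont : Continuous (fun q : T × (ℝ × ℝ) => (q.1, sq 1 q.2)) :=
    continuous_fst.prodMk ((continuous_sq 1).comp continuous_snd)
  have hηCF : CF η := (hH.base hcont).sub (CF.const contDiff_id)
  have hηK : ∀ q, ∀ w ∉ (KW : Set (Phase n)), η q w = 0 := by
    intro q w hw
    simp only [hη, hKW _ w hw, sub_self]
  have hηR : ∀ (t : T) (z : ℝ × ℝ), 1 < ‖z‖ → ∀ w, η (t, z) w = 0 := by
    intro t z hz w
    have h1 : h (t, sq 1 z) = 1 := hh _ (Or.inr (sq_mem' hz.le))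
    simp only [hη, h1]
    exact sub_self w
  have hηT : ∀ t ∈ T₀, ∀ z w, η (t, z) w = 0 := by
    intro t ht z w
    have h1 : h (t, sq 1 z) = 1 := hh _ (Or.inl ht)
    simp only [hη, h1]
    exact sub_self w
  have hηD : ∀ q w, fderiv ℝ (η q) w =
      fderiv ℝ (h (q.1, sq 1 q.2) : Equiv.Perm (Phase n)) w - ContinuousLinearMap.id ℝ _ := by
    intro q w
    have h1 : HasFDerivAt (η q) (fderiv ℝ (h (q.1, sq 1 q.2) : Equiv.Perm (Phase n)) w -
        ContinuousLinearMap.id ℝ _) w :=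
      (SympCt.differentiable _ w).hasFDerivAt.sub (hasFDerivAt_id w)
    exact h1.fderiv
  have hηd : ∀ q w α, fderiv ℝ (η q) w α =
      fderiv ℝ (h (q.1, sq 1 q.2) : Equiv.Perm (Phase n)) w α - α := by
    intro q w α
    rw [hηD]
    rfl
  have hηs : ∀ q w α β, omegaStd (α + fderiv ℝ (η q) w α) (β + fderiv ℝ (η q) w β) =
      omegaStd α β := by
    intro q w α β
    rw [hηd, hηd, add_sub_cancel, add_sub_cancel]
    exact (h (q.1, sq 1 q.2)).2.2.2.1 w α β
  have hηM : ∀ q w, ‖fderiv ℝ (η q) w‖ ≤ M := fun q w => hM _ w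
  set ε : ℝ := 1 / (8 * (1 + M)) with hε
  have hεpos : 0 < ε := by positivity
  set κ : ℝ := min ε (min 1 (ε' / (2 * (5 + 2 * M)))) with hκ
  have hκpos : 0 < κ := lt_min hεpos (lt_min one_pos (by positivity))
  have hκε : κ ≤ ε := min_le_left _ _
  have hκ1 : κ ≤ 1 := (min_le_right _ _).trans (min_le_left _ _)
  have hκ2 : κ ≤ ε' / (2 * (5 + 2 * M)) := (min_le_right _ _).trans (min_le_right _ _)
  obtain ⟨c, τ, K, hc, hτ, hK, hcτ0, hcκ, hadm, hprim, hfield, hcTτ⟩ :=
    hd n T η 1 KW hηCF zero_le_one KW.isCompact hηK hηR hηs κ hκpos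
  have hc0 : ∀ t, ∀ p ∉ K, c t p = 0 := fun t p hp => (hcτ0 t p hp).1
  have hcε : ∀ t p, ‖(fderiv ℝ (c t) p).comp eL - fderiv ℝ (η (t, zL p)) (wL p)‖ ≤ ε :=
    fun t p => (hcκ t p).trans hκε
  have hcTτ' : ∀ t ∈ T₀, ∀ p, c t p = 0 ∧ τ t p = 0 :=
    fun t ht p => hcTτ t (fun z w => hηT t ht z w) p
  have hcT' : ∀ t ∈ T₀, ∀ p, c t p = 0 := fun t ht p => (hcTτ' t ht p).1
  obtain ⟨C, hC, hCK, hC0, hCadm, hC1, hCT, hCest⟩ :=
    hm n T c τ K κ hc hτ hK hcτ0 hadm hprim hfield
  obtain ⟨R₁, hR₁⟩ := hK.isBounded.subset_closedBall (0 : Phase (n + 1))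
  set R₀ : ℝ := max R₁ 1 with hR₀
  have hout : ∀ p : Phase (n + 1), R₀ < ‖p‖ → p ∉ K := by
    intro p hp hpK
    have h1 : ‖p‖ ≤ R₁ := by simpa using hR₁ hpK
    linarith [le_max_left R₁ 1]
  have hR0 : 0 < R₀ := lt_of_lt_of_le one_pos (le_max_right _ _)
  set o : Icc (0 : ℝ) 1 := ⟨1, right_mem_Icc.2 zero_le_one⟩ with ho
  obtain ⟨L, R, f, h', hL, hf1, hfpos, hred, hh', hest⟩ := hr n hn T T₀
    (fun t => C (t, o)) (hC.base (continuous_id.prodMk continuous_const)) R₀
    (le_max_right _ _) (fun t p hp => hCK _ p (hout p hp)) hC1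
    (fun t ht p => hCT t (hcTτ' t ht) o p) (ε' / 2) (by positivity)
  have hL0 : 0 ≤ L := by linarith
  refine ⟨R, f, h', hf1, hfpos, hred, ?_, ?_⟩
  · -- the intermediate family
    have hLc : Continuous (fun q : T × (unitInterval × unitInterval) =>
        (q.1, sq 1 (L • ctr q.2))) :=
      continuous_fst.prodMk ((continuous_sq 1).comp
        ((continuous_ctr.comp continuous_snd).const_smul L))
    set hLm : C(T × (unitInterval × unitInterval), SympCt n) :=
      ⟨fun q => h (q.1, sq 1 (L • ctr q.2)), h.continuous.comp hLc⟩ with hhL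
    have hLη : ∀ q w, (hLm q : Equiv.Perm (Phase n)) w = w + η (q.1, L • ctr q.2) w := by
      intro q w
      simp only [hη, hhL]
      rw [add_sub_cancel]
      rfl
    have hbdc : ∀ q : T × (unitInterval × unitInterval), q.2 ∈ sqBd → ∀ w : Phase n,
        R₀ < ‖ptq L q w‖ := fun q hq w => hL.trans_le (le_norm_ptq_of_bd hL0 hq w)
    have hbdη : ∀ q : T × (unitInterval × unitInterval), q.2 ∈ sqBd → ∀ w : Phase n,
        η (q.1, L • ctr q.2) w = 0 := by
      intro q hq w
      apply hηR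
      rw [norm_smul, Real.norm_eq_abs, abs_of_nonneg hL0]
      have h1 : 1 < L := lt_of_le_of_lt (le_max_right _ _) hL
      nlinarith [norm_ctr hq]
    -- from `c` to the reduction
    have A1 : AdmHom {q : T × (unitInterval × unitInterval) | q.1 ∈ T₀ ∨ q.2 ∈ sqBd}
        (fun q (w : Phase n) => w + c q.1 (ptq L q w))
        (fun q w => (h' q : Equiv.Perm (Phase n)) w) := by
      refine ⟨fun r w => w + C (r.1.1, r.2) (ptq L r.1 w), ?_, ⟨Metric.closedBall 0 R₀,
        isCompact_closedBall _ _, ?_⟩, ?_, ?_, ?_, ?_⟩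
      · exact CF.add (CF.const contDiff_id) ((hC.base ((continuous_fst.comp
          continuous_fst).prodMk continuous_snd)).comp ((CF_ptq L).base continuous_fst))
      · intro r w hw
        rw [mem_closedBall_zero_iff, not_le] at hw
        beta_reduce
        rw [hCK _ _ (hout _ (hw.trans_le (norm_le_norm_ptq L r.1 w))), add_zero]
      · intro r w
        beta_reduce
        rw [fderiv_add_ptq (hC.differentiable (r.1.1, r.2))]
        exact hCadm _ _
      · intro q w
        beta_reduce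
        rw [hC0]
      · intro q w
        exact (hh' q w).symm
      · intro q hq s w
        beta_reduce
        rcases hq with h1 | h1
        · rw [hCT q.1 (hcTτ' q.1 h1), add_zero]
        · rw [hCK _ _ (hout _ (hbdc q h1 w)), add_zero]
    -- from `c` to the rescaled original family
    have A2 : AdmHom {q : T × (unitInterval × unitInterval) | q.1 ∈ T₀ ∨ q.2 ∈ sqBd}
        (fun q (w : Phase n) => w + c q.1 (ptq L q w))
        (fun q w => (hLm q : Equiv.Perm (Phase n)) w) := by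
      have hcCF : CF (fun (r : (T × (unitInterval × unitInterval)) × Icc (0 : ℝ) 1)
          (w : Phase n) => c r.1.1 (ptq L r.1 w)) :=
        (hc.base (h := fun r : (T × (unitInterval × unitInterval)) × Icc (0 : ℝ) 1 => r.1.1)
          (continuous_fst.comp continuous_fst)).comp ((CF_ptq L).base continuous_fst)
      have hηCF' : CF (fun (r : (T × (unitInterval × unitInterval)) × Icc (0 : ℝ) 1)
          (w : Phase n) => η (r.1.1, L • ctr r.1.2) w) :=
        hηCF.base (h := fun r : (T × (unitInterval × unitInterval)) × Icc (0 : ℝ) 1 =>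
          (r.1.1, L • ctr r.1.2)) ((continuous_fst.comp continuous_fst).prodMk
          ((continuous_ctr.comp (continuous_snd.comp continuous_fst)).const_smul L))
      refine ⟨fun r w => w + ((1 - (r.2 : ℝ)) • c r.1.1 (ptq L r.1 w) +
        (r.2 : ℝ) • η (r.1.1, L • ctr r.1.2) w), ?_, ⟨Metric.closedBall 0 R₀ ∪ KW,
        (isCompact_closedBall _ _).union KW.isCompact, ?_⟩, ?_, ?_, ?_, ?_⟩
      · exact CF.add (CF.const contDiff_id) (((CF.param (continuous_const.sub
          (continuous_subtype_val.comp continuous_snd))).smul hcCF).add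
          ((CF.param (continuous_subtype_val.comp continuous_snd)).smul hηCF'))
      · intro r w hw
        have hw1 : w ∉ Metric.closedBall (0 : Phase n) R₀ := fun h => hw (Or.inl h)
        rw [mem_closedBall_zero_iff, not_le] at hw1
        beta_reduce
        rw [hc0 _ _ (hout _ (hw1.trans_le (norm_le_norm_ptq L r.1 w))),
          hηK _ w (fun h => hw (Or.inr h))]
        simp
      · intro r w
        have h5 : HasFDerivAt (fun w => c r.1.1 (ptq L r.1 w))
            ((fderiv ℝ (c r.1.1) (ptq L r.1 w)).comp eL) w :=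
          (hc.differentiable r.1.1 (ptq L r.1 w)).hasFDerivAt.comp w (hasFDerivAt_ptq L r.1 w)
        have h6 : HasFDerivAt (fun w => (1 - (r.2 : ℝ)) • c r.1.1 (ptq L r.1 w))
            ((1 - (r.2 : ℝ)) • ((fderiv ℝ (c r.1.1) (ptq L r.1 w)).comp eL)) w :=
          h5.const_smul (1 - (r.2 : ℝ))
        have h7 : HasFDerivAt (fun w => (r.2 : ℝ) • η (r.1.1, L • ctr r.1.2) w)
            ((r.2 : ℝ) • fderiv ℝ (η (r.1.1, L • ctr r.1.2)) w) w :=
          (hηCF.differentiable (r.1.1, L • ctr r.1.2) w).hasFDerivAt.const_smul (r.2 : ℝ)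
        have h1 : HasFDerivAt (fun w => w + ((1 - (r.2 : ℝ)) • c r.1.1 (ptq L r.1 w) +
            (r.2 : ℝ) • η (r.1.1, L • ctr r.1.2) w))
            (ContinuousLinearMap.id ℝ _ + ((1 - (r.2 : ℝ)) •
              ((fderiv ℝ (c r.1.1) (ptq L r.1 w)).comp eL) +
              (r.2 : ℝ) • fderiv ℝ (η (r.1.1, L • ctr r.1.2)) w)) w :=
          (hasFDerivAt_id w).add (h6.add h7)
        beta_reduce
        rw [h1.fderiv]
        apply admissible_of_norm_sub hM0 hε (hηs (r.1.1, L • ctr r.1.2) w) (hηM _ _)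
        have h2 := hcε r.1.1 (ptq L r.1 w)
        rw [zL_ptq, wL_ptq] at h2
        have h3 : (1 - (r.2 : ℝ)) • ((fderiv ℝ (c r.1.1) (ptq L r.1 w)).comp eL) +
            (r.2 : ℝ) • fderiv ℝ (η (r.1.1, L • ctr r.1.2)) w -
            fderiv ℝ (η (r.1.1, L • ctr r.1.2)) w =
            (1 - (r.2 : ℝ)) • ((fderiv ℝ (c r.1.1) (ptq L r.1 w)).comp eL -
              fderiv ℝ (η (r.1.1, L • ctr r.1.2)) w) := by
          module
        rw [h3, norm_smul, Real.norm_eq_abs, abs_of_nonneg (by linarith [r.2.2.2])]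
        calc (1 - (r.2 : ℝ)) * ‖(fderiv ℝ (c r.1.1) (ptq L r.1 w)).comp eL -
              fderiv ℝ (η (r.1.1, L • ctr r.1.2)) w‖ ≤ 1 * ε :=
              mul_le_mul (by linarith [r.2.2.1]) h2 (norm_nonneg _) zero_le_one
          _ = ε := one_mul _
      · intro q w
        beta_reduce
        simp
      · intro q w
        beta_reduce
        rw [hLη]
        simp
      · intro q hq s w
        beta_reduce
        rcases hq with h1 | h1
        · rw [hcT' q.1 h1, hηT q.1 h1]
          simp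
        · rw [hc0 _ _ (hout _ (hbdc q h1 w)), hbdη q h1 w]
          simp
    have B1 : h'.HomotopicRel hLm {q | q.1 ∈ T₀ ∨ q.2 ∈ sqBd} :=
      homotopicRel_of_admHom (A1.symm.trans A2)
    have B2 : hLm.HomotopicRel h {q | q.1 ∈ T₀ ∨ q.2 ∈ sqBd} :=
      homotopicRel_rescale h hh (hL.le.trans' (le_max_right _ _)) hLm (fun q => rfl)
    exact (B1.trans B2).symm
  · intro t p
    obtain ⟨p₁, h1⟩ := hest t p
    obtain ⟨p₂, h2⟩ := hCest t o p₁
    have h3 := hcκ t p₂
    refine ⟨(t, sq 1 (zL p₂)), wL p₂, ?_⟩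
    have e1 : fibD (c t) p₂ - fderiv ℝ (h (t, sq 1 (zL p₂)) : Equiv.Perm (Phase n)) (wL p₂) =
        (fderiv ℝ (c t) p₂).comp eL - fderiv ℝ (η (t, zL p₂)) (wL p₂) := by
      rw [hηD, fibD]
      abel
    have e2 : ‖fibD (c t) p₂ -
        fderiv ℝ (h (t, sq 1 (zL p₂)) : Equiv.Perm (Phase n)) (wL p₂)‖ ≤ κ := by
      rw [e1]
      exact h3
    have e3 : ‖fibD (c t) p₂‖ ≤ 1 + M + κ := by
      have e4 : fibD (c t) p₂ = ContinuousLinearMap.id ℝ _ + fderiv ℝ (η (t, zL p₂)) (wL p₂) +
          ((fderiv ℝ (c t) p₂).comp eL - fderiv ℝ (η (t, zL p₂)) (wL p₂)) := by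
        rw [fibD]
        abel
      rw [e4]
      refine (norm_add_le _ _).trans (add_le_add ((norm_add_le _ _).trans
        (add_le_add ContinuousLinearMap.norm_id_le (hηM _ _))) h3)
    have e5 : Real.exp κ - 1 ≤ 2 * κ := by
      have := Real.abs_exp_sub_one_le (x := κ) (by rw [abs_of_pos hκpos]; exact hκ1)
      rw [abs_of_pos hκpos] at this
      exact (le_abs_self _).trans this
    have e6 : 0 ≤ Real.exp κ - 1 := by
      have := Real.add_one_le_exp κ
      linarith
    have e7 : ‖fibD (C (t, o)) p₁ - fibD (c t) p₂‖ ≤ (2 + M) * (2 * κ) :=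
      h2.trans (mul_le_mul (e3.trans (by linarith)) e5 e6 (by linarith))
    have e8 : κ * (2 * (5 + 2 * M)) ≤ ε' := by
      rwa [le_div_iff₀ (by positivity)] at hκ2
    calc ‖fderiv ℝ (f t : Equiv.Perm (Phase (n + 1))) p -
          oneS (fderiv ℝ (h (t, sq 1 (zL p₂)) : Equiv.Perm (Phase n)) (wL p₂))‖
        = ‖(fderiv ℝ (f t : Equiv.Perm (Phase (n + 1))) p - oneS (fibD (C (t, o)) p₁)) +
            (oneS (fibD (C (t, o)) p₁) - oneS (fibD (c t) p₂)) +
            (oneS (fibD (c t) p₂) -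
              oneS (fderiv ℝ (h (t, sq 1 (zL p₂)) : Equiv.Perm (Phase n)) (wL p₂)))‖ := by
          congr 1
          abel
      _ ≤ ε' / 2 + (2 + M) * (2 * κ) + κ := by
          refine (norm_add_le _ _).trans (add_le_add ((norm_add_le _ _).trans
            (add_le_add h1 ?_)) ?_)
          · exact (norm_oneS_sub_le _ _).trans e7
          · exact (norm_oneS_sub_le _ _).trans e2
      _ ≤ ε' := by nlinarith

theorem susp2 (h : St_realise2) : St_susp2 := by
  intro n k g₀ ε hε
  let g₁ : GenLoop (Fin (k + 2)) (SympCt n) 1 := g₀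
  obtain ⟨R, f, h₁, hf, hpos, hr, hh, hest⟩ := h n (Fin k → unitInterval)
    (Cube.boundary (Fin k)) (unloop2 g₁) (unloop2_bd g₁) ε hε
  have hbd : ∀ q ∈ bd2 k, h₁ q = 1 := by
    rintro ⟨t, z⟩ (ht | hz)
    · exact hr.eq_one_of_eq_one (hf t ht) z
    · exact hr.eq_one_of_bd t hz
  refine ⟨loop2 h₁ hbd, (⟨f, hf⟩ : GenLoop (Fin k) (SympCt (n + 1)) 1), ?_,
    ⟨fun t p => ?_, R, hr.pos, hr.supp, fun t a b p hx hy => ?_⟩, fun t p => ?_⟩
  · change hmk (loop2 h₁ hbd) = hmk g₁
    have h1 : hmk (loop2 h₁ hbd) = hmk (loop2 (unloop2 g₁) (unloop2_bd g₁)) :=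
      (hmk_loop2_eq_iff hbd (unloop2_bd g₁)).2 hh.symm
    rw [h1, loop2_unloop2]
  · exact pos_conv _ _ (hpos t p)
  · have h1 := hr.red t (a, b) p hx hy
    have h2 : (loop2 h₁ hbd : GenLoop (Fin (k + 2)) (SympCt n) 1)
        (Fin.snoc (α := fun _ => unitInterval) (Fin.snoc (α := fun _ => unitInterval) t b) a) =
        h₁ (t, (a, b)) := by
      change h₁ (fromCube2s (toCube2s (t, (a, b)))) = _
      rw [fromCube2s_toCube2s]
    refine h1.trans ?_
    exact congrArg (fun ψ : SympCt n => (ψ : Equiv.Perm (Phase n)) (wL p)) h2.symm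
  · obtain ⟨q, w, hq⟩ := hest t p
    exact ⟨toCube2s q, w, hq⟩

end Pool.Agent.H42.Hull
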