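import Mathlib
import Pool.Agent.H42.Hull.Defs2

/-!
# HULL2-D: the reduction with a C¹ estimate
-/

set_option maxSynthPendingDepth 3

open scoped ContDiff Topology unitInterval
open Set Function TopologicalSpace Filter MeasureTheory

namespace Pool.Agent.H42.Hull

open Pool.Agent.Helper17 Pool.Agent.Helper42

/-- The linear algebra estimate behind `red2`. -/
lemma red2_estimate {n : ℕ} {l Ma Mb Mc ε : ℝ} (hl0 : 0 < l) (hlMa : l * Ma ≤ 1 / 2)
    (hle : 2 * (l * (Ma + Mb + 2 * Mc)) ≤ ε) (hl1 : l ≤ 1)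
    {A B : Phase (n + 1) →L[ℝ] ℝ} {C : Phase (n + 1) →L[ℝ] Phase n} (hA : ‖A‖ ≤ Ma)
    (hB : ‖B‖ ≤ Mb) (hC : ‖C‖ ≤ Mc) {F : Phase (n + 1) →L[ℝ] Phase (n + 1)}
    (hF : ∀ u, F (u + (l * A (Dl l u)) • ex) = u + (l * B (Dl l u)) • ey + eL (C (Dl l u))) :
    ‖F - oneS (ContinuousLinearMap.id ℝ _ + C.comp eL)‖ ≤ ε := by
  have hMa0 : 0 ≤ Ma := (norm_nonneg _).trans hA
  have hMb0 : 0 ≤ Mb := (norm_nonneg _).trans hB
  have hMc0 : 0 ≤ Mc := (norm_nonneg _).trans hC
  have hε0 : 0 ≤ ε := le_trans (by positivity) hle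
  set D : Phase (n + 1) →L[ℝ] Phase (n + 1) :=
    ContinuousLinearMap.id ℝ _ + (l • A.comp (Dl l)).smulRight ex with hD
  have hDa : ∀ u, D u = u + (l * A (Dl l u)) • ex := by
    intro u
    simp [hD]
  have hnA : ∀ u, ‖A (Dl l u)‖ ≤ Ma * ‖u‖ := fun u =>
    (A.le_opNorm _).trans (mul_le_mul hA (norm_Dl_le hl0.le hl1 u) (norm_nonneg _) hMa0)
  have hnB : ∀ u, ‖B (Dl l u)‖ ≤ Mb * ‖u‖ := fun u =>
    (B.le_opNorm _).trans (mul_le_mul hB (norm_Dl_le hl0.le hl1 u) (norm_nonneg _) hMb0)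
  have hDn : ∀ u, ‖u‖ ≤ 2 * ‖D u‖ := by
    intro u
    have h1 : u = D u - (l * A (Dl l u)) • ex := by rw [hDa]; abel
    have h2 : ‖(l * A (Dl l u)) • (ex : Phase (n + 1))‖ ≤ 1 / 2 * ‖u‖ := by
      rw [norm_smul, norm_ex, mul_one, norm_mul, Real.norm_eq_abs l, abs_of_pos hl0]
      calc l * ‖A (Dl l u)‖ ≤ l * (Ma * ‖u‖) := mul_le_mul_of_nonneg_left (hnA u) hl0.le
        _ = (l * Ma) * ‖u‖ := by ring
        _ ≤ 1 / 2 * ‖u‖ := mul_le_mul_of_nonneg_right hlMa (norm_nonneg _)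
    have h3 : ‖u‖ ≤ ‖D u‖ + ‖(l * A (Dl l u)) • (ex : Phase (n + 1))‖ := by
      conv_lhs => rw [h1]
      exact norm_sub_le _ _
    linarith
  have hinj : Injective D := by
    rw [injective_iff_map_eq_zero]
    intro u hu
    have h1 := hDn u
    rw [hu, norm_zero, mul_zero] at h1
    exact norm_le_zero_iff.1 h1
  have hsurj : Surjective D :=
    LinearMap.surjective_of_injective (f := (D : Phase (n + 1) →ₗ[ℝ] Phase (n + 1))) hinj
  refine ContinuousLinearMap.opNorm_le_bound _ hε0 fun v => ?_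
  obtain ⟨u, rfl⟩ := hsurj v
  have e1 : wL (D u) = wL u := by
    rw [hDa, map_add, map_smul, wL_ex, smul_zero, add_zero]
  have e2 : (F - oneS (ContinuousLinearMap.id ℝ (Phase n) + C.comp eL)) (D u) =
      (l * B (Dl l u)) • ey - (l * A (Dl l u)) • ex + l • eL (C (u - eL (wL u))) := by
    rw [sub_apply]
    conv_lhs =>
      arg 1
      rw [hDa, hF]
    have e3 : oneS (ContinuousLinearMap.id ℝ (Phase n) + C.comp eL) (D u) =
        D u + eL (C (eL (wL u))) := by
      rw [oneS]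
      simp only [add_sub_cancel_left, add_apply, ContinuousLinearMap.comp_apply,
        ContinuousLinearMap.id_apply, e1]
    have e4 : C (Dl l u) = l • C (u - eL (wL u)) + C (eL (wL u)) := by
      have e5 : Dl l u = l • (u - eL (wL u)) + eL (wL u) := by
        rw [Dl_apply]
        module
      rw [e5, map_add, map_smul]
    rw [e3, e4, hDa, map_add, map_smul]
    abel
  rw [e2]
  have n1 : ‖(l * B (Dl l u)) • (ey : Phase (n + 1))‖ ≤ l * (Mb * ‖u‖) := by
    rw [norm_smul, norm_ey, mul_one, norm_mul, Real.norm_eq_abs l, abs_of_pos hl0]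
    exact mul_le_mul_of_nonneg_left (hnB u) hl0.le
  have n2 : ‖(l * A (Dl l u)) • (ex : Phase (n + 1))‖ ≤ l * (Ma * ‖u‖) := by
    rw [norm_smul, norm_ex, mul_one, norm_mul, Real.norm_eq_abs l, abs_of_pos hl0]
    exact mul_le_mul_of_nonneg_left (hnA u) hl0.le
  have n3 : ‖l • eL (C (u - eL (wL u)))‖ ≤ l * (Mc * (2 * ‖u‖)) := by
    rw [norm_smul, Real.norm_eq_abs l, abs_of_pos hl0, norm_eL]
    have h1 : ‖u - eL (wL u)‖ ≤ 2 * ‖u‖ := by
      refine (norm_sub_le _ _).trans ?_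
      rw [norm_eL]
      linarith [norm_wL_le u]
    exact mul_le_mul_of_nonneg_left ((C.le_opNorm _).trans
      (mul_le_mul hC h1 (norm_nonneg _) hMc0)) hl0.le
  calc ‖(l * B (Dl l u)) • ey - (l * A (Dl l u)) • ex + l • eL (C (u - eL (wL u)))‖
      ≤ ‖(l * B (Dl l u)) • (ey : Phase (n + 1))‖ + ‖(l * A (Dl l u)) • (ex : Phase (n + 1))‖ +
        ‖l • eL (C (u - eL (wL u)))‖ :=
        (norm_add_le _ _).trans (by gcongr; exact norm_sub_le _ _)
    _ ≤ l * (Mb * ‖u‖) + l * (Ma * ‖u‖) + l * (Mc * (2 * ‖u‖)) := by linarith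
    _ = (l * (Ma + Mb + 2 * Mc)) * ‖u‖ := by ring
    _ ≤ (l * (Ma + Mb + 2 * Mc)) * (2 * ‖D u‖) :=
        mul_le_mul_of_nonneg_left (hDn u) (by positivity)
    _ = 2 * (l * (Ma + Mb + 2 * Mc)) * ‖D u‖ := by ring
    _ ≤ ε * ‖D u‖ := mul_le_mul_of_nonneg_right hle (norm_nonneg _)

theorem red2 : St_red2 := by
  intro n hn T _ _ T₀ c hc R₀ hR₀ hc0 hs hT ε hε
  have hR0 : 0 < R₀ := by linarith
  obtain ⟨a, b, ha, hb, ha0, hb0, heq, hab⟩ := exists_ab hn hc hR0.le hc0 hs
  obtain ⟨Ma, hMa0, hMa⟩ := exists_bound_fderiv ha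
    (isCompact_closedBall (0 : Phase (n + 1)) (3 * R₀)) (fun t p hp => ha0 t p (by
      rw [mem_closedBall_zero_iff, not_le] at hp
      exact hp))
  obtain ⟨Mb, hMb0, hMb⟩ := exists_bound_fderiv hb
    (isCompact_closedBall (0 : Phase (n + 1)) (3 * R₀)) (fun t p hp => hb0 t p (by
      rw [mem_closedBall_zero_iff, not_le] at hp
      exact hp))
  obtain ⟨Mc, hMc0, hMc⟩ := exists_bound_fderiv hc
    (isCompact_closedBall (0 : Phase (n + 1)) R₀) (fun t p hp => hc0 t p (by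
      rw [mem_closedBall_zero_iff, not_le] at hp
      exact hp))
  set l : ℝ := min (1 / (2 * (1 + Ma))) (ε / (4 * (1 + Ma + Mb + Mc))) with hl
  have hl0 : 0 < l := lt_min (by positivity) (by positivity)
  have hla : l ≤ 1 / (2 * (1 + Ma)) := min_le_left _ _
  have hlb : l ≤ ε / (4 * (1 + Ma + Mb + Mc)) := min_le_right _ _
  rw [le_div_iff₀ (by positivity)] at hla hlb
  have hl1 : l ≤ 1 := by nlinarith
  have hlMa : l * Ma ≤ 1 / 2 := by nlinarith
  have hlM : l * Ma < 1 := by linarith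
  have hle : 2 * (l * (Ma + Mb + 2 * Mc)) ≤ ε := by nlinarith
  have hmix := mixed_scaled ha hb hc ha0 hb0 (fun t p hp => hc0 t p (by linarith)) heq hl0 hl1
    hMa hlM
  obtain ⟨f, hf, hfs, hfpos, hfK, hf1⟩ := exists_symp_of_mixed (isCompact_closedBall _ _) hmix
  set R : ℝ := 3 * R₀ / l + 1 with hR
  set L : ℝ := l * R with hL
  have hLeq : L = 3 * R₀ + l := by
    rw [hL, hR]
    field_simp
  have hRpos : 0 < R := by positivity
  -- the reduction
  set ψ : T × (unitInterval × unitInterval) → Phase n → Phase n := fun q w =>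
    w + c q.1 (ptq L q w) with hψ
  have hψCF : CF ψ := CF.add (CF.const contDiff_id) ((hc.base continuous_fst).comp (CF_ptq L))
  have hψK : ∀ q, ∀ w ∉ Metric.closedBall (0 : Phase n) R₀, ψ q w = w := by
    intro q w hw
    rw [mem_closedBall_zero_iff, not_le] at hw
    simp only [hψ]
    rw [hc0 _ _ (hw.trans_le (norm_le_norm_ptq L q w)), add_zero]
  have hψs : ∀ q w u v, omegaStd (fderiv ℝ (ψ q) w u) (fderiv ℝ (ψ q) w v) = omegaStd u v := by
    intro q w u v
    rw [hψ]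
    beta_reduce
    rw [fderiv_add_ptq (hc.differentiable q.1)]
    exact hs _ _ _ _
  set h : T × (unitInterval × unitInterval) → SympCt n := fun q =>
    mkSymp (ψ q) (hψCF.contDiff q) ⟨_, isCompact_closedBall (0 : Phase n) R₀, hψK q⟩ (hψs q)
    with hh
  have hhc : Continuous h := continuous_of_CF hψCF ⟨_, isCompact_closedBall (0 : Phase n) R₀⟩
    (fun q w hw => hψK q w hw) (fun q w => rfl)
  refine ⟨L, R, f, ⟨h, hhc⟩, by linarith, ?_, hfpos, ⟨hRpos, ?_, ?_⟩, fun q w => rfl, ?_⟩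
  · intro t ht
    apply hf1
    intro p
    obtain ⟨h1, h2⟩ := hab t (hT t ht) (Dl l p)
    simp only [h1, h2, hT t ht, mul_zero, and_self]
  · intro t p hp
    apply hfK
    rw [mem_closedBall_zero_iff, not_le]
    have h1 : R ≤ ‖p‖ := by
      rcases hp with h | h
      · exact h.trans (abs_xL_le p)
      · exact h.trans (abs_yL_le p)
    linarith
  · intro t z p hx hy
    obtain ⟨p', rfl⟩ := hfs t p
    beta_reduce at hx hy ⊢
    rw [hf] at hx ⊢
    simp only [map_add, map_smul, xL_ey, xL_eL, smul_zero, add_zero, yL_ex, wL_ey, wL_eL,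
      wL_ex] at hx hy ⊢
    change _ = ψ (t, z) (wL p')
    simp only [hψ]
    congr 2
    apply ext_split
    · rw [xL_Dl, hx, ptq, xL_pt, hL]
      ring
    · rw [yL_Dl, hy, ptq, yL_pt, hL]
      ring
    · rw [wL_Dl, ptq, wL_pt]
  · intro t p
    obtain ⟨p', rfl⟩ := hfs t p
    refine ⟨Dl l p', ?_⟩
    beta_reduce
    refine red2_estimate hl0 hlMa hle hl1 (hMa t (Dl l p')) (hMb t (Dl l p'))
      (hMc t (Dl l p')) (fun u => ?_)
    have h1 : HasFDerivAt (fun p => p + (l * a t (Dl l p)) • (ex : Phase (n + 1)))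
        (ContinuousLinearMap.id ℝ _ +
          (l • ((fderiv ℝ (a t) (Dl l p')).comp (Dl l))).smulRight ex) p' :=
      (hasFDerivAt_id p').add
        (((hasFDerivAt_scaled (ha.differentiable t) l p').const_mul l).smul_const ex)
    have h2 : HasFDerivAt (fun p => p + (l * b t (Dl l p)) • (ey : Phase (n + 1)) +
        eL (c t (Dl l p)))
        (ContinuousLinearMap.id ℝ _ +
          (l • ((fderiv ℝ (b t) (Dl l p')).comp (Dl l))).smulRight ey +
          eL.comp ((fderiv ℝ (c t) (Dl l p')).comp (Dl l))) p' :=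
      ((hasFDerivAt_id p').add
        (((hasFDerivAt_scaled (hb.differentiable t) l p').const_mul l).smul_const ey)).add
        (eL.hasFDerivAt.comp p' (hasFDerivAt_scaled (hc.differentiable t) l p'))
    have h3 := HasFDerivAt.comp (g := (f t : Equiv.Perm (Phase (n + 1)))) p'
      (SympCt.differentiable (f t) (p' + (l * a t (Dl l p')) • ex)).hasFDerivAt h1
    have h4 : ((f t : Equiv.Perm (Phase (n + 1))) ∘
        fun p => p + (l * a t (Dl l p)) • (ex : Phase (n + 1))) =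
        fun p => p + (l * b t (Dl l p)) • (ey : Phase (n + 1)) + eL (c t (Dl l p)) :=
      funext fun p => hf t p
    rw [h4] at h3
    have h5 := congrArg (fun L => L u) (h3.unique h2)
    simpa using h5

end Pool.Agent.H42.Hull
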