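import Mathlib
import Pool.Agent.H42.Hull.Def3
import Pool.Agent.H42.Hull.Final
import Pool.Agent.H42.Hull.Final2
import Pool.Agent.H42.Hull.Mol
import Pool.Agent.H42.Hull.Moser2
import Pool.Agent.H42.Hull.Red2
import Pool.Agent.H42.Hull.Realise2
import Pool.Agent.H42.Hull.Data

set_option maxSynthPendingDepth 3

open scoped ContDiff Topology unitInterval
open Set Function TopologicalSpace Filter

namespace Pool.Agent.H42.Hull

open Pool.Agent.Helper17 Pool.Agent.H50.Susp Pool.Agent.Helper42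

/-- The gap theorem. -/
theorem gap {m k j : ℕ} (c : PiG j (m + k)) :
    (IsKSusp m k j c → ∀ ε : ℝ, 0 < ε → ∃ φ : LoopG j (m + k), φ.cls = c ∧
      ∀ t p u, ‖fstPt m k (dAt (φ.at t) p (incPt m k u)) - u‖ ≤ ε * ‖u‖) ∧
    (¬ IsKSusp m k j c → ∀ φ : LoopG j (m + k), φ.cls = c → ∀ S S' : LinSymp (m + k),
      Metric.closedBall (0 : ℂ) 1 ⊆ hull m k j S S' φ) ∧
    (IsKSusp m k j c → (m = 0 ∨ ∀ c' : PiG (j + 2 * k) m, c' = PiG.triv (j + 2 * k) m) →
      c = PiG.triv j (m + k)) := by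
  refine ⟨fun h ε hε => exists_close (conv (susp2 (realise2 (data mol_thm) moser2 red2))) c h hε,
    fun h φ hφ S S' => ?_, fun h h2 => vanish k m j c h ?_⟩
  · by_contra hcon
    have h1 : IsKSusp m k j φ.cls := isKSusp_of_hull φ S S' hcon
    rw [hφ] at h1
    exact h h1
  · rcases h2 with rfl | h2
    · exact fun c => piG_zero _ c
    · exact h2

end Pool.Agent.H42.Hull
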