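import Mathlib
import Pool.Agent.H42.Hull.Basic
import Pool.Agent.H42.Hull.Conj
import Pool.Agent.H42.Hull.Cutoff
import Pool.Agent.H42.Hull.HullPath

set_option maxSynthPendingDepth 3

open scoped ContDiff Topology unitInterval
open Set Function TopologicalSpace Filter

namespace Pool.Agent.H42.Hull

open Pool.Agent.Helper17 Pool.Agent.H50.Susp Pool.Agent.Helper42

variable {m k : ℕ}

lemma br_zero_right {N : ℕ} (α : Phase N →L[ℝ] ℝ) : br α 0 = 0 := by
  simp [br]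

lemma abs_br_le {N : ℕ} (α β : Phase N →L[ℝ] ℝ) : |br α β| ≤ ‖α‖ * ‖β‖ := by
  rw [br_eq_sharp]
  calc |β (-(sharp N α))| ≤ ‖β‖ * ‖-(sharp N α)‖ := β.le_opNorm _
    _ ≤ ‖β‖ * ‖α‖ := by
        rw [norm_neg]
        exact mul_le_mul_of_nonneg_left (norm_sharp_le α) (norm_nonneg _)
    _ = ‖α‖ * ‖β‖ := mul_comm _ _

/-- The transposed of a symplectic map. -/
lemma symp_transpose {U : Phase k →L[ℝ] Phase k} (hU : ∀ u v, omegaStd (U u) (U v) = omegaStd u v)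
    (u : Phase k) : U (Jl k (ContinuousLinearMap.adjoint U u)) = Jl k u := by
  have h1 := comp_sAdj hU (Jl k u)
  have h2 : sAdj k U (Jl k u) = -(Jl k (ContinuousLinearMap.adjoint U (Jl k (Jl k u)))) := rfl
  rw [h2, Jl_Jl, map_neg, map_neg, map_neg, map_neg, neg_neg] at h1
  exact h1

/-- The bracket of two linear functions of the first coordinates. -/
lemma br_prK (hb : St_bracket) (a a' : Phase k) :
    br ((innerSL ℝ a).comp (prK m k)) ((innerSL ℝ a').comp (prK m k)) = inner ℝ a' (Jl k a) := by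
  have h1 := hb m k 1 0 a 0 a' 0
  rw [fderiv_hamV_eq_br] at h1
  simp only [inner_zero_left, add_zero, sub_zero] at h1
  have e : ∀ c : Phase k, fderiv ℝ (fun q : Phase (m + k) => (inner ℝ c (prK m k q) : ℝ)) 0 =
      (innerSL ℝ c).comp (prK m k) := by
    intro c
    rw [fderiv_inner_comp ((prK m k).differentiableAt), ContinuousLinearMap.fderiv]
  rw [e, e] at h1
  exact h1

/-- Time functions of the path. -/
noncomputable def rT (s : I) : ℝ := min (3 * (s : ℝ)) (min 1 (3 - 3 * (s : ℝ)))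

/-- Time functions of the path. -/
noncomputable def qT (s : I) : ℝ := min 1 (max 0 (3 * (s : ℝ) - 1))

lemma continuous_rT : Continuous rT := by
  unfold rT
  fun_prop

lemma continuous_qT : Continuous qT := by
  unfold qT
  fun_prop

lemma rT_mem (s : I) : 0 ≤ rT s ∧ rT s ≤ 1 := by
  have h0 := s.2.1
  have h1 := s.2.2
  constructor
  · unfold rT
    refine le_min (by linarith) (le_min zero_le_one (by linarith))
  · exact (min_le_right _ _).trans (min_le_left _ _)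

lemma qT_mem (s : I) : 0 ≤ qT s ∧ qT s ≤ 1 := by
  unfold qT
  exact ⟨le_min zero_le_one (le_max_left _ _), min_le_left _ _⟩

lemma time_cases (s : I) : qT s = 0 ∨ rT s = 1 ∨ qT s = 1 := by
  have h0 := s.2.1
  have h1 := s.2.2
  rcases le_total (3 * (s : ℝ)) 1 with h | h
  · left
    unfold qT
    rw [max_eq_left (by linarith), min_eq_right zero_le_one]
  · rcases le_total 2 (3 * (s : ℝ)) with h' | h'
    · right; right
      unfold qT
      exact min_eq_left (le_max_of_le_right (by linarith))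
    · right; left
      unfold rT
      rw [min_eq_left (by linarith : (1 : ℝ) ≤ 3 - 3 * (s : ℝ)), min_eq_right h]

lemma rT_zero : rT 0 = 0 := by simp [rT]

lemma rT_one : rT 1 = 0 := by simp [rT]

lemma qT_zero : qT 0 = 0 := by simp [qT]

lemma qT_one : qT 1 = 1 := by
  simp only [qT, Icc.coe_one]
  norm_num

/-- The Hermitian value of `U M`. -/
noncomputable def zU (m k : ℕ) (U : Phase k →L[ℝ] Phase k)
    (M : Phase (m + k) →L[ℝ] Phase (m + k)) (u : Phase k) : ℝ :=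
  (inner ℝ u (U (prK m k (M (incK m k u)))) +
    inner ℝ (Jl k u) (U (prK m k (M (incK m k (Jl k u)))))) / 2

/-- The value at the identity. -/
noncomputable def z0 (k : ℕ) (U : Phase k →L[ℝ] Phase k) (u : Phase k) : ℝ :=
  (inner ℝ u (U u) + inner ℝ (Jl k u) (U (Jl k u))) / 2

/-- Statement of the twisted form. -/
def St_hullU : Prop :=
  ∀ (m k : ℕ) (T : Type) [TopologicalSpace T] [CompactSpace T] (f : C(T, SympCt (m + k)))
    (U : Phase k →L[ℝ] Phase k), (∀ u v, omegaStd (U u) (U v) = omegaStd u v) →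
    (∀ t p (u : Phase k), u ≠ 0 →
      0 < ‖u‖ ^ 2 + zU m k U (fderiv ℝ (f t : Equiv.Perm (Phase (m + k))) p) u) →
    HasPath m k (fun t => f t)

section values

variable (hb : St_bracket) {U : Phase k →L[ℝ] Phase k}
  (hU : ∀ u v, omegaStd (U u) (U v) = omegaStd u v)

include hb hU

/-- First piece: `(1 - ρ) π + ρ U π f`. -/
lemma value_first (f : SympCt (m + k)) (p : Phase (m + k)) (u : Phase k) (ρ : ℝ) :
    fderiv ℝ (fun q => inner ℝ ((1 - ρ) • Jl k u) (prK m k q) +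
        inner ℝ (ρ • ContinuousLinearMap.adjoint U (Jl k u))
          (prK m k ((f : Equiv.Perm (Phase (m + k))) q))) p
      (hamV (fun q => inner ℝ ((1 - ρ) • u) (prK m k q) +
        inner ℝ (ρ • ContinuousLinearMap.adjoint U u)
          (prK m k ((f : Equiv.Perm (Phase (m + k))) q))) p) =
    ((1 - ρ) ^ 2 + ρ ^ 2) * ‖u‖ ^ 2 +
      2 * ρ * (1 - ρ) * zU m k U (fderiv ℝ (f : Equiv.Perm (Phase (m + k))) p) u := by
  rw [hb m k f p]
  have e1 : ‖u‖ ^ 2 = inner ℝ u u := (real_inner_self_eq_norm_sq u).symm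
  have e2 : ∀ v w : Phase k, inner ℝ (ContinuousLinearMap.adjoint U v) w = inner ℝ v (U w) :=
    fun v w => ContinuousLinearMap.adjoint_inner_left U w v
  simp only [zU, e1, map_smul, map_neg, inner_smul_left, inner_smul_right, hp_inner_JJ, e2,
    symp_transpose hU, Jl_Jl, smul_neg, inner_neg_right, conj_trivial]
  ring

/-- A symplectomorphism composed with a linear function. -/
lemma value_last (f : SympCt (m + k)) (p : Phase (m + k)) (u : Phase k) (ρ : ℝ) :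
    fderiv ℝ (fun q => inner ℝ (0 : Phase k) (prK m k q) +
        inner ℝ ((1 - ρ) • Jl k u + ρ • ContinuousLinearMap.adjoint U (Jl k u))
          (prK m k ((f : Equiv.Perm (Phase (m + k))) q))) p
      (hamV (fun q => inner ℝ (0 : Phase k) (prK m k q) +
        inner ℝ ((1 - ρ) • u + ρ • ContinuousLinearMap.adjoint U u)
          (prK m k ((f : Equiv.Perm (Phase (m + k))) q))) p) =
    ((1 - ρ) ^ 2 + ρ ^ 2) * ‖u‖ ^ 2 + 2 * ρ * (1 - ρ) * z0 k U u := by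
  rw [hb m k f p]
  have e1 : ‖u‖ ^ 2 = inner ℝ u u := (real_inner_self_eq_norm_sq u).symm
  have e2 : ∀ v w : Phase k, inner ℝ (ContinuousLinearMap.adjoint U v) w = inner ℝ v (U w) :=
    fun v w => ContinuousLinearMap.adjoint_inner_left U w v
  have e3 : inner ℝ (Jl k u) (Jl k (ContinuousLinearMap.adjoint U u)) = inner ℝ u (U u) := by
    rw [hp_inner_JJ, real_inner_comm, e2]
  simp only [z0, e1, map_smul, map_add, map_zero, inner_zero_right,
    inner_smul_left, inner_smul_right, inner_add_left, inner_add_right, hp_inner_JJ, e2, e3,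
    symp_transpose hU, conj_trivial]
  ring

/-- The value for the identity. -/
lemma value_lin (u : Phase k) (ρ : ℝ) :
    br ((innerSL ℝ ((1 - ρ) • u + ρ • ContinuousLinearMap.adjoint U u)).comp (prK m k))
      ((innerSL ℝ ((1 - ρ) • Jl k u + ρ • ContinuousLinearMap.adjoint U (Jl k u))).comp
        (prK m k)) =
    ((1 - ρ) ^ 2 + ρ ^ 2) * ‖u‖ ^ 2 + 2 * ρ * (1 - ρ) * z0 k U u := by
  rw [br_prK hb]
  have e1 : ‖u‖ ^ 2 = inner ℝ u u := (real_inner_self_eq_norm_sq u).symm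
  have e2 : ∀ v w : Phase k, inner ℝ (ContinuousLinearMap.adjoint U v) w = inner ℝ v (U w) :=
    fun v w => ContinuousLinearMap.adjoint_inner_left U w v
  have e3 : inner ℝ (Jl k u) (Jl k (ContinuousLinearMap.adjoint U u)) = inner ℝ u (U u) := by
    rw [hp_inner_JJ, real_inner_comm, e2]
  simp only [z0, e1, map_smul, map_add, inner_smul_left, inner_smul_right, inner_add_left,
    inner_add_right, hp_inner_JJ, e2, e3, symp_transpose hU, conj_trivial]
  ring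

end values

/-- The lower bound of the values at the identity. -/
lemma z0_bound {U : Phase k →L[ℝ] Phase k} (h : ∀ u : Phase k, u ≠ 0 → 0 < ‖u‖ ^ 2 + z0 k U u)
    (hk : Nontrivial (Phase k)) : ∃ κ : ℝ, 0 < κ ∧ κ ≤ 1 ∧
      ∀ (u : Phase k) (ρ : ℝ), 0 ≤ ρ → ρ ≤ 1 →
        κ / 2 * ‖u‖ ^ 2 ≤ ((1 - ρ) ^ 2 + ρ ^ 2) * ‖u‖ ^ 2 + 2 * ρ * (1 - ρ) * z0 k U u := by
  obtain ⟨v₀, hv₀⟩ := exists_norm_eq (Phase k) (c := 1) zero_le_one
  have hc : Continuous (fun u : Phase k => 1 + z0 k U u) := by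
    unfold z0
    have hJ : Continuous (fun u : Phase k => Jl k u) := (Jc k).continuous
    exact continuous_const.add (((continuous_id.inner (U.continuous)).add
      (hJ.inner (U.continuous.comp hJ))).div_const 2)
  obtain ⟨w, hw, hmin⟩ := (isCompact_sphere (0 : Phase k) 1).exists_isMinOn
    ⟨v₀, by simpa using hv₀⟩ hc.continuousOn
  have hw1 : ‖w‖ = 1 := by simpa using hw
  have hw0 : 0 < 1 + z0 k U w := by
    have h1 := h w (norm_ne_zero_iff.1 (by rw [hw1]; exact one_ne_zero))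
    rwa [hw1, one_pow] at h1
  set κ := min (1 + z0 k U w) 1 with hκ
  have hκ0 : 0 < κ := lt_min hw0 one_pos
  have hκ1 : κ ≤ 1 := min_le_right _ _
  have hz : ∀ u : Phase k, -(1 - κ) * ‖u‖ ^ 2 ≤ z0 k U u := by
    intro u
    by_cases hu : u = 0
    · rw [hu]
      simp [z0]
    · have hu0 : 0 < ‖u‖ := norm_pos_iff.2 hu
      have h1 : ‖‖u‖⁻¹ • u‖ = 1 := by
        rw [norm_smul, norm_inv, norm_norm, inv_mul_cancel₀ hu0.ne']
      have h2 := hmin (a := ‖u‖⁻¹ • u) (by simpa using h1)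
      have h3 : z0 k U (‖u‖⁻¹ • u) = (‖u‖⁻¹) ^ 2 * z0 k U u := by
        simp only [z0, map_smul, inner_smul_left, inner_smul_right, conj_trivial]
        ring
      have h4 : κ ≤ 1 + (‖u‖⁻¹) ^ 2 * z0 k U u := by
        rw [← h3]
        exact (min_le_left _ _).trans h2
      have h5 : (‖u‖⁻¹) ^ 2 * z0 k U u * ‖u‖ ^ 2 = z0 k U u := by
        field_simp
      have h6 := mul_le_mul_of_nonneg_right h4 (sq_nonneg ‖u‖)
      rw [add_mul, h5] at h6
      linarith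
  refine ⟨κ, hκ0, hκ1, fun u ρ hρ0 hρ1 => ?_⟩
  have h1 := hz u
  have h2 : 0 ≤ 2 * ρ * (1 - ρ) := by
    have : 0 ≤ ρ * (1 - ρ) := mul_nonneg hρ0 (by linarith)
    linarith
  have h3 := mul_le_mul_of_nonneg_left h1 h2
  have h4 : 0 ≤ (1 - κ / 2) * ((1 - 2 * ρ) ^ 2 * ‖u‖ ^ 2) := by
    apply mul_nonneg (by linarith)
    positivity
  have h5 : ((1 - ρ) ^ 2 + ρ ^ 2) * ‖u‖ ^ 2 + 2 * ρ * (1 - ρ) * (-(1 - κ) * ‖u‖ ^ 2) -
      κ / 2 * ‖u‖ ^ 2 = (1 - κ / 2) * ((1 - 2 * ρ) ^ 2 * ‖u‖ ^ 2) := by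
    ring
  linarith

lemma two_term_pos {ρ X z : ℝ} (hρ0 : 0 ≤ ρ) (hρ1 : ρ ≤ 1) (hX : 0 < X) (hz : 0 < X + z) :
    0 < ((1 - ρ) ^ 2 + ρ ^ 2) * X + 2 * ρ * (1 - ρ) * z := by
  have h1 : ((1 - ρ) ^ 2 + ρ ^ 2) * X + 2 * ρ * (1 - ρ) * z =
      (1 - 2 * ρ) ^ 2 * X + 2 * (ρ * (1 - ρ)) * (X + z) := by ring
  rw [h1]
  have h2 : 0 ≤ ρ * (1 - ρ) := mul_nonneg hρ0 (by linarith)
  rcases h2.eq_or_lt with h3 | h3
  · rw [← h3]
    have h4 : (1 - 2 * ρ) ^ 2 = 1 - 4 * (ρ * (1 - ρ)) := by ring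
    rw [h4, ← h3]
    linarith
  · have h4 : 0 ≤ (1 - 2 * ρ) ^ 2 * X := mul_nonneg (sq_nonneg _) hX.le
    have h5 : 0 < 2 * (ρ * (1 - ρ)) * (X + z) := by positivity
    linarith

/-- The norm of a convex combination of `u` and `Uᵀ u`. -/
lemma norm_comb_le (U : Phase k →L[ℝ] Phase k) (u : Phase k) {ρ : ℝ} (hρ0 : 0 ≤ ρ) (hρ1 : ρ ≤ 1) :
    ‖(1 - ρ) • u + ρ • ContinuousLinearMap.adjoint U u‖ ≤ (1 + ‖U‖) * ‖u‖ := by
  have h1 : ‖ContinuousLinearMap.adjoint U u‖ ≤ ‖U‖ * ‖u‖ := by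
    have := (ContinuousLinearMap.adjoint U).le_opNorm u
    rwa [LinearIsometryEquiv.norm_map] at this
  have h2 : ‖(1 - ρ) • u‖ ≤ ‖u‖ := by
    rw [norm_smul, Real.norm_eq_abs, abs_of_nonneg (by linarith)]
    have := norm_nonneg u
    nlinarith
  have h3 : ‖ρ • ContinuousLinearMap.adjoint U u‖ ≤ ‖U‖ * ‖u‖ := by
    rw [norm_smul, Real.norm_eq_abs, abs_of_nonneg hρ0]
    have := norm_nonneg (ContinuousLinearMap.adjoint U u)
    nlinarith
  calc _ ≤ ‖(1 - ρ) • u‖ + ‖ρ • ContinuousLinearMap.adjoint U u‖ := norm_add_le _ _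
    _ ≤ ‖u‖ + ‖U‖ * ‖u‖ := add_le_add h2 h3
    _ = (1 + ‖U‖) * ‖u‖ := by ring

/-- The mixed case: the bracket is close to the one at the identity. -/
lemma value_mixed (hb : St_bracket) {U : Phase k →L[ℝ] Phase k}
    (hU : ∀ u v, omegaStd (U u) (U v) = omegaStd u v) (f : SympCt (m + k)) (p : Phase (m + k))
    (u : Phase k) {ρ q : ℝ} (hρ0 : 0 ≤ ρ) (hρ1 : ρ ≤ 1) (hq0 : 0 ≤ q) (hq1 : q ≤ 1) :
    ((1 - ρ) ^ 2 + ρ ^ 2) * ‖u‖ ^ 2 + 2 * ρ * (1 - ρ) * z0 k U u -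
      2 * (‖prK m k‖ ^ 2 * (1 + ‖U‖)) *
        ‖fderiv ℝ (f : Equiv.Perm (Phase (m + k))) p - ContinuousLinearMap.id ℝ _‖ * ‖u‖ ^ 2 ≤
    fderiv ℝ (fun x => inner ℝ (((1 - ρ) * (1 - q)) • Jl k u) (prK m k x) +
        inner ℝ (((1 - ρ) * q) • Jl k u + ρ • ContinuousLinearMap.adjoint U (Jl k u))
          (prK m k ((f : Equiv.Perm (Phase (m + k))) x))) p
      (hamV (fun x => inner ℝ (((1 - ρ) * (1 - q)) • u) (prK m k x) +
        inner ℝ (((1 - ρ) * q) • u + ρ • ContinuousLinearMap.adjoint U u)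
          (prK m k ((f : Equiv.Perm (Phase (m + k))) x))) p) := by
  rw [hb m k f p]
  set D := fderiv ℝ (f : Equiv.Perm (Phase (m + k))) p with hD
  set a := ((1 - ρ) * (1 - q)) • u with ha
  set b := ((1 - ρ) * q) • u + ρ • ContinuousLinearMap.adjoint U u with hbdef
  set a' := ((1 - ρ) * (1 - q)) • Jl k u with ha'
  set b' := ((1 - ρ) * q) • Jl k u + ρ • ContinuousLinearMap.adjoint U (Jl k u) with hb'
  set E : Phase k →L[ℝ] Phase k := (prK m k).comp ((D - ContinuousLinearMap.id ℝ _).comp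
    (incK m k)) with hE
  have hM : ∀ v, prK m k (D (incK m k v)) = v + E v := by
    intro v
    have h1 : E v = prK m k (D (incK m k v)) - prK m k (incK m k v) := by
      simp only [hE, ContinuousLinearMap.comp_apply, _root_.sub_apply,
        ContinuousLinearMap.id_apply, map_sub]
    rw [h1, hp_proj hb]
    abel
  have hEn : ‖E‖ ≤ ‖prK m k‖ ^ 2 * ‖D - ContinuousLinearMap.id ℝ _‖ := by
    have h1 : ‖incK m k‖ = ‖prK m k‖ := by
      unfold incK
      exact LinearIsometryEquiv.norm_map _ _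
    calc ‖E‖ ≤ ‖prK m k‖ * (‖D - ContinuousLinearMap.id ℝ _‖ * ‖incK m k‖) :=
          (ContinuousLinearMap.opNorm_comp_le _ _).trans
            (mul_le_mul_of_nonneg_left (ContinuousLinearMap.opNorm_comp_le _ _) (norm_nonneg _))
      _ = ‖prK m k‖ ^ 2 * ‖D - ContinuousLinearMap.id ℝ _‖ := by rw [h1]; ring
  rw [hM, hM]
  -- the main part
  have hsum : a + b = (1 - ρ) • u + ρ • ContinuousLinearMap.adjoint U u := by
    rw [ha, hbdef, ← add_assoc, ← add_smul]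
    congr 2
    ring
  have hsum' : a' + b' = (1 - ρ) • Jl k u + ρ • ContinuousLinearMap.adjoint U (Jl k u) := by
    rw [ha', hb', ← add_assoc, ← add_smul]
    congr 2
    ring
  have hmain : inner ℝ (a' + b') (Jl k (a + b)) =
      ((1 - ρ) ^ 2 + ρ ^ 2) * ‖u‖ ^ 2 + 2 * ρ * (1 - ρ) * z0 k U u := by
    rw [hsum, hsum', ← br_prK (m := m) hb, value_lin hb hU]
  have hexp : inner ℝ a' (Jl k a) + inner ℝ b' (Jl k b) + inner ℝ b' (Jl k a + E (Jl k a)) -
      inner ℝ b (Jl k a' + E (Jl k a')) =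
      inner ℝ (a' + b') (Jl k (a + b)) + inner ℝ b' (E (Jl k a)) - inner ℝ b (E (Jl k a')) := by
    have h1 : inner ℝ b (Jl k a') = -inner ℝ a' (Jl k b) := by
      rw [hp_inner_J, real_inner_comm]
    have hJab : Jl k (a + b) = Jl k a + Jl k b := map_add (Jl k) a b
    rw [hJab, inner_add_right b' (Jl k a) (E (Jl k a)), inner_add_right b (Jl k a') (E (Jl k a')),
      inner_add_left a' b' (Jl k a + Jl k b), inner_add_right a' (Jl k a) (Jl k b),
      inner_add_right b' (Jl k a) (Jl k b), h1]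
    ring
  rw [hexp, hmain]
  -- the error
  have hun := norm_nonneg u
  have hJn : ‖Jl k u‖ = ‖u‖ := norm_Jl u
  have hc1 : 0 ≤ (1 - ρ) * (1 - q) := mul_nonneg (by linarith) (by linarith)
  have hc1' : (1 - ρ) * (1 - q) ≤ 1 := by nlinarith
  have hc2 : 0 ≤ (1 - ρ) * q := mul_nonneg (by linarith) hq0
  have hc2' : (1 - ρ) * q ≤ 1 := by nlinarith
  have hna : ‖a‖ ≤ ‖u‖ := by
    rw [ha, norm_smul, Real.norm_eq_abs, abs_of_nonneg hc1]
    nlinarith
  have hna' : ‖a'‖ ≤ ‖u‖ := by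
    rw [ha', norm_smul, Real.norm_eq_abs, abs_of_nonneg hc1, hJn]
    nlinarith
  have hV : ∀ v : Phase k, ‖ContinuousLinearMap.adjoint U v‖ ≤ ‖U‖ * ‖v‖ := by
    intro v
    have := (ContinuousLinearMap.adjoint U).le_opNorm v
    rwa [LinearIsometryEquiv.norm_map] at this
  have hnb0 : ∀ v : Phase k, ‖((1 - ρ) * q) • v + ρ • ContinuousLinearMap.adjoint U v‖ ≤
      (1 + ‖U‖) * ‖v‖ := by
    intro v
    have h1 : ‖((1 - ρ) * q) • v‖ ≤ ‖v‖ := by
      rw [norm_smul, Real.norm_eq_abs, abs_of_nonneg hc2]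
      have := norm_nonneg v
      nlinarith
    have h2 : ‖ρ • ContinuousLinearMap.adjoint U v‖ ≤ ‖U‖ * ‖v‖ := by
      rw [norm_smul, Real.norm_eq_abs, abs_of_nonneg hρ0]
      have h3 := hV v
      have h4 := norm_nonneg (ContinuousLinearMap.adjoint U v)
      nlinarith
    calc _ ≤ ‖((1 - ρ) * q) • v‖ + ‖ρ • ContinuousLinearMap.adjoint U v‖ := norm_add_le _ _
      _ ≤ ‖v‖ + ‖U‖ * ‖v‖ := add_le_add h1 h2
      _ = (1 + ‖U‖) * ‖v‖ := by ring
  have hnb : ‖b‖ ≤ (1 + ‖U‖) * ‖u‖ := hnb0 u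
  have hnb' : ‖b'‖ ≤ (1 + ‖U‖) * ‖u‖ := by
    have := hnb0 (Jl k u)
    rwa [hJn] at this
  set P := ‖prK m k‖ ^ 2 * ‖D - ContinuousLinearMap.id ℝ _‖ with hP
  have hP0 : 0 ≤ P := by positivity
  have hU0 : 0 ≤ 1 + ‖U‖ := by positivity
  have err : ∀ x y : Phase k, ‖x‖ ≤ ‖u‖ → ‖y‖ ≤ (1 + ‖U‖) * ‖u‖ →
      |inner ℝ y (E (Jl k x))| ≤ P * (1 + ‖U‖) * ‖u‖ ^ 2 := by
    intro x y hx hy
    have h1 : ‖E (Jl k x)‖ ≤ P * ‖u‖ := by
      calc ‖E (Jl k x)‖ ≤ ‖E‖ * ‖Jl k x‖ := E.le_opNorm _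
        _ ≤ P * ‖u‖ := by
            rw [norm_Jl]
            exact mul_le_mul hEn hx (norm_nonneg _) hP0
    calc |inner ℝ y (E (Jl k x))| ≤ ‖y‖ * ‖E (Jl k x)‖ := abs_real_inner_le_norm _ _
      _ ≤ ((1 + ‖U‖) * ‖u‖) * (P * ‖u‖) :=
          mul_le_mul hy h1 (norm_nonneg _) (by positivity)
      _ = P * (1 + ‖U‖) * ‖u‖ ^ 2 := by ring
  have e1 := (abs_le.1 (err a b' hna hnb')).1
  have e2 := (abs_le.1 (err a' b hna' hnb)).2
  have e3 : 2 * (‖prK m k‖ ^ 2 * (1 + ‖U‖)) * ‖D - ContinuousLinearMap.id ℝ _‖ * ‖u‖ ^ 2 =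
      2 * (P * (1 + ‖U‖) * ‖u‖ ^ 2) := by
    rw [hP]; ring
  rw [e3]
  linarith

/-- The derivative of the mixed linear function. -/
lemma fderiv_mix {U : Phase k →L[ℝ] Phase k} {μ : Phase (m + k) → ℝ} {p : Phase (m + k)}
    (hμ : DifferentiableAt ℝ μ p) (c : ℝ) (v : Phase k) :
    fderiv ℝ (fun x => inner ℝ ((1 - c * μ x) • v + (c * μ x) • ContinuousLinearMap.adjoint U v)
      (prK m k x)) p =
    (innerSL ℝ ((1 - c * μ p) • v + (c * μ p) • ContinuousLinearMap.adjoint U v)).comp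
      (prK m k) + inner ℝ (ContinuousLinearMap.adjoint U v - v) (prK m k p) •
        (c • fderiv ℝ μ p) := by
  have h1 : (fun x => inner ℝ ((1 - c * μ x) • v + (c * μ x) • ContinuousLinearMap.adjoint U v)
      (prK m k x)) = fun x => (innerSL ℝ v).comp (prK m k) x +
        (c * μ x) * (innerSL ℝ (ContinuousLinearMap.adjoint U v - v)).comp (prK m k) x := by
    funext x
    simp only [ContinuousLinearMap.comp_apply, innerSL_apply_apply, inner_add_left, inner_sub_left,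
      inner_smul_left, conj_trivial]
    ring
  have h2 : HasFDerivAt (fun x => (innerSL ℝ v).comp (prK m k) x +
        (c * μ x) * (innerSL ℝ (ContinuousLinearMap.adjoint U v - v)).comp (prK m k) x)
      ((innerSL ℝ v).comp (prK m k) + ((c * μ p) •
        ((innerSL ℝ (ContinuousLinearMap.adjoint U v - v)).comp (prK m k)) +
        ((innerSL ℝ (ContinuousLinearMap.adjoint U v - v)).comp (prK m k) p) •
          (c • fderiv ℝ μ p))) p :=
    ((innerSL ℝ v).comp (prK m k)).hasFDerivAt.add ((hμ.hasFDerivAt.const_mul c).mul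
      ((innerSL ℝ (ContinuousLinearMap.adjoint U v - v)).comp (prK m k)).hasFDerivAt)
  rw [h1, h2.fderiv]
  ext w
  simp only [_root_.add_apply, _root_.smul_apply, smul_eq_mul, ContinuousLinearMap.comp_apply,
    innerSL_apply_apply, inner_add_left, inner_sub_left, inner_smul_left, conj_trivial]
  ring

lemma br_expand {N : ℕ} (α β e : Phase N →L[ℝ] ℝ) (a b : ℝ) :
    br (α + a • e) (β + b • e) = br α β + b * br α e + a * br e β := by
  rw [br_add_left, br_add_right, br_add_right, br_smul_left, br_smul_left, br_smul_right,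
    br_smul_right, br_self]
  ring

/-- Positivity outside the support. -/
lemma value_out (hb : St_bracket) {U : Phase k →L[ℝ] Phase k}
    (hU : ∀ u v, omegaStd (U u) (U v) = omegaStd u v) {κ ε : ℝ}
    (hκ : ∀ (u : Phase k) (ρ : ℝ), 0 ≤ ρ → ρ ≤ 1 →
        κ / 2 * ‖u‖ ^ 2 ≤ ((1 - ρ) ^ 2 + ρ ^ 2) * ‖u‖ ^ 2 + 2 * ρ * (1 - ρ) * z0 k U u)
    {μ : Phase (m + k) → ℝ} {p : Phase (m + k)} (hμ : DifferentiableAt ℝ μ p)
    (hμ0 : 0 ≤ μ p) (hμ1 : μ p ≤ 1) (hε : ‖fderiv ℝ μ p‖ * ‖p‖ ≤ ε)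
    (hεκ : 2 * (((1 + ‖U‖) * ‖prK m k‖) ^ 2 * ε) < κ / 2) {c : ℝ} (hc0 : 0 ≤ c) (hc1 : c ≤ 1)
    {u : Phase k} (hu : u ≠ 0) :
    0 < fderiv ℝ (fun x => inner ℝ ((1 - c * μ x) • Jl k u +
        (c * μ x) • ContinuousLinearMap.adjoint U (Jl k u)) (prK m k x)) p
      (hamV (fun x => inner ℝ ((1 - c * μ x) • u + (c * μ x) • ContinuousLinearMap.adjoint U u)
        (prK m k x)) p) := by
  rw [fderiv_hamV_eq_br, fderiv_mix hμ, fderiv_mix hμ, br_expand]
  have hρ0 : 0 ≤ c * μ p := mul_nonneg hc0 hμ0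
  have hρ1 : c * μ p ≤ 1 := by nlinarith
  set ρ := c * μ p with hρ
  rw [value_lin hb hU]
  have hlow := hκ u ρ hρ0 hρ1
  set B := (1 + ‖U‖) * ‖prK m k‖ with hB
  have hB0 : 0 ≤ B := by positivity
  have hu0 : 0 < ‖u‖ := norm_pos_iff.2 hu
  have hJn : ‖Jl k u‖ = ‖u‖ := norm_Jl u
  have hV : ∀ v : Phase k, ‖ContinuousLinearMap.adjoint U v‖ ≤ ‖U‖ * ‖v‖ := by
    intro v
    have := (ContinuousLinearMap.adjoint U).le_opNorm v
    rwa [LinearIsometryEquiv.norm_map] at this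
  have hA : ∀ v : Phase k, |inner ℝ (ContinuousLinearMap.adjoint U v - v) (prK m k p)| ≤
      B * ‖v‖ * ‖p‖ := by
    intro v
    have h1 : ‖ContinuousLinearMap.adjoint U v - v‖ ≤ (1 + ‖U‖) * ‖v‖ := by
      calc _ ≤ ‖ContinuousLinearMap.adjoint U v‖ + ‖v‖ := norm_sub_le _ _
        _ ≤ ‖U‖ * ‖v‖ + ‖v‖ := by gcongr; exact hV v
        _ = (1 + ‖U‖) * ‖v‖ := by ring
    calc _ ≤ ‖ContinuousLinearMap.adjoint U v - v‖ * ‖prK m k p‖ := abs_real_inner_le_norm _ _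
      _ ≤ ((1 + ‖U‖) * ‖v‖) * (‖prK m k‖ * ‖p‖) := by
          apply mul_le_mul h1 ((prK m k).le_opNorm p) (norm_nonneg _)
          positivity
      _ = B * ‖v‖ * ‖p‖ := by rw [hB]; ring
  have hL : ∀ v : Phase k, ‖(innerSL ℝ ((1 - ρ) • v + ρ • ContinuousLinearMap.adjoint U v)).comp
      (prK m k)‖ ≤ B * ‖v‖ := by
    intro v
    calc _ ≤ ‖innerSL ℝ ((1 - ρ) • v + ρ • ContinuousLinearMap.adjoint U v)‖ * ‖prK m k‖ :=
          ContinuousLinearMap.opNorm_comp_le _ _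
      _ ≤ ((1 + ‖U‖) * ‖v‖) * ‖prK m k‖ := by
          rw [innerSL_apply_norm]
          exact mul_le_mul_of_nonneg_right (norm_comb_le U v hρ0 hρ1) (norm_nonneg _)
      _ = B * ‖v‖ := by rw [hB]; ring
  have he : ‖c • fderiv ℝ μ p‖ ≤ ‖fderiv ℝ μ p‖ := by
    rw [norm_smul, Real.norm_eq_abs, abs_of_nonneg hc0]
    have := norm_nonneg (fderiv ℝ μ p)
    nlinarith
  have hprod : ∀ v w : Phase k, ‖v‖ = ‖u‖ → ‖w‖ = ‖u‖ →
      (B * ‖v‖ * ‖p‖) * ((B * ‖w‖) * ‖fderiv ℝ μ p‖) ≤ B ^ 2 * ε * ‖u‖ ^ 2 := by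
    intro v w hv hw
    rw [hv, hw]
    have h1 : (B * ‖u‖ * ‖p‖) * ((B * ‖u‖) * ‖fderiv ℝ μ p‖) =
        (B ^ 2 * ‖u‖ ^ 2) * (‖fderiv ℝ μ p‖ * ‖p‖) := by ring
    rw [h1]
    calc _ ≤ (B ^ 2 * ‖u‖ ^ 2) * ε := mul_le_mul_of_nonneg_left hε (by positivity)
      _ = B ^ 2 * ε * ‖u‖ ^ 2 := by ring
  have e1 : |inner ℝ (ContinuousLinearMap.adjoint U (Jl k u) - Jl k u) (prK m k p) *
      br ((innerSL ℝ ((1 - ρ) • u + ρ • ContinuousLinearMap.adjoint U u)).comp (prK m k))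
        (c • fderiv ℝ μ p)| ≤ B ^ 2 * ε * ‖u‖ ^ 2 := by
    rw [abs_mul]
    refine le_trans ?_ (hprod (Jl k u) u hJn rfl)
    apply mul_le_mul (hA _) _ (abs_nonneg _) (by positivity)
    refine (abs_br_le _ _).trans ?_
    exact mul_le_mul (hL u) he (norm_nonneg _) (by positivity)
  have e2 : |inner ℝ (ContinuousLinearMap.adjoint U u - u) (prK m k p) *
      br (c • fderiv ℝ μ p) ((innerSL ℝ ((1 - ρ) • Jl k u +
        ρ • ContinuousLinearMap.adjoint U (Jl k u))).comp (prK m k))| ≤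
      B ^ 2 * ε * ‖u‖ ^ 2 := by
    rw [abs_mul]
    refine le_trans ?_ (hprod u (Jl k u) rfl hJn)
    apply mul_le_mul (hA _) _ (abs_nonneg _) (by positivity)
    refine (abs_br_le _ _).trans ?_
    rw [mul_comm]
    exact mul_le_mul (hL (Jl k u)) he (norm_nonneg _) (by positivity)
  have e1' := (abs_le.1 e1).1
  have e2' := (abs_le.1 e2).1
  have e3 : 2 * (B ^ 2 * ε) * ‖u‖ ^ 2 < κ / 2 * ‖u‖ ^ 2 :=
    mul_lt_mul_of_pos_right hεκ (by positivity)
  linarith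

end Pool.Agent.H42.Hull
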