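import Mathlib
import Pool.Agent.H42.Hull.HullU

set_option maxSynthPendingDepth 3

open scoped ContDiff Topology unitInterval
open Set Function TopologicalSpace Filter

namespace Pool.Agent.H42.Hull

open Pool.Agent.Helper17 Pool.Agent.H50.Susp Pool.Agent.Helper42

variable {m k : ℕ}

theorem hullU (hb : St_bracket) : St_hullU := by
  intro m k T _ _ f U hU hpos
  rcases isEmpty_or_nonempty T with hT | hT
  · exact hp_trivial _ (Or.inl hT)
  rcases subsingleton_or_nontrivial (Phase k) with hk | hk
  · exact hp_trivial _ (Or.inr hk)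
  obtain ⟨hf, K, hK⟩ := CF_of_continuous f.continuous
  obtain ⟨ρ, hρ⟩ := K.isCompact.isBounded.subset_closedBall (0 : Phase (m + k))
  have hfix : ∀ t (p : Phase (m + k)), |ρ| < ‖p‖ → (f t : Equiv.Perm (Phase (m + k))) p = p := by
    intro t p hp
    refine hK t p fun hmem => ?_
    have := hρ hmem
    rw [mem_closedBall_zero_iff] at this
    linarith [le_abs_self ρ]
  set R := |ρ| with hR
  have hR0 : 0 ≤ R := abs_nonneg ρ
  -- a unit vector
  obtain ⟨v₀, hv₀⟩ := exists_norm_eq (Phase k) (c := 1) zero_le_one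
  -- a point outside the support
  obtain ⟨t₀⟩ := hT
  have hnt : Nontrivial (Phase (m + k)) := by
    refine ⟨⟨incK m k v₀, 0, fun h => ?_⟩⟩
    have h2 := hp_proj (m := m) hb v₀
    rw [h, map_zero] at h2
    rw [← h2, norm_zero] at hv₀
    exact zero_ne_one hv₀
  obtain ⟨p₀, hp₀⟩ := exists_norm_eq (Phase (m + k)) (c := R + 1) (by positivity)
  have hev : ∀ t (p : Phase (m + k)), R < ‖p‖ →
      ((f t : Equiv.Perm (Phase (m + k))) : Phase (m + k) → Phase (m + k)) =ᶠ[𝓝 p] id := by
    intro t p hp
    have h2 : {q : Phase (m + k) | R < ‖q‖} ∈ 𝓝 p :=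
      (isOpen_lt continuous_const continuous_norm).mem_nhds hp
    filter_upwards [h2] with q hq
    exact hfix t q hq
  have hfd : fderiv ℝ (f t₀ : Equiv.Perm (Phase (m + k))) p₀ = ContinuousLinearMap.id ℝ _ := by
    rw [(hev t₀ p₀ (by rw [hp₀]; linarith)).fderiv_eq, fderiv_id]
  have hz0 : ∀ u : Phase k, u ≠ 0 → 0 < ‖u‖ ^ 2 + z0 k U u := by
    intro u hu
    have h1 := hpos t₀ p₀ u hu
    rw [hfd] at h1
    simpa only [zU, z0, ContinuousLinearMap.id_apply, hp_proj hb] using h1
  obtain ⟨κ, hκ0, hκ1, hκ⟩ := z0_bound hz0 hk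
  -- the constants
  set C := ‖prK m k‖ ^ 2 * (1 + ‖U‖) with hC
  have hC0 : 0 ≤ C := by positivity
  set δ := κ / (4 * (C + 1)) with hδ
  have hδ0 : 0 < δ := by positivity
  have hδC : 2 * C * δ < κ / 2 := by
    rw [hδ]
    have h1 : 2 * C * (κ / (4 * (C + 1))) = κ / 2 * (C / (C + 1)) := by
      field_simp
      ring
    rw [h1]
    have h2 : C / (C + 1) < 1 := by
      rw [div_lt_one (by linarith)]
      linarith
    nlinarith
  set B := (1 + ‖U‖) * ‖prK m k‖ with hB
  have hB0 : 0 ≤ B := by positivity
  set ε := κ / (4 * (B ^ 2 + 1)) with hε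
  have hε0 : 0 < ε := by positivity
  have hεκ : 2 * (B ^ 2 * ε) < κ / 2 := by
    rw [hε]
    have h1 : 2 * (B ^ 2 * (κ / (4 * (B ^ 2 + 1)))) = κ / 2 * (B ^ 2 / (B ^ 2 + 1)) := by
      field_simp
      ring
    rw [h1]
    have h2 : B ^ 2 / (B ^ 2 + 1) < 1 := by
      rw [div_lt_one (by positivity)]
      linarith
    nlinarith
  obtain ⟨μ, R2, hμC, hμ1, hμ0, hμ01, hμε⟩ := exists_slow_cutoff (m + k) (R + 2) hε0
  -- the distance to the identity
  have hgc : Continuous (fun q : T × Phase (m + k) =>
      ‖fderiv ℝ (f q.1 : Equiv.Perm (Phase (m + k))) q.2 - ContinuousLinearMap.id ℝ _‖) :=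
    (hf.fderiv.continuous.sub continuous_const).norm
  set g : T → Phase (m + k) → ℝ := fun t p =>
    ‖fderiv ℝ (f t : Equiv.Perm (Phase (m + k))) p - ContinuousLinearMap.id ℝ _‖ with hg
  set KB : Set (Phase (m + k)) := Metric.closedBall 0 (R + 2) with hKB
  have hKBc : IsCompact KB := isCompact_closedBall 0 _
  set d : T → ℝ := fun t => sSup (g t '' KB) with hd
  have hdc : Continuous d := hKBc.continuous_sSup hgc
  have hdle : ∀ t, ∀ p ∈ KB, g t p ≤ d t := by
    intro t p hp
    apply le_csSup
    · exact (hKBc.image_of_continuousOn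
        (hgc.comp (continuous_const.prodMk continuous_id)).continuousOn).bddAbove
    · exact mem_image_of_mem _ hp
  have hd0 : ∀ t, 0 ≤ d t := fun t => (norm_nonneg _).trans (hdle t 0 (by
    rw [hKB, mem_closedBall_zero_iff, norm_zero]; linarith))
  have hd1 : ∀ t, f t = 1 → d t = 0 := by
    intro t ht
    have h1 : ∀ p ∈ KB, g t p = 0 := by
      intro p _
      have h2 : ((f t : Equiv.Perm (Phase (m + k))) : Phase (m + k) → Phase (m + k)) = id := by
        rw [ht]
        rfl
      simp only [hg, h2, fderiv_id, sub_self, norm_zero]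
    have h3 : g t '' KB ⊆ {0} := by
      rintro x ⟨p, hp, rfl⟩
      exact h1 p hp
    refine le_antisymm ?_ (hd0 t)
    apply csSup_le
    · exact ⟨_, mem_image_of_mem _ (show (0 : Phase (m + k)) ∈ KB by
        rw [hKB, mem_closedBall_zero_iff, norm_zero]; linarith)⟩
    · intro x hx
      exact (mem_singleton_iff.1 (h3 hx)).le
  set Rt : T → ℝ := fun t => min 1 (d t / δ) with hRt
  have hRtc : Continuous Rt := continuous_const.min (hdc.div_const δ)
  have hRt0 : ∀ t, 0 ≤ Rt t := fun t => le_min zero_le_one (div_nonneg (hd0 t) hδ0.le)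
  have hRt1 : ∀ t, Rt t ≤ 1 := fun t => min_le_left _ _
  -- the family
  set c : T × I → ℝ := fun q => Rt q.1 * rT q.2 with hc
  have hcc : Continuous c := (hRtc.comp continuous_fst).mul (continuous_rT.comp continuous_snd)
  have hc0 : ∀ q, 0 ≤ c q := fun q => mul_nonneg (hRt0 _) (rT_mem _).1
  have hc1 : ∀ q, c q ≤ 1 := fun q => mul_le_one₀ (hRt1 _) (rT_mem _).1 (rT_mem _).2
  set F : T × I → Phase (m + k) → Phase k := fun q p =>
    (1 - c q * μ p) • ((1 - qT q.2) • prK m k p +
      qT q.2 • prK m k ((f q.1 : Equiv.Perm (Phase (m + k))) p)) +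
      (c q * μ p) • U (prK m k ((f q.1 : Equiv.Perm (Phase (m + k))) p)) with hF
  have hFu : ∀ q (u : Phase k), (fun p => inner ℝ u (F q p)) = fun p =>
      inner ℝ (((1 - c q * μ p) * (1 - qT q.2)) • u) (prK m k p) +
      inner ℝ (((1 - c q * μ p) * qT q.2) • u + (c q * μ p) • ContinuousLinearMap.adjoint U u)
        (prK m k ((f q.1 : Equiv.Perm (Phase (m + k))) p)) := by
    intro q u
    funext p
    simp only [hF, inner_add_left, inner_add_right, inner_smul_left, inner_smul_right,
      ContinuousLinearMap.adjoint_inner_left, conj_trivial]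
    ring
  refine ⟨max R R2, F, hR0.trans (le_max_left _ _), ⟨?_, ?_, ?_⟩, ?_, ?_, ?_⟩
  · have hπ : CF (fun (q : T × I) (p : Phase (m + k)) => prK m k p) :=
      CF.const (prK m k).contDiff
    have hπf : CF (fun (q : T × I) (p : Phase (m + k)) =>
        prK m k ((f q.1 : Equiv.Perm (Phase (m + k))) p)) :=
      (hf.base continuous_fst).clm (prK m k)
    have hcμ : CF (fun (q : T × I) (p : Phase (m + k)) => c q * μ p) :=
      (CF.param hcc).smul (CF.const hμC)
    have h1cμ : CF (fun (q : T × I) (p : Phase (m + k)) => 1 - c q * μ p) :=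
      (CF.const (contDiff_const (c := (1 : ℝ)))).sub hcμ
    have hq1 : CF (fun (q : T × I) (_ : Phase (m + k)) => 1 - qT q.2) :=
      CF.param (continuous_const.sub (continuous_qT.comp continuous_snd))
    have hq2 : CF (fun (q : T × I) (_ : Phase (m + k)) => qT q.2) :=
      CF.param (continuous_qT.comp continuous_snd)
    exact (h1cμ.smul ((hq1.smul hπ).add (hq2.smul hπf))).add (hcμ.smul (hπf.clm U))
  · intro q p hp
    have h1 : R < ‖p‖ := (le_max_left _ _).trans_lt hp
    have h2 : μ p = 0 := hμ0 p ((le_max_right _ _).trans_lt hp)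
    simp only [hF, h2, hfix q.1 p h1, mul_zero, sub_zero, one_smul, zero_smul, add_zero]
    rw [← add_smul, sub_add_cancel, one_smul]
  · intro q p u hu
    rw [hFu, hFu]
    have hX : 0 < ‖u‖ ^ 2 := by
      have := norm_pos_iff.2 hu
      positivity
    rcases le_or_gt (‖p‖) (R + 1) with hp | hp
    · -- inside
      have hμev : μ =ᶠ[𝓝 p] fun _ => 1 := by
        have h2 : {x : Phase (m + k) | ‖x‖ < R + 2} ∈ 𝓝 p :=
          (isOpen_lt continuous_norm continuous_const).mem_nhds (by
            show ‖p‖ < R + 2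
            linarith)
        filter_upwards [h2] with x hx
        exact hμ1 x (le_of_lt hx)
      have hloc : ∀ v : Phase k, (fun x => inner ℝ (((1 - c q * μ x) * (1 - qT q.2)) • v)
            (prK m k x) +
          inner ℝ (((1 - c q * μ x) * qT q.2) • v + (c q * μ x) • ContinuousLinearMap.adjoint U v)
            (prK m k ((f q.1 : Equiv.Perm (Phase (m + k))) x))) =ᶠ[𝓝 p]
          fun x => inner ℝ (((1 - c q) * (1 - qT q.2)) • v) (prK m k x) +
          inner ℝ (((1 - c q) * qT q.2) • v + c q • ContinuousLinearMap.adjoint U v)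
            (prK m k ((f q.1 : Equiv.Perm (Phase (m + k))) x)) := by
        intro v
        filter_upwards [hμev] with x hx
        rw [hx, mul_one]
      have hham : hamV (fun x => inner ℝ (((1 - c q * μ x) * (1 - qT q.2)) • u)
            (prK m k x) +
          inner ℝ (((1 - c q * μ x) * qT q.2) • u + (c q * μ x) • ContinuousLinearMap.adjoint U u)
            (prK m k ((f q.1 : Equiv.Perm (Phase (m + k))) x))) p =
          hamV (fun x => inner ℝ (((1 - c q) * (1 - qT q.2)) • u) (prK m k x) +
          inner ℝ (((1 - c q) * qT q.2) • u + c q • ContinuousLinearMap.adjoint U u)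
            (prK m k ((f q.1 : Equiv.Perm (Phase (m + k))) x))) p := by
        unfold hamV
        rw [(hloc u).fderiv_eq]
      rw [(hloc (Jl k u)).fderiv_eq, hham]
      rcases time_cases q.2 with h0 | h0 | h0
      · rw [h0]
        simp only [sub_zero, mul_one, mul_zero, zero_smul, zero_add]
        rw [value_first hb hU]
        exact two_term_pos (hc0 q) (hc1 q) hX (hpos _ _ u hu)
      · have hcq : c q = Rt q.1 := by simp only [hc, h0, mul_one]
        rcases lt_or_ge (d q.1) δ with hdd | hdd
        · have h2 := value_mixed hb hU (f q.1) p u (hc0 q) (hc1 q) (qT_mem q.2).1 (qT_mem q.2).2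
          refine lt_of_lt_of_le ?_ h2
          have h3 := hκ u (c q) (hc0 q) (hc1 q)
          have h4 : ‖fderiv ℝ (f q.1 : Equiv.Perm (Phase (m + k))) p -
              ContinuousLinearMap.id ℝ _‖ ≤ δ :=
            (hdle q.1 p (by rw [hKB, mem_closedBall_zero_iff]; linarith)).trans hdd.le
          have h5 : 2 * C * ‖fderiv ℝ (f q.1 : Equiv.Perm (Phase (m + k))) p -
              ContinuousLinearMap.id ℝ _‖ * ‖u‖ ^ 2 ≤ 2 * C * δ * ‖u‖ ^ 2 := by
            apply mul_le_mul_of_nonneg_right _ hX.le
            exact mul_le_mul_of_nonneg_left h4 (by positivity)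
          have h6 : 2 * C * δ * ‖u‖ ^ 2 < κ / 2 * ‖u‖ ^ 2 := mul_lt_mul_of_pos_right hδC hX
          linarith
        · have h2 : Rt q.1 = 1 := by
            simp only [hRt]
            apply min_eq_left
            rw [le_div_iff₀ hδ0]
            linarith
          rw [hcq, h2]
          have h3 := value_last hb hU (f q.1) p u 1
          simp only [sub_self, zero_mul, zero_smul, one_smul, zero_add] at h3 ⊢
          rw [h3]
          have h4 := hκ u 1 zero_le_one le_rfl
          have h5 : 0 < κ / 2 * ‖u‖ ^ 2 := by positivity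
          simp only [sub_self] at h4
          linarith
      · rw [h0]
        simp only [sub_self, mul_one, mul_zero, zero_smul]
        rw [value_last hb hU]
        have h4 := hκ u (c q) (hc0 q) (hc1 q)
        have h5 : 0 < κ / 2 * ‖u‖ ^ 2 := by positivity
        linarith
    · -- outside
      have hRp : R < ‖p‖ := by linarith
      have hloc : ∀ v : Phase k, (fun x => inner ℝ (((1 - c q * μ x) * (1 - qT q.2)) • v)
            (prK m k x) +
          inner ℝ (((1 - c q * μ x) * qT q.2) • v + (c q * μ x) • ContinuousLinearMap.adjoint U v)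
            (prK m k ((f q.1 : Equiv.Perm (Phase (m + k))) x))) =ᶠ[𝓝 p]
          fun x => inner ℝ ((1 - c q * μ x) • v + (c q * μ x) • ContinuousLinearMap.adjoint U v)
            (prK m k x) := by
        intro v
        filter_upwards [hev q.1 p hRp] with x hx
        rw [hx, id, ← inner_add_left, ← add_assoc, ← add_smul]
        congr 3
        ring
      have hham : hamV (fun x => inner ℝ (((1 - c q * μ x) * (1 - qT q.2)) • u)
            (prK m k x) +
          inner ℝ (((1 - c q * μ x) * qT q.2) • u + (c q * μ x) • ContinuousLinearMap.adjoint U u)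
            (prK m k ((f q.1 : Equiv.Perm (Phase (m + k))) x))) p =
          hamV (fun x => inner ℝ ((1 - c q * μ x) • u +
            (c q * μ x) • ContinuousLinearMap.adjoint U u) (prK m k x)) p := by
        unfold hamV
        rw [(hloc u).fderiv_eq]
      rw [(hloc (Jl k u)).fderiv_eq, hham]
      exact value_out hb hU hκ ((hμC.differentiable (by simp)) p) (hμ01 p).1 (hμ01 p).2
        (hμε p) hεκ (hc0 q) (hc1 q) hu
  · intro t p
    simp only [hF, hc, rT_zero, qT_zero, mul_zero, zero_mul, sub_zero, one_smul, zero_smul,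
      add_zero]
  · intro t p
    simp only [hF, hc, rT_one, qT_one, mul_zero, zero_mul, sub_zero, sub_self, one_smul, zero_smul,
      add_zero, zero_add]
  · intro t ht s p
    have ht' : f t = 1 := ht
    have e1 : (f t : Equiv.Perm (Phase (m + k))) p = p := by
      rw [ht']
      rfl
    have e2 : Rt t = 0 := by
      simp only [hRt, hd1 t ht', zero_div]
      exact min_eq_right zero_le_one
    simp only [hF, hc, e1, e2, zero_mul, sub_zero, one_smul, zero_smul, add_zero]
    rw [← add_smul, sub_add_cancel, one_smul]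

end Pool.Agent.H42.Hull
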