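import Pool.Agent.H42.Hull.Defs

/-!
# Hull: the condition on one block gives a path (D6b)
-/

set_option maxSynthPendingDepth 3

open scoped ContDiff Topology unitInterval
open Set Function TopologicalSpace Filter

namespace Pool.Agent.H42.Hull

open Pool.Agent.Helper17 Pool.Agent.H50.Susp Pool.Agent.Helper42

private lemma sp_inner (v w : Phase 1) :
    inner ℝ v w = v (Sum.inl 0) * w (Sum.inl 0) + v (Sum.inr 0) * w (Sum.inr 0) := by
  rw [PiLp.inner_apply, Fintype.sum_sum_type]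
  simp only [Finset.univ_unique, Fin.default_eq_zero, Finset.sum_singleton]
  simp [mul_comm]

private lemma sp_prK_inl (m : ℕ) (p : Phase (m + 1)) : (prK m 1 p) (Sum.inl 0) = p (Sum.inl 0) := by
  exact mkP_x (n := 0) (p (Sum.inl 0)) (p (Sum.inr 0)) _

private lemma sp_prK_inr (m : ℕ) (p : Phase (m + 1)) : (prK m 1 p) (Sum.inr 0) = p (Sum.inr 0) := by
  exact mkP_y (n := 0) (p (Sum.inl 0)) (p (Sum.inr 0)) _

private lemma sp_ext {v w : Phase 1} (h1 : v (Sum.inl 0) = w (Sum.inl 0))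
    (h2 : v (Sum.inr 0) = w (Sum.inr 0)) : v = w := by
  ext k
  rcases k with k | k
  · rw [Subsingleton.elim k 0]; exact h1
  · rw [Subsingleton.elim k 0]; exact h2

private lemma sp_incK (m : ℕ) (v : Phase 1) :
    incK m 1 v = v (Sum.inl 0) • (eX 0 : Phase (m + 1)) + v (Sum.inr 0) • (eY 0 : Phase (m + 1)) := by
  refine ext_inner_right ℝ fun w => ?_
  rw [incK, ContinuousLinearMap.adjoint_inner_left, sp_inner, sp_prK_inl, sp_prK_inr,
    inner_add_left, inner_smul_left, inner_smul_left, eX, eY, EuclideanSpace.inner_single_left,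
    EuclideanSpace.inner_single_left]
  simp

private lemma sp_Jl_inl (v : Phase 1) : (Jl 1 v) (Sum.inl 0) = - v (Sum.inr 0) := rfl

private lemma sp_Jl_inr (v : Phase 1) : (Jl 1 v) (Sum.inr 0) = v (Sum.inl 0) := rfl

/-- the vector with two coordinates -/
private noncomputable def sp_v (x y : ℝ) : Phase 1 :=
  WithLp.toLp 2 (Sum.elim (fun _ => x) fun _ => y)

private lemma sp_v_inl (x y : ℝ) : (sp_v x y) (Sum.inl 0) = x := rfl

private lemma sp_v_inr (x y : ℝ) : (sp_v x y) (Sum.inr 0) = y := rfl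

/-- the map `π + C (π ∘ f - π)` -/
private noncomputable def sp_F (m : ℕ) (c11 c12 c21 c22 : ℝ) (g : Phase (m + 1) → Phase (m + 1))
    (p : Phase (m + 1)) : Phase 1 :=
  mkPL 0 (p (Sum.inl 0) + c11 * ((g p) (Sum.inl 0) - p (Sum.inl 0)) +
      c12 * ((g p) (Sum.inr 0) - p (Sum.inr 0)),
    p (Sum.inr 0) + c21 * ((g p) (Sum.inl 0) - p (Sum.inl 0)) +
      c22 * ((g p) (Sum.inr 0) - p (Sum.inr 0)), 0)

private lemma sp_F_inl (m : ℕ) (c11 c12 c21 c22 : ℝ) (g : Phase (m + 1) → Phase (m + 1))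
    (p : Phase (m + 1)) : (sp_F m c11 c12 c21 c22 g p) (Sum.inl 0) =
      p (Sum.inl 0) + c11 * ((g p) (Sum.inl 0) - p (Sum.inl 0)) +
      c12 * ((g p) (Sum.inr 0) - p (Sum.inr 0)) :=
  mkP_x (n := 0) _ _ _

private lemma sp_F_inr (m : ℕ) (c11 c12 c21 c22 : ℝ) (g : Phase (m + 1) → Phase (m + 1))
    (p : Phase (m + 1)) : (sp_F m c11 c12 c21 c22 g p) (Sum.inr 0) =
      p (Sum.inr 0) + c21 * ((g p) (Sum.inl 0) - p (Sum.inl 0)) +
      c22 * ((g p) (Sum.inr 0) - p (Sum.inr 0)) :=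
  mkP_y (n := 0) _ _ _

private lemma sp_bracket (hb : St_bracket) (m : ℕ) (c11 c12 c21 c22 : ℝ) (f : SympCt (m + 1))
    (p : Phase (m + 1)) (u : Phase 1) :
    fderiv ℝ (fun q => inner ℝ (Jl 1 u) (sp_F m c11 c12 c21 c22 (f : Equiv.Perm _) q)) p
      (hamV (fun q => inner ℝ u (sp_F m c11 c12 c21 c22 (f : Equiv.Perm _) q)) p) =
    (u (Sum.inl 0) ^ 2 + u (Sum.inr 0) ^ 2) * (1 +
      (c11 - (c11 * c22 - c12 * c21)) *
        ((fderiv ℝ (f : Equiv.Perm (Phase (m + 1))) p (eX 0)) (Sum.inl 0) - 1) +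
      c12 * (fderiv ℝ (f : Equiv.Perm (Phase (m + 1))) p (eX 0)) (Sum.inr 0) +
      c21 * (fderiv ℝ (f : Equiv.Perm (Phase (m + 1))) p (eY 0)) (Sum.inl 0) +
      (c22 - (c11 * c22 - c12 * c21)) *
        ((fderiv ℝ (f : Equiv.Perm (Phase (m + 1))) p (eY 0)) (Sum.inr 0) - 1)) := by
  have h1 : ∀ u : Phase 1, (fun q => inner ℝ u (sp_F m c11 c12 c21 c22 (f : Equiv.Perm _) q)) =
      fun q => inner ℝ (sp_v ((1 - c11) * u (Sum.inl 0) - c21 * u (Sum.inr 0))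
        (-c12 * u (Sum.inl 0) + (1 - c22) * u (Sum.inr 0))) (prK m 1 q) +
        inner ℝ (sp_v (c11 * u (Sum.inl 0) + c21 * u (Sum.inr 0))
          (c12 * u (Sum.inl 0) + c22 * u (Sum.inr 0)))
          (prK m 1 ((f : Equiv.Perm (Phase (m + 1))) q)) := by
    intro u
    funext q
    rw [sp_inner, sp_inner, sp_inner, sp_F_inl, sp_F_inr]
    simp only [sp_prK_inl, sp_prK_inr, sp_v_inl, sp_v_inr]
    ring
  rw [h1 u, h1 (Jl 1 u), hb m 1 f p]
  simp only [sp_inner, sp_Jl_inl, sp_Jl_inr, sp_v_inl, sp_v_inr, sp_prK_inl, sp_prK_inr, sp_incK,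
    map_add, map_smul, PiLp.add_apply, PiLp.smul_apply, smul_eq_mul]
  ring

/-- the coefficients of the path -/
private lemma sp_coef {a b c d δ τ : ℝ} (hδ0 : 0 ≤ δ) (hδ2 : δ ^ 2 = a * d - b * c)
    (hτ : τ = a + d + 2 * δ) (hτ0 : 0 < τ) : ∃ c11 c12 c21 c22 : ℝ → ℝ,
      Continuous c11 ∧ Continuous c12 ∧ Continuous c21 ∧ Continuous c22 ∧
      (c11 1 = 0 ∧ c12 1 = 0 ∧ c21 1 = 0 ∧ c22 1 = 0) ∧
      (c11 (-1) = 1 ∧ c12 (-1) = 0 ∧ c21 (-1) = 0 ∧ c22 (-1) = 1) ∧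
      ∀ y, y ^ 2 ≤ 1 → (c11 y - (c11 y * c22 y - c12 y * c21 y) = (1 - y ^ 2) * (a / τ) ∧
        c12 y = (1 - y ^ 2) * (b / τ) ∧ c21 y = (1 - y ^ 2) * (c / τ) ∧
        c22 y - (c11 y * c22 y - c12 y * c21 y) = (1 - y ^ 2) * (d / τ)) := by
  have hτ' : τ ≠ 0 := hτ0.ne'
  refine ⟨fun y => 1 / 2 - y * Real.sqrt (1 / 4 + (1 - y ^ 2) * (δ / τ - 1 / 4)) +
      (1 - y ^ 2) * ((a + δ) / τ - 1 / 2), fun y => (1 - y ^ 2) * (b / τ),
    fun y => (1 - y ^ 2) * (c / τ),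
    fun y => 1 / 2 - y * Real.sqrt (1 / 4 + (1 - y ^ 2) * (δ / τ - 1 / 4)) +
      (1 - y ^ 2) * ((d + δ) / τ - 1 / 2), by fun_prop, by fun_prop, by fun_prop, by fun_prop,
    ?_, ?_, ?_⟩
  · have h : Real.sqrt (1 / 4 : ℝ) = 1 / 2 := by
      rw [show (1 / 4 : ℝ) = (1 / 2) ^ 2 by norm_num]
      exact Real.sqrt_sq (by norm_num)
    refine ⟨?_, ?_, ?_, ?_⟩ <;> norm_num [h]
  · have h : Real.sqrt (1 / 4 : ℝ) = 1 / 2 := by
      rw [show (1 / 4 : ℝ) = (1 / 2) ^ 2 by norm_num]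
      exact Real.sqrt_sq (by norm_num)
    refine ⟨?_, ?_, ?_, ?_⟩ <;> norm_num [h]
  · intro y hy
    have h1 : 0 ≤ 1 / 4 + (1 - y ^ 2) * (δ / τ - 1 / 4) := by
      have h2 : 0 ≤ (1 - y ^ 2) * (δ / τ) := mul_nonneg (by linarith) (div_nonneg hδ0 hτ0.le)
      nlinarith [sq_nonneg y]
    have h3 := Real.sq_sqrt h1
    dsimp only
    generalize Real.sqrt (1 / 4 + (1 - y ^ 2) * (δ / τ - 1 / 4)) = r at *
    have hd : d / τ = 1 - a / τ - 2 * (δ / τ) := by
      field_simp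
      linarith
    have hdet : (δ / τ) ^ 2 = a / τ * (d / τ) - b / τ * (c / τ) := by
      field_simp
      linarith
    have ha1 : (a + δ) / τ = a / τ + δ / τ := add_div _ _ _
    have hd1 : (d + δ) / τ = d / τ + δ / τ := add_div _ _ _
    rw [ha1, hd1]
    generalize δ / τ = D at *
    generalize a / τ = A at *
    generalize d / τ = E at *
    generalize b / τ = B at *
    generalize c / τ = C at *
    subst hd
    refine ⟨?_, rfl, rfl, ?_⟩
    · linear_combination (-y ^ 2) * h3 + (1 - y ^ 2) ^ 2 * hdet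
    · linear_combination (-y ^ 2) * h3 + (1 - y ^ 2) ^ 2 * hdet

private lemma sp_cf {T : Type} [TopologicalSpace T] [CompactSpace T] (m : ℕ)
    (f : C(T, SympCt (m + 1))) (k : Fin (m + 1) ⊕ Fin (m + 1)) (c₁ c₂ : ℝ → ℝ)
    (h₁ : Continuous c₁) (h₂ : Continuous c₂) :
    CF (fun (q : T × I) (p : Phase (m + 1)) =>
      p k + c₁ (1 - 2 * (q.2 : ℝ)) *
        (((f q.1 : Equiv.Perm (Phase (m + 1))) p) (Sum.inl 0) - p (Sum.inl 0)) +
      c₂ (1 - 2 * (q.2 : ℝ)) *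
        (((f q.1 : Equiv.Perm (Phase (m + 1))) p) (Sum.inr 0) - p (Sum.inr 0))) := by
  have hCF := (CF_of_continuous f.continuous).1
  have hX : ∀ k, CF (fun (q : T × I) (p : Phase (m + 1)) =>
      ((f q.1 : Equiv.Perm (Phase (m + 1))) p) k) := fun k =>
    (hCF.base (h := fun q : T × I => q.1) continuous_fst).clm (coordL k)
  have hx : ∀ k, CF (fun (_ : T × I) (p : Phase (m + 1)) => p k) := fun k =>
    CF.const (coordL k).contDiff
  have hc : ∀ c : ℝ → ℝ, Continuous c →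
      CF (fun (q : T × I) (_ : Phase (m + 1)) => c (1 - 2 * (q.2 : ℝ))) := fun c hc =>
    CF.param (hc.comp (by fun_prop))
  exact ((hx k).add ((hc c₁ h₁).smul ((hX _).sub (hx _)))).add
    ((hc c₂ h₂).smul ((hX _).sub (hx _)))

theorem star_path (hb : St_bracket) : St_star := by
  intro m T _ _ f a b c d hdet hpos
  rcases isEmpty_or_nonempty T with hT | ⟨⟨t0⟩⟩
  · exact ⟨0, fun _ p => prK m 1 p, le_rfl, ⟨CF.const (prK m 1).contDiff, fun _ _ _ => rfl,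
      fun t => isEmptyElim t.1⟩, fun t => isEmptyElim t, fun t => isEmptyElim t,
      fun t => isEmptyElim t⟩
  obtain ⟨hCF, K, hK⟩ := CF_of_continuous f.continuous
  obtain ⟨R, hR0, hR⟩ : ∃ R : ℝ, 0 ≤ R ∧ ∀ t p, R < ‖p‖ →
      (f t : Equiv.Perm (Phase (m + 1))) p = p := by
    obtain ⟨r, hr⟩ := K.isCompact.isBounded.subset_closedBall 0
    refine ⟨max r 0, le_max_right _ _, fun t p hp => hK t p fun h => ?_⟩
    have h' := hr h
    rw [mem_closedBall_zero_iff] at h'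
    exact absurd (h'.trans (le_max_left r 0)) (not_le.2 hp)
  have hδ0 : 0 ≤ Real.sqrt (a * d - b * c) := Real.sqrt_nonneg _
  have hδ2 : Real.sqrt (a * d - b * c) ^ 2 = a * d - b * c := Real.sq_sqrt hdet
  generalize Real.sqrt (a * d - b * c) = δ at *
  have hτ : 0 < a + d + 2 * δ := by
    have h := hpos t0 ((R + 1) • eX 0)
    have hn : R < ‖(R + 1) • (eX 0 : Phase (m + 1))‖ := by
      rw [norm_smul, eX, PiLp.norm_single, norm_one, mul_one, Real.norm_eq_abs,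
        abs_of_nonneg (by linarith)]
      linarith
    have hd : fderiv ℝ (f t0 : Equiv.Perm (Phase (m + 1))) ((R + 1) • eX 0) =
        ContinuousLinearMap.id ℝ _ := by
      have h1 : ((f t0 : Equiv.Perm (Phase (m + 1))) : Phase (m + 1) → Phase (m + 1))
          =ᶠ[𝓝 ((R + 1) • eX 0)] id := by
        filter_upwards [(isOpen_outside R).mem_nhds hn] with q hq
        exact hR t0 q hq
      rw [h1.fderiv_eq, fderiv_id]
    rw [hd] at h
    simpa [eX, eY] using h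
  obtain ⟨c11, c12, c21, c22, k11, k12, k21, k22, ⟨s1, s2, s3, s4⟩, ⟨e1, e2, e3, e4⟩, hc⟩ :=
    sp_coef hδ0 hδ2 rfl hτ
  refine ⟨R, fun q p => sp_F m (c11 (1 - 2 * (q.2 : ℝ))) (c12 (1 - 2 * (q.2 : ℝ)))
    (c21 (1 - 2 * (q.2 : ℝ))) (c22 (1 - 2 * (q.2 : ℝ)))
    (f q.1 : Equiv.Perm (Phase (m + 1))) p, hR0, ⟨?_, ?_, ?_⟩, ?_, ?_, ?_⟩
  · exact CF.clm (mkPL 0) ((sp_cf m f (Sum.inl 0) c11 c12 k11 k12).prodMk
      ((sp_cf m f (Sum.inr 0) c21 c22 k21 k22).prodMk (CF.const contDiff_const)))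
  · intro q p hp
    apply sp_ext
    · rw [sp_F_inl, sp_prK_inl, hR q.1 p hp]; ring
    · rw [sp_F_inr, sp_prK_inr, hR q.1 p hp]; ring
  · intro q p u hu
    have hu' : 0 < u (Sum.inl 0) ^ 2 + u (Sum.inr 0) ^ 2 := by
      by_contra h
      apply hu
      apply sp_ext
      · show u (Sum.inl 0) = 0
        nlinarith [sq_nonneg (u (Sum.inl 0)), sq_nonneg (u (Sum.inr 0))]
      · show u (Sum.inr 0) = 0
        nlinarith [sq_nonneg (u (Sum.inl 0)), sq_nonneg (u (Sum.inr 0))]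
    rw [sp_bracket hb]
    refine mul_pos hu' ?_
    have hs0 := q.2.2.1
    have hs1 := q.2.2.2
    generalize ((q.2 : I) : ℝ) = s at *
    have hy : (1 - 2 * s) ^ 2 ≤ 1 := by nlinarith
    obtain ⟨g1, g2, g3, g4⟩ := hc _ hy
    rw [g1, g4, g2, g3]
    have h := hpos q.1 p
    generalize 1 - 2 * s = y at *
    generalize (fderiv ℝ (f q.1 : Equiv.Perm (Phase (m + 1))) p (eX 0)) (Sum.inl 0) = M11 at *
    generalize (fderiv ℝ (f q.1 : Equiv.Perm (Phase (m + 1))) p (eX 0)) (Sum.inr 0) = M21 at *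
    generalize (fderiv ℝ (f q.1 : Equiv.Perm (Phase (m + 1))) p (eY 0)) (Sum.inl 0) = M12 at *
    generalize (fderiv ℝ (f q.1 : Equiv.Perm (Phase (m + 1))) p (eY 0)) (Sum.inr 0) = M22 at *
    have hP := div_pos h hτ
    have e : 1 + (1 - y ^ 2) * (a / (a + d + 2 * δ)) * (M11 - 1) +
        (1 - y ^ 2) * (b / (a + d + 2 * δ)) * M21 + (1 - y ^ 2) * (c / (a + d + 2 * δ)) * M12 +
        (1 - y ^ 2) * (d / (a + d + 2 * δ)) * (M22 - 1) =
        y ^ 2 + (1 - y ^ 2) *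
          ((a * M11 + b * M21 + c * M12 + d * M22 + 2 * δ) / (a + d + 2 * δ)) := by
      field_simp
      ring
    rw [e]
    rcases eq_or_lt_of_le hy with h1 | h1
    · rw [h1]; norm_num
    · have h2 := mul_pos (sub_pos.2 h1) hP
      nlinarith [sq_nonneg y]
  · intro t p
    have h : (1 : ℝ) - 2 * (((t, (0 : I)).2 : I) : ℝ) = 1 := by simp
    apply sp_ext
    · rw [sp_F_inl, sp_prK_inl, h, s1, s2]; ring
    · rw [sp_F_inr, sp_prK_inr, h, s3, s4]; ring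
  · intro t p
    have h : (1 : ℝ) - 2 * (((t, (1 : I)).2 : I) : ℝ) = -1 := by norm_num
    apply sp_ext
    · rw [sp_F_inl, sp_prK_inl, h, e1, e2]; ring
    · rw [sp_F_inr, sp_prK_inr, h, e3, e4]; ring
  · intro t ht s p
    have h : (f t : Equiv.Perm (Phase (m + 1))) p = p := by
      rw [show f t = 1 from ht]; rfl
    apply sp_ext
    · rw [sp_F_inl, sp_prK_inl]
      show p (Sum.inl 0) + _ * (((f t : Equiv.Perm (Phase (m + 1))) p) (Sum.inl 0) - _) +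
        _ * (((f t : Equiv.Perm (Phase (m + 1))) p) (Sum.inr 0) - _) = _
      rw [h]; ring
    · rw [sp_F_inr, sp_prK_inr]
      show p (Sum.inr 0) + _ * (((f t : Equiv.Perm (Phase (m + 1))) p) (Sum.inl 0) - _) +
        _ * (((f t : Equiv.Perm (Phase (m + 1))) p) (Sum.inr 0) - _) = _
      rw [h]; ring

end Pool.Agent.H42.Hull
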